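import Pool.Agent.TH663.SGE.Tmpl
import Pool.Agent.H612.OslpPoly

/-!
# The reduction
-/

namespace Pool.Agent.NPC.ER.SGE

open Pool.Agent.NPC Pool.Agent.NPC.ER.Oslp

/-! ### Labels -/

/-- The vertex `r` of the gadget `g`. -/
def gl (g r : ℕ) : ℕ := 16 * g + r

/-- The vertex number `n` which separates the groups. -/
def el (n : ℕ) : ℕ := 16 * n + 14

/-- The special vertices `α = 0`, `β = 1`, `γ = 2`, `O = 3`, `Z = 4`. -/
def sl (m : ℕ) : ℕ := 16 * m + 15

/-! ### Gadgets -/

/-- A block: the number of a group, the side (`true`: on the right side of the value), and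
vertices of the gadget. -/
abbrev Blk : Type := ℕ × Bool × List ℕ

/-- A gadget: its number, its type (`true`: the first type), its blocks. -/
abbrev Gad : Type := ℕ × Bool × List Blk

/-- The blocks of the lower gadget of a multiplication; `N` is the number of the values. -/
def lowM (N k o l i j : ℕ) : List Blk := [(o, false, [10, 0]), (l, true, [12, 4, 11]),
  (i, false, [3]), (j, false, [8, 9, 5, 7, 6]), (k, false, [2]), (N + 1, false, [13, 1])]

/-- The blocks of the upper gadget of a multiplication. -/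
def upM (N k o l i j : ℕ) : List Blk := [(o, true, [1, 13]), (l, false, [2]), (i, true, [3]),
  (j, true, [6, 7, 5, 9, 8]), (k, true, [11, 4, 12]), (N + 1, true, [0, 10])]

/-- The blocks of the lower gadget of an addition. -/
def lowA (N k l i j : ℕ) : List Blk := [(l, true, [10, 3]), (i, false, [4]), (j, false, [2]),
  (k, false, [8, 9, 5, 7, 6]), (N + 1, false, [0, 1])]

/-- The blocks of the upper gadget of an addition. -/
def upA (k l i j : ℕ) : List Blk := [(0, false, [1, 0]), (l, false, [6, 7, 5, 9, 8]),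
  (i, true, [4]), (j, true, [2]), (k, true, [3, 10])]

/-- The gadgets of an instruction; `t` is the number of the instruction. -/
def gadOf (N t : ℕ) : Ins → List Gad
  | none => []
  | some c => if c.1 = 0 then
      [(2 * t, false, lowA N (t + 2) c.2.1 c.2.2.1 c.2.2.2),
        (2 * t + 1, false, upA (t + 2) c.2.1 c.2.2.1 c.2.2.2)]
    else [(2 * t, true, lowM N (t + 2) c.1 c.2.1 c.2.2.1 c.2.2.2),
        (2 * t + 1, true, upM N (t + 2) c.1 c.2.1 c.2.2.1 c.2.2.2)]

/-- The gadgets of a program. -/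
def gads (N : ℕ) (p : List Ins) : List Gad := p.zipIdx.flatMap fun a => gadOf N a.2 a.1

/-! ### The order of the vertices -/

/-- The vertices of a gadget on a side of a group. -/
def items (n : ℕ) (s : Bool) (G : Gad) : List ℕ :=
  G.2.2.flatMap fun b => if b.1 = n ∧ b.2.1 = s then b.2.2.map (gl G.1) else []

/-- The vertices of a group. -/
def grp (Gs : List Gad) (n : ℕ) : List ℕ :=
  Gs.reverse.flatMap (items n false) ++ el n :: Gs.flatMap (items n true)

/-- The vertices in their order. -/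
def ord (Gs : List Gad) (N : ℕ) : List ℕ := (List.range (N + 2)).flatMap (grp Gs)

/-! ### The graphs -/

/-- The edges between the special vertices. -/
def frE : List (ℕ × ℕ) := [(sl 1, sl 3), (sl 2, sl 3), (sl 0, sl 3), (sl 1, sl 0), (sl 2, sl 0),
  (sl 4, sl 0), (sl 1, sl 2), (sl 2, sl 4), (sl 4, sl 1)]

/-- The path. -/
def pathE (L : List ℕ) : List (ℕ × ℕ) := (sl 1 :: (L ++ [sl 2])).zip (L ++ [sl 2])

/-- The chords. -/
def chE (Gs : List Gad) : List (ℕ × ℕ) :=
  Gs.flatMap fun G => (if G.2.1 = true then C1t else C2t).map fun e => (gl G.1 e.1, gl G.1 e.2)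

/-- The edges of the first graph in a copy. -/
def redE (L : List ℕ) (Gs : List Gad) : List (ℕ × ℕ) :=
  frE ++ (L.map (fun w => (sl 3, w)) ++ (pathE L ++ chE Gs))

/-- The edges of the second graph in a copy. -/
def blueE (Gs : List Gad) : List (ℕ × ℕ) :=
  Gs.flatMap fun G => (if G.2.1 = true then E1t else E2t).map fun e => (gl G.1 e.1, gl G.1 e.2)

/-- The vertices of a copy. -/
def vts (L : List ℕ) : List ℕ := [sl 0, sl 1, sl 2, sl 3, sl 4] ++ L

/-- The two copies of a vertex (the vertex `Z` is common). -/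
def cp (c v : ℕ) : ℕ := if v = sl 4 then 2 * v else 2 * v + c

/-- The copy of an edge list. -/
def cpE (c : ℕ) (E : List (ℕ × ℕ)) : List (ℕ × ℕ) := E.map fun e => (cp c e.1, cp c e.2)

/-- The instance, given the order of the vertices and the gadgets. -/
def inst0 (L : List ℕ) (Gs : List Gad) : Inst :=
  ((vts L).map (cp 0) ++ (vts L).map (cp 1),
    cpE 0 (redE L Gs) ++ cpE 1 (redE L Gs), cpE 0 (blueE Gs) ++ cpE 1 (blueE Gs))

/-- The list has no duplicates. -/
def nodupB (L : List ℕ) : Bool :=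
  L.zipIdx.all fun a => L.zipIdx.all fun b => !decide (a.1 = b.1) || decide (a.2 = b.2)

theorem nodupB_iff {L : List ℕ} : nodupB L = true ↔ L.Nodup := by
  unfold nodupB
  simp only [List.all_eq_true, Bool.or_eq_true, Bool.not_eq_true', decide_eq_false_iff_not,
    decide_eq_true_eq]
  rw [List.nodup_iff_getElem?_ne_getElem?]
  constructor
  · intro h i j hij hj he
    have hi : i < L.length := by omega
    rw [List.getElem?_eq_getElem hi, List.getElem?_eq_getElem hj, Option.some.injEq] at he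
    have h1 : (L[i], i) ∈ L.zipIdx := by
      rw [List.mk_mem_zipIdx_iff_getElem?]; exact List.getElem?_eq_getElem hi
    have h2 : (L[j], j) ∈ L.zipIdx := by
      rw [List.mk_mem_zipIdx_iff_getElem?]; exact List.getElem?_eq_getElem hj
    rcases h _ h1 _ h2 with h3 | h3
    · exact h3 he
    · simp only at h3; omega
  · rintro h ⟨a, i⟩ ha ⟨b, j⟩ hb
    rw [List.mk_mem_zipIdx_iff_getElem?] at ha hb
    by_cases hij : i = j
    · exact Or.inr hij
    · left
      simp only
      rintro rfl
      have hi : i < L.length := by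
        rcases List.getElem?_eq_some_iff.1 ha with ⟨h1, -⟩; exact h1
      have hj : j < L.length := by
        rcases List.getElem?_eq_some_iff.1 hb with ⟨h1, -⟩; exact h1
      rcases lt_or_gt_of_ne hij with h1 | h1
      · exact h i j h1 hj (ha.trans hb.symm)
      · exact h j i h1 hi (hb.trans ha.symm)

/-- The reduction. -/
def red (p : List Ins) : Inst :=
  if nodupB (ord (gads (p.length + 1) p) (p.length + 1)) = true then
    inst0 (ord (gads (p.length + 1) p) (p.length + 1)) (gads (p.length + 1) p)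
  else ([], [(0, 0)], [])

/-! ### Polynomial time -/

section

variable {α : Type} [TEnc α]

theorem poly_blk {n : α → ℕ} (hn : Poly n) (s : Bool) (l : List ℕ) :
    Poly (fun a => ((n a, s, l) : Blk)) := Poly.pair hn (Poly.pair (Poly.const _) (Poly.const _))

theorem poly_gl {g r : α → ℕ} (hg : Poly g) (hr : Poly r) : Poly (fun a => gl (g a) (r a)) :=
  Poly.add (Poly.mul (Poly.const 16) hg) hr

theorem poly_gadOf {N t : α → ℕ} {c : α → Ins} (hN : Poly N) (ht : Poly t) (hc : Poly c) :
    Poly (fun a => gadOf (N a) (t a) (c a)) := by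
  have h : Poly (fun p : α × (ℕ × ℕ × ℕ × ℕ) => gadOf (N p.1) (t p.1) (some p.2)) := by
    have hN' : Poly (fun p : α × (ℕ × ℕ × ℕ × ℕ) => N p.1 + 1) :=
      Poly.succ (hN.comp (Poly.fst Poly.id))
    have ht' : Poly (fun p : α × (ℕ × ℕ × ℕ × ℕ) => t p.1) := ht.comp (Poly.fst Poly.id)
    have h2t : Poly (fun p : α × (ℕ × ℕ × ℕ × ℕ) => 2 * t p.1) := Poly.mul (Poly.const 2) ht'
    have hk : Poly (fun p : α × (ℕ × ℕ × ℕ × ℕ) => t p.1 + 2) := Poly.add ht' (Poly.const 2)
    have ho : Poly (fun p : α × (ℕ × ℕ × ℕ × ℕ) => p.2.1) := Poly.fst (Poly.snd Poly.id)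
    have hl : Poly (fun p : α × (ℕ × ℕ × ℕ × ℕ) => p.2.2.1) :=
      Poly.fst (Poly.snd (Poly.snd Poly.id))
    have hi : Poly (fun p : α × (ℕ × ℕ × ℕ × ℕ) => p.2.2.2.1) :=
      Poly.fst (Poly.snd (Poly.snd (Poly.snd Poly.id)))
    have hj : Poly (fun p : α × (ℕ × ℕ × ℕ × ℕ) => p.2.2.2.2) :=
      Poly.snd (Poly.snd (Poly.snd (Poly.snd Poly.id)))
    refine Poly.ite (Poly.decide_eq ho (Poly.const 0)) ?_ ?_
    · refine Poly.cons (Poly.pair h2t (Poly.pair (Poly.const _) ?_))
        (Poly.cons (Poly.pair (Poly.succ h2t) (Poly.pair (Poly.const _) ?_)) (Poly.const _))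
      · exact Poly.cons (poly_blk hl _ _) (Poly.cons (poly_blk hi _ _) (Poly.cons (poly_blk hj _ _)
          (Poly.cons (poly_blk hk _ _) (Poly.cons (poly_blk hN' _ _) (Poly.const _)))))
      · exact Poly.cons (Poly.const _) (Poly.cons (poly_blk hl _ _) (Poly.cons (poly_blk hi _ _)
          (Poly.cons (poly_blk hj _ _) (Poly.cons (poly_blk hk _ _) (Poly.const _)))))
    · refine Poly.cons (Poly.pair h2t (Poly.pair (Poly.const _) ?_))
        (Poly.cons (Poly.pair (Poly.succ h2t) (Poly.pair (Poly.const _) ?_)) (Poly.const _))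
      · exact Poly.cons (poly_blk ho _ _) (Poly.cons (poly_blk hl _ _) (Poly.cons (poly_blk hi _ _)
          (Poly.cons (poly_blk hj _ _) (Poly.cons (poly_blk hk _ _)
            (Poly.cons (poly_blk hN' _ _) (Poly.const _))))))
      · exact Poly.cons (poly_blk ho _ _) (Poly.cons (poly_blk hl _ _) (Poly.cons (poly_blk hi _ _)
          (Poly.cons (poly_blk hj _ _) (Poly.cons (poly_blk hk _ _)
            (Poly.cons (poly_blk hN' _ _) (Poly.const _))))))
  refine (Poly.optCases (h := fun a c => gadOf (N a) (t a) (some c)) hc (Poly.const []) h).congr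
    fun a => ?_
  cases c a <;> rfl

theorem poly_gads {N : α → ℕ} {p : α → List Ins} (hN : Poly N) (hp : Poly p) :
    Poly (fun a => gads (N a) (p a)) := by
  refine Poly.flatMap (F := fun a (b : Ins × ℕ) => gadOf (N a) b.2 b.1) (Poly.zipIdx hp) ?_
  exact poly_gadOf (hN.comp (Poly.fst Poly.id)) (Poly.snd (Poly.snd Poly.id))
    (Poly.fst (Poly.snd Poly.id))

theorem poly_items {n : α → ℕ} {G : α → Gad} (hn : Poly n) (s : Bool) (hG : Poly G) :
    Poly (fun a => items (n a) s (G a)) := by
  refine Poly.flatMap (F := fun a (b : Blk) => if b.1 = n a ∧ b.2.1 = s then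
    b.2.2.map (gl (G a).1) else []) (Poly.snd (Poly.snd hG)) ?_
  have hn' : Poly (fun p : α × Blk => n p.1) := hn.comp (Poly.fst Poly.id)
  have hb1 : Poly (fun p : α × Blk => p.2.1) := Poly.fst (Poly.snd Poly.id)
  have hb2 : Poly (fun p : α × Blk => p.2.2.1) := Poly.fst (Poly.snd (Poly.snd Poly.id))
  have hb3 : Poly (fun p : α × Blk => p.2.2.2) := Poly.snd (Poly.snd (Poly.snd Poly.id))
  refine Poly.ite (Poly.decide_and (Poly.decide_eq hb1 hn') (Poly.decide_eq hb2 (Poly.const s))) ?_
    (Poly.const [])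
  refine Poly.map (F := fun (p : α × Blk) r => gl (G p.1).1 r) hb3 ?_
  exact poly_gl (Poly.fst (hG.comp (Poly.fst (Poly.fst Poly.id)))) (Poly.snd Poly.id)

theorem poly_grp {Gs : α → List Gad} {n : α → ℕ} (hG : Poly Gs) (hn : Poly n) :
    Poly (fun a => grp (Gs a) (n a)) := by
  refine Poly.append ?_ (Poly.cons ?_ ?_)
  · exact Poly.flatMap (F := fun a (G : Gad) => items (n a) false G) (Poly.reverse hG)
      (poly_items (hn.comp (Poly.fst Poly.id)) _ (Poly.snd Poly.id))
  · exact Poly.add (Poly.mul (Poly.const 16) hn) (Poly.const 14)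
  · exact Poly.flatMap (F := fun a (G : Gad) => items (n a) true G) hG
      (poly_items (hn.comp (Poly.fst Poly.id)) _ (Poly.snd Poly.id))

theorem poly_ord {Gs : α → List Gad} {N : α → ℕ} (hG : Poly Gs) (hN : UPoly N) :
    Poly (fun a => ord (Gs a) (N a)) := by
  refine Poly.flatMap (F := fun a n => grp (Gs a) n) (UPoly.add hN (UPoly.const 2)).range ?_
  exact poly_grp (hG.comp (Poly.fst Poly.id)) (Poly.snd Poly.id)

theorem poly_lab2 {G : α → Gad} (hG : Poly G) {E E' : List (ℕ × ℕ)} :
    Poly (fun a => (if (G a).2.1 = true then E else E').map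
      fun e => (gl (G a).1 e.1, gl (G a).1 e.2)) := by
  refine Poly.map (F := fun a (e : ℕ × ℕ) => (gl (G a).1 e.1, gl (G a).1 e.2)) ?_ ?_
  · exact Poly.ite (Poly.decide_bool (Poly.fst (Poly.snd hG))) (Poly.const _) (Poly.const _)
  · have hg : Poly (fun p : α × (ℕ × ℕ) => (G p.1).1) := Poly.fst (hG.comp (Poly.fst Poly.id))
    exact Poly.pair (poly_gl hg (Poly.fst (Poly.snd Poly.id)))
      (poly_gl hg (Poly.snd (Poly.snd Poly.id)))

theorem poly_chE {Gs : α → List Gad} (hG : Poly Gs) : Poly (fun a => chE (Gs a)) :=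
  Poly.flatMap (F := fun _ (G : Gad) => (if G.2.1 = true then C1t else C2t).map
    fun (e : ℕ × ℕ) => (gl G.1 e.1, gl G.1 e.2)) hG
    (poly_lab2 (E := C1t) (E' := C2t) (Poly.snd Poly.id))

theorem poly_blueE {Gs : α → List Gad} (hG : Poly Gs) : Poly (fun a => blueE (Gs a)) :=
  Poly.flatMap (F := fun _ (G : Gad) => (if G.2.1 = true then E1t else E2t).map
    fun (e : ℕ × ℕ) => (gl G.1 e.1, gl G.1 e.2)) hG
    (poly_lab2 (E := E1t) (E' := E2t) (Poly.snd Poly.id))

theorem poly_redE {L : α → List ℕ} {Gs : α → List Gad} (hL : Poly L) (hG : Poly Gs) :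
    Poly (fun a => redE (L a) (Gs a)) := by
  have h1 : Poly (fun a => L a ++ [sl 2]) := Poly.append hL (Poly.const _)
  refine Poly.append (Poly.const _) (Poly.append ?_ (Poly.append ?_ (poly_chE hG)))
  · exact Poly.map (F := fun _ (w : ℕ) => (sl 3, w)) hL (Poly.pair (Poly.const _)
      (Poly.snd Poly.id))
  · exact Poly.zip (Poly.cons (Poly.const _) h1) h1

theorem poly_cp {v : α → ℕ} (hv : Poly v) (c : ℕ) : Poly (fun a => cp c (v a)) := by
  have h2 : Poly (fun a => 2 * v a) := Poly.mul (Poly.const 2) hv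
  exact Poly.ite (Poly.decide_eq hv (Poly.const _)) h2 (Poly.add h2 (Poly.const c))

theorem poly_cpE {E : α → List (ℕ × ℕ)} (hE : Poly E) (c : ℕ) : Poly (fun a => cpE c (E a)) :=
  Poly.map (F := fun _ (e : ℕ × ℕ) => (cp c e.1, cp c e.2)) hE
    (Poly.pair (poly_cp (Poly.fst (Poly.snd Poly.id)) c) (poly_cp (Poly.snd (Poly.snd Poly.id)) c))

theorem poly_inst0 {L : α → List ℕ} {Gs : α → List Gad} (hL : Poly L) (hG : Poly Gs) :
    Poly (fun a => inst0 (L a) (Gs a)) := by
  have hv : Poly (fun a => vts (L a)) := Poly.append (Poly.const _) hL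
  have hvc : ∀ c, Poly (fun a => (vts (L a)).map (cp c)) := fun c =>
    Poly.map (F := fun _ v => cp c v) hv (poly_cp (Poly.snd Poly.id) c)
  have hr := poly_redE hL hG
  have hb := poly_blueE hG
  exact Poly.pair (Poly.append (hvc 0) (hvc 1))
    (Poly.pair (Poly.append (poly_cpE hr 0) (poly_cpE hr 1))
      (Poly.append (poly_cpE hb 0) (poly_cpE hb 1)))

theorem poly_nodupB {L : α → List ℕ} (hL : Poly L) : Poly (fun a => nodupB (L a)) := by
  refine Poly.all (p := fun a (b : ℕ × ℕ) => (L a).zipIdx.all fun c =>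
    !decide (b.1 = c.1) || decide (b.2 = c.2)) (Poly.zipIdx hL) ?_
  refine Poly.all (p := fun (q : α × (ℕ × ℕ)) (c : ℕ × ℕ) =>
    !decide (q.2.1 = c.1) || decide (q.2.2 = c.2)) ((Poly.zipIdx hL).comp (Poly.fst Poly.id)) ?_
  have h1 : Poly (fun r : (α × (ℕ × ℕ)) × (ℕ × ℕ) => r.1.2) := Poly.snd (Poly.fst Poly.id)
  have h2 : Poly (fun r : (α × (ℕ × ℕ)) × (ℕ × ℕ) => r.2) := Poly.snd Poly.id
  exact Poly.or (Poly.not (Poly.decide_eq (Poly.fst h1) (Poly.fst h2)))
    (Poly.decide_eq (Poly.snd h1) (Poly.snd h2))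

/-- The reduction is computable in polynomial time. -/
theorem poly_red {p : α → List Ins} (hp : Poly p) : Poly (fun a => red (p a)) := by
  have hN : UPoly (fun a => (p a).length + 1) := UPoly.add (UPoly.length hp) (UPoly.const 1)
  have hG := poly_gads hN.toPoly hp
  have hL := poly_ord hG hN
  exact Poly.ite (Poly.decide_bool (poly_nodupB hL)) (poly_inst0 hL hG) (Poly.const _)

end

end Pool.Agent.NPC.ER.SGE
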