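import Pool.Agent.TH663.SGE.Build

/-!
# The order of the vertices
-/

namespace Pool.Agent.NPC.ER.SGE

open Pool.Agent.NPC Pool.Agent.NPC.ER.Oslp

theorem infix_flatMap {α β : Type} {l : List α} {f : α → List β} {a : α} (h : a ∈ l) :
    f a <:+: l.flatMap f := by
  obtain ⟨l1, l2, rfl⟩ := List.append_of_mem h
  exact ⟨l1.flatMap f, l2.flatMap f, by simp⟩

theorem items_infix {n : ℕ} {s : Bool} {G : Gad} {b : Blk} (hb : b ∈ G.2.2) (h1 : b.1 = n)
    (h2 : b.2.1 = s) : b.2.2.map (gl G.1) <:+: items n s G := by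
  have h := infix_flatMap (f := fun b : Blk => if b.1 = n ∧ b.2.1 = s then b.2.2.map (gl G.1)
    else []) hb
  simp only [if_pos (show b.1 = n ∧ b.2.1 = s from ⟨h1, h2⟩)] at h
  exact h

theorem grp_infix {Gs : List Gad} {G : Gad} (hG : G ∈ Gs) {b : Blk} (hb : b ∈ G.2.2) :
    b.2.2.map (gl G.1) <:+: grp Gs b.1 := by
  unfold grp
  cases hs : b.2.1 with
  | false =>
    refine (items_infix hb rfl hs).trans ((infix_flatMap (List.mem_reverse.2 hG)).trans ?_)
    exact (List.prefix_append _ _).isInfix
  | true =>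
    refine (items_infix hb rfl hs).trans ((infix_flatMap hG).trans ?_)
    refine (List.suffix_cons _ _).isInfix.trans (List.suffix_append _ _).isInfix

theorem ord_infix {Gs : List Gad} {N n : ℕ} (hn : n ≤ N + 1) : grp Gs n <:+: ord Gs N :=
  infix_flatMap (List.mem_range.2 (by omega))

theorem blk_infix {Gs : List Gad} {N : ℕ} {G : Gad} (hG : G ∈ Gs) {b : Blk} (hb : b ∈ G.2.2)
    (hn : b.1 ≤ N + 1) : b.2.2.map (gl G.1) <:+: ord Gs N :=
  (grp_infix hG hb).trans (ord_infix hn)

theorem pairwise_range {R : ℕ → ℕ → Prop} {M : ℕ} :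
    (List.range M).Pairwise R ↔ ∀ i j, i < j → j < M → R i j := by
  rw [List.pairwise_iff_getElem]
  constructor
  · intro h i j hij hj
    have := h i j (by simp; omega) (by simpa using hj) hij
    simpa using this
  · intro h i j hi hj hij
    simp only [List.length_range] at hi hj
    simpa using h i j hij hj

theorem grp_cross {Gs : List Gad} {N : ℕ} {R : ℕ → ℕ → Prop} (h : (ord Gs N).Pairwise R)
    {n n' : ℕ} (h1 : n < n') (h2 : n' ≤ N + 1) {u v : ℕ} (hu : u ∈ grp Gs n)
    (hv : v ∈ grp Gs n') : R u v := by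
  unfold ord at h
  rw [List.pairwise_flatMap, pairwise_range] at h
  exact h.2 n n' h1 (by omega) u hu v hv

theorem mem_grp {Gs : List Gad} {G : Gad} (hG : G ∈ Gs) {b : Blk} (hb : b ∈ G.2.2) {r : ℕ}
    (hr : r ∈ b.2.2) : gl G.1 r ∈ grp Gs b.1 :=
  (grp_infix hG hb).subset (List.mem_map_of_mem hr)

theorem el_mem {Gs : List Gad} {n : ℕ} : el n ∈ grp Gs n := by unfold grp; simp

theorem mem_ord_of_grp {Gs : List Gad} {N n v : ℕ} (hn : n ≤ N + 1) (h : v ∈ grp Gs n) :
    v ∈ ord Gs N := (ord_infix hn).subset h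

theorem cross {Gs : List Gad} {N : ℕ} {R : ℕ → ℕ → Prop} (h : (ord Gs N).Pairwise R) {G : Gad}
    (hG : G ∈ Gs) {b b' : Blk} (hb : b ∈ G.2.2) (hb' : b' ∈ G.2.2) (h1 : b.1 < b'.1)
    (h2 : b'.1 ≤ N + 1) {u v : ℕ} (hu : u ∈ b.2.2) (hv : v ∈ b'.2.2) :
    R (gl G.1 u) (gl G.1 v) :=
  grp_cross h h1 h2 (mem_grp hG hb hu) (mem_grp hG hb' hv)

theorem inblk {Gs : List Gad} {N : ℕ} {R : ℕ → ℕ → Prop} (h : (ord Gs N).Pairwise R) {G : Gad}
    (hG : G ∈ Gs) {b : Blk} (hb : b ∈ G.2.2) (h2 : b.1 ≤ N + 1) :
    b.2.2.Pairwise fun u v => R (gl G.1 u) (gl G.1 v) := by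
  have := h.sublist (blk_infix hG hb h2).sublist
  rwa [List.pairwise_map] at this

/-! ### The gadgets of a program -/

theorem mem_gads {N : ℕ} {p : List Ins} {G : Gad} (h : G ∈ gads N p) :
    ∃ t c, p[t]? = some (some c) ∧ G ∈ gadOf N t (some c) := by
  unfold gads at h
  rw [List.mem_flatMap] at h
  obtain ⟨⟨ins, t⟩, h1, h2⟩ := h
  rw [List.mk_mem_zipIdx_iff_getElem?] at h1
  cases ins with
  | none => simp [gadOf] at h2
  | some c => exact ⟨t, c, h1, h2⟩

theorem gads_mem {N : ℕ} {p : List Ins} {t : ℕ} {c : ℕ × ℕ × ℕ × ℕ}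
    (h : p[t]? = some (some c)) {G : Gad} (hG : G ∈ gadOf N t (some c)) : G ∈ gads N p := by
  unfold gads
  rw [List.mem_flatMap]
  exact ⟨(some c, t), List.mk_mem_zipIdx_iff_getElem?.2 h, hG⟩

/-- The four kinds of gadgets of a program. -/
inductive Kind (N : ℕ) (p : List Ins) (G : Gad) : Prop
  | lowM (t o l i j : ℕ) (hp : p[t]? = some (some (o, l, i, j))) (ho : 0 < o) (hol : o < l)
      (hli : l < i) (hlj : l < j) (hik : i < t + 2) (hjk : j < t + 2) (hkN : t + 2 ≤ N)
      (hG : G = (2 * t, true, lowM N (t + 2) o l i j)) : Kind N p G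
  | upM (t o l i j : ℕ) (hp : p[t]? = some (some (o, l, i, j))) (ho : 0 < o) (hol : o < l)
      (hli : l < i) (hlj : l < j) (hik : i < t + 2) (hjk : j < t + 2) (hkN : t + 2 ≤ N)
      (hG : G = (2 * t + 1, true, upM N (t + 2) o l i j)) : Kind N p G
  | lowA (t l i j : ℕ) (hp : p[t]? = some (some (0, l, i, j))) (hol : 0 < l)
      (hli : l < i) (hlj : l < j) (hik : i < t + 2) (hjk : j < t + 2) (hkN : t + 2 ≤ N)
      (hG : G = (2 * t, false, lowA N (t + 2) l i j)) : Kind N p G
  | upA (t l i j : ℕ) (hp : p[t]? = some (some (0, l, i, j))) (hol : 0 < l)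
      (hli : l < i) (hlj : l < j) (hik : i < t + 2) (hjk : j < t + 2) (hkN : t + 2 ≤ N)
      (hG : G = (2 * t + 1, false, upA (t + 2) l i j)) : Kind N p G

theorem kind {p : List Ins} (hw : Oslp.WF 2 p) {G : Gad} (h : G ∈ gads (p.length + 1) p) :
    Kind (p.length + 1) p G := by
  obtain ⟨t, ⟨o, l, i, j⟩, h1, h2⟩ := mem_gads h
  have hW := wf_get hw t _ h1
  obtain ⟨w1, w2, w3, w4, w5⟩ := hW
  have ht : t < p.length := (List.getElem?_eq_some_iff.1 h1).1
  simp only [gadOf] at h2
  split_ifs at h2 with ho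
  · subst ho
    simp only [List.mem_cons, List.not_mem_nil, or_false] at h2
    rcases h2 with h2 | h2
    · exact .lowA t l i j h1 w1 w2 w3 (by omega) (by omega) (by omega) h2
    · exact .upA t l i j h1 w1 w2 w3 (by omega) (by omega) (by omega) h2
  · simp only [List.mem_cons, List.not_mem_nil, or_false] at h2
    rcases h2 with h2 | h2
    · exact .lowM t o l i j h1 (by omega) w1 w2 w3 (by omega) (by omega) (by omega) h2
    · exact .upM t o l i j h1 (by omega) w1 w2 w3 (by omega) (by omega) (by omega) h2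

/-- The sign of a gadget. -/
noncomputable def sg (g : ℕ) : ℝ := if g % 2 = 0 then 1 else -1

theorem sg_even (t : ℕ) : sg (2 * t) = 1 := by unfold sg; simp
theorem sg_odd (t : ℕ) : sg (2 * t + 1) = -1 := by
  unfold sg
  rw [if_neg (by omega)]

theorem sg_cases (g : ℕ) : sg g = 1 ∨ sg g = -1 := by
  unfold sg; split_ifs <;> simp

/-- The order of the vertices of the first gadget. -/
structure GO1 (x : ℕ → ℝ) : Prop where
  a1 : x 10 < x 0
  a2 : x 0 < x 12
  a3 : x 12 < x 4
  a4 : x 4 < x 11
  a5 : x 11 < x 3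
  a6 : x 11 < x 8
  a7 : x 8 < x 9
  a8 : x 9 < x 5
  a9 : x 5 < x 7
  a10 : x 7 < x 6
  a11 : x 6 < x 2
  a12 : x 3 < x 2
  a13 : x 2 < x 13
  a14 : x 13 < x 1

/-- The order of the vertices of the second gadget. -/
structure GO2 (x : ℕ → ℝ) : Prop where
  a1 : x 10 < x 3
  a2 : x 3 < x 4
  a3 : x 3 < x 2
  a4 : x 4 < x 8
  a5 : x 2 < x 8
  a7 : x 8 < x 9
  a8 : x 9 < x 5
  a9 : x 5 < x 7
  a10 : x 7 < x 6
  a11 : x 6 < x 0
  a12 : x 0 < x 1

theorem go_of {N : ℕ} {p : List Ins} {Gs : List Gad} {G : Gad} (hG : G ∈ Gs)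
    (hk : Kind N p G) {X : ℕ → ℝ} (h : (ord Gs N).Pairwise fun u v => X u < X v) :
    (G.2.1 = true → GO1 fun r => sg G.1 * X (gl G.1 r)) ∧
    (G.2.1 = false → GO2 fun r => sg G.1 * X (gl G.1 r)) := by
  have C := fun (b b' : Blk) (hb : b ∈ G.2.2) (hb' : b' ∈ G.2.2) h1 h2 u v hu hv =>
    cross h hG (b := b) (b' := b') hb hb' h1 h2 (u := u) (v := v) hu hv
  have I := fun (b : Blk) (hb : b ∈ G.2.2) h2 => inblk h hG (b := b) hb h2
  cases hk with
  | lowM t o l i j hp ho hol hli hlj hik hjk hkN hG =>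
    subst hG
    simp only [sg_even, one_mul, Bool.true_eq_false, false_implies, and_true, true_implies]
    simp only at C I
    have i1 := I (o, false, [10, 0]) (by simp [lowM]) (by simp only; omega)
    have i2 := I (l, true, [12, 4, 11]) (by simp [lowM]) (by simp only; omega)
    have i3 := I (j, false, [8, 9, 5, 7, 6]) (by simp [lowM]) (by simp only; omega)
    have i4 := I (N + 1, false, [13, 1]) (by simp [lowM]) (by simp only; omega)
    simp only [List.pairwise_cons, List.mem_cons, List.not_mem_nil, or_false, forall_eq_or_imp,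
      forall_eq, List.Pairwise.nil, and_true, false_implies, implies_true] at i1 i2 i3 i4
    refine ⟨i1, C (o, false, [10, 0]) (l, true, [12, 4, 11]) (by simp [lowM]) (by simp [lowM])
      (by simp only; omega) (by simp only; omega) 0 12 (by simp) (by simp), i2.1.1, i2.2,
      C (l, true, [12, 4, 11]) (i, false, [3]) (by simp [lowM]) (by simp [lowM])
      (by simp only; omega) (by simp only; omega) 11 3 (by simp) (by simp),
      C (l, true, [12, 4, 11]) (j, false, [8, 9, 5, 7, 6]) (by simp [lowM]) (by simp [lowM])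
      (by simp only; omega) (by simp only; omega) 11 8 (by simp) (by simp),
      i3.1.1, i3.2.1.1, i3.2.2.1.1, i3.2.2.2,
      C (j, false, [8, 9, 5, 7, 6]) (t + 2, false, [2]) (by simp [lowM]) (by simp [lowM])
      (by simp only; omega) (by simp only; omega) 6 2 (by simp) (by simp),
      C (i, false, [3]) (t + 2, false, [2]) (by simp [lowM]) (by simp [lowM])
      (by simp only; omega) (by simp only; omega) 3 2 (by simp) (by simp),
      C (t + 2, false, [2]) (N + 1, false, [13, 1]) (by simp [lowM]) (by simp [lowM])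
      (by simp only; omega) (by simp only; omega) 2 13 (by simp) (by simp), i4⟩
  | upM t o l i j hp ho hol hli hlj hik hjk hkN hG =>
    subst hG
    simp only [sg_odd, neg_mul, one_mul, Bool.true_eq_false, false_implies, and_true, true_implies]
    simp only at C I
    have i1 := I (o, true, [1, 13]) (by simp [upM]) (by simp only; omega)
    have i2 := I (t + 2, true, [11, 4, 12]) (by simp [upM])
      (by simp only; omega)
    have i3 := I (j, true, [6, 7, 5, 9, 8]) (by simp [upM]) (by simp only; omega)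
    have i4 := I (N + 1, true, [0, 10]) (by simp [upM]) (by simp only; omega)
    simp only [List.pairwise_cons, List.mem_cons, List.not_mem_nil, or_false, forall_eq_or_imp,
      forall_eq, List.Pairwise.nil, and_true, false_implies, implies_true] at i1 i2 i3 i4
    have c1 := C (t + 2, true, [11, 4, 12]) (N + 1, true, [0, 10]) (by simp [upM]) (by simp [upM])
      (by simp only; omega) (by simp only; omega) 12 0 (by simp) (by simp)
    have c2 := C (i, true, [3]) (t + 2, true, [11, 4, 12]) (by simp [upM]) (by simp [upM])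
      (by simp only; omega) (by simp only; omega) 3 11 (by simp) (by simp)
    have c3 := C (j, true, [6, 7, 5, 9, 8]) (t + 2, true, [11, 4, 12]) (by simp [upM])
      (by simp [upM]) (by simp only; omega) (by simp only; omega) 8 11 (by simp) (by simp)
    have c4 := C (l, false, [2]) (j, true, [6, 7, 5, 9, 8]) (by simp [upM])
      (by simp [upM]) (by simp only; omega) (by simp only; omega) 2 6 (by simp) (by simp)
    have c5 := C (l, false, [2]) (i, true, [3]) (by simp [upM])
      (by simp [upM]) (by simp only; omega) (by simp only; omega) 2 3 (by simp) (by simp)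
    have c6 := C (o, true, [1, 13]) (l, false, [2]) (by simp [upM])
      (by simp [upM]) (by simp only; omega) (by simp only; omega) 13 2 (by simp) (by simp)
    exact ⟨neg_lt_neg i4, neg_lt_neg c1, neg_lt_neg i2.2, neg_lt_neg i2.1.1, neg_lt_neg c2,
      neg_lt_neg c3, neg_lt_neg i3.2.2.2, neg_lt_neg i3.2.2.1.1, neg_lt_neg i3.2.1.1,
      neg_lt_neg i3.1.1, neg_lt_neg c4, neg_lt_neg c5, neg_lt_neg c6, neg_lt_neg i1⟩
  | lowA t l i j hp hol hli hlj hik hjk hkN hG =>
    subst hG
    simp only [sg_even, one_mul, Bool.false_eq_true, false_implies, true_and, true_implies]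
    simp only at C I
    have i1 := I (l, true, [10, 3]) (by simp [lowA]) (by simp only; omega)
    have i3 := I (t + 2, false, [8, 9, 5, 7, 6]) (by simp [lowA]) (by simp only; omega)
    have i4 := I (N + 1, false, [0, 1]) (by simp [lowA]) (by simp only; omega)
    simp only [List.pairwise_cons, List.mem_cons, List.not_mem_nil, or_false, forall_eq_or_imp,
      forall_eq, List.Pairwise.nil, and_true, false_implies, implies_true] at i1 i3 i4
    refine ⟨i1, C (l, true, [10, 3]) (i, false, [4]) (by simp [lowA]) (by simp [lowA])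
      (by simp only; omega) (by simp only; omega) 3 4 (by simp) (by simp),
      C (l, true, [10, 3]) (j, false, [2]) (by simp [lowA]) (by simp [lowA])
      (by simp only; omega) (by simp only; omega) 3 2 (by simp) (by simp),
      C (i, false, [4]) (t + 2, false, [8, 9, 5, 7, 6]) (by simp [lowA]) (by simp [lowA])
      (by simp only; omega) (by simp only; omega) 4 8 (by simp) (by simp),
      C (j, false, [2]) (t + 2, false, [8, 9, 5, 7, 6]) (by simp [lowA]) (by simp [lowA])
      (by simp only; omega) (by simp only; omega) 2 8 (by simp) (by simp),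
      i3.1.1, i3.2.1.1, i3.2.2.1.1, i3.2.2.2,
      C (t + 2, false, [8, 9, 5, 7, 6]) (N + 1, false, [0, 1]) (by simp [lowA]) (by simp [lowA])
      (by simp only; omega) (by simp only; omega) 6 0 (by simp) (by simp), i4⟩
  | upA t l i j hp hol hli hlj hik hjk hkN hG =>
    subst hG
    simp only [sg_odd, neg_mul, one_mul, Bool.false_eq_true, false_implies, true_and, true_implies]
    simp only at C I
    have i1 := I (0, false, [1, 0]) (by simp [upA]) (by simp only; omega)
    have i3 := I (l, false, [6, 7, 5, 9, 8]) (by simp [upA]) (by simp only; omega)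
    have i4 := I (t + 2, true, [3, 10]) (by simp [upA]) (by simp only; omega)
    simp only [List.pairwise_cons, List.mem_cons, List.not_mem_nil, or_false, forall_eq_or_imp,
      forall_eq, List.Pairwise.nil, and_true, false_implies, implies_true] at i1 i3 i4
    have c1 := C (i, true, [4]) (t + 2, true, [3, 10]) (by simp [upA]) (by simp [upA])
      (by simp only; omega) (by simp only; omega) 4 3 (by simp) (by simp)
    have c2 := C (j, true, [2]) (t + 2, true, [3, 10]) (by simp [upA]) (by simp [upA])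
      (by simp only; omega) (by simp only; omega) 2 3 (by simp) (by simp)
    have c3 := C (l, false, [6, 7, 5, 9, 8]) (i, true, [4]) (by simp [upA]) (by simp [upA])
      (by simp only; omega) (by simp only; omega) 8 4 (by simp) (by simp)
    have c4 := C (l, false, [6, 7, 5, 9, 8]) (j, true, [2]) (by simp [upA]) (by simp [upA])
      (by simp only; omega) (by simp only; omega) 8 2 (by simp) (by simp)
    have c5 := C (0, false, [1, 0]) (l, false, [6, 7, 5, 9, 8]) (by simp [upA]) (by simp [upA])
      (by simp only; omega) (by simp only; omega) 0 6 (by simp) (by simp)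
    exact ⟨neg_lt_neg i4, neg_lt_neg c1, neg_lt_neg c2, neg_lt_neg c3, neg_lt_neg c4,
      neg_lt_neg i3.2.2.2, neg_lt_neg i3.2.2.1.1, neg_lt_neg i3.2.1.1, neg_lt_neg i3.1.1,
      neg_lt_neg c5, neg_lt_neg i1⟩

end Pool.Agent.NPC.ER.SGE
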