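import Pool.Agent.TH663.SGE.Place2
import Pool.Agent.TH663.SGE.Order

/-!
# The gadgets can be placed when the relation holds
-/

namespace Pool.Agent.NPC.ER.SGE

open Pool.Agent.NPC.ER.GPP Filter Topology

theorem ev_quad {a : ℝ} (ha : 0 < a) (b c : ℝ) : ∀ᶠ y in atTop, 0 < a * y ^ 2 + b * y + c := by
  filter_upwards [eventually_ge_atTop (1 : ℝ), ev_lin ha (b - |c|)] with y h1 h2
  have h3 := neg_abs_le c
  have h4 : 0 ≤ (y - 1) * (a * y + b) := mul_nonneg (by linarith) (by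
    have := abs_nonneg c
    linarith)
  nlinarith

theorem far1 {α₁ α₂ : ℝ} (h : α₁ < α₂) (c1 c2 c3 c4 : ℝ) :
    ∀ᶠ Q in atTop, α₁ * ((Q - c1) * (Q - c2)) < α₂ * ((Q - c3) * (Q - c4)) := by
  filter_upwards [ev_quad (a := α₂ - α₁) (by linarith) (α₁ * (c1 + c2) - α₂ * (c3 + c4))
    (α₂ * (c3 * c4) - α₁ * (c1 * c2))] with Q hQ
  have : α₂ * ((Q - c3) * (Q - c4)) - α₁ * ((Q - c1) * (Q - c2)) = (α₂ - α₁) * Q ^ 2 +
    (α₁ * (c1 + c2) - α₂ * (c3 + c4)) * Q + (α₂ * (c3 * c4) - α₁ * (c1 * c2)) := by ring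
  linarith

theorem far2 {δ : ℝ} (hδ : 0 < δ) (m k : ℝ) :
    ∀ᶠ a in atTop, ∀ q, a ≤ q → 0 < δ * (a * q) + m * (a + q) + k := by
  filter_upwards [eventually_ge_atTop (1 : ℝ), ev_lin hδ (-(2 * |m| + |k|))] with a h1 h2 q hq
  have h3 := neg_abs_le k
  have h4 := neg_abs_le m
  have h5 := abs_nonneg k
  have h6 := abs_nonneg m
  have hq0 : 0 < q := by linarith
  have h7 : 0 < (δ * a + -(2 * |m| + |k|)) * q := mul_pos h2 hq0
  have h8 : -|m| * (a + q) ≤ m * (a + q) := mul_le_mul_of_nonneg_right h4 (by linarith)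
  have h9 : |m| * a ≤ |m| * q := mul_le_mul_of_nonneg_left hq h6
  have h10 : |k| * 1 ≤ |k| * q := mul_le_mul_of_nonneg_left (by linarith) h5
  nlinarith

theorem four2 {a q T B X C : ℝ} (haq : a < q)
    (h : 0 < (T + B - (X + C)) * (a * q) + (X * C - T * B) * (a + q) +
      ((X + C) * (T * B) - (T + B) * (X * C))) :
    (T - a) * (B - a) * ((q - X) * (q - C)) < (X - a) * (C - a) * ((q - T) * (q - B)) := by
  have e : (X - a) * (C - a) * ((q - T) * (q - B)) - (T - a) * (B - a) * ((q - X) * (q - C)) =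
      (q - a) * ((T + B - (X + C)) * (a * q) + (X * C - T * B) * (a + q) +
      ((X + C) * (T * B) - (T + B) * (X * C))) := by ring
  have := mul_pos (sub_pos.2 haq) h
  linarith

/-- The triangles of the gadget. -/
def St (G : Gad) : List (ℕ × ℕ × ℕ) := if G.2.1 = true then S1t else S2t

/-- The gadget can be placed, given the windows for its vertices. -/
def OK (N : ℕ) (v : ℕ → ℝ) (G : Gad) (β' β Λ : ℝ) : Prop :=
  ∀ lo hi : ℕ → Bool → ℝ,
    (∀ n, 1 ≤ n → n ≤ N → lo n false = v n - β ∧ hi n false = v n - β' ∧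
      lo n true = v n + β' ∧ hi n true = v n + β) →
    lo 0 false < hi 0 false → hi 0 false ≤ -Λ → Λ ≤ lo (N + 1) false →
    lo (N + 1) false < hi (N + 1) false → Λ ≤ lo (N + 1) true →
    lo (N + 1) true < hi (N + 1) true →
    ∃ P : ℕ → ℝ × ℝ,
      (∀ b ∈ G.2.2, ∀ r ∈ b.2.2, lo b.1 b.2.1 < (P r).1 ∧ (P r).1 < hi b.1 b.2.1) ∧
      (∀ b ∈ G.2.2, b.2.2.Pairwise fun r r' => (P r).1 < (P r').1) ∧
      (G.2.2.Pairwise fun b b' => b.1 = b'.1 → b.2.1 = b'.2.1 →
        ∀ r ∈ b.2.2, ∀ r' ∈ b'.2.2, (P r).1 < (P r').1) ∧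
      ∀ T ∈ St G, 0 < sg G.1 * D (P T.1) (P T.2.1) (P T.2.2)

theorem D_shift (a x1 y1 x2 y2 x3 y3 : ℝ) :
    D (x1 + a, y1) (x2 + a, y2) (x3 + a, y3) = D (x1, y1) (x2, y2) (x3, y3) := by
  unfold D; ring

theorem D_refl (a x1 y1 x2 y2 x3 y3 : ℝ) :
    D (-(x1 + a), y1) (-(x2 + a), y2) (-(x3 + a), y3) = -D (x1, y1) (x2, y2) (x3, y3) := by
  unfold D; ring

section

variable {N : ℕ} {v : ℕ → ℝ} {β : ℝ} {o l i j k : ℕ} (ho : 0 < o) (hol : o < l) (h0l : 0 < l)
  (hli : l < i) (hlj : l < j) (hik : i < k) (hjk : j < k) (hkN : k ≤ N) (t : ℕ) (hβ : 0 < β)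
  (hv : ∀ m m', 1 ≤ m → m < m' → m' ≤ N → v m + 2 * β < v m')

include ho hol hli hlj hik hjk hkN hβ hv in
theorem ok_lowM (hr : (v k - v o) * (v l - v o) = (v i - v o) * (v j - v o)) :
    ∃ β', 0 < β' ∧ β' < β ∧ ∃ Λ, OK N v (2 * t, true, lowM N k o l i j) β' β Λ := by
  have vol := hv o l (by omega) hol (by omega)
  have vli := hv l i (by omega) hli (by omega)
  have vlj := hv l j (by omega) hlj (by omega)
  have vik := hv i k (by omega) hik hkN
  have vjk := hv j k (by omega) hjk hkN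
  obtain ⟨s, hs, c1, c2⟩ := ev_exists
    ((ev_pos (f := fun s => β - 4 * s) (by fun_prop) (by simpa using hβ)).and
    (ev_pos (f := fun s => (v i - 3 * s - (v o - 2 * s)) * (v j - 2 * s - (v o - 2 * s)) -
      (v k - β / 2 - (v o - 2 * s)) * (v l + 2 * s - (v o - 2 * s))) (by fun_prop) (by
        simp only [mul_zero, sub_zero, add_zero]
        have : (v i - v o) * (v j - v o) - (v k - β / 2 - v o) * (v l - v o) =
          β / 2 * (v l - v o) := by linear_combination -hr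
        rw [this]
        exact mul_pos (by linarith) (by linarith))))
  obtain ⟨Λ, hΛ⟩ := eventually_atTop.1 ((eventually_gt_atTop (v k)).and
    (far1 (show (v k - β / 2 - (v o - 2 * s)) * (v l + 2 * s - (v o - 2 * s)) <
      (v i - 3 * s - (v o - 2 * s)) * (v j - 2 * s - (v o - 2 * s)) by linarith)
      (v i - 3 * s) (v j - 2 * s) (v k - β / 2) (v l + 2 * s)))
  refine ⟨s, hs, by linarith, Λ, ?_⟩
  intro lo hi hw _ _ w1 w2 _ _
  obtain ⟨w, hwd⟩ : ∃ w, w = (hi (N + 1) false - lo (N + 1) false) / 3 := ⟨_, rfl⟩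
  have hw0 : 0 < w := by rw [hwd]; linarith
  obtain ⟨q1, q2⟩ := hΛ (lo (N + 1) false + 2 * w) (by linarith)
  obtain ⟨q3, -⟩ := hΛ (lo (N + 1) false + w) (by linarith)
  obtain ⟨P, hP, p0, p1, p2, p3, p10, p13, ⟨u1, u2, u3, u4⟩, ⟨z1, z2, z3, z4, z5, z6⟩⟩ := place1
    (W := lo (N + 1) false + 2 * w - (v o - 2 * s)) (X1 := v j - 2 * s - (v o - 2 * s))
    (X2 := v l + 2 * s - (v o - 2 * s)) (b := v k - β / 2 - (v o - 2 * s))
    (c := v i - 3 * s - (v o - 2 * s)) (xM := v o - 3 * s - (v o - 2 * s))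
    (xN := lo (N + 1) false + w - (v o - 2 * s)) (δ := s / 2)
    (by linarith) (by linarith) (by linarith) (by linarith) (by linarith) (by linarith)
    (by linarith) (by linarith) (by linarith) (by
      have e1 : ∀ x y : ℝ, x - (v o - 2 * s) - (y - (v o - 2 * s)) = x - y := fun x y => by ring
      simp only [e1]
      exact q2)
  obtain ⟨wo1, wo2, -, -⟩ := hw o (by omega) (by omega)
  obtain ⟨-, -, wl1, wl2⟩ := hw l (by omega) (by omega)
  obtain ⟨wi1, wi2, -, -⟩ := hw i (by omega) (by omega)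
  obtain ⟨wj1, wj2, -, -⟩ := hw j (by omega) (by omega)
  obtain ⟨wk1, wk2, -, -⟩ := hw k (by omega) (by omega)
  refine ⟨fun r => ((P r).1 + (v o - 2 * s), (P r).2), ?_, ?_, ?_, ?_⟩
  · simp only [lowM, List.forall_mem_cons, List.not_mem_nil, false_implies, implies_true,
      and_true, true_and, wo1, wo2, wl1, wl2, wi1, wi2, wj1, wj2, wk1, wk2, p0, p1, p2, p3, p10, p13]
    constructorm* _ ∧ _ <;> linarith
  · simp only [lowM, List.forall_mem_cons, List.not_mem_nil, false_implies, implies_true,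
      and_true, true_and, List.pairwise_cons, List.Pairwise.nil, p0, p1, p2, p3, p10, p13]
    constructorm* _ ∧ _ <;> linarith
  · simp only [lowM, List.forall_mem_cons, List.not_mem_nil, false_implies, implies_true,
      and_true, true_and, List.pairwise_cons, List.Pairwise.nil, p0, p1, p2, p3, p10, p13]
    constructorm* _ ∧ _
    all_goals intro g1 g2
    all_goals first
      | omega
      | exact absurd g2 (by decide)
      | (subst g1; constructorm* _ ∧ _ <;> linarith)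
  · intro T hT
    simp only [sg_even, one_mul, D_shift]
    exact hP T hT

end

end Pool.Agent.NPC.ER.SGE
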