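import Pool.Agent.TH663.SGE.Compl1

/-!
# The upper gadget of a multiplication can be placed
-/

namespace Pool.Agent.NPC.ER.SGE

open Pool.Agent.NPC.ER.GPP Filter Topology

section

variable {N : ℕ} {v : ℕ → ℝ} {β : ℝ} {o l i j k : ℕ} (ho : 0 < o) (hol : o < l)
  (hli : l < i) (hlj : l < j) (hik : i < k) (hjk : j < k) (hkN : k ≤ N) (t : ℕ) (hβ : 0 < β)
  (hv : ∀ m m', 1 ≤ m → m < m' → m' ≤ N → v m + 2 * β < v m')

include ho hol hli hlj hik hjk hkN hβ hv in
theorem ok_upM (hr : (v k - v o) * (v l - v o) = (v i - v o) * (v j - v o)) :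
    ∃ β', 0 < β' ∧ β' < β ∧ ∃ Λ, OK N v (2 * t + 1, true, upM N k o l i j) β' β Λ := by
  have vol := hv o l (by omega) hol (by omega)
  have vli := hv l i (by omega) hli (by omega)
  have vlj := hv l j (by omega) hlj (by omega)
  have vik := hv i k (by omega) hik hkN
  have vjk := hv j k (by omega) hjk hkN
  obtain ⟨s, hs, c1, c2⟩ := ev_exists
    ((ev_pos (f := fun s => β - 4 * s) (by fun_prop) (by simpa using hβ)).and
    (ev_pos (f := fun s => (v l - 2 * s - (v o + 2 * s)) * (v k + β / 2 - (v o + 2 * s)) -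
      (v i + 2 * s - (v o + 2 * s)) * (v j + 3 * s - (v o + 2 * s))) (by fun_prop) (by
        simp only [mul_zero, sub_zero, add_zero]
        have : (v l - v o) * (v k + β / 2 - v o) - (v i - v o) * (v j - v o) =
          β / 2 * (v l - v o) := by linear_combination hr
        rw [this]
        exact mul_pos (by linarith) (by linarith))))
  obtain ⟨Λ, hΛ⟩ := eventually_atTop.1 ((eventually_gt_atTop (v k + β)).and
    (far1 (show (v i + 2 * s - (v o + 2 * s)) * (v j + 3 * s - (v o + 2 * s)) <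
      (v l - 2 * s - (v o + 2 * s)) * (v k + β / 2 - (v o + 2 * s)) by linarith)
      (v l - 2 * s) (v k + β / 2) (v i + 2 * s) (v j + 3 * s)))
  refine ⟨s, hs, by linarith, Λ, ?_⟩
  intro lo hi hw _ _ _ _ w1 w2
  obtain ⟨w, hwd⟩ : ∃ w, w = (hi (N + 1) true - lo (N + 1) true) / 3 := ⟨_, rfl⟩
  have hw0 : 0 < w := by rw [hwd]; linarith
  obtain ⟨a, ha⟩ : ∃ a, a = -(lo (N + 1) true + w) := ⟨_, rfl⟩
  obtain ⟨q1, q2⟩ := hΛ (-a) (by linarith)
  obtain ⟨P, hP, p0, p1, p2, p3, p10, p13, ⟨u1, u2, u3, u4⟩, ⟨z1, z2, z3, z4, z5, z6⟩⟩ := place1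
    (W := -(v o + 2 * s) - a) (X1 := -(v j + 3 * s) - a)
    (X2 := -(v k + β / 2) - a) (b := -(v l - 2 * s) - a)
    (c := -(v i + 2 * s) - a) (xM := -w)
    (xN := -(v o + 3 * s) - a) (δ := s / 2)
    (by linarith) (by linarith) (by linarith) (by linarith) (by linarith) (by linarith)
    (by linarith) (by linarith) (by linarith) (by
      have e1 : ∀ x y : ℝ, -x - a - (-y - a) = y - x := fun x y => by ring
      have e2 : ∀ x : ℝ, -x - a = -a - x := fun x => by ring
      simp only [e1]
      rw [e2, e2, e2, e2, mul_comm ((-a - (v l - 2 * s)) * (-a - (v k + β / 2))),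
        mul_comm ((-a - (v i + 2 * s)) * (-a - (v j + 3 * s)))]
      exact q2)
  obtain ⟨-, -, wo1, wo2⟩ := hw o (by omega) (by omega)
  obtain ⟨wl1, wl2, -, -⟩ := hw l (by omega) (by omega)
  obtain ⟨-, -, wi1, wi2⟩ := hw i (by omega) (by omega)
  obtain ⟨-, -, wj1, wj2⟩ := hw j (by omega) (by omega)
  obtain ⟨-, -, wk1, wk2⟩ := hw k (by omega) (by omega)
  refine ⟨fun r => (-((P r).1 + a), (P r).2), ?_, ?_, ?_, ?_⟩
  · simp only [upM, List.forall_mem_cons, List.not_mem_nil, false_implies, implies_true,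
      and_true, true_and, wo1, wo2, wl1, wl2, wi1, wi2, wj1, wj2, wk1, wk2, p0, p1, p2, p3, p10,
      p13]
    constructorm* _ ∧ _ <;> linarith
  · simp only [upM, List.forall_mem_cons, List.not_mem_nil, false_implies, implies_true,
      and_true, true_and, List.pairwise_cons, List.Pairwise.nil, p0, p1, p2, p3, p10, p13]
    constructorm* _ ∧ _ <;> linarith
  · simp only [upM, List.forall_mem_cons, List.not_mem_nil, false_implies, implies_true,
      and_true, true_and, List.pairwise_cons, List.Pairwise.nil, p0, p1, p2, p3, p10, p13]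
    constructorm* _ ∧ _
    all_goals intro g1 g2
    all_goals first
      | omega
      | exact absurd g2 (by decide)
      | (subst g1; constructorm* _ ∧ _ <;> linarith)
  · intro T hT
    simp only [sg_odd, D_refl]
    have := hP T hT
    linarith

end

end Pool.Agent.NPC.ER.SGE
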