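import Pool.Agent.TH663.SGE.Compl1

/-!
# The gadgets of an addition can be placed
-/

namespace Pool.Agent.NPC.ER.SGE

open Pool.Agent.NPC.ER.GPP Filter Topology

section

variable {N : ℕ} {v : ℕ → ℝ} {β : ℝ} {l i j k : ℕ} (h0l : 0 < l)
  (hli : l < i) (hlj : l < j) (hik : i < k) (hjk : j < k) (hkN : k ≤ N) (t : ℕ) (hβ : 0 < β)
  (hv : ∀ m m', 1 ≤ m → m < m' → m' ≤ N → v m + 2 * β < v m')

include h0l hli hlj hik hjk hkN hβ hv in
theorem ok_lowA (hr : v k + v l = v i + v j) :
    ∃ β', 0 < β' ∧ β' < β ∧ ∃ Λ, OK N v (2 * t, false, lowA N k l i j) β' β Λ := by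
  have vli := hv l i (by omega) hli (by omega)
  have vlj := hv l j (by omega) hlj (by omega)
  have vik := hv i k (by omega) hik hkN
  have vjk := hv j k (by omega) hjk hkN
  obtain ⟨s, hs, c1⟩ : ∃ s, 0 < s ∧ β = 32 * s := ⟨β / 32, by linarith, by linarith⟩
  obtain ⟨Λ, hΛ⟩ := eventually_atTop.1 ((eventually_gt_atTop (v k)).and
    (far2 (δ := v i - 3 * s + (v j - 2 * s) - (v k - β / 2 + (v l + 3 * s))) (by linarith)
      ((v k - β / 2) * (v l + 3 * s) - (v i - 3 * s) * (v j - 2 * s))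
      ((v k - β / 2 + (v l + 3 * s)) * ((v i - 3 * s) * (v j - 2 * s)) -
        (v i - 3 * s + (v j - 2 * s)) * ((v k - β / 2) * (v l + 3 * s)))))
  refine ⟨s, hs, by linarith, Λ, ?_⟩
  intro lo hi hw _ _ w1 w2 _ _
  obtain ⟨w, hwd⟩ : ∃ w, w = (hi (N + 1) false - lo (N + 1) false) / 3 := ⟨_, rfl⟩
  have hw0 : 0 < w := by rw [hwd]; linarith
  obtain ⟨a, ha⟩ : ∃ a, a = lo (N + 1) false + w := ⟨_, rfl⟩
  obtain ⟨q1, q2⟩ := hΛ a (by linarith)
  have q3 := four2 (show a < a + w by linarith) (q2 (a + w) (by linarith))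
  obtain ⟨P, hP, p0, p1, p2, p3, p4, p10, ⟨z1, z2, z3, z4, z5, z6⟩⟩ := place2
    (W := w) (X := v k - β / 2 - a) (b := v j - 2 * s - a) (c := v l + 3 * s - a)
    (t := v i - 3 * s - a) (xM := v l + 2 * s - a) (δ := s / 2)
    (by linarith) (by linarith) (by linarith) (by linarith) (by linarith) (by linarith)
    hw0 (by linarith) (by
      have e1 : ∀ x : ℝ, w - (x - a) = a + w - x := fun x => by ring
      simp only [e1]
      exact q3)
  obtain ⟨-, -, wl1, wl2⟩ := hw l (by omega) (by omega)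
  obtain ⟨wi1, wi2, -, -⟩ := hw i (by omega) (by omega)
  obtain ⟨wj1, wj2, -, -⟩ := hw j (by omega) (by omega)
  obtain ⟨wk1, wk2, -, -⟩ := hw k (by omega) (by omega)
  refine ⟨fun r => ((P r).1 + a, (P r).2), ?_, ?_, ?_, ?_⟩
  · simp only [lowA, List.forall_mem_cons, List.not_mem_nil, false_implies, implies_true,
      and_true, true_and, wl1, wl2, wi1, wi2, wj1, wj2, wk1, wk2, p0, p1, p2, p3, p4, p10]
    constructorm* _ ∧ _ <;> linarith
  · simp only [lowA, List.forall_mem_cons, List.not_mem_nil, false_implies, implies_true,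
      and_true, true_and, List.pairwise_cons, List.Pairwise.nil, p0, p1, p2, p3, p4, p10]
    constructorm* _ ∧ _ <;> linarith
  · simp only [lowA, List.forall_mem_cons, List.not_mem_nil, false_implies, implies_true,
      and_true, true_and, List.pairwise_cons, List.Pairwise.nil, p0, p1, p2, p3, p4, p10]
    constructorm* _ ∧ _
    all_goals intro g1 g2
    all_goals first
      | omega
      | exact absurd g2 (by decide)
      | (subst g1; linarith)
  · intro T hT
    simp only [sg_even, one_mul, D_shift]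
    exact hP T hT

include h0l hli hlj hik hjk hkN hβ hv in
theorem ok_upA (hr : v k + v l = v i + v j) :
    ∃ β', 0 < β' ∧ β' < β ∧ ∃ Λ, OK N v (2 * t + 1, false, upA k l i j) β' β Λ := by
  have vli := hv l i (by omega) hli (by omega)
  have vlj := hv l j (by omega) hlj (by omega)
  have vik := hv i k (by omega) hik hkN
  have vjk := hv j k (by omega) hjk hkN
  obtain ⟨s, hs, c1⟩ : ∃ s, 0 < s ∧ β = 32 * s := ⟨β / 32, by linarith, by linarith⟩
  obtain ⟨Λ, hΛ⟩ := eventually_atTop.1 ((eventually_gt_atTop (-v l + β)).and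
    (far2 (δ := -(v i + 2 * s) + -(v j + 3 * s) - (-(v l - 2 * s) + -(v k + β / 2)))
      (by linarith)
      (-(v l - 2 * s) * -(v k + β / 2) - -(v i + 2 * s) * -(v j + 3 * s))
      ((-(v l - 2 * s) + -(v k + β / 2)) * (-(v i + 2 * s) * -(v j + 3 * s)) -
        (-(v i + 2 * s) + -(v j + 3 * s)) * (-(v l - 2 * s) * -(v k + β / 2)))))
  refine ⟨s, hs, by linarith, Λ, ?_⟩
  intro lo hi hw w1 w2 _ _ _ _
  obtain ⟨w, hwd⟩ : ∃ w, w = (hi 0 false - lo 0 false) / 3 := ⟨_, rfl⟩
  have hw0 : 0 < w := by rw [hwd]; linarith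
  obtain ⟨a, ha⟩ : ∃ a, a = -(lo 0 false + 2 * w) := ⟨_, rfl⟩
  obtain ⟨q1, q2⟩ := hΛ a (by linarith)
  have q3 := four2 (show a < a + w by linarith) (q2 (a + w) (by linarith))
  obtain ⟨P, hP, p0, p1, p2, p3, p4, p10, ⟨z1, z2, z3, z4, z5, z6⟩⟩ := place2
    (W := w) (X := -(v l - 2 * s) - a) (b := -(v j + 3 * s) - a) (c := -(v k + β / 2) - a)
    (t := -(v i + 2 * s) - a) (xM := -(v k + 3 / 4 * β) - a) (δ := s / 2)
    (by linarith) (by linarith) (by linarith) (by linarith) (by linarith) (by linarith)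
    hw0 (by linarith) (by
      have e1 : ∀ x : ℝ, w - (x - a) = a + w - x := fun x => by ring
      simp only [e1]
      exact q3)
  obtain ⟨wl1, wl2, -, -⟩ := hw l (by omega) (by omega)
  obtain ⟨-, -, wi1, wi2⟩ := hw i (by omega) (by omega)
  obtain ⟨-, -, wj1, wj2⟩ := hw j (by omega) (by omega)
  obtain ⟨-, -, wk1, wk2⟩ := hw k (by omega) (by omega)
  refine ⟨fun r => (-((P r).1 + a), (P r).2), ?_, ?_, ?_, ?_⟩
  · simp only [upA, List.forall_mem_cons, List.not_mem_nil, false_implies, implies_true,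
      and_true, true_and, wl1, wl2, wi1, wi2, wj1, wj2, wk1, wk2, p0, p1, p2, p3, p4, p10]
    constructorm* _ ∧ _ <;> linarith
  · simp only [upA, List.forall_mem_cons, List.not_mem_nil, false_implies, implies_true,
      and_true, true_and, List.pairwise_cons, List.Pairwise.nil, p0, p1, p2, p3, p4, p10]
    constructorm* _ ∧ _ <;> linarith
  · simp only [upA, List.forall_mem_cons, List.not_mem_nil, false_implies, implies_true,
      and_true, true_and, List.pairwise_cons, List.Pairwise.nil, p0, p1, p2, p3, p4, p10]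
    constructorm* _ ∧ _
    all_goals intro g1 g2
    all_goals first
      | omega
      | exact absurd g2 (by decide)
      | (subst g1; linarith)
  · intro T hT
    simp only [sg_odd, D_refl]
    have := hP T hT
    linarith

end

end Pool.Agent.NPC.ER.SGE
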