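import Pool.Agent.TH663.SGE.Tri

/-!
# The inequalities forced by the gadgets
-/

namespace Pool.Agent.NPC.ER.SGE

open Pool.Agent.NPC.ER.GPP

/-! ### Chains of points -/

theorem four (a b u v s : ℝ × ℝ) : D a b v * (s.1 - u.1) = D a b u * (s.1 - v.1) +
    D a b s * (v.1 - u.1) + (b.1 - a.1) * D u s v := by unfold D; ring

/-- The facts about the points which are common to the gadgets. -/
structure Core (P : ℕ → ℝ × ℝ) : Prop where
  f1 : 0 < D (P 0) (P 1) (P 5)
  f2 : 0 < D (P 5) (P 1) (P 6)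
  f3 : 0 < D (P 1) (P 2) (P 6)
  f4 : 0 < D (P 2) (P 0) (P 5)
  f5 : 0 < D (P 5) (P 6) (P 7)
  f6 : 0 < D (P 2) (P 5) (P 7)
  f7 : 0 < D (P 6) (P 2) (P 7)
  f8 : 0 < D (P 0) (P 2) (P 9)
  f9 : 0 < D (P 2) (P 8) (P 9)
  f10 : 0 < D (P 9) (P 8) (P 4)
  f11 : 0 < D (P 1) (P 3) (P 2)
  c1 : 0 < D (P 8) (P 6) (P 9)
  c2 : 0 < D (P 8) (P 6) (P 5)
  x1 : (P 4).1 < (P 8).1
  x2 : (P 8).1 < (P 9).1
  x3 : (P 9).1 < (P 5).1
  x4 : (P 5).1 < (P 6).1
  x5 : (P 6).1 < (P 1).1

section

variable {P : ℕ → ℝ × ℝ}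

theorem Core.hB (h : Core P) : 0 < D (P 0) (P 1) (P 2) := by
  have e1 := D_add (P 5) (P 6) (P 2) (P 7)
  have e2 := D_add (P 5) (P 1) (P 2) (P 6)
  have e3 := D_add (P 0) (P 1) (P 2) (P 5)
  have h1 := h.f5
  have h2 := h.f7
  have h3 := h.f6
  have h4 := h.f2
  have h5 := h.f3
  have h6 := h.f1
  have h7 := h.f4
  have r1 : D (P 2) (P 5) (P 6) = D (P 5) (P 6) (P 2) := by unfold D; ring
  have r2 : D (P 1) (P 2) (P 5) = D (P 5) (P 1) (P 2) := by unfold D; ring
  rw [r1] at e2
  rw [r2] at e3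
  linarith

/-- `T` is below the line `p₂ Q`. -/
theorem Core.hT (h : Core P) : D (P 8) (P 1) (P 4) < 0 := by
  have h1 := h.x1; have h2 := h.x2; have h3 := h.x3; have h4 := h.x4; have h5 := h.x5
  -- `p₁` and `g₁`
  have e1 := four (P 8) (P 1) (P 5) (P 6) (P 1)
  have e2 := four (P 8) (P 1) (P 8) (P 5) (P 6)
  have e3 := four (P 8) (P 1) (P 8) (P 9) (P 6)
  have e4 := four (P 8) (P 1) (P 4) (P 8) (P 9)
  rw [D_right] at e1
  rw [D_left] at e2 e3 e4
  have r : D (P 4) (P 9) (P 8) = D (P 9) (P 8) (P 4) := by unfold D; ring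
  rw [r] at e4
  have k1 := mul_pos (show 0 < (P 1).1 - (P 8).1 by linarith) h.f2
  have k2 := mul_pos (show 0 < (P 1).1 - (P 8).1 by linarith) h.c2
  have k3 := mul_pos (show 0 < (P 1).1 - (P 8).1 by linarith) h.c1
  have k4 := mul_pos (show 0 < (P 1).1 - (P 8).1 by linarith) h.f10
  -- G(g₁) > 0
  have g1 : 0 < D (P 8) (P 1) (P 6) := by
    by_contra hcon
    have hcon := not_lt.1 hcon
    have m1 : D (P 8) (P 1) (P 6) * ((P 1).1 - (P 5).1) ≤
        D (P 8) (P 1) (P 6) * ((P 1).1 - (P 6).1) + D (P 8) (P 1) (P 6) * ((P 6).1 - (P 5).1) := by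
      linarith
    -- G(p₁) < 0
    have m2 : D (P 8) (P 1) (P 5) < 0 := by
      by_contra h6
      have := mul_nonneg (not_lt.1 h6) (show 0 ≤ (P 1).1 - (P 6).1 by linarith)
      have := mul_nonpos_of_nonpos_of_nonneg hcon (show 0 ≤ (P 1).1 - (P 5).1 by linarith)
      linarith
    -- compare
    have m3 : D (P 8) (P 1) (P 6) * ((P 5).1 - (P 8).1) < D (P 8) (P 1) (P 5) *
        ((P 6).1 - (P 8).1) := by linarith
    have m4 : D (P 8) (P 1) (P 5) * ((P 1).1 - (P 6).1) < D (P 8) (P 1) (P 6) *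
        ((P 1).1 - (P 5).1) := by linarith
    have m5 := mul_lt_mul_of_pos_right m3 (show 0 < (P 1).1 - (P 6).1 by linarith)
    have m6 := mul_lt_mul_of_pos_right m4 (show 0 < (P 6).1 - (P 8).1 by linarith)
    have m7 : D (P 8) (P 1) (P 6) * (((P 5).1 - (P 8).1) * ((P 1).1 - (P 6).1)) <
        D (P 8) (P 1) (P 6) * (((P 1).1 - (P 5).1) * ((P 6).1 - (P 8).1)) := by linarith
    have m8 : ((P 5).1 - (P 8).1) * ((P 1).1 - (P 6).1) ≤
        ((P 1).1 - (P 5).1) * ((P 6).1 - (P 8).1) := by nlinarith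
    have := mul_le_mul_of_nonpos_left m8 hcon
    linarith
  have g2 : 0 < D (P 8) (P 1) (P 9) := by
    by_contra hcon
    have := mul_nonpos_of_nonpos_of_nonneg (not_lt.1 hcon)
      (show 0 ≤ (P 6).1 - (P 8).1 by linarith)
    have := mul_pos g1 (show 0 < (P 9).1 - (P 8).1 by linarith)
    linarith
  by_contra hcon
  have := mul_nonneg (not_lt.1 hcon) (show 0 ≤ (P 9).1 - (P 8).1 by linarith)
  have := mul_pos g2 (show 0 < (P 8).1 - (P 4).1 by linarith)
  linarith

/-- `T` and `p₂` are below the line `p₁ Q`. -/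
theorem Core.hF (h : Core P) : D (P 5) (P 1) (P 8) < 0 ∧ D (P 5) (P 1) (P 4) <
    D (P 5) (P 1) (P 8) := by
  have h1 := h.x1; have h2 := h.x2; have h3 := h.x3; have h4 := h.x4; have h5 := h.x5
  have e2 := four (P 5) (P 1) (P 8) (P 5) (P 6)
  have e3 := four (P 5) (P 1) (P 8) (P 9) (P 6)
  have e4 := four (P 5) (P 1) (P 4) (P 8) (P 9)
  rw [D_left] at e2
  have r : D (P 4) (P 9) (P 8) = D (P 9) (P 8) (P 4) := by unfold D; ring
  rw [r] at e4
  have k2 := mul_pos (show 0 < (P 1).1 - (P 5).1 by linarith) h.c2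
  have k3 := mul_pos (show 0 < (P 1).1 - (P 5).1 by linarith) h.c1
  have k4 := mul_pos (show 0 < (P 1).1 - (P 5).1 by linarith) h.f10
  have g1 := h.f2
  have m1 : D (P 5) (P 1) (P 8) < 0 := by
    by_contra hcon
    have := mul_nonneg (not_lt.1 hcon) (show 0 ≤ (P 6).1 - (P 5).1 by linarith)
    have := mul_pos g1 (show 0 < (P 5).1 - (P 8).1 by linarith)
    linarith
  have m2 : D (P 5) (P 1) (P 8) < D (P 5) (P 1) (P 9) := by
    by_contra hcon
    have hcon := not_lt.1 hcon
    have q1 := mul_le_mul_of_nonneg_right hcon (show 0 ≤ (P 6).1 - (P 8).1 by linarith)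
    have q2 := mul_pos (show 0 < D (P 5) (P 1) (P 6) - D (P 5) (P 1) (P 8) by linarith)
      (show 0 < (P 9).1 - (P 8).1 by linarith)
    nlinarith
  refine ⟨m1, ?_⟩
  by_contra hcon
  have hcon := not_lt.1 hcon
  have q1 := mul_le_mul_of_nonneg_right hcon (show 0 ≤ (P 9).1 - (P 8).1 by linarith)
  have q2 := mul_pos (show 0 < D (P 5) (P 1) (P 9) - D (P 5) (P 1) (P 8) by linarith)
    (show 0 < (P 8).1 - (P 4).1 by linarith)
  nlinarith

/-- The height of a point over `A Q`. -/
theorem height (a q u v : ℝ × ℝ) : D u q v * (q.1 - a.1) =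
    D a q v * (q.1 - u.1) - D a q u * (q.1 - v.1) := by unfold D; ring

theorem height' (a q u v : ℝ × ℝ) : D u a v * (q.1 - a.1) =
    D a q u * (v.1 - a.1) - D a q v * (u.1 - a.1) := by unfold D; ring

/-- The inequality of the first gadget. -/
theorem ineq1 (h : Core P) (f12 : 0 < D (P 0) (P 3) (P 12)) (f13 : 0 < D (P 4) (P 8) (P 11))
    (c3 : 0 < D (P 12) (P 11) (P 4)) (x6 : (P 0).1 < (P 12).1) (x7 : (P 12).1 < (P 4).1)
    (x8 : (P 4).1 < (P 11).1) (x9 : (P 11).1 < (P 8).1) (x10 : (P 0).1 < (P 3).1)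
    (x11 : (P 3).1 < (P 2).1) (x12 : (P 2).1 < (P 1).1) :
    ((P 2).1 - (P 0).1) * ((P 12).1 - (P 0).1) * (((P 1).1 - (P 3).1) * ((P 1).1 - (P 5).1)) <
    ((P 3).1 - (P 0).1) * ((P 5).1 - (P 0).1) * (((P 1).1 - (P 2).1) * ((P 1).1 - (P 12).1)) := by
  have h1 := h.x1; have h2 := h.x2; have h3 := h.x3; have h4 := h.x4; have h5 := h.x5
  obtain ⟨m1, m2⟩ := h.hF
  have hB := h.hB
  -- `p₄` is below the line `p₁ Q`
  have e1 := four (P 5) (P 1) (P 4) (P 11) (P 8)
  have e2 := four (P 5) (P 1) (P 12) (P 4) (P 11)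
  have k1 := mul_pos (show 0 < (P 1).1 - (P 5).1 by linarith) f13
  have k2 := mul_pos (show 0 < (P 1).1 - (P 5).1 by linarith) c3
  have m3 : D (P 5) (P 1) (P 4) < D (P 5) (P 1) (P 11) := by
    by_contra hcon
    have hcon := not_lt.1 hcon
    have q1 := mul_le_mul_of_nonneg_right hcon (show 0 ≤ (P 8).1 - (P 4).1 by linarith)
    have q2 := mul_pos (show 0 < D (P 5) (P 1) (P 8) - D (P 5) (P 1) (P 4) by linarith)
      (show 0 < (P 11).1 - (P 4).1 by linarith)
    nlinarith
  have m4 : D (P 5) (P 1) (P 12) < D (P 5) (P 1) (P 4) := by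
    by_contra hcon
    have hcon := not_lt.1 hcon
    have q1 := mul_le_mul_of_nonneg_right hcon (show 0 ≤ (P 11).1 - (P 4).1 by linarith)
    have q2 := mul_pos (show 0 < D (P 5) (P 1) (P 11) - D (P 5) (P 1) (P 4) by linarith)
      (show 0 < (P 4).1 - (P 12).1 by linarith)
    nlinarith
  have hS : 0 < (P 1).1 - (P 0).1 := by linarith
  -- the four inequalities
  have i1 : D (P 0) (P 1) (P 2) * ((P 1).1 - (P 3).1) < D (P 0) (P 1) (P 3) *
      ((P 1).1 - (P 2).1) := by
    have e := height (P 0) (P 1) (P 2) (P 3)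
    have r : D (P 2) (P 1) (P 3) = D (P 1) (P 3) (P 2) := by unfold D; ring
    have := mul_pos h.f11 hS
    rw [r] at e
    linarith
  have i2 : D (P 0) (P 1) (P 3) * ((P 12).1 - (P 0).1) < D (P 0) (P 1) (P 12) *
      ((P 3).1 - (P 0).1) := by
    have e := height' (P 0) (P 1) (P 3) (P 12)
    have r : D (P 3) (P 0) (P 12) = -D (P 0) (P 3) (P 12) := by unfold D; ring
    have := mul_pos f12 hS
    rw [r] at e
    linarith
  have i3 : D (P 0) (P 1) (P 12) * ((P 1).1 - (P 5).1) < D (P 0) (P 1) (P 5) *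
      ((P 1).1 - (P 12).1) := by
    have e := height (P 0) (P 1) (P 5) (P 12)
    have := mul_pos (show 0 < -D (P 5) (P 1) (P 12) by linarith) hS
    linarith
  have i4 : D (P 0) (P 1) (P 5) * ((P 2).1 - (P 0).1) < D (P 0) (P 1) (P 2) *
      ((P 5).1 - (P 0).1) := by
    have e := height' (P 0) (P 1) (P 2) (P 5)
    have := mul_pos h.f4 hS
    linarith
  generalize D (P 0) (P 1) (P 2) = yB at *
  generalize D (P 0) (P 1) (P 3) = yC at *
  generalize D (P 0) (P 1) (P 12) = y4 at *
  generalize D (P 0) (P 1) (P 5) = y1 at *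
  have a1 : 0 < (P 1).1 - (P 3).1 := by linarith
  have a2 : 0 < (P 1).1 - (P 2).1 := by linarith
  have a3 : 0 < (P 12).1 - (P 0).1 := by linarith
  have a4 : 0 < (P 3).1 - (P 0).1 := by linarith
  have a5 : 0 < (P 1).1 - (P 5).1 := by linarith
  have a7 : 0 < (P 2).1 - (P 0).1 := by linarith
  have j1 := mul_lt_mul_of_pos_right i1 (mul_pos (mul_pos a3 a5) a7)
  have j2 := mul_lt_mul_of_pos_right i2 (mul_pos (mul_pos a2 a5) a7)
  have j3 := mul_lt_mul_of_pos_right i3 (mul_pos (mul_pos a4 a2) a7)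
  have j4 := mul_lt_mul_of_pos_right i4 (mul_pos (mul_pos (show 0 < (P 1).1 - (P 12).1 by
    linarith) a4) a2)
  have key : yB * (((P 2).1 - (P 0).1) * ((P 12).1 - (P 0).1) *
      (((P 1).1 - (P 3).1) * ((P 1).1 - (P 5).1))) <
      yB * (((P 3).1 - (P 0).1) * ((P 5).1 - (P 0).1) *
      (((P 1).1 - (P 2).1) * ((P 1).1 - (P 12).1))) := by linarith
  exact lt_of_mul_lt_mul_left key hB.le

/-- The inequality of the second gadget. -/
theorem ineq2 (h : Core P) (f12 : 0 < D (P 3) (P 0) (P 4)) (x6 : (P 3).1 < (P 4).1)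
    (x7 : (P 3).1 < (P 2).1) (x8 : (P 2).1 < (P 8).1) (x9 : (P 6).1 < (P 0).1)
    (x10 : (P 0).1 < (P 1).1) :
    ((P 0).1 - (P 4).1) * ((P 0).1 - (P 2).1) * (((P 1).1 - (P 8).1) * ((P 1).1 - (P 3).1)) <
    ((P 0).1 - (P 8).1) * ((P 0).1 - (P 3).1) * (((P 1).1 - (P 4).1) * ((P 1).1 - (P 2).1)) := by
  have h1 := h.x1; have h2 := h.x2; have h3 := h.x3; have h4 := h.x4; have h5 := h.x5
  have hT := h.hT
  have hB := h.hB
  -- `p₂` is beyond the line `A B`
  have g : 0 < D (P 0) (P 2) (P 8) := by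
    have e := four (P 0) (P 2) (P 2) (P 8) (P 9)
    have e' : D (P 0) (P 2) (P 8) * ((P 9).1 - (P 2).1) = ((P 0).1 - (P 2).1) *
        D (P 2) (P 8) (P 9) + D (P 0) (P 2) (P 9) * ((P 8).1 - (P 2).1) := by
      rw [e, D_right, show D (P 2) (P 9) (P 8) = -D (P 2) (P 8) (P 9) by unfold D; ring]
      ring
    have k1 := mul_pos (show 0 < (P 0).1 - (P 2).1 by linarith) h.f9
    have k2 := mul_pos h.f8 (show 0 < (P 8).1 - (P 2).1 by linarith)
    by_contra hcon
    have := mul_nonpos_of_nonpos_of_nonneg (not_lt.1 hcon)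
      (show 0 ≤ (P 9).1 - (P 2).1 by linarith)
    linarith
  have hS : 0 < (P 1).1 - (P 0).1 := by linarith
  have i1 : D (P 0) (P 1) (P 2) * ((P 1).1 - (P 3).1) < D (P 0) (P 1) (P 3) *
      ((P 1).1 - (P 2).1) := by
    have e := height (P 0) (P 1) (P 2) (P 3)
    have r : D (P 2) (P 1) (P 3) = D (P 1) (P 3) (P 2) := by unfold D; ring
    have := mul_pos h.f11 hS
    rw [r] at e
    linarith
  have i2 : D (P 0) (P 1) (P 3) * ((P 0).1 - (P 4).1) < D (P 0) (P 1) (P 4) *
      ((P 0).1 - (P 3).1) := by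
    have e := height' (P 0) (P 1) (P 3) (P 4)
    have := mul_pos f12 hS
    linarith
  have i3 : D (P 0) (P 1) (P 4) * ((P 1).1 - (P 8).1) < D (P 0) (P 1) (P 8) *
      ((P 1).1 - (P 4).1) := by
    have e := height (P 0) (P 1) (P 8) (P 4)
    have := mul_pos (show 0 < -D (P 8) (P 1) (P 4) by linarith) hS
    linarith
  have i4 : D (P 0) (P 1) (P 8) * ((P 0).1 - (P 2).1) < D (P 0) (P 1) (P 2) *
      ((P 0).1 - (P 8).1) := by
    have e := height' (P 0) (P 1) (P 2) (P 8)
    have r : D (P 2) (P 0) (P 8) = -D (P 0) (P 2) (P 8) := by unfold D; ring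
    have := mul_pos g hS
    rw [r] at e
    linarith
  generalize D (P 0) (P 1) (P 2) = yB at *
  generalize D (P 0) (P 1) (P 3) = yC at *
  generalize D (P 0) (P 1) (P 4) = yT at *
  generalize D (P 0) (P 1) (P 8) = y2 at *
  have a1 : 0 < (P 1).1 - (P 3).1 := by linarith
  have a2 : 0 < (P 1).1 - (P 2).1 := by linarith
  have a3 : 0 < (P 0).1 - (P 4).1 := by linarith
  have a4 : 0 < (P 0).1 - (P 3).1 := by linarith
  have a5 : 0 < (P 1).1 - (P 8).1 := by linarith
  have a6 : 0 < (P 1).1 - (P 4).1 := by linarith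
  have a7 : 0 < (P 0).1 - (P 2).1 := by linarith
  have j1 := mul_lt_mul_of_pos_right i1 (mul_pos (mul_pos a3 a5) a7)
  have j2 := mul_lt_mul_of_pos_right i2 (mul_pos (mul_pos a2 a5) a7)
  have j3 := mul_lt_mul_of_pos_right i3 (mul_pos (mul_pos a4 a2) a7)
  have j4 := mul_lt_mul_of_pos_right i4 (mul_pos (mul_pos a6 a4) a2)
  have key : yB * (((P 0).1 - (P 4).1) * ((P 0).1 - (P 2).1) *
      (((P 1).1 - (P 8).1) * ((P 1).1 - (P 3).1))) <
      yB * (((P 0).1 - (P 8).1) * ((P 0).1 - (P 3).1) *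
      (((P 1).1 - (P 4).1) * ((P 1).1 - (P 2).1))) := by linarith
  exact lt_of_mul_lt_mul_left key hB.le

end

/-! ### Transfer to the exact values -/

/-- Change of the coordinate. -/
theorem mob {w z0 z1 z2 z3 z4 z5 : ℝ} (h0 : z0 ≠ w) (h1 : z1 ≠ w) (h2 : z2 < w) (h3 : z3 < w)
    (h4 : z4 < w) (h5 : z5 < w)
    (h : (z2 - z0) * (z4 - z0) * ((z1 - z3) * (z1 - z5)) <
      (z3 - z0) * (z5 - z0) * ((z1 - z2) * (z1 - z4))) :
    (1 / (w - z2) - 1 / (w - z0)) * (1 / (w - z4) - 1 / (w - z0)) *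
      ((1 / (w - z1) - 1 / (w - z3)) * (1 / (w - z1) - 1 / (w - z5))) <
    (1 / (w - z3) - 1 / (w - z0)) * (1 / (w - z5) - 1 / (w - z0)) *
      ((1 / (w - z1) - 1 / (w - z2)) * (1 / (w - z1) - 1 / (w - z4))) := by
  have k0 : w - z0 ≠ 0 := sub_ne_zero.2 h0.symm
  have k1 : w - z1 ≠ 0 := sub_ne_zero.2 h1.symm
  have k2 : 0 < w - z2 := by linarith
  have k3 : 0 < w - z3 := by linarith
  have k4 : 0 < w - z4 := by linarith
  have k5 : 0 < w - z5 := by linarith
  have hK : 0 < (w - z0) ^ 2 * (w - z1) ^ 2 * ((w - z2) * (w - z4) * ((w - z3) * (w - z5))) := by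
    positivity
  have e1 : (1 / (w - z2) - 1 / (w - z0)) * (1 / (w - z4) - 1 / (w - z0)) *
      ((1 / (w - z1) - 1 / (w - z3)) * (1 / (w - z1) - 1 / (w - z5))) =
      ((z2 - z0) * (z4 - z0) * ((z1 - z3) * (z1 - z5))) /
        ((w - z0) ^ 2 * (w - z1) ^ 2 * ((w - z2) * (w - z4) * ((w - z3) * (w - z5)))) := by
    field_simp
    ring
  have e2 : (1 / (w - z3) - 1 / (w - z0)) * (1 / (w - z5) - 1 / (w - z0)) *
      ((1 / (w - z1) - 1 / (w - z2)) * (1 / (w - z1) - 1 / (w - z4))) =
      ((z3 - z0) * (z5 - z0) * ((z1 - z2) * (z1 - z4))) /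
        ((w - z0) ^ 2 * (w - z1) ^ 2 * ((w - z2) * (w - z4) * ((w - z3) * (w - z5)))) := by
    field_simp
    ring
  rw [e1, e2]
  exact div_lt_div_of_pos_right h hK

/-- `(k - a) (l - a) (q - i) (q - j)` and the similar product, for four values. -/
theorem phi (i j k l a q : ℝ) : (i - a) * (j - a) * ((q - k) * (q - l)) -
    (k - a) * (l - a) * ((q - i) * (q - j)) =
    ((k + l - i - j) * a + (i * j - k * l)) * ((q - k) * (q - l)) -
      ((k + l - i - j) * q + (i * j - k * l)) * ((k - a) * (l - a)) := by ring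

/-- Lower gadget of a multiplication. -/
theorem tr_lowM {o l i j k a X C p B q : ℝ} (hli : l < i) (hlj : l < j) (hik : i < k) (hjk : j < k)
    (hex : (k - o) * (l - o) = (i - o) * (j - o)) (hol : o < l)
    (ha : a < o) (hX : l < X) (hC : C < i) (hp : p < j) (haC : a < C) (hap : a < p)
    (hCB : C < B) (hpB : p < B) (hBq : B < q) (hXq : X < q) (haX : a < X)
    (h : (B - a) * (X - a) * ((q - C) * (q - p)) < (C - a) * (p - a) * ((q - B) * (q - X))) :
    B < k := by
  by_contra hcon
  have hkB : k ≤ B := not_lt.1 hcon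
  have hkq : k < q := by linarith
  -- monotonicity
  have s1 : (k - a) * (l - a) * ((q - i) * (q - j)) < (B - a) * (X - a) * ((q - C) * (q - p)) := by
    have t1 : (k - a) * (l - a) ≤ (B - a) * (X - a) :=
      mul_le_mul (by linarith) (by linarith) (by linarith) (by linarith)
    have t2 : (q - i) * (q - j) < (q - C) * (q - p) :=
      mul_lt_mul'' (by linarith) (by linarith) (by linarith) (by linarith)
    exact mul_lt_mul' t1 t2 (mul_nonneg (by linarith) (by linarith))
      (mul_pos (by linarith) (by linarith))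
  have s2 : (C - a) * (p - a) * ((q - B) * (q - X)) < (i - a) * (j - a) * ((q - k) * (q - l)) := by
    have t1 : (C - a) * (p - a) < (i - a) * (j - a) :=
      mul_lt_mul'' (by linarith) (by linarith) (by linarith) (by linarith)
    have t2 : (q - B) * (q - X) ≤ (q - k) * (q - l) :=
      mul_le_mul (by linarith) (by linarith) (by linarith) (by linarith)
    exact mul_lt_mul t1 t2 (mul_pos (by linarith) (by linarith))
      (mul_nonneg (by linarith) (by linarith))
  have e := phi i j k l a q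
  have hd : (k + l - i - j) * k + (i * j - k * l) = (k - i) * (k - j) := by ring
  have ho : (k + l - i - j) * o + (i * j - k * l) = 0 := by linear_combination -hex
  have hpos : 0 < k + l - i - j := by
    have h1 : (k + l - i - j) * (k - o) = (k - i) * (k - j) := by linear_combination hd - ho
    have h2 := mul_pos (show 0 < k - i by linarith) (show 0 < k - j by linarith)
    rw [← h1] at h2
    exact (pos_iff_pos_of_mul_pos h2).2 (by linarith)
  have ea : (k + l - i - j) * a + (i * j - k * l) = -((k + l - i - j) * (o - a)) := by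
    linear_combination ho
  have eq : (k + l - i - j) * q + (i * j - k * l) = (k + l - i - j) * (q - o) := by
    linear_combination ho
  rw [ea, eq] at e
  have r1 := mul_pos (mul_pos hpos (show 0 < o - a by linarith))
    (mul_pos (show 0 < q - k by linarith) (show 0 < q - l by linarith))
  have r2 := mul_pos (mul_pos hpos (show 0 < q - o by linarith))
    (mul_pos (show 0 < k - a by linarith) (show 0 < l - a by linarith))
  linarith

/-- Upper gadget of a multiplication. -/
theorem tr_upM {o l i j k a X C p B q : ℝ} (hli : l < i) (hlj : l < j) (hik : i < k) (hjk : j < k)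
    (hex : (k - o) * (l - o) = (i - o) * (j - o)) (hol : o < l)
    (ha : a < o) (hq : o < q) (hqB : q < B) (hB : B < l) (hC : i < C) (hp : j < p)
    (hpX : p < X) (hCX : C < X)
    (h : (B - a) * (X - a) * ((q - C) * (q - p)) < (C - a) * (p - a) * ((q - B) * (q - X))) :
    k < X := by
  by_contra hcon
  have hkX : X ≤ k := not_lt.1 hcon
  have h' : (B - a) * (X - a) * ((C - q) * (p - q)) < (C - a) * (p - a) * ((B - q) * (X - q)) := by
    linarith
  -- the function `(z - q) / (z - a)` is increasing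
  have mono : ∀ z z' : ℝ, q < z → z ≤ z' → (z - q) * (z' - a) ≤ (z' - q) * (z - a) := by
    intro z z' h1 h2
    nlinarith [mul_nonneg (show 0 ≤ z' - z by linarith) (show 0 ≤ q - a by linarith)]
  have hdiv : ∀ z : ℝ, q < z → 0 < (z - q) / (z - a) := fun z hz =>
    div_pos (by linarith) (by linarith)
  have md : ∀ z z' : ℝ, q < z → z ≤ z' → (z - q) / (z - a) ≤ (z' - q) / (z' - a) := by
    intro z z' h1 h2
    rw [div_le_div_iff₀ (by linarith) (by linarith)]
    exact mono z z' h1 h2
  have g : (C - q) / (C - a) * ((p - q) / (p - a)) < (B - q) / (B - a) * ((X - q) / (X - a)) := by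
    rw [div_mul_div_comm, div_mul_div_comm, div_lt_div_iff₀ (mul_pos (by linarith) (by linarith))
      (mul_pos (by linarith) (by linarith))]
    linarith
  have g' : (i - q) / (i - a) * ((j - q) / (j - a)) < (l - q) / (l - a) * ((k - q) / (k - a)) := by
    calc (i - q) / (i - a) * ((j - q) / (j - a)) ≤ (C - q) / (C - a) * ((p - q) / (p - a)) :=
          mul_le_mul (md _ _ (by linarith) hC.le) (md _ _ (by linarith) hp.le)
            (hdiv _ (by linarith)).le (hdiv _ (by linarith)).le
      _ < (B - q) / (B - a) * ((X - q) / (X - a)) := g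
      _ ≤ (l - q) / (l - a) * ((k - q) / (k - a)) :=
          mul_le_mul (md _ _ (by linarith) hB.le) (md _ _ (by linarith) hkX)
            (hdiv _ (by linarith)).le (hdiv _ (by linarith)).le
  rw [div_mul_div_comm, div_mul_div_comm, div_lt_div_iff₀ (mul_pos (by linarith) (by linarith))
      (mul_pos (by linarith) (by linarith))] at g'
  have e := phi i j k l a q
  have hd : (k + l - i - j) * k + (i * j - k * l) = (k - i) * (k - j) := by ring
  have ho : (k + l - i - j) * o + (i * j - k * l) = 0 := by linear_combination -hex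
  have hpos : 0 < k + l - i - j := by
    have h1 : (k + l - i - j) * (k - o) = (k - i) * (k - j) := by linear_combination hd - ho
    have h2 := mul_pos (show 0 < k - i by linarith) (show 0 < k - j by linarith)
    rw [← h1] at h2
    exact (pos_iff_pos_of_mul_pos h2).2 (by linarith)
  have ea : (k + l - i - j) * a + (i * j - k * l) = -((k + l - i - j) * (o - a)) := by
    linear_combination ho
  have eq : (k + l - i - j) * q + (i * j - k * l) = (k + l - i - j) * (q - o) := by
    linear_combination ho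
  rw [ea, eq] at e
  have r1 := mul_pos (mul_pos hpos (show 0 < o - a by linarith))
    (mul_pos (show 0 < k - q by linarith) (show 0 < l - q by linarith))
  have r2 := mul_pos (mul_pos hpos (show 0 < q - o by linarith))
    (mul_pos (show 0 < k - a by linarith) (show 0 < l - a by linarith))
  linarith

/-- Lower gadget of an addition. -/
theorem tr_lowA {l i j k a X C T B q : ℝ} (hli : l < i) (hlj : l < j) (hik : i < k) (hjk : j < k)
    (hex : k + l = i + j) (hT : T < i) (hB : B < j) (hC : l < C)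
    (hCT : C < T) (hCB : C < B) (hXa : X < a) (haq : a < q)
    (h : (a - T) * (a - B) * ((q - X) * (q - C)) < (a - X) * (a - C) * ((q - T) * (q - B))) :
    X < k := by
  by_contra hcon
  have hkX : k ≤ X := not_lt.1 hcon
  -- the function `(q - z) / (a - z)` is increasing
  have mono : ∀ z z' : ℝ, z' < a → z ≤ z' → (q - z) / (a - z) ≤ (q - z') / (a - z') := by
    intro z z' h1 h2
    rw [div_le_div_iff₀ (by linarith) (by linarith)]
    nlinarith [mul_nonneg (show 0 ≤ z' - z by linarith) (show 0 ≤ q - a by linarith)]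
  have hdiv : ∀ z : ℝ, z < a → 0 < (q - z) / (a - z) := fun z hz =>
    div_pos (by linarith) (by linarith)
  have g : (q - X) / (a - X) * ((q - C) / (a - C)) < (q - T) / (a - T) * ((q - B) / (a - B)) := by
    rw [div_mul_div_comm, div_mul_div_comm, div_lt_div_iff₀ (mul_pos (by linarith) (by linarith))
      (mul_pos (by linarith) (by linarith))]
    linarith
  have g' : (q - k) / (a - k) * ((q - l) / (a - l)) < (q - i) / (a - i) * ((q - j) / (a - j)) := by
    calc (q - k) / (a - k) * ((q - l) / (a - l)) ≤ (q - X) / (a - X) * ((q - C) / (a - C)) :=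
          mul_le_mul (mono _ _ hXa hkX) (mono _ _ (by linarith) hC.le)
            (hdiv _ (by linarith)).le (hdiv _ (by linarith)).le
      _ < (q - T) / (a - T) * ((q - B) / (a - B)) := g
      _ ≤ (q - i) / (a - i) * ((q - j) / (a - j)) :=
          mul_le_mul (mono _ _ (by linarith) hT.le) (mono _ _ (by linarith) hB.le)
            (hdiv _ (by linarith)).le (hdiv _ (by linarith)).le
  rw [div_mul_div_comm, div_mul_div_comm, div_lt_div_iff₀ (mul_pos (by linarith) (by linarith))
      (mul_pos (by linarith) (by linarith))] at g'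
  have e := phi i j k l a q
  have hs : k + l - i - j = 0 := by linarith
  have hd : i * j - k * l = (k - i) * (k - j) := by linear_combination (-k) * hs
  rw [hs, hd] at e
  have h2 := mul_pos (show 0 < k - i by linarith) (show 0 < k - j by linarith)
  have h3 : (a - k) * (a - l) < (q - k) * (q - l) :=
    mul_lt_mul'' (by linarith) (by linarith) (by linarith) (by linarith)
  have h4 := mul_pos h2 (show 0 < (q - k) * (q - l) - (a - k) * (a - l) by linarith)
  nlinarith

/-- Upper gadget of an addition. -/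
theorem tr_upA {l i j k a X C T B q : ℝ} (hli : l < i) (hlj : l < j) (hik : i < k) (hjk : j < k)
    (hex : k + l = i + j) (hT : i < T) (hB : j < B) (hX : X < l)
    (hTC : T < C) (hBC : B < C) (haX : a < X) (hqa : q < a)
    (h : (a - T) * (a - B) * ((q - X) * (q - C)) < (a - X) * (a - C) * ((q - T) * (q - B))) :
    k < C := by
  by_contra hcon
  have hkC : C ≤ k := not_lt.1 hcon
  -- the function `(z - q) / (z - a)` is decreasing
  have mono : ∀ z z' : ℝ, a < z → z ≤ z' → (z' - q) / (z' - a) ≤ (z - q) / (z - a) := by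
    intro z z' h1 h2
    rw [div_le_div_iff₀ (by linarith) (by linarith)]
    nlinarith [mul_nonneg (show 0 ≤ z' - z by linarith) (show 0 ≤ a - q by linarith)]
  have hdiv : ∀ z : ℝ, a < z → 0 < (z - q) / (z - a) := fun z hz =>
    div_pos (by linarith) (by linarith)
  have g : (X - q) / (X - a) * ((C - q) / (C - a)) < (T - q) / (T - a) * ((B - q) / (B - a)) := by
    rw [div_mul_div_comm, div_mul_div_comm, div_lt_div_iff₀ (mul_pos (by linarith) (by linarith))
      (mul_pos (by linarith) (by linarith))]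
    linarith
  have g' : (l - q) / (l - a) * ((k - q) / (k - a)) < (i - q) / (i - a) * ((j - q) / (j - a)) := by
    calc (l - q) / (l - a) * ((k - q) / (k - a)) ≤ (X - q) / (X - a) * ((C - q) / (C - a)) :=
          mul_le_mul (mono _ _ haX hX.le) (mono _ _ (by linarith) hkC)
            (hdiv _ (by linarith)).le (hdiv _ (by linarith)).le
      _ < (T - q) / (T - a) * ((B - q) / (B - a)) := g
      _ ≤ (i - q) / (i - a) * ((j - q) / (j - a)) :=
          mul_le_mul (mono _ _ (by linarith) hT.le) (mono _ _ (by linarith) hB.le)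
            (hdiv _ (by linarith)).le (hdiv _ (by linarith)).le
  rw [div_mul_div_comm, div_mul_div_comm, div_lt_div_iff₀ (mul_pos (by linarith) (by linarith))
      (mul_pos (by linarith) (by linarith))] at g'
  have e := phi i j k l a q
  have hs : k + l - i - j = 0 := by linarith
  have hd : i * j - k * l = (k - i) * (k - j) := by linear_combination (-k) * hs
  rw [hs, hd] at e
  have h2 := mul_pos (show 0 < k - i by linarith) (show 0 < k - j by linarith)
  have h3 : (k - a) * (l - a) < (k - q) * (l - q) :=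
    mul_lt_mul'' (by linarith) (by linarith) (by linarith) (by linarith)
  have h4 := mul_pos h2 (show 0 < (k - q) * (l - q) - (k - a) * (l - a) by linarith)
  nlinarith

end Pool.Agent.NPC.ER.SGE
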