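import Pool.Agent.TH663.SGE.Sound1
import Pool.Agent.TH663.SGE.Ineq

/-!
# Soundness: from coordinates to the values
-/

namespace Pool.Agent.NPC.ER.SGE

open Pool.Agent.NPC.ER.GPP
open Pool.Agent.NPC.ER.Oslp (Ins OSat Run)

/-! ### The order of the gadgets -/

theorem zipIdx_pairwise {α : Type} (l : List α) : l.zipIdx.Pairwise fun a b => a.2 < b.2 := by
  rw [List.pairwise_iff_getElem]
  intro i j hi hj hij
  simp only [List.getElem_zipIdx]
  omega

theorem gadOf_idx {N t : ℕ} {c : Ins} {G : Gad} (h : G ∈ gadOf N t c) :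
    G.1 = 2 * t ∨ G.1 = 2 * t + 1 := by
  cases c with
  | none => simp [gadOf] at h
  | some c =>
    simp only [gadOf] at h
    split_ifs at h <;> simp only [List.mem_cons, List.not_mem_nil, or_false] at h <;>
      rcases h with rfl | rfl <;> simp

theorem gadOf_pairwise {N t : ℕ} {c : Ins} : (gadOf N t c).Pairwise fun a b => a.1 < b.1 := by
  cases c with
  | none => simp [gadOf]
  | some c =>
    simp only [gadOf]
    split_ifs <;> simp

theorem gads_pairwise {N : ℕ} {p : List Ins} : (gads N p).Pairwise fun a b => a.1 < b.1 := by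
  unfold gads
  rw [List.pairwise_flatMap]
  refine ⟨fun a _ => gadOf_pairwise, (zipIdx_pairwise p).imp fun {a b} hab x hx y hy => ?_⟩
  rcases gadOf_idx hx with h1 | h1 <;> rcases gadOf_idx hy with h2 | h2 <;> omega

theorem rel_of_pairwise {Gs : List Gad} {S : Gad → Gad → Prop}
    (h1 : Gs.Pairwise fun a b => a.1 < b.1) (h2 : Gs.Pairwise S) {G G' : Gad} (hG : G ∈ Gs)
    (hG' : G' ∈ Gs) (h : G.1 < G'.1) : S G G' := by
  have h3 : Gs.Pairwise fun a b => (a.1 < b.1 → S a b) ∧ (b.1 < a.1 → S b a) := by
    have := h1.and h2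
    refine this.imp fun {a b} hab => ⟨fun _ => hab.2, fun h' => ?_⟩
    have := hab.1
    omega
  haveI : Std.Symm (fun a b : Gad => (a.1 < b.1 → S a b) ∧ (b.1 < a.1 → S b a)) :=
    ⟨fun a b hab => ⟨hab.2, hab.1⟩⟩
  have h4 := List.Pairwise.forall_of_forall (R := fun a b : Gad => (a.1 < b.1 → S a b) ∧
    (b.1 < a.1 → S b a))
    (fun a _ => ⟨fun h => absurd h (lt_irrefl _), fun h => absurd h (lt_irrefl _)⟩) h3
  exact (h4 hG hG').1 h

section

variable {Gs : List Gad} {N : ℕ} {R : ℕ → ℕ → Prop}

theorem grp_pairwise (h : (ord Gs N).Pairwise R) {n : ℕ} (hn : n ≤ N + 1) :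
    (grp Gs n).Pairwise R := h.sublist (ord_infix hn).sublist

theorem mem_items {n : ℕ} {s : Bool} {G : Gad} {b : Blk} (hb : b ∈ G.2.2) (h1 : b.1 = n)
    (h2 : b.2.1 = s) {r : ℕ} (hr : r ∈ b.2.2) : gl G.1 r ∈ items n s G :=
  (items_infix hb h1 h2).subset (List.mem_map_of_mem hr)

/-- On the left side of a value the gadgets with larger numbers are first. -/
theorem crossL (hs : Gs.Pairwise fun a b => a.1 < b.1) (h : (ord Gs N).Pairwise R) {n : ℕ}
    (hn : n ≤ N + 1) {G G' : Gad} (hG : G ∈ Gs) (hG' : G' ∈ Gs) (hlt : G.1 < G'.1) {u v : ℕ}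
    (hu : u ∈ items n false G') (hv : v ∈ items n false G) : R u v := by
  have h1 := grp_pairwise h hn
  unfold grp at h1
  rw [List.pairwise_append, List.pairwise_flatMap, List.pairwise_reverse] at h1
  have h2 := h1.1.2
  exact rel_of_pairwise hs h2 hG hG' hlt u hu v hv

/-- On the right side of a value the gadgets with smaller numbers are first. -/
theorem crossR (hs : Gs.Pairwise fun a b => a.1 < b.1) (h : (ord Gs N).Pairwise R) {n : ℕ}
    (hn : n ≤ N + 1) {G G' : Gad} (hG : G ∈ Gs) (hG' : G' ∈ Gs) (hlt : G.1 < G'.1) {u v : ℕ}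
    (hu : u ∈ items n true G) (hv : v ∈ items n true G') : R u v := by
  have h1 := grp_pairwise h hn
  unfold grp at h1
  rw [List.pairwise_append, List.pairwise_cons, List.pairwise_flatMap (l := Gs)] at h1
  exact rel_of_pairwise hs h1.2.1.2.2 hG hG' hlt u hu v hv

theorem leftEl (h : (ord Gs N).Pairwise R) {n : ℕ} (hn : n ≤ N + 1) {G : Gad} (hG : G ∈ Gs)
    {u : ℕ} (hu : u ∈ items n false G) : R u (el n) := by
  have h1 := grp_pairwise h hn
  unfold grp at h1
  rw [List.pairwise_append] at h1
  exact h1.2.2 u (List.mem_flatMap.2 ⟨G, List.mem_reverse.2 hG, hu⟩) _ (by simp)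

theorem rightEl (h : (ord Gs N).Pairwise R) {n : ℕ} (hn : n ≤ N + 1) {G : Gad} (hG : G ∈ Gs)
    {u : ℕ} (hu : u ∈ items n true G) : R (el n) u := by
  have h1 := grp_pairwise h hn
  unfold grp at h1
  rw [List.pairwise_append, List.pairwise_cons] at h1
  exact h1.2.1.1 u (List.mem_flatMap.2 ⟨G, hG, hu⟩)

end

/-! ### The values -/

/-- The values of a program, given the free values. -/
noncomputable def val (p : List Ins) (e : ℕ → ℝ) (k : ℕ) : ℝ :=
  match p[k - 2]? with
  | some (some (o, l, i, j)) =>
    if h : 2 ≤ k ∧ o < k ∧ l < k ∧ i < k ∧ j < k then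
      if o = 0 then val p e i + val p e j - val p e l
      else val p e o + (val p e i - val p e o) * (val p e j - val p e o) /
        (val p e l - val p e o)
    else e k
  | _ => e k
termination_by k
decreasing_by all_goals omega

theorem val_free {p : List Ins} {e : ℕ → ℝ} {k : ℕ}
    (h : k < 2 ∨ ∀ c, p[k - 2]? ≠ some (some c)) : val p e k = e k := by
  rw [val]
  split
  · next o l i j h1 =>
    rcases h with h | h
    · rw [dif_neg (by omega)]
    · exact absurd h1 (h _)
  · rfl

theorem val_add {p : List Ins} {e : ℕ → ℝ} {k l i j : ℕ} (h : p[k - 2]? = some (some (0, l, i, j)))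
    (hk : 2 ≤ k) (hl : l < k) (hi : i < k) (hj : j < k) :
    val p e k = val p e i + val p e j - val p e l := by
  rw [val, h]
  simp only
  rw [dif_pos ⟨hk, by omega, hl, hi, hj⟩]
  simp

theorem val_mul {p : List Ins} {e : ℕ → ℝ} {k o l i j : ℕ}
    (h : p[k - 2]? = some (some (o, l, i, j))) (hk : 2 ≤ k) (ho0 : 0 < o) (ho : o < k)
    (hl : l < k) (hi : i < k) (hj : j < k) :
    val p e k = val p e o + (val p e i - val p e o) * (val p e j - val p e o) /
      (val p e l - val p e o) := by
  rw [val, h]
  simp only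
  rw [dif_pos ⟨hk, ho, hl, hi, hj⟩, if_neg (by omega)]

theorem V_lt {w x y : ℝ} (h : x < y) (hy : y < w) : 1 / (w - x) < 1 / (w - y) :=
  one_div_lt_one_div_of_lt (by linarith) (by linarith)

/-- The invariant. -/
structure Inv (Gs : List Gad) (X : ℕ → ℝ) (w : ℝ) (v : ℝ) (k : ℕ) : Prop where
  pos : 0 < v
  lft : ∀ G ∈ Gs, 2 * k - 2 ≤ G.1 → ∀ z ∈ items k false G, X z < w ∧ 1 / (w - X z) < v
  rgt : ∀ G ∈ Gs, 2 * k - 2 ≤ G.1 → ∀ z ∈ items k true G, v < 1 / (w - X z) ∧ X z < w
  zl : ∃ z ∈ grp Gs k, X z < w ∧ 1 / (w - X z) ≤ v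
  zr : ∃ z ∈ grp Gs k, X z < w ∧ v ≤ 1 / (w - X z)

theorem core_of {P : ℕ → ℝ × ℝ} (h : ∀ T ∈ W1t ++ Ch1, 0 < D (P T.1) (P T.2.1) (P T.2.2))
    (g : GO1 fun r => (P r).1) : Core P :=
  ⟨h (0, 1, 5) (by decide), h (5, 1, 6) (by decide), h (1, 2, 6) (by decide),
    h (2, 0, 5) (by decide), h (5, 6, 7) (by decide), h (2, 5, 7) (by decide),
    h (6, 2, 7) (by decide), h (0, 2, 9) (by decide), h (2, 8, 9) (by decide),
    h (9, 8, 4) (by decide), h (1, 3, 2) (by decide), h (8, 6, 9) (by decide),
    h (8, 6, 5) (by decide), lt_trans g.a4 g.a6, g.a7, g.a8, lt_trans g.a9 g.a10,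
    lt_trans g.a11 (lt_trans g.a13 g.a14)⟩

theorem core_of' {P : ℕ → ℝ × ℝ} (h : ∀ T ∈ W2t ++ Ch2, 0 < D (P T.1) (P T.2.1) (P T.2.2))
    (g : GO2 fun r => (P r).1) : Core P :=
  ⟨h (0, 1, 5) (by decide), h (5, 1, 6) (by decide), h (1, 2, 6) (by decide),
    h (2, 0, 5) (by decide), h (5, 6, 7) (by decide), h (2, 5, 7) (by decide),
    h (6, 2, 7) (by decide), h (0, 2, 9) (by decide), h (2, 8, 9) (by decide),
    h (9, 8, 4) (by decide), h (1, 3, 2) (by decide), h (8, 6, 9) (by decide),
    h (8, 6, 5) (by decide), g.a4, g.a7, g.a8, lt_trans g.a9 g.a10, lt_trans g.a11 g.a12⟩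

theorem D_sg {s : ℝ} (hs : s = 1 ∨ s = -1) (x1 y1 x2 y2 x3 y3 : ℝ) :
    D (s * x1, y1) (s * x2, y2) (s * x3, y3) = s * D (x1, y1) (x2, y2) (x3, y3) := by
  rcases hs with rfl | rfl <;> unfold D <;> ring

/-- The inequality of a gadget of the first type. -/
theorem gad1 {s : ℝ} (hs : s = 1 ∨ s = -1) {x y : ℕ → ℝ} (g : GO1 fun r => s * x r)
    (h : ∀ T ∈ W1t ++ Ch1, 0 < s * D (x T.1, y T.1) (x T.2.1, y T.2.1) (x T.2.2, y T.2.2)) :
    (x 2 - x 0) * (x 12 - x 0) * ((x 1 - x 3) * (x 1 - x 5)) <
      (x 3 - x 0) * (x 5 - x 0) * ((x 1 - x 2) * (x 1 - x 12)) := by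
  have h' : ∀ T ∈ W1t ++ Ch1, 0 < D ((fun r => ((s * x r, y r) : ℝ × ℝ)) T.1)
      ((fun r => ((s * x r, y r) : ℝ × ℝ)) T.2.1) ((fun r => ((s * x r, y r) : ℝ × ℝ)) T.2.2) := by
    intro T hT
    simp only
    rw [D_sg hs]
    exact h T hT
  have hc := core_of (P := fun r => (s * x r, y r)) h' g
  have := ineq1 hc (h' (0, 3, 12) (by decide)) (h' (4, 8, 11) (by decide))
    (h' (12, 11, 4) (by decide)) g.a2 g.a3 g.a4 g.a6 (lt_trans g.a2 (lt_trans g.a3
      (lt_trans g.a4 g.a5))) g.a12 (lt_trans g.a13 g.a14)
  simp only at this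
  rcases hs with rfl | rfl
  · linarith
  · linarith

/-- The inequality of a gadget of the second type. -/
theorem gad2 {s : ℝ} (hs : s = 1 ∨ s = -1) {x y : ℕ → ℝ} (g : GO2 fun r => s * x r)
    (h : ∀ T ∈ W2t ++ Ch2, 0 < s * D (x T.1, y T.1) (x T.2.1, y T.2.1) (x T.2.2, y T.2.2)) :
    (x 4 - x 0) * (x 2 - x 0) * ((x 1 - x 8) * (x 1 - x 3)) <
      (x 8 - x 0) * (x 3 - x 0) * ((x 1 - x 4) * (x 1 - x 2)) := by
  have h' : ∀ T ∈ W2t ++ Ch2, 0 < D ((fun r => ((s * x r, y r) : ℝ × ℝ)) T.1)
      ((fun r => ((s * x r, y r) : ℝ × ℝ)) T.2.1) ((fun r => ((s * x r, y r) : ℝ × ℝ)) T.2.2) := by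
    intro T hT
    simp only
    rw [D_sg hs]
    exact h T hT
  have hc := core_of' (P := fun r => (s * x r, y r)) h' g
  have := ineq2 hc (h' (3, 0, 4) (by decide)) g.a2 g.a3 g.a5 g.a11 g.a12
  simp only at this
  rcases hs with rfl | rfl
  · linarith
  · linarith

/-- **Soundness.** -/
theorem osat_of_weak {p : List Ins} (hw : Oslp.WF 2 p)
    (h : Weak (gads (p.length + 1) p) (ord (gads (p.length + 1) p) (p.length + 1))) : OSat p := by
  obtain ⟨X, Y, hX, hT⟩ := h
  set N := p.length + 1 with hN
  set Gs := gads N p with hGs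
  have hk : ∀ G ∈ Gs, Kind N p G := fun G hG => kind hw hG
  have hsort : Gs.Pairwise fun a b => a.1 < b.1 := gads_pairwise
  set w := X (el (N + 1)) with hwdef
  set e : ℕ → ℝ := fun k => 1 / (w - X (el k)) with he
  set v := val p e with hv
  -- all vertices of the groups up to `N` are on the left of `w`
  have hltw : ∀ n ≤ N, ∀ z ∈ grp Gs n, X z < w := fun n hn z hz =>
    grp_cross (R := fun u v => X u < X v) hX (show n < N + 1 by omega) le_rfl hz el_mem
  have hltw' : ∀ G ∈ Gs, ∀ z ∈ items (N + 1) false G, X z < w := fun G hG z hz =>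
    leftEl (R := fun u v => X u < X v) hX le_rfl hG hz
  have hgtw : ∀ G ∈ Gs, ∀ z ∈ items (N + 1) true G, w < X z := fun G hG z hz =>
    rightEl (R := fun u v => X u < X v) hX le_rfl hG hz
  have hig : ∀ {n s G z}, G ∈ Gs → z ∈ items n s G → z ∈ grp Gs n := by
    intro n s G z hG hz
    unfold grp
    cases s with
    | false => exact List.mem_append_left _ (List.mem_flatMap.2 ⟨G, List.mem_reverse.2 hG, hz⟩)
    | true =>
      exact List.mem_append_right _ (List.mem_cons_of_mem _ (List.mem_flatMap.2 ⟨G, hG, hz⟩))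
  have hmono : ∀ m m', m < m' → m' ≤ N → Inv Gs X w (v m) m → Inv Gs X w (v m') m' →
      v m < v m' := by
    intro m m' h1 h2 I I'
    obtain ⟨z, hz, z1, z2⟩ := I.zr
    obtain ⟨z', hz', z1', z2'⟩ := I'.zl
    have := grp_cross (R := fun u v => X u < X v) hX h1 (by omega) hz hz'
    have := V_lt this z1'
    linarith
  have key : ∀ k, 1 ≤ k → k ≤ N → Inv Gs X w (v k) k := by
    intro k
    induction k using Nat.strong_induction_on with
    | _ k ih =>
    intro hk1 hkN
    by_cases hfree : k < 2 ∨ ∀ c, p[k - 2]? ≠ some (some c)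
    · -- a free value
      have hvk : v k = 1 / (w - X (el k)) := val_free hfree
      have hel : X (el k) < w := hltw k hkN _ el_mem
      refine ⟨?_, ?_, ?_, ⟨el k, el_mem, hel, hvk.ge⟩, ⟨el k, el_mem, hel, hvk.le⟩⟩
      · rw [hvk]; exact one_div_pos.2 (by linarith)
      · intro G hG _ z hz
        rw [hvk]
        exact ⟨hltw k hkN z (hig hG hz), V_lt (leftEl (R := fun u v => X u < X v) hX (by omega)
          hG hz) hel⟩
      · intro G hG _ z hz
        rw [hvk]
        have hzw := hltw k hkN z (hig hG hz)
        exact ⟨V_lt (rightEl (R := fun u v => X u < X v) hX (by omega) hG hz) hzw, hzw⟩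
    · push Not at hfree
      obtain ⟨hk2, ⟨o, l, i, j⟩, hp⟩ := hfree
      obtain ⟨t, rfl⟩ : ∃ t, k = t + 2 := ⟨k - 2, by omega⟩
      have hp' : p[t]? = some (some (o, l, i, j)) := by simpa using hp
      obtain ⟨w1, w2, w3, w4, w5⟩ := Oslp.wf_get hw t _ hp'
      have Il := ih l (by omega) (by omega) (by omega)
      have Ii := ih i (by omega) (by omega) (by omega)
      have Ij := ih j (by omega) (by omega) (by omega)
      have mli : v l < v i := hmono l i w2 (by omega) Il Ii
      have mlj : v l < v j := hmono l j w3 (by omega) Il Ij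
      -- the conclusion from two vertices
      have fin : ∀ (G G' : Gad) (z z' : ℕ), G ∈ Gs → G' ∈ Gs → G.1 = 2 * t → G'.1 = 2 * t + 1 →
          z ∈ items (t + 2) false G → z' ∈ items (t + 2) true G' → 0 < v (t + 2) →
          1 / (w - X z) < v (t + 2) → v (t + 2) < 1 / (w - X z') →
          Inv Gs X w (v (t + 2)) (t + 2) := by
        intro G G' z z' hG hG' g1 g2 hz hz' hpos h1 h2
        have hzw := hltw _ hkN z (hig hG hz)
        have hzw' := hltw _ hkN z' (hig hG' hz')
        refine ⟨hpos, ?_, ?_, ⟨z, hig hG hz, hzw, h1.le⟩, ⟨z', hig hG' hz', hzw', h2.le⟩⟩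
        · intro G1 hG1 hi1 u hu
          have := crossL (R := fun u v => X u < X v) hsort hX (by omega) hG hG1 (by omega) hu hz
          exact ⟨hltw _ hkN u (hig hG1 hu), lt_trans (V_lt this hzw) h1⟩
        · intro G1 hG1 hi1 u hu
          have huw := hltw _ hkN u (hig hG1 hu)
          have := crossR (R := fun u v => X u < X v) hsort hX (by omega) hG' hG1 (by omega) hz' hu
          exact ⟨lt_trans h2 (V_lt this huw), huw⟩
      by_cases ho : o = 0
      · -- addition
        subst ho
        have hvk : v (t + 2) = v i + v j - v l :=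
          val_add (by simpa using hp') (by omega) (by omega) (by omega) (by omega)
        have hik : v i < v (t + 2) := by rw [hvk]; linarith
        have hjk : v j < v (t + 2) := by rw [hvk]; linarith
        have hex : v (t + 2) + v l = v i + v j := by rw [hvk]; ring
        have hG1 : ((2 * t, false, lowA N (t + 2) l i j) : Gad) ∈ Gs :=
          gads_mem hp' (by simp [gadOf])
        have hG2 : ((2 * t + 1, false, upA (t + 2) l i j) : Gad) ∈ Gs :=
          gads_mem hp' (by simp [gadOf])
        refine fin _ _ (gl (2 * t) 8) (gl (2 * t + 1) 3) hG1 hG2 rfl rfl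
          (mem_items (b := (t + 2, false, [8, 9, 5, 7, 6])) (by simp [lowA]) rfl rfl (by simp))
          (mem_items (b := (t + 2, true, [3, 10])) (by simp [upA]) rfl rfl (by simp))
          (lt_trans Ij.pos hjk) ?_ ?_
        · -- lower gadget
          have go := (go_of hG1 (hk _ hG1) hX).2 rfl
          have hd := hT _ hG1
          have hq := gad2 (sg_cases _) (x := fun r => X (gl (2 * t) r))
            (y := fun r => Y (gl (2 * t) r)) go hd
          simp only [sg_even, one_mul] at go
          obtain ⟨a1, a2, a3, a4, a5, a7, a8, a9, a10, a11, a12⟩ := go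
          have m1 := hltw' _ hG1 (gl (2 * t) 1)
            (mem_items (b := (N + 1, false, [0, 1])) (by simp [lowA]) rfl rfl (by simp))
          have m4 := Ii.lft _ hG1 (by simp only; omega) (gl (2 * t) 4)
            (mem_items (b := (i, false, [4])) (by simp [lowA]) rfl rfl (by simp))
          have m2 := Ij.lft _ hG1 (by simp only; omega) (gl (2 * t) 2)
            (mem_items (b := (j, false, [2])) (by simp [lowA]) rfl rfl (by simp))
          have m3 := Il.rgt _ hG1 (by simp only; omega) (gl (2 * t) 3)
            (mem_items (b := (l, true, [10, 3])) (by simp [lowA]) rfl rfl (by simp))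
          have hmob := mob (w := w) (z0 := X (gl (2 * t) 0)) (z1 := X (gl (2 * t) 1))
            (z2 := X (gl (2 * t) 4)) (z3 := X (gl (2 * t) 8)) (z4 := X (gl (2 * t) 2))
            (z5 := X (gl (2 * t) 3)) (by linarith) (by linarith) (by linarith) (by linarith)
            (by linarith) (by linarith) hq
          refine tr_lowA mli mlj hik hjk hex m4.2 m2.2 m3.1 (V_lt a2 (by linarith))
            (V_lt a3 (by linarith)) (V_lt (y := X (gl (2 * t) 0)) (by linarith) (by linarith))
            (V_lt a12 (by linarith)) ?_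
          linarith
        · -- upper gadget
          have go := (go_of hG2 (hk _ hG2) hX).2 rfl
          have hd := hT _ hG2
          have hq := gad2 (sg_cases _) (x := fun r => X (gl (2 * t + 1) r))
            (y := fun r => Y (gl (2 * t + 1) r)) go hd
          simp only [sg_odd, neg_mul, one_mul] at go
          obtain ⟨a1, a2, a3, a4, a5, a7, a8, a9, a10, a11, a12⟩ := go
          have m3 := hltw _ hkN (gl (2 * t + 1) 3) (hig hG2
            (mem_items (b := (t + 2, true, [3, 10])) (by simp [upA]) rfl rfl (by simp)))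
          have m4 := Ii.rgt _ hG2 (by simp only; omega) (gl (2 * t + 1) 4)
            (mem_items (b := (i, true, [4])) (by simp [upA]) rfl rfl (by simp))
          have m2 := Ij.rgt _ hG2 (by simp only; omega) (gl (2 * t + 1) 2)
            (mem_items (b := (j, true, [2])) (by simp [upA]) rfl rfl (by simp))
          have m8 := Il.lft _ hG2 (by simp only; omega) (gl (2 * t + 1) 8)
            (mem_items (b := (l, false, [6, 7, 5, 9, 8])) (by simp [upA]) rfl rfl (by simp))
          have hmob := mob (w := w) (z0 := X (gl (2 * t + 1) 0)) (z1 := X (gl (2 * t + 1) 1))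
            (z2 := X (gl (2 * t + 1) 4)) (z3 := X (gl (2 * t + 1) 8))
            (z4 := X (gl (2 * t + 1) 2)) (z5 := X (gl (2 * t + 1) 3)) (by linarith) (by linarith)
            (by linarith) (by linarith) (by linarith) (by linarith) hq
          refine tr_upA mli mlj hik hjk hex m4.1 m2.1 m8.2
            (V_lt (x := X (gl (2 * t + 1) 4)) (y := X (gl (2 * t + 1) 3)) (by linarith)
              (by linarith))
            (V_lt (x := X (gl (2 * t + 1) 2)) (y := X (gl (2 * t + 1) 3)) (by linarith)
              (by linarith))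
            (V_lt (x := X (gl (2 * t + 1) 0)) (y := X (gl (2 * t + 1) 8)) (by linarith)
              (by linarith))
            (V_lt (x := X (gl (2 * t + 1) 1)) (y := X (gl (2 * t + 1) 0)) (by linarith)
              (by linarith)) ?_
          linarith
      · -- multiplication
        have ho' : 0 < o := Nat.pos_of_ne_zero ho
        have Io := ih o (by omega) (by omega) (by omega)
        have mol : v o < v l := hmono o l w1 (by omega) Io Il
        have hvk : v (t + 2) = v o + (v i - v o) * (v j - v o) / (v l - v o) :=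
          val_mul (by simpa using hp') (by omega) ho' (by omega) (by omega) (by omega)
            (by omega)
        have hlo : 0 < v l - v o := by linarith
        have hex : (v (t + 2) - v o) * (v l - v o) = (v i - v o) * (v j - v o) := by
          rw [hvk, add_sub_cancel_left, div_mul_cancel₀ _ hlo.ne']
        have hjk : v j < v (t + 2) := by
          by_contra hcon
          have h1 : (v (t + 2) - v o) * (v l - v o) ≤ (v j - v o) * (v l - v o) :=
            mul_le_mul_of_nonneg_right (by linarith) hlo.le
          have h2 : (v j - v o) * (v l - v o) < (v j - v o) * (v i - v o) :=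
            mul_lt_mul_of_pos_left (by linarith) (by linarith)
          linarith
        have hik : v i < v (t + 2) := by
          by_contra hcon
          have h1 : (v (t + 2) - v o) * (v l - v o) ≤ (v i - v o) * (v l - v o) :=
            mul_le_mul_of_nonneg_right (by linarith) hlo.le
          have h2 : (v i - v o) * (v l - v o) < (v i - v o) * (v j - v o) :=
            mul_lt_mul_of_pos_left (by linarith) (by linarith)
          linarith
        have hG1 : ((2 * t, true, lowM N (t + 2) o l i j) : Gad) ∈ Gs :=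
          gads_mem hp' (by simp [gadOf, ho])
        have hG2 : ((2 * t + 1, true, upM N (t + 2) o l i j) : Gad) ∈ Gs :=
          gads_mem hp' (by simp [gadOf, ho])
        refine fin _ _ (gl (2 * t) 2) (gl (2 * t + 1) 12) hG1 hG2 rfl rfl
          (mem_items (b := (t + 2, false, [2])) (by simp [lowM]) rfl rfl (by simp))
          (mem_items (b := (t + 2, true, [11, 4, 12])) (by simp [upM]) rfl rfl (by simp))
          (lt_trans Ij.pos hjk) ?_ ?_
        · -- lower gadget
          have go := (go_of hG1 (hk _ hG1) hX).1 rfl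
          have hd := hT _ hG1
          have hq := gad1 (sg_cases _) (x := fun r => X (gl (2 * t) r))
            (y := fun r => Y (gl (2 * t) r)) go hd
          simp only [sg_even, one_mul] at go
          obtain ⟨a1, a2, a3, a4, a5, a6, a7, a8, a9, a10, a11, a12, a13, a14⟩ := go
          have m1 := hltw' _ hG1 (gl (2 * t) 1)
            (mem_items (b := (N + 1, false, [13, 1])) (by simp [lowM]) rfl rfl (by simp))
          have m0 := Io.lft _ hG1 (by simp only; omega) (gl (2 * t) 0)
            (mem_items (b := (o, false, [10, 0])) (by simp [lowM]) rfl rfl (by simp))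
          have m12 := Il.rgt _ hG1 (by simp only; omega) (gl (2 * t) 12)
            (mem_items (b := (l, true, [12, 4, 11])) (by simp [lowM]) rfl rfl (by simp))
          have m3 := Ii.lft _ hG1 (by simp only; omega) (gl (2 * t) 3)
            (mem_items (b := (i, false, [3])) (by simp [lowM]) rfl rfl (by simp))
          have m5 := Ij.lft _ hG1 (by simp only; omega) (gl (2 * t) 5)
            (mem_items (b := (j, false, [8, 9, 5, 7, 6])) (by simp [lowM]) rfl rfl (by simp))
          have hmob := mob (w := w) (z0 := X (gl (2 * t) 0)) (z1 := X (gl (2 * t) 1))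
            (z2 := X (gl (2 * t) 2)) (z3 := X (gl (2 * t) 3)) (z4 := X (gl (2 * t) 12))
            (z5 := X (gl (2 * t) 5)) (by linarith) (by linarith) (by linarith) (by linarith)
            (by linarith) (by linarith) hq
          exact tr_lowM mli mlj hik hjk hex mol m0.2 m12.1 m3.2 m5.2
            (V_lt (y := X (gl (2 * t) 3)) (by linarith) (by linarith))
            (V_lt (y := X (gl (2 * t) 5)) (by linarith) (by linarith))
            (V_lt (y := X (gl (2 * t) 2)) (by linarith) (by linarith))
            (V_lt (y := X (gl (2 * t) 2)) (by linarith) (by linarith))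
            (V_lt (y := X (gl (2 * t) 1)) (by linarith) (by linarith))
            (V_lt (y := X (gl (2 * t) 1)) (by linarith) (by linarith))
            (V_lt (y := X (gl (2 * t) 12)) (by linarith) (by linarith)) hmob
        · -- upper gadget
          have go := (go_of hG2 (hk _ hG2) hX).1 rfl
          have hd := hT _ hG2
          have hq := gad1 (sg_cases _) (x := fun r => X (gl (2 * t + 1) r))
            (y := fun r => Y (gl (2 * t + 1) r)) go hd
          simp only [sg_odd, neg_mul, one_mul] at go
          obtain ⟨a1, a2, a3, a4, a5, a6, a7, a8, a9, a10, a11, a12, a13, a14⟩ := go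
          have m0 := hgtw _ hG2 (gl (2 * t + 1) 0)
            (mem_items (b := (N + 1, true, [0, 10])) (by simp [upM]) rfl rfl (by simp))
          have m12 := hltw _ hkN (gl (2 * t + 1) 12) (hig hG2
            (mem_items (b := (t + 2, true, [11, 4, 12])) (by simp [upM]) rfl rfl (by simp)))
          have m1 := Io.rgt _ hG2 (by simp only; omega) (gl (2 * t + 1) 1)
            (mem_items (b := (o, true, [1, 13])) (by simp [upM]) rfl rfl (by simp))
          have m2 := Il.lft _ hG2 (by simp only; omega) (gl (2 * t + 1) 2)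
            (mem_items (b := (l, false, [2])) (by simp [upM]) rfl rfl (by simp))
          have m3 := Ii.rgt _ hG2 (by simp only; omega) (gl (2 * t + 1) 3)
            (mem_items (b := (i, true, [3])) (by simp [upM]) rfl rfl (by simp))
          have m5 := Ij.rgt _ hG2 (by simp only; omega) (gl (2 * t + 1) 5)
            (mem_items (b := (j, true, [6, 7, 5, 9, 8])) (by simp [upM]) rfl rfl (by simp))
          have hV0 : 1 / (w - X (gl (2 * t + 1) 0)) < 0 := one_div_neg.2 (by linarith)
          have hmob := mob (w := w) (z0 := X (gl (2 * t + 1) 0)) (z1 := X (gl (2 * t + 1) 1))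
            (z2 := X (gl (2 * t + 1) 2)) (z3 := X (gl (2 * t + 1) 3))
            (z4 := X (gl (2 * t + 1) 12)) (z5 := X (gl (2 * t + 1) 5)) (by linarith)
            (by linarith) (by linarith) (by linarith) (by linarith) (by linarith) hq
          exact tr_upM mli mlj hik hjk hex mol (by linarith [Io.pos]) m1.1
            (V_lt (y := X (gl (2 * t + 1) 2)) (by linarith) (by linarith)) m2.2 m3.1 m5.1
            (V_lt (y := X (gl (2 * t + 1) 12)) (by linarith) (by linarith))
            (V_lt (y := X (gl (2 * t + 1) 12)) (by linarith) (by linarith)) hmob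
  -- the program runs
  refine ⟨v, ?_⟩
  have run : ∀ (q : List Ins) (t : ℕ), p = p.take t ++ q → t + q.length = p.length →
      Oslp.Run v (t + 2) q := by
    intro q
    induction q with
    | nil => intro t _ _; trivial
    | cons a q ihq =>
      intro t h1 h2
      rw [List.length_cons] at h2
      have hpt : p[t]? = some a := by
        rw [h1, List.getElem?_append_right (by simp)]
        simp [Nat.min_eq_left (show t ≤ p.length by omega)]
      have hI1 := key (t + 1) (by omega) (by omega)
      have hI2 := key (t + 2) (by omega) (by omega)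
      refine ⟨hmono (t + 1) (t + 2) (by omega) (by omega) hI1 hI2, ?_, ?_⟩
      · cases a with
        | none => trivial
        | some c =>
          obtain ⟨o, l, i, j⟩ := c
          obtain ⟨w1, w2, w3, w4, w5⟩ := Oslp.wf_get hw t _ hpt
          constructor
          · rintro rfl
            have hvk : v (t + 2) = v i + v j - v l :=
              val_add (by simpa using hpt) (by omega) (by omega) (by omega) (by omega)
            rw [hvk]; ring
          · intro ho
            have Io := key o (by omega) (by omega)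
            have Il := key l (by omega) (by omega)
            have mol : v o < v l := hmono o l w1 (by omega) Io Il
            have hvk : v (t + 2) = v o + (v i - v o) * (v j - v o) / (v l - v o) :=
              val_mul (by simpa using hpt) (by omega) ho (by omega) (by omega) (by omega) (by omega)
            rw [hvk, add_sub_cancel_left, div_mul_cancel₀]
            exact (sub_pos.2 mol).ne'
      · refine ihq (t + 1) ?_ (by omega)
        rw [List.take_add_one, hpt]
        simpa using h1
  exact run p 0 (by simp) (by simp)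

end Pool.Agent.NPC.ER.SGE
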