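import Pool.Agent.TH663.SGE.Compl2
import Pool.Agent.TH663.SGE.Compl3
import Pool.Agent.TH663.SGE.Sound2

/-!
# The coordinates of all vertices
-/

namespace Pool.Agent.NPC.ER.SGE

open Pool.Agent.NPC.ER.GPP Filter Topology
open Pool.Agent.NPC.ER.Oslp (Ins OSat)

theorem run_mono {v : ℕ → ℝ} {p : List Ins} (hr : Oslp.Run v 2 p) :
    ∀ m' m, 1 ≤ m → m < m' → m' ≤ p.length + 1 → v m < v m' := by
  intro m'
  induction m' with
  | zero => intro m _ h; omega
  | succ k ih =>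
    intro m h1 h2 h3
    have hk : k - 1 < p.length := by omega
    have h := (Oslp.run_get hr (k - 1) p[k - 1] (List.getElem?_eq_getElem hk)).1
    rw [show 2 + (k - 1) - 1 = k by omega, show 2 + (k - 1) = k + 1 by omega] at h
    rcases Nat.lt_or_ge m k with h4 | h4
    · exact lt_trans (ih m h1 h4 (by omega)) h
    · rwa [show m = k by omega]

theorem gap_step (v : ℕ → ℝ) (K : ℕ) : ∃ β, 0 < β ∧ ∀ m < K, v m < v (m + 1) →
    v m + 2 * β < v (m + 1) := by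
  induction K with
  | zero => exact ⟨1, one_pos, fun m h => by omega⟩
  | succ K ih =>
    obtain ⟨β, hβ, h⟩ := ih
    by_cases hK : v K < v (K + 1)
    · refine ⟨min β ((v (K + 1) - v K) / 4), lt_min hβ (by linarith), fun m hm hlt => ?_⟩
      have h1 := min_le_left β ((v (K + 1) - v K) / 4)
      have h2 := min_le_right β ((v (K + 1) - v K) / 4)
      rcases Nat.lt_or_ge m K with h4 | h4
      · have := h m h4 hlt
        linarith
      · obtain rfl : m = K := by omega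
        linarith
    · refine ⟨β, hβ, fun m hm hlt => ?_⟩
      rcases Nat.lt_or_ge m K with h4 | h4
      · exact h m h4 hlt
      · obtain rfl : m = K := by omega
        exact absurd hlt hK

theorem gap {v : ℕ → ℝ} {N : ℕ} (hv : ∀ m' m, 1 ≤ m → m < m' → m' ≤ N → v m < v m') :
    ∃ β, 0 < β ∧ ∀ m m', 1 ≤ m → m < m' → m' ≤ N → v m + 2 * β < v m' := by
  obtain ⟨β, hβ, h⟩ := gap_step v N
  refine ⟨β, hβ, fun m m' h1 h2 h3 => ?_⟩
  have h4 := h m (by omega) (hv (m + 1) m h1 (by omega) (by omega))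
  rcases Nat.lt_or_ge (m + 1) m' with h5 | h5
  · exact lt_trans h4 (hv m' (m + 1) (by omega) h5 h3)
  · rwa [show m' = m + 1 by omega]

theorem ok_kind {v : ℕ → ℝ} {p : List Ins} (hr : Oslp.Run v 2 p) {N : ℕ} {G : Gad}
    (hk : Kind N p G) {β : ℝ} (hβ : 0 < β)
    (hv : ∀ m m', 1 ≤ m → m < m' → m' ≤ N → v m + 2 * β < v m') :
    ∃ β', 0 < β' ∧ β' < β ∧ ∃ Λ, OK N v G β' β Λ := by
  cases hk with
  | lowM t o l i j hp ho hol hli hlj hik hjk hkN hG =>
    subst hG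
    have h := ((Oslp.run_get hr t _ hp).2).2 ho
    rw [show 2 + t = t + 2 by omega] at h
    exact ok_lowM ho hol hli hlj hik hjk hkN t hβ hv h
  | upM t o l i j hp ho hol hli hlj hik hjk hkN hG =>
    subst hG
    have h := ((Oslp.run_get hr t _ hp).2).2 ho
    rw [show 2 + t = t + 2 by omega] at h
    exact ok_upM ho hol hli hlj hik hjk hkN t hβ hv h
  | lowA t l i j hp hol hli hlj hik hjk hkN hG =>
    subst hG
    have h := ((Oslp.run_get hr t _ hp).2).1 rfl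
    rw [show 2 + t = t + 2 by omega] at h
    exact ok_lowA hol hli hlj hik hjk hkN t hβ hv h
  | upA t l i j hp hol hli hlj hik hjk hkN hG =>
    subst hG
    have h := ((Oslp.run_get hr t _ hp).2).1 rfl
    rw [show 2 + t = t + 2 by omega] at h
    exact ok_upA hol hli hlj hik hjk hkN t hβ hv h

theorem role_lt {p : List Ins} {N : ℕ} {G : Gad} (hk : Kind N p G) :
    ∀ b ∈ G.2.2, ∀ r ∈ b.2.2, r < 14 := by
  cases hk with
  | lowM t o l i j hp ho hol hli hlj hik hjk hkN hG =>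
    subst hG
    simp [lowM]
  | upM t o l i j hp ho hol hli hlj hik hjk hkN hG =>
    subst hG
    simp [upM]
  | lowA t l i j hp hol hli hlj hik hjk hkN hG =>
    subst hG
    simp [lowA]
  | upA t l i j hp hol hli hlj hik hjk hkN hG =>
    subst hG
    simp [upA]

theorem chain {Q : ℕ → ℝ → ℝ → ℝ → Prop} : ∀ (M : ℕ) {β₀ : ℝ}, 0 < β₀ →
    (∀ g < M, ∀ β, 0 < β → β ≤ β₀ → ∃ β', 0 < β' ∧ β' < β ∧ ∃ Λ, Q g β' β Λ) →
    ∃ B Λ : ℕ → ℝ, B M = β₀ ∧ ∀ g < M, 0 < B g ∧ B g < B (g + 1) ∧ Q g (B g) (B (g + 1)) (Λ g)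
  | 0, β₀, _, _ => ⟨fun _ => β₀, fun _ => 0, rfl, fun g h => by omega⟩
  | M + 1, β₀, h0, h => by
    obtain ⟨β', h1, h2, Λ', h3⟩ := h M (by omega) β₀ h0 le_rfl
    obtain ⟨B, Λ, h4, h5⟩ := chain M h1 fun g hg β hβ hβ' => h g (by omega) β hβ (by linarith)
    refine ⟨fun n => if n ≤ M then B n else β₀, fun n => if n < M then Λ n else Λ', by simp,
      fun g hg => ?_⟩
    rcases Nat.lt_or_ge g M with h6 | h6
    · obtain ⟨i1, i2, i3⟩ := h5 g h6
      simp only [if_pos (show g ≤ M by omega), if_pos (show g + 1 ≤ M by omega), if_pos h6]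
      exact ⟨i1, i2, i3⟩
    · obtain rfl : g = M := by omega
      simp only [le_refl, if_true, if_neg (show ¬ g + 1 ≤ g by omega), lt_irrefl, if_false, h4]
      exact ⟨h1, h2, h3⟩

theorem chain_mono {B : ℕ → ℝ} {M : ℕ} (h : ∀ g < M, B g < B (g + 1)) {g g' : ℕ} (h1 : g < g')
    (h2 : g' ≤ M) : B (g + 1) ≤ B g' := by
  induction g' with
  | zero => omega
  | succ k ih =>
    rcases Nat.lt_or_ge g k with h3 | h3
    · have := ih h3 (by omega)
      have := h k (by omega)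
      linarith
    · rw [show g = k by omega]

theorem uniq {Gs : List Gad} (hs : Gs.Pairwise fun a b => a.1 < b.1) {G G' : Gad} (h : G ∈ Gs)
    (h' : G' ∈ Gs) (he : G.1 = G'.1) : G = G' := by
  have : (Gs.map fun a => a.1).Nodup := by
    unfold List.Nodup
    rw [List.pairwise_map]
    exact hs.imp fun {a b} hab => by omega
  exact List.inj_on_of_nodup_map this h h' he

theorem max_bd (Λ : ℕ → ℝ) (M : ℕ) : ∃ K, ∀ g < M, Λ g ≤ K := by
  induction M with
  | zero => exact ⟨0, fun g h => by omega⟩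
  | succ M ih =>
    obtain ⟨K, hK⟩ := ih
    refine ⟨max K (Λ M), fun g hg => ?_⟩
    rcases Nat.lt_or_ge g M with h | h
    · exact (hK g h).trans (le_max_left _ _)
    · rw [show g = M by omega]; exact le_max_right _ _

/-- The windows. -/
structure Win (N M : ℕ) (c : ℕ → ℝ) (lo hi : ℕ → ℕ → Bool → ℝ) (U L : ℕ → ℝ) : Prop where
  l1 : ∀ g g' n, g < g' → g' < M → n ≤ N + 1 → hi g' n false ≤ lo g n false
  l2 : ∀ g n, g < M → n ≤ N + 1 → hi g n false ≤ c n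
  r2 : ∀ g n, g < M → n ≤ N + 1 → c n ≤ lo g n true
  r1 : ∀ g g' n, g < g' → g' < M → n ≤ N + 1 → hi g n true ≤ lo g' n true
  u1 : ∀ g n s, g < M → n ≤ N + 1 → hi g n s ≤ U n
  u2 : ∀ n ≤ N + 1, c n ≤ U n
  d1 : ∀ g n s, g < M → n ≤ N + 1 → L n ≤ lo g n s
  d2 : ∀ n ≤ N + 1, L n ≤ c n
  ud : ∀ n ≤ N, U n < L (n + 1)

theorem Win.cross {N M : ℕ} {c : ℕ → ℝ} {lo hi : ℕ → ℕ → Bool → ℝ} {U L : ℕ → ℝ}
    (w : Win N M c lo hi U L) {n n' : ℕ} (h : n < n') (h' : n' ≤ N + 1) : U n < L n' := by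
  induction n' with
  | zero => omega
  | succ k ih =>
    rcases Nat.lt_or_ge n k with h3 | h3
    · have := ih h3 (by omega)
      have := w.ud k (by omega)
      have := w.d2 k (by omega)
      have := w.u2 k (by omega)
      linarith
    · rw [show n = k by omega]; exact w.ud k (by omega)

/-- The coordinates respect the windows. -/
structure Fit (Gs : List Gad) (N M : ℕ) (c : ℕ → ℝ) (lo hi : ℕ → ℕ → Bool → ℝ)
    (X : ℕ → ℝ) : Prop where
  el : ∀ n ≤ N + 1, X (el n) = c n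
  lt : ∀ G ∈ Gs, G.1 < M
  win : ∀ G ∈ Gs, ∀ b ∈ G.2.2, b.1 ≤ N + 1 → ∀ r ∈ b.2.2, lo G.1 b.1 b.2.1 < X (gl G.1 r) ∧
    X (gl G.1 r) < hi G.1 b.1 b.2.1
  blk : ∀ G ∈ Gs, ∀ b ∈ G.2.2, b.2.2.Pairwise fun r r' => X (gl G.1 r) < X (gl G.1 r')
  blks : ∀ G ∈ Gs, G.2.2.Pairwise fun b b' => b.1 = b'.1 → b.2.1 = b'.2.1 →
        ∀ r ∈ b.2.2, ∀ r' ∈ b'.2.2, X (gl G.1 r) < X (gl G.1 r')

section

variable {Gs : List Gad} {N M : ℕ} {c : ℕ → ℝ} {lo hi : ℕ → ℕ → Bool → ℝ} {U L : ℕ → ℝ}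
  {X : ℕ → ℝ}

theorem mem_items_iff {n : ℕ} {s : Bool} {G : Gad} {z : ℕ} : z ∈ items n s G ↔
    ∃ b ∈ G.2.2, (b.1 = n ∧ b.2.1 = s) ∧ ∃ r ∈ b.2.2, z = gl G.1 r := by
  unfold items
  rw [List.mem_flatMap]
  constructor
  · rintro ⟨b, hb, h⟩
    split_ifs at h with h1
    · obtain ⟨r, hr, rfl⟩ := List.mem_map.1 h
      exact ⟨b, hb, h1, r, hr, rfl⟩
    · simp at h
  · rintro ⟨b, hb, h1, r, hr, rfl⟩
    refine ⟨b, hb, ?_⟩
    rw [if_pos h1]
    exact List.mem_map_of_mem hr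

theorem Fit.items_win (F : Fit Gs N M c lo hi X) {G : Gad} (hG : G ∈ Gs) {n : ℕ}
    (hn : n ≤ N + 1) {s : Bool} {z : ℕ} (hz : z ∈ items n s G) :
    lo G.1 n s < X z ∧ X z < hi G.1 n s := by
  obtain ⟨b, hb, ⟨rfl, rfl⟩, r, hr, rfl⟩ := mem_items_iff.1 hz
  exact F.win G hG b hb hn r hr

theorem Fit.items_pw (F : Fit Gs N M c lo hi X) {G : Gad} (hG : G ∈ Gs) (n : ℕ) (s : Bool) :
    (items n s G).Pairwise fun u v => X u < X v := by
  unfold items
  rw [List.pairwise_flatMap]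
  refine ⟨fun b hb => ?_, (F.blks G hG).imp fun {b b'} h x hx y hy => ?_⟩
  · split_ifs
    · rw [List.pairwise_map]
      exact F.blk G hG b hb
    · exact List.Pairwise.nil
  · split_ifs at hx hy with h1 h2
    · obtain ⟨r, hr, rfl⟩ := List.mem_map.1 hx
      obtain ⟨r', hr', rfl⟩ := List.mem_map.1 hy
      exact h (h1.1.trans h2.1.symm) (h1.2.trans h2.2.symm) r hr r' hr'
    all_goals simp at hx hy

end

end Pool.Agent.NPC.ER.SGE
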