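import Pool.Agent.TH663.SGE.Compl4

/-!
# The coordinates of all vertices, continued
-/

namespace Pool.Agent.NPC.ER.SGE

open Pool.Agent.NPC.ER.GPP Filter Topology
open Pool.Agent.NPC.ER.Oslp (Ins OSat)

section

variable {Gs : List Gad} {N M : ℕ} {c : ℕ → ℝ} {lo hi : ℕ → ℕ → Bool → ℝ} {U L : ℕ → ℝ}
  {X : ℕ → ℝ}

theorem Fit.grp_win (F : Fit Gs N M c lo hi X) (w : Win N M c lo hi U L) {n : ℕ}
    (hn : n ≤ N + 1) {z : ℕ} (hz : z ∈ grp Gs n) : L n ≤ X z ∧ X z ≤ U n := by
  unfold grp at hz
  rw [List.mem_append, List.mem_cons, List.mem_flatMap, List.mem_flatMap] at hz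
  rcases hz with ⟨G, hG, hz⟩ | rfl | ⟨G, hG, hz⟩
  · have hG' := List.mem_reverse.1 hG
    have h1 := F.items_win hG' hn hz
    have h2 := w.u1 G.1 n false (F.lt G hG') hn
    have h3 := w.d1 G.1 n false (F.lt G hG') hn
    exact ⟨by linarith, by linarith⟩
  · rw [F.el n hn]
    exact ⟨w.d2 n hn, w.u2 n hn⟩
  · have h1 := F.items_win hG hn hz
    have h2 := w.u1 G.1 n true (F.lt G hG) hn
    have h3 := w.d1 G.1 n true (F.lt G hG) hn
    exact ⟨by linarith, by linarith⟩

/-- The vertices are in the right order. -/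
theorem Fit.ord_pw (F : Fit Gs N M c lo hi X) (w : Win N M c lo hi U L)
    (hs : Gs.Pairwise fun a b => a.1 < b.1) : (ord Gs N).Pairwise fun u v => X u < X v := by
  unfold ord
  rw [List.pairwise_flatMap, pairwise_range]
  refine ⟨fun n hn => ?_, fun n n' h1 h2 u hu v hv => ?_⟩
  · have hn' : n ≤ N + 1 := by have := List.mem_range.1 hn; omega
    unfold grp
    rw [List.pairwise_append, List.pairwise_cons, List.pairwise_flatMap, List.pairwise_reverse,
      List.pairwise_flatMap (l := Gs)]
    refine ⟨⟨fun G hG => F.items_pw (List.mem_reverse.1 hG) n false, ?_⟩, ⟨?_, ?_, ?_⟩, ?_⟩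
    · refine List.Pairwise.imp_of_mem ?_ hs
      intro a b ha hb hab x hx y hy
      have h1 := F.items_win hb hn' hx
      have h2 := F.items_win ha hn' hy
      have h3 := w.l1 a.1 b.1 n hab (F.lt b hb) hn'
      linarith
    · intro z hz
      obtain ⟨G, hG, hz⟩ := List.mem_flatMap.1 hz
      have h1 := F.items_win hG hn' hz
      have h2 := w.r2 G.1 n (F.lt G hG) hn'
      rw [F.el n hn']
      linarith
    · exact fun G hG => F.items_pw hG n true
    · refine List.Pairwise.imp_of_mem ?_ hs
      intro a b ha hb hab x hx y hy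
      have h1 := F.items_win ha hn' hx
      have h2 := F.items_win hb hn' hy
      have h3 := w.r1 a.1 b.1 n hab (F.lt b hb) hn'
      linarith
    · intro x hx y hy
      obtain ⟨G, hG, hx⟩ := List.mem_flatMap.1 hx
      have hG := List.mem_reverse.1 hG
      have h1 := F.items_win hG hn' hx
      have h2 := w.l2 G.1 n (F.lt G hG) hn'
      rcases List.mem_cons.1 hy with rfl | hy
      · rw [F.el n hn']; linarith
      · obtain ⟨G', hG', hy⟩ := List.mem_flatMap.1 hy
        have h3 := F.items_win hG' hn' hy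
        have h4 := w.r2 G'.1 n (F.lt G' hG') hn'
        linarith
  · have h3 := F.grp_win w (n := n) (by omega) hu
    have h4 := F.grp_win w (n := n') (by omega) hv
    have h5 := w.cross h1 (by omega)
    linarith

end

/-- The coordinates which are used for the drawing. -/
structure Conf (Gs : List Gad) (N : ℕ) (X Y : ℕ → ℝ) : Prop where
  ordr : (ord Gs N).Pairwise fun u v => X u < X v
  rng : ∀ v ∈ ord Gs N, 0 < X v ∧ X v < 1
  facts : ∀ G ∈ Gs, ∀ T ∈ St G, 0 < sg G.1 * D (X (gl G.1 T.1), Y (gl G.1 T.1))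
    (X (gl G.1 T.2.1), Y (gl G.1 T.2.1)) (X (gl G.1 T.2.2), Y (gl G.1 T.2.2))
  band : ∀ g r : ℕ, r < 14 → (g : ℝ) + 2 < Y (gl g r) ∧ Y (gl g r) < g + 3
  elY : ∀ n, Y (el n) = 3 / 2

theorem exists_mu (y : ℕ → ℝ) : ∃ μ, 0 < μ ∧ ∀ r < 14, |μ * y r| < 1 / 2 := by
  have hS : 0 ≤ ∑ r ∈ Finset.range 14, |y r| := Finset.sum_nonneg fun _ _ => abs_nonneg _
  refine ⟨1 / (2 * (∑ r ∈ Finset.range 14, |y r| + 1)), by positivity, fun r hr => ?_⟩
  have h1 : |y r| ≤ ∑ r ∈ Finset.range 14, |y r| :=
    Finset.single_le_sum (f := fun r => |y r|) (fun _ _ => abs_nonneg _) (Finset.mem_range.2 hr)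
  rw [abs_mul, abs_of_pos (by positivity), div_mul_eq_mul_div, div_lt_div_iff₀ (by positivity)
    (by norm_num)]
  linarith

theorem St_lt {G : Gad} : ∀ T ∈ St G, T.1 < 14 ∧ T.2.1 < 14 ∧ T.2.2 < 14 := by
  unfold St
  split_ifs
  · rw [S1t_eq]; decide
  · rw [S2t_eq]; decide

theorem gl_div {g r : ℕ} (h : r < 16) : gl g r / 16 = g := by unfold gl; omega
theorem gl_mod {g r : ℕ} (h : r < 16) : gl g r % 16 = r := by unfold gl; omega

/-- The coordinates exist. -/
theorem conf_of_osat {p : List Ins} (hw : Oslp.WF 2 p) (h : OSat p) :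
    ∃ X Y, Conf (gads (p.length + 1) p) (p.length + 1) X Y := by
  obtain ⟨v, hr⟩ := h
  set N := p.length + 1 with hN
  set Gs := gads N p with hGs
  have hk : ∀ G ∈ Gs, Kind N p G := fun G hG => kind hw hG
  have hsort : Gs.Pairwise fun a b => a.1 < b.1 := gads_pairwise
  have hv := run_mono hr
  obtain ⟨β₀, hβ₀, hgap⟩ := gap (v := v) (N := N) hv
  obtain ⟨M, hM⟩ : ∃ M : ℕ, ∀ G ∈ Gs, G.1 < M := by
    refine ⟨(Gs.map fun G => G.1).sum + 1, fun G hG => ?_⟩
    have := List.single_le_sum (l := Gs.map fun G => G.1) (fun _ _ => Nat.zero_le _) G.1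
      (List.mem_map_of_mem hG)
    omega
  obtain ⟨B, Λ, hB, hBΛ⟩ := chain (Q := fun g β' β Λ => ∀ G ∈ Gs, G.1 = g → OK N v G β' β Λ) M
    hβ₀ (by
      intro g _ β hβ hβ'
      by_cases hex : ∃ G ∈ Gs, G.1 = g
      · obtain ⟨G, hG, hGg⟩ := hex
        obtain ⟨β', h1, h2, Λ, h3⟩ := ok_kind hr (hk G hG) hβ (fun m m' g1 g2 g3 => by
          have := hgap m m' g1 g2 g3
          linarith)
        refine ⟨β', h1, h2, Λ, fun G' hG' hGg' => ?_⟩
        rw [uniq hsort hG' hG (hGg'.trans hGg.symm)]
        exact h3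
      · refine ⟨β / 2, by linarith, by linarith, 0, fun G hG hGg => absurd ⟨G, hG, hGg⟩ hex⟩)
  obtain ⟨K, hK⟩ := max_bd Λ M
  have hBm : ∀ g g', g < g' → g' ≤ M → B (g + 1) ≤ B g' := fun g g' h1 h2 =>
    chain_mono (fun g hg => (hBΛ g hg).2.1) h1 h2
  have hBtop : ∀ g < M, B (g + 1) ≤ β₀ := fun g hg => by
    rw [← hB]; exact hBm g M hg le_rfl
  have hB0 : ∀ g < M, 0 < B g := fun g hg => (hBΛ g hg).1
  have hBs : ∀ g < M, B g < B (g + 1) := fun g hg => (hBΛ g hg).2.1
  -- the far bound
  obtain ⟨Z, hZ1, hZ2, hZ3⟩ : ∃ Z : ℝ, K ≤ Z ∧ v N + β₀ < Z ∧ M + β₀ - v 1 < Z :=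
    ⟨max K (max (v N + β₀ + 1) (M + β₀ - v 1 + 1)), le_max_left _ _, by
      have := le_max_left (v N + β₀ + 1) (M + β₀ - v 1 + 1)
      have := le_max_right K (max (v N + β₀ + 1) (M + β₀ - v 1 + 1))
      linarith, by
      have := le_max_right (v N + β₀ + 1) (M + β₀ - v 1 + 1)
      have := le_max_right K (max (v N + β₀ + 1) (M + β₀ - v 1 + 1))
      linarith⟩
  let lo : ℕ → ℕ → Bool → ℝ := fun g n s => if n = 0 then (if s = true then -Z + g else
    -Z - g - 1) else if n ≤ N then (if s = true then v n + B g else v n - B (g + 1)) else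
    (if s = true then Z + M + g else Z + (M - 1 - g))
  let hi : ℕ → ℕ → Bool → ℝ := fun g n s => if n = 0 then (if s = true then -Z + g + 1 else
    -Z - g) else if n ≤ N then (if s = true then v n + B (g + 1) else v n - B g) else
    (if s = true then Z + M + g + 1 else Z + (M - g))
  let c : ℕ → ℝ := fun n => if n = 0 then -Z else if n ≤ N then v n else Z + M
  let U : ℕ → ℝ := fun n => if n = 0 then -Z + M else if n ≤ N then v n + β₀ else Z + 2 * M
  let L : ℕ → ℝ := fun n => if n = 0 then -Z - M - 1 else if n ≤ N then v n - β₀ else Z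
  have cast : ∀ g g' : ℕ, g < g' → (g : ℝ) + 1 ≤ g' := fun g g' h => by exact_mod_cast h
  have win : Win N M c lo hi U L := by
    constructor
    · intro g g' n h1 h2 h3
      have e1 := cast g g' h1
      have e2 := hBm g g' h1 h2.le
      simp only [lo, hi]
      split_ifs <;> first | linarith | simp_all
    · intro g n h1 h3
      have e1 := hB0 g h1
      have e2 : (0 : ℝ) ≤ g := Nat.cast_nonneg g
      simp only [c, hi]
      split_ifs <;> first | linarith | simp_all
    · intro g n h1 h3
      have e1 := hB0 g h1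
      have e2 : (0 : ℝ) ≤ g := Nat.cast_nonneg g
      simp only [c, lo]
      split_ifs <;> first | linarith | simp_all
    · intro g g' n h1 h2 h3
      have e1 := cast g g' h1
      have e2 := hBm g g' h1 h2.le
      simp only [lo, hi]
      split_ifs <;> first | linarith | simp_all
    · intro g n s h1 h3
      have e0 := hB0 g h1
      have e1 := cast g M h1
      have e2 : (0 : ℝ) ≤ g := Nat.cast_nonneg g
      have e3 := hBtop g h1
      simp only [U, hi]
      split_ifs <;> linarith
    · intro n h3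
      have e2 : (0 : ℝ) ≤ M := Nat.cast_nonneg M
      simp only [U, c]
      split_ifs <;> linarith
    · intro g n s h1 h3
      have e0 := hB0 g h1
      have e1 := cast g M h1
      have e2 : (0 : ℝ) ≤ g := Nat.cast_nonneg g
      have e3 := hBtop g h1
      simp only [L, lo]
      split_ifs <;> linarith
    · intro n h3
      have e2 : (0 : ℝ) ≤ M := Nat.cast_nonneg M
      simp only [L, c]
      split_ifs <;> linarith
    · intro n h3
      simp only [U, L]
      rcases Nat.eq_zero_or_pos n with rfl | h4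
      · rw [if_pos rfl, if_neg (by omega), if_pos (by omega)]
        simp only [zero_add]
        linarith
      · rw [if_neg (by omega), if_pos h3, if_neg (by omega)]
        rcases Nat.lt_or_ge n N with h5 | h5
        · rw [if_pos (by omega)]
          have := hgap n (n + 1) h4 (by omega) (by omega)
          linarith
        · rw [if_neg (by omega), show n = N by omega]
          linarith
  have hP : ∀ g, ∃ P : ℕ → ℝ × ℝ, ∀ G ∈ Gs, G.1 = g →
      (∀ b ∈ G.2.2, ∀ r ∈ b.2.2, lo g b.1 b.2.1 < (P r).1 ∧ (P r).1 < hi g b.1 b.2.1) ∧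
      (∀ b ∈ G.2.2, b.2.2.Pairwise fun r r' => (P r).1 < (P r').1) ∧
      (G.2.2.Pairwise fun b b' => b.1 = b'.1 → b.2.1 = b'.2.1 →
        ∀ r ∈ b.2.2, ∀ r' ∈ b'.2.2, (P r).1 < (P r').1) ∧
      ∀ T ∈ St G, 0 < sg G.1 * D (P T.1) (P T.2.1) (P T.2.2) := by
    intro g
    by_cases hex : ∃ G ∈ Gs, G.1 = g
    · obtain ⟨G, hG, hGg⟩ := hex
      have hgM : g < M := hGg ▸ hM G hG
      have e1 := cast g M hgM
      have e2 : (0 : ℝ) ≤ g := Nat.cast_nonneg g
      have e3 := hK g hgM
      obtain ⟨P, hP⟩ := (hBΛ g hgM).2.2 G hG hGg (lo g) (hi g)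
        (fun n h1 h2 => by
          simp only [lo, hi, if_neg (show n ≠ 0 by omega), if_pos h2]
          simp)
        (by simp only [lo, hi]; simp)
        (by
          simp only [hi]
          simp only [if_true, Bool.false_eq_true, if_false]
          linarith)
        (by
          simp only [lo]
          simp only [Nat.add_one_ne_zero, if_neg (show ¬ N + 1 ≤ N by omega),
            Bool.false_eq_true, if_false]
          linarith)
        (by
          simp only [lo, hi]
          simp only [Nat.add_one_ne_zero, if_neg (show ¬ N + 1 ≤ N by omega),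
            Bool.false_eq_true, if_false]
          linarith)
        (by
          simp only [lo]
          simp only [Nat.add_one_ne_zero, if_neg (show ¬ N + 1 ≤ N by omega),
            if_true, if_false]
          linarith)
        (by
          simp only [lo, hi]
          simp only [Nat.add_one_ne_zero, if_neg (show ¬ N + 1 ≤ N by omega),
            if_true, if_false]
          linarith)
      refine ⟨P, fun G' hG' hGg' => ?_⟩
      rw [uniq hsort hG' hG (hGg'.trans hGg.symm)]
      exact hP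
    · exact ⟨fun _ => 0, fun G hG hGg => absurd ⟨G, hG, hGg⟩ hex⟩
  choose P hP using hP
  have hμ : ∀ g, ∃ μ, 0 < μ ∧ ∀ r < 14, |μ * (P g r).2| < 1 / 2 := fun g =>
    exists_mu fun r => (P g r).2
  choose μ hμ0 hμ using hμ
  let X0 : ℕ → ℝ := fun u => if u % 16 = 14 then c (u / 16) else (P (u / 16) (u % 16)).1
  have X0gl : ∀ g r, r < 14 → X0 (gl g r) = (P g r).1 := by
    intro g r h
    simp only [X0]
    rw [gl_div (by omega), gl_mod (by omega), if_neg (by omega)]
  have X0el : ∀ n, X0 (el n) = c n := by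
    intro n
    simp only [X0]
    rw [show el n % 16 = 14 by unfold el; omega, show el n / 16 = n by unfold el; omega, if_pos rfl]
  have F : Fit Gs N M c lo hi X0 := by
    constructor
    · intro n _; exact X0el n
    · exact hM
    · intro G hG b hb _ r hr
      rw [X0gl _ _ (role_lt (hk G hG) b hb r hr)]
      exact (hP G.1 G hG rfl).1 b hb r hr
    · intro G hG b hb
      refine List.Pairwise.imp_of_mem ?_ ((hP G.1 G hG rfl).2.1 b hb)
      intro r r' h1 h2 h3
      rw [X0gl _ _ (role_lt (hk G hG) b hb r h1), X0gl _ _ (role_lt (hk G hG) b hb r' h2)]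
      exact h3
    · intro G hG
      refine List.Pairwise.imp_of_mem ?_ (hP G.1 G hG rfl).2.2.1
      intro b b' h1 h2 h3 h4 h5 r hr r' hr'
      rw [X0gl _ _ (role_lt (hk G hG) b h1 r hr), X0gl _ _ (role_lt (hk G hG) b' h2 r' hr')]
      exact h3 h4 h5 r hr r' hr'
  have hpw := F.ord_pw win hsort
  -- the range
  have hrange : ∀ z ∈ ord Gs N, L 0 - 1 < X0 z ∧ X0 z < U (N + 1) + 1 := by
    intro z hz
    unfold ord at hz
    obtain ⟨n, hn, hz⟩ := List.mem_flatMap.1 hz
    have hn' : n ≤ N + 1 := by have := List.mem_range.1 hn; omega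
    have h1 := F.grp_win win hn' hz
    have h2 : L 0 ≤ L n := by
      rcases Nat.eq_zero_or_pos n with rfl | h3
      · exact le_rfl
      · have := win.cross h3 hn'
        have := win.d2 0 (by omega)
        have := win.u2 0 (by omega)
        linarith
    have h3 : U n ≤ U (N + 1) := by
      rcases Nat.lt_or_ge n (N + 1) with h3 | h3
      · have := win.cross h3 le_rfl
        have := win.d2 (N + 1) (by omega)
        have := win.u2 (N + 1) (by omega)
        linarith
      · rw [show n = N + 1 by omega]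
    exact ⟨by linarith, by linarith⟩
  obtain ⟨x0, hx0⟩ : ∃ x0, x0 = L 0 - 1 := ⟨_, rfl⟩
  obtain ⟨x1, hx1⟩ : ∃ x1, x1 = U (N + 1) + 1 := ⟨_, rfl⟩
  rw [← hx0, ← hx1] at hrange
  have hx01 : 0 < x1 - x0 := by
    have := win.cross (show 0 < N + 1 by omega) le_rfl
    have := win.d2 0 (by omega)
    have := win.u2 0 (by omega)
    have := win.d2 (N + 1) (by omega)
    have := win.u2 (N + 1) (by omega)
    linarith
  refine ⟨fun u => (X0 u - x0) / (x1 - x0), fun u => if u % 16 = 14 then 3 / 2 else
    ((u / 16 : ℕ) : ℝ) + 5 / 2 + μ (u / 16) * (P (u / 16) (u % 16)).2, ?_, ?_, ?_, ?_, ?_⟩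
  · refine hpw.imp fun {a b} hab => ?_
    exact div_lt_div_of_pos_right (by linarith) hx01
  · intro z hz
    have := hrange z hz
    refine ⟨div_pos (by linarith) hx01, ?_⟩
    rw [div_lt_one hx01]
    linarith
  · intro G hG T hT
    obtain ⟨t1, t2, t3⟩ := St_lt T hT
    have hf := (hP G.1 G hG rfl).2.2.2 T hT
    simp only [X0gl _ _ t1, X0gl _ _ t2, X0gl _ _ t3]
    rw [gl_div (show T.1 < 16 by omega), gl_mod (show T.1 < 16 by omega),
      gl_div (show T.2.1 < 16 by omega), gl_mod (show T.2.1 < 16 by omega),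
      gl_div (show T.2.2 < 16 by omega), gl_mod (show T.2.2 < 16 by omega),
      if_neg (by omega), if_neg (by omega), if_neg (by omega)]
    have e : ∀ a1 b1 a2 b2 a3 b3 k : ℝ, D ((a1 - x0) / (x1 - x0), k + μ G.1 * b1)
        ((a2 - x0) / (x1 - x0), k + μ G.1 * b2) ((a3 - x0) / (x1 - x0), k + μ G.1 * b3) =
        μ G.1 / (x1 - x0) * D (a1, b1) (a2, b2) (a3, b3) := by
      intro a1 b1 a2 b2 a3 b3 k
      unfold D
      simp only
      field_simp
      ring
    rw [e, mul_left_comm]
    exact mul_pos (div_pos (hμ0 _) hx01) hf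
  · intro g r hr
    have h1 := abs_lt.1 (hμ g r hr)
    simp only [gl_div (show r < 16 by omega), gl_mod (show r < 16 by omega),
      if_neg (show r ≠ 14 by omega)]
    exact ⟨by linarith, by linarith⟩
  · intro n
    simp only [show el n % 16 = 14 by unfold el; omega, if_true]

end Pool.Agent.NPC.ER.SGE
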