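import Pool.Agent.H606R2.GPP.Geo

/-!
# Simultaneous geometric embeddings of two graphs
-/

namespace Pool.Agent.NPC.ER.SGE

open Pool.Agent.NPC.ER.GPP (Same Cross IsDrawing D Int Meets)

/-- An instance: the list of the vertices (natural numbers) and the lists of the edges (pairs of
vertices) of the two graphs. -/
abbrev Inst : Type := List ℕ × List (ℕ × ℕ) × List (ℕ × ℕ)

/-- Each pair in the two lists consists of two distinct vertices, so that we have two finite simple
graphs on the same vertex set (`(u, v)` and `(v, u)` denote the same edge). -/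
def IsInst (G : Inst) : Prop :=
  (∀ e ∈ G.2.1, e.1 ∈ G.1 ∧ e.2 ∈ G.1 ∧ e.1 ≠ e.2) ∧
    ∀ e ∈ G.2.2, e.1 ∈ G.1 ∧ e.2 ∈ G.1 ∧ e.1 ≠ e.2

/-- No two edges of the list cross. -/
def Planar (E : List (ℕ × ℕ)) (p : ℕ → ℝ × ℝ) : Prop :=
  ∀ e ∈ E, ∀ f ∈ E, ¬ Same e f → ¬ Cross p e f

/-- The two graphs have a simultaneous geometric embedding: there is a straight-line drawing of the
union of the two graphs in which no two edges of the same graph cross. -/
def HasSGE (G : Inst) : Prop :=
  ∃ p : ℕ → ℝ × ℝ, IsDrawing G.1 (G.2.1 ++ G.2.2) p ∧ Planar G.2.1 p ∧ Planar G.2.2 p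

end Pool.Agent.NPC.ER.SGE
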