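import Pool.Agent.TH663.SGE.Tri

/-!
# Planarity of the first graph: edges in a fan
-/

namespace Pool.Agent.NPC.ER.SGE

open Pool.Agent.NPC.ER.GPP

theorem In3.conv {a b c u v z : ℝ × ℝ} (hu : In3 a b c u) (hv : In3 a b c v)
    (hz : z ∈ segment ℝ u v) : In3 a b c z := by
  obtain ⟨t, t0, t1, e1, e2⟩ := mem_seg.1 hz
  have hz' : z = pt t u v := Prod.ext e1 e2
  rw [hz']
  have key : ∀ A B : ℝ, 0 < A → 0 < B → 0 < (1 - t) * A + t * B := by
    intro A B hA hB
    rcases t0.eq_or_lt with rfl | h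
    · linarith
    · have := mul_pos h hB
      have := mul_nonneg (sub_nonneg.2 t1) hA.le
      linarith
  exact ⟨by rw [D_pt]; exact key _ _ hu.1 hv.1, by rw [D_pt]; exact key _ _ hu.2.1 hv.2.1,
    by rw [D_pt]; exact key _ _ hu.2.2 hv.2.2⟩

/-- The vertices `V` around the vertex `o`, in the order of the values `x`. -/
structure Fan (q : ℕ → ℝ × ℝ) (o : ℕ) (V : List ℕ) (x : ℕ → ℝ) : Prop where
  inj : ∀ u ∈ V, ∀ v ∈ V, x u = x v → u = v
  pos : ∀ u ∈ V, ∀ v ∈ V, x u < x v → 0 < D (q o) (q u) (q v)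

section

variable {q : ℕ → ℝ × ℝ} {o : ℕ} {V : List ℕ} {x : ℕ → ℝ}

/-- The edge `uv` is below the vertices between its endpoints. -/
structure Low (q : ℕ → ℝ × ℝ) (V : List ℕ) (x : ℕ → ℝ) (u v : ℕ) : Prop where
  mu : u ∈ V
  mv : v ∈ V
  lt : x u < x v
  btw : ∀ w ∈ V, x u < x w → x w < x v → 0 < D (q u) (q v) (q w)

theorem pt_zero' {p p' : ℝ × ℝ} : pt 0 p p' = p := by unfold pt; ext <;> simp
theorem pt_one' {p p' : ℝ × ℝ} : pt 1 p p' = p' := by unfold pt; ext <;> simp

/-- Nested edges. -/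
theorem Fan.nested (F : Fan q o V x) {u v u' v' : ℕ} (h : Low q V x u v) (h' : Low q V x u' v')
    (h1 : x u ≤ x u') (h2 : x v' ≤ x v) {z : ℝ × ℝ} (hz : z ∈ segment ℝ (q u) (q v))
    (hz' : z ∈ segment ℝ (q u') (q v')) : Res q u v u' v' z := by
  have h0 := D_of_seg hz
  obtain ⟨t, t0, t1, e1, e2⟩ := mem_seg.1 hz'
  have hzt : z = pt t (q u') (q v') := Prod.ext e1 e2
  rw [hzt, D_pt] at h0
  rcases h1.eq_or_lt with h3 | h3
  · have hu : u = u' := F.inj u h.mu u' h'.mu h3
    rcases h2.eq_or_lt with h4 | h4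
    · have hv : v' = v := F.inj v' h'.mv v h.mv h4
      exact Or.inl ⟨hu, hv.symm⟩
    · have h5 := h.btw v' h'.mv (by rw [hu]; exact h'.lt) h4
      rw [← hu, D_left, mul_zero, zero_add] at h0
      have ht : t = 0 := (mul_eq_zero.1 h0).resolve_right h5.ne'
      refine Or.inr (Or.inr ⟨u, Or.inl rfl, Or.inl hu, ?_⟩)
      rw [hzt, ht, pt_zero', hu]
  · have h6 := h.btw u' h'.mu h3 (lt_of_lt_of_le h'.lt h2)
    rcases h2.eq_or_lt with h4 | h4
    · have hv : v' = v := F.inj v' h'.mv v h.mv h4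
      rw [hv, D_right, mul_zero, add_zero] at h0
      have ht : 1 - t = 0 := (mul_eq_zero.1 h0).resolve_right h6.ne'
      refine Or.inr (Or.inr ⟨v, Or.inr rfl, Or.inr hv.symm, ?_⟩)
      rw [hzt, show t = 1 by linarith, pt_one', hv]
    · have h5 := h.btw v' h'.mv (lt_of_le_of_lt h1 h'.lt) h4
      exfalso
      have h7 := mul_nonneg (sub_nonneg.2 t1) h6.le
      have h8 := mul_nonneg t0 h5.le
      have h9 : t * D (q u) (q v) (q v') = 0 := by linarith
      have h10 : (1 - t) * D (q u) (q v) (q u') = 0 := by linarith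
      have ht : t = 0 := (mul_eq_zero.1 h9).resolve_right h5.ne'
      have ht' : 1 - t = 0 := (mul_eq_zero.1 h10).resolve_right h6.ne'
      linarith

/-- Edges one after the other. -/
theorem Fan.disj (F : Fan q o V x) {u v u' v' : ℕ} (h : Low q V x u v) (h' : Low q V x u' v')
    (h1 : x v ≤ x u') {z : ℝ × ℝ} (hz : z ∈ segment ℝ (q u) (q v))
    (hz' : z ∈ segment ℝ (q u') (q v')) : Res q u v u' v' z := by
  obtain ⟨s, s0, s1, f1, f2⟩ := mem_seg.1 hz
  have hzs : z = pt s (q u) (q v) := Prod.ext f1 f2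
  obtain ⟨t, t0, t1, e1, e2⟩ := mem_seg.1 hz'
  have hzt : z = pt t (q u') (q v') := Prod.ext e1 e2
  have d1 : D (q o) (q v) z = (1 - s) * D (q o) (q v) (q u) := by
    rw [hzs, D_pt, D_right, mul_zero, add_zero]
  have d2 : D (q o) (q v) z = (1 - t) * D (q o) (q v) (q u') + t * D (q o) (q v) (q v') := by
    rw [hzt, D_pt]
  have n1 : D (q o) (q v) (q u) < 0 := by
    have := F.pos u h.mu v h.mv h.lt
    rw [D_swap] at this
    linarith
  have p1 : 0 < D (q o) (q v) (q v') := F.pos v h.mv v' h'.mv (lt_of_le_of_lt h1 h'.lt)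
  have hs : (1 - s) * D (q o) (q v) (q u) ≤ 0 :=
    mul_nonpos_of_nonneg_of_nonpos (sub_nonneg.2 s1) n1.le
  have ht := mul_nonneg t0 p1.le
  rcases h1.eq_or_lt with h3 | h3
  · have hv : v = u' := F.inj v h.mv u' h'.mu h3
    rw [← hv, D_right, mul_zero, zero_add] at d2
    have hs0 : (1 - s) * D (q o) (q v) (q u) = 0 := by linarith
    have hs1 : 1 - s = 0 := (mul_eq_zero.1 hs0).resolve_right n1.ne
    refine Or.inr (Or.inr ⟨v, Or.inr rfl, Or.inl hv, ?_⟩)
    rw [hzs, show s = 1 by linarith, pt_one']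
  · exfalso
    have p2 : 0 < D (q o) (q v) (q u') := F.pos v h.mv u' h'.mu h3
    have ht' := mul_nonneg (sub_nonneg.2 t1) p2.le
    have g1 : t * D (q o) (q v) (q v') = 0 := by linarith
    have g2 : (1 - t) * D (q o) (q v) (q u') = 0 := by linarith
    have := (mul_eq_zero.1 g1).resolve_right p1.ne'
    have := (mul_eq_zero.1 g2).resolve_right p2.ne'
    linarith

/-- A ray and an edge. -/
theorem Fan.spoke (F : Fan q o V x) {u v w : ℕ} (h : Low q V x u v) (hw : w ∈ V)
    {z : ℝ × ℝ} (hz : z ∈ segment ℝ (q u) (q v)) (hz' : z ∈ segment ℝ (q o) (q w)) :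
    Res q u v o w z := by
  obtain ⟨s, s0, s1, f1, f2⟩ := mem_seg.1 hz
  have hzs : z = pt s (q u) (q v) := Prod.ext f1 f2
  obtain ⟨t, t0, t1, e1, e2⟩ := mem_seg.1 hz'
  have hzt : z = pt t (q o) (q w) := Prod.ext e1 e2
  have d0 : D (q o) (q w) z = 0 := D_of_seg hz'
  rw [hzs, D_pt] at d0
  rcases lt_trichotomy (x w) (x u) with h1 | h1 | h1
  · exfalso
    have p1 := F.pos w hw u h.mu h1
    have p2 := F.pos w hw v h.mv (lt_trans h1 h.lt)
    have g1 := mul_nonneg (sub_nonneg.2 s1) p1.le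
    have g2 := mul_nonneg s0 p2.le
    have k1 : s * D (q o) (q w) (q v) = 0 := by linarith
    have k2 : (1 - s) * D (q o) (q w) (q u) = 0 := by linarith
    have := (mul_eq_zero.1 k1).resolve_right p2.ne'
    have := (mul_eq_zero.1 k2).resolve_right p1.ne'
    linarith
  · have hwu : w = u := F.inj w hw u h.mu h1
    rw [hwu, D_right, mul_zero, zero_add] at d0
    have p2 := F.pos u h.mu v h.mv h.lt
    have hs : s = 0 := (mul_eq_zero.1 d0).resolve_right p2.ne'
    refine Or.inr (Or.inr ⟨u, Or.inl rfl, Or.inr hwu.symm, ?_⟩)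
    rw [hzs, hs, pt_zero']
  · rcases lt_trichotomy (x w) (x v) with h2 | h2 | h2
    · exfalso
      have p1 := h.btw w hw h1 h2
      have p2 : 0 < D (q u) (q v) (q o) := by rw [D_rot]; exact F.pos u h.mu v h.mv h.lt
      have g0 := D_of_seg hz
      rw [hzt, D_pt] at g0
      have g1 := mul_nonneg (sub_nonneg.2 t1) p2.le
      have g2 := mul_nonneg t0 p1.le
      have k1 : t * D (q u) (q v) (q w) = 0 := by linarith
      have k2 : (1 - t) * D (q u) (q v) (q o) = 0 := by linarith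
      have := (mul_eq_zero.1 k1).resolve_right p1.ne'
      have := (mul_eq_zero.1 k2).resolve_right p2.ne'
      linarith
    · have hwv : w = v := F.inj w hw v h.mv h2
      rw [hwv, D_right, mul_zero, add_zero] at d0
      have p2 : D (q o) (q v) (q u) ≠ 0 := by
        have := F.pos u h.mu v h.mv h.lt
        rw [D_swap]
        exact neg_ne_zero.2 this.ne'
      have hs : 1 - s = 0 := (mul_eq_zero.1 d0).resolve_right p2
      refine Or.inr (Or.inr ⟨v, Or.inr rfl, Or.inr hwv.symm, ?_⟩)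
      rw [hzs, show s = 1 by linarith, pt_one']
    · exfalso
      have p1 := F.pos u h.mu w hw h1
      have p2 := F.pos v h.mv w hw h2
      rw [D_swap] at p1 p2
      have g1 := mul_nonneg (sub_nonneg.2 s1) p1.le
      have g2 := mul_nonneg s0 p2.le
      have k1 : s * -D (q o) (q w) (q v) = 0 := by linarith
      have k2 : (1 - s) * -D (q o) (q w) (q u) = 0 := by linarith
      have := (mul_eq_zero.1 k1).resolve_right p2.ne'
      have := (mul_eq_zero.1 k2).resolve_right p1.ne'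
      linarith

/-- Two rays. -/
theorem Fan.spokes (F : Fan q o V x) {w w' : ℕ} (hw : w ∈ V) (hw' : w' ∈ V)
    {z : ℝ × ℝ} (hz : z ∈ segment ℝ (q o) (q w)) (hz' : z ∈ segment ℝ (q o) (q w')) :
    Res q o w o w' z := by
  by_cases hww : w = w'
  · exact Or.inl ⟨rfl, hww⟩
  · refine Or.inr (Or.inr ⟨o, Or.inl rfl, Or.inl rfl, ?_⟩)
    have hne : D (q w) (q w') (q o) ≠ 0 := by
      rw [D_rot]
      rcases lt_trichotomy (x w) (x w') with h | h | h
      · exact (F.pos w hw w' hw' h).ne'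
      · exact absurd (F.inj w hw w' hw' h) hww
      · rw [D_swap]; exact neg_ne_zero.2 (F.pos w' hw' w hw h).ne'
    exact eq_of_two hne (D_of_seg' hz) (D_of_seg' hz')

/-- The planarity of the first graph. -/
theorem planar_fan {E : List (ℕ × ℕ)} {Fc : List (ℕ × ℕ × ℕ)} {b c : ℕ} (G : Good q E Fc)
    (hF : (b, c, o) ∈ Fc) (F : Fan q o V x) {L : List ℕ}
    (hL : ∀ w ∈ L, w ∈ V ∧ In3 (q b) (q c) (q o) (q w))
    (hV : ∀ w ∈ V, w = b ∨ w = c ∨ w ∈ L) (hx : ∀ w ∈ V, x b ≤ x w ∧ x w ≤ x c)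
    {T : List (ℕ × ℕ)} (hT : ∀ e ∈ T, Low q V x e.1 e.2 ∨ Low q V x e.2 e.1)
    (hbc : ∀ e ∈ T, e ≠ (b, c) ∧ e ≠ (c, b))
    (lam : ∀ e ∈ T, ∀ f ∈ T, ∀ u v u' v', (e = (u, v) ∨ e = (v, u)) → (f = (u', v') ∨ f = (v', u')) →
      x u < x v → x u' < x v' →
      (x u < x u' → x u' < x v → x v' ≤ x v) ∧ (x u < x v' → x v' < x v → x u ≤ x u')) :
    Planar (E ++ (L.map (fun w => (o, w)) ++ T)) q := by
  -- two lower edges
  have low2 : ∀ u v u' v', Low q V x u v → Low q V x u' v' →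
      ((x u < x u' → x u' < x v → x v' ≤ x v) ∧ (x u < x v' → x v' < x v → x u ≤ x u')) →
      ((x u' < x u → x u < x v' → x v ≤ x v') ∧ (x u' < x v → x v < x v' → x u' ≤ x u)) →
      ∀ z, z ∈ segment ℝ (q u) (q v) → z ∈ segment ℝ (q u') (q v') → Res q u v u' v' z := by
    intro u v u' v' h h' l1 l2 z hz hz'
    rcases le_or_gt (x v) (x u') with h1 | h1
    · exact F.disj h h' h1 hz hz'
    rcases le_or_gt (x v') (x u) with h2 | h2
    · exact (F.disj h' h h2 hz' hz).comm
    rcases lt_trichotomy (x u) (x u') with h3 | h3 | h3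
    · exact F.nested h h' h3.le (l1.1 h3 h1) hz hz'
    · rcases le_total (x v') (x v) with h4 | h4
      · exact F.nested h h' h3.le h4 hz hz'
      · exact (F.nested h' h h3.ge h4 hz' hz).comm
    · exact (F.nested h' h h3.le (l2.1 h3 h2) hz' hz).comm
  have TT : ∀ e ∈ T, ∀ f ∈ T, ∀ z, z ∈ segment ℝ (q e.1) (q e.2) → z ∈ segment ℝ (q f.1) (q f.2) →
      Res q e.1 e.2 f.1 f.2 z := by
    intro e he f hf z hz hz'
    rcases hT e he with h | h <;> rcases hT f hf with h' | h'
    · exact low2 _ _ _ _ h h' (lam e he f hf _ _ _ _ (Or.inl rfl) (Or.inl rfl) h.lt h'.lt)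
        (lam f hf e he _ _ _ _ (Or.inl rfl) (Or.inl rfl) h'.lt h.lt) z hz hz'
    · exact (low2 _ _ _ _ h h' (lam e he f hf _ _ _ _ (Or.inl rfl) (Or.inr rfl) h.lt h'.lt)
        (lam f hf e he _ _ _ _ (Or.inr rfl) (Or.inl rfl) h'.lt h.lt) z hz
        (by rwa [segment_symm])).swap2
    · exact (low2 _ _ _ _ h h' (lam e he f hf _ _ _ _ (Or.inr rfl) (Or.inl rfl) h.lt h'.lt)
        (lam f hf e he _ _ _ _ (Or.inl rfl) (Or.inr rfl) h'.lt h.lt) z
        (by rwa [segment_symm]) hz').swap1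
    · exact (low2 _ _ _ _ h h' (lam e he f hf _ _ _ _ (Or.inr rfl) (Or.inr rfl) h.lt h'.lt)
        (lam f hf e he _ _ _ _ (Or.inr rfl) (Or.inr rfl) h'.lt h.lt) z
        (by rwa [segment_symm]) (by rwa [segment_symm])).swap1.swap2
  have ST : ∀ w ∈ L, ∀ f ∈ T, ∀ z, z ∈ segment ℝ (q o) (q w) → z ∈ segment ℝ (q f.1) (q f.2) →
      Res q o w f.1 f.2 z := by
    intro w hw f hf z hz hz'
    rcases hT f hf with h | h
    · exact (F.spoke h (hL w hw).1 hz' hz).comm
    · exact (F.spoke h (hL w hw).1 (by rwa [segment_symm]) hz).swap1.comm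
  -- inner edges are in the triangle
  have inner : ∀ e ∈ L.map (fun w => (o, w)) ++ T, ∀ z, z ∈ segment ℝ (q e.1) (q e.2) →
      In3 (q b) (q c) (q o) z ∨ ∃ w, (w = b ∨ w = c ∨ w = o) ∧ (w = e.1 ∨ w = e.2) ∧ z = q w := by
    intro e he z hz
    rcases List.mem_append.1 he with he | he
    · obtain ⟨w, hw, rfl⟩ := List.mem_map.1 he
      rcases (hL w hw).2.rot.rot.seg hz with h | h
      · exact Or.inr ⟨o, Or.inr (Or.inr rfl), Or.inl rfl, h⟩
      · exact Or.inl h.rot
    · have key : ∀ u v, Low q V x u v → (u, v) ≠ (b, c) → ∀ z, z ∈ segment ℝ (q u) (q v) →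
          In3 (q b) (q c) (q o) z ∨ ∃ w, (w = b ∨ w = c ∨ w = o) ∧ (w = u ∨ w = v) ∧ z = q w := by
        intro u v h hne z hz
        have hu : u ≠ c := by
          rintro rfl
          have := (hx v h.mv).2
          have := h.lt
          linarith
        have hv : v ≠ b := by
          rintro rfl
          have := (hx u h.mu).1
          have := h.lt
          linarith
        rcases hV u h.mu with rfl | hu' | huL
        · rcases hV v h.mv with hv' | rfl | hvL
          · exact absurd hv' hv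
          · exact absurd rfl hne
          · rcases (hL v hvL).2.seg hz with h1 | h1
            · exact Or.inr ⟨u, Or.inl rfl, Or.inl rfl, h1⟩
            · exact Or.inl h1
        · exact absurd hu' hu
        · rcases hV v h.mv with hv' | rfl | hvL
          · exact absurd hv' hv
          · rw [segment_symm] at hz
            rcases (hL u huL).2.rot.seg hz with h1 | h1
            · exact Or.inr ⟨v, Or.inr (Or.inl rfl), Or.inr rfl, h1⟩
            · exact Or.inl h1.rot.rot
          · exact Or.inl ((hL u huL).2.conv (hL v hvL).2 hz)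
      obtain ⟨n1, n2⟩ := hbc e he
      rcases hT e he with h | h
      · exact key _ _ h n1 z hz
      · rcases key _ _ h (fun h' => n2 (by
          rw [Prod.ext_iff] at h' ⊢
          exact ⟨h'.2, h'.1⟩)) z (by rwa [segment_symm]) with h1 | ⟨w, w1, w2, w3⟩
        · exact Or.inl h1
        · exact Or.inr ⟨w, w1, w2.symm, w3⟩
  -- the frame and the inner edges
  have hs := G.side _ hF
  obtain ⟨s1, s2, s3⟩ : Ed E b c ∧ Ed E c o ∧ Ed E o b := hs
  have fi : ∀ e ∈ E, ∀ f ∈ L.map (fun w => (o, w)) ++ T, ∀ z, z ∈ segment ℝ (q e.1) (q e.2) →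
      z ∈ segment ℝ (q f.1) (q f.2) → Res q e.1 e.2 f.1 f.2 z := by
    intro e he f hf z hz hz'
    rcases inner f hf z hz' with h | ⟨w, w1, w2, w3⟩
    · exact absurd h (G.off e he _ hF z hz)
    · refine Or.inr (Or.inr ⟨w, ?_, w2, w3⟩)
      rw [w3] at hz
      rcases w1 with rfl | rfl | rfl
      · exact G.vtx s1 (Or.inl he) hz
      · exact G.vtx s2 (Or.inl he) hz
      · exact G.vtx s3 (Or.inl he) hz
  rw [planar_iff]
  intro e he f hf z hz hz'
  rw [List.mem_append] at he hf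
  rcases he with he | he <;> rcases hf with hf | hf
  · exact planar_iff.1 G.cr e he f hf z hz hz'
  · exact fi e he f hf z hz hz'
  · exact (fi f hf e he z hz' hz).comm
  · rw [List.mem_append] at he hf
    rcases he with he | he <;> rcases hf with hf | hf
    · obtain ⟨w, hw, rfl⟩ := List.mem_map.1 he
      obtain ⟨w', hw', rfl⟩ := List.mem_map.1 hf
      exact F.spokes (hL w hw).1 (hL w' hw').1 hz hz'
    · obtain ⟨w, hw, rfl⟩ := List.mem_map.1 he
      exact ST w hw f hf z hz hz'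
    · obtain ⟨w, hw, rfl⟩ := List.mem_map.1 hf
      exact (ST w hw e he z hz' hz).comm
    · exact TT e he f hf z hz hz'

/-- A planar drawing without degenerate edges avoids the vertices. -/
theorem vtx_of_planar {E : List (ℕ × ℕ)} (hP : Planar E q) (hn : ∀ e ∈ E, q e.1 ≠ q e.2)
    {a b u v : ℕ} (hab : Ed E a b) (h : Ed E u v) (hx : q a ∈ segment ℝ (q u) (q v)) :
    a = u ∨ a = v := by
  have ne : ∀ {u v : ℕ}, Ed E u v → q u ≠ q v := by
    intro u v h
    rcases h with h | h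
    · exact hn _ h
    · exact (hn _ h).symm
  have hc := planar_iff.1 hP
  have cr : ∀ {u v u' v' : ℕ}, Ed E u v → Ed E u' v' → ∀ x, x ∈ segment ℝ (q u) (q v) →
      x ∈ segment ℝ (q u') (q v') → Res q u v u' v' x := by
    intro u v u' v' h h' x hx hx'
    rcases h with h | h <;> rcases h' with h' | h'
    · exact hc _ h _ h' x hx hx'
    · exact (hc _ h _ h' x hx (by rwa [segment_symm])).swap2
    · exact (hc _ h _ h' x (by rwa [segment_symm]) hx').swap1
    · exact (hc _ h _ h' x (by rwa [segment_symm]) (by rwa [segment_symm])).swap1.swap2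
  rcases cr hab h _ (left_mem_segment ℝ (q a) (q b)) hx with ⟨rfl, rfl⟩ | ⟨rfl, rfl⟩ |
    ⟨w, w1, w2, w3⟩
  · exact Or.inl rfl
  · exact Or.inr rfl
  · rcases w1 with rfl | rfl
    · exact w2
    · exact absurd w3 (ne hab)

end

end Pool.Agent.NPC.ER.SGE
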