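import Pool.Agent.TH663.SGE.Draw1
import Pool.Agent.TH663.SGE.Compl5

/-!
# The drawing of the first graph in a copy
-/

namespace Pool.Agent.NPC.ER.SGE

open Pool.Agent.NPC.ER.GPP
open Pool.Agent.NPC.ER.Oslp (Ins OSat)

/-! ### Lists -/

theorem zip_mem {x : ℕ → ℝ} : ∀ {l : List ℕ} {c : ℕ},
    ((c :: l).Pairwise fun u v => x u < x v) → ∀ e ∈ (c :: l).zip l,
      e.1 ∈ c :: l ∧ e.2 ∈ c :: l ∧ x e.1 < x e.2 ∧ ∀ w ∈ c :: l, x e.1 < x w → x w < x e.2 → False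
  | [], c, _, e, he => by simp at he
  | d :: l, c, h, e, he => by
    rw [List.zip_cons_cons, List.mem_cons] at he
    have h' := List.pairwise_cons.1 h
    have h'' := List.pairwise_cons.1 h'.2
    rcases he with rfl | he
    · refine ⟨by simp, by simp, h'.1 d (by simp), fun w hw h1 h2 => ?_⟩
      simp only [List.mem_cons] at hw
      rcases hw with rfl | rfl | hw
      · exact lt_irrefl _ h1
      · exact lt_irrefl _ h2
      · have := h''.1 w hw
        simp only at h2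
        linarith
    · obtain ⟨i1, i2, i3, i4⟩ := zip_mem h'.2 e he
      refine ⟨List.mem_cons_of_mem _ i1, List.mem_cons_of_mem _ i2, i3, fun w hw h1 h2 => ?_⟩
      rcases List.mem_cons.1 hw with rfl | hw
      · have := h'.1 _ i1
        linarith
      · exact i4 w hw h1 h2

theorem inj_of_pw {x : ℕ → ℝ} {l : List ℕ} (h : l.Pairwise fun u v => x u < x v) :
    ∀ u ∈ l, ∀ v ∈ l, x u = x v → u = v := by
  have h3 : l.Pairwise fun a b => x a = x b → a = b :=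
    h.imp fun {a b} hab he => absurd he hab.ne
  haveI : Std.Symm (fun a b : ℕ => x a = x b → a = b) :=
    ⟨fun a b hab he => (hab he.symm).symm⟩
  intro u hu v hv
  exact List.Pairwise.forall_of_forall (R := fun a b : ℕ => x a = x b → a = b)
    (fun a _ _ => rfl) h3 hu hv

theorem infix_btw {x : ℕ → ℝ} {B l : List ℕ} (hB : B <:+: l)
    (h : l.Pairwise fun u v => x u < x v) {u v w : ℕ} (hu : u ∈ B) (hv : v ∈ B) (hw : w ∈ l)
    (h1 : x u < x w) (h2 : x w < x v) : w ∈ B := by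
  obtain ⟨A, C, rfl⟩ := hB
  rw [List.append_assoc, List.pairwise_append, List.pairwise_append] at h
  obtain ⟨-, ⟨-, -, h3⟩, h4⟩ := h
  rw [List.append_assoc, List.mem_append, List.mem_append] at hw
  rcases hw with hw | hw | hw
  · have := h4 w hw u (List.mem_append_left _ hu)
    linarith
  · exact hw
  · have := h3 v hv w hw
    linarith

/-! ### The drawing -/

/-- The first coordinate. -/
noncomputable def xx (X : ℕ → ℝ) (u : ℕ) : ℝ := if u = sl 1 then 0 else if u = sl 2 then 1 else X u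

/-- The second coordinate. -/
noncomputable def yy (Y : ℕ → ℝ) (u : ℕ) : ℝ := if u = sl 1 then 1 else if u = sl 2 then 1 else Y u

/-- The drawing of a copy. -/
noncomputable def qq (X Y : ℕ → ℝ) (τ : ℝ) (u : ℕ) : ℝ × ℝ :=
  if u = sl 0 then (τ, 1) else if u = sl 3 then (τ, 0) else if u = sl 4 then (0, 9) else
    (τ + (2 * xx X u - 1) / yy Y u, -1 / yy Y u)

/-- The vertices in the fan. -/
def VV (L : List ℕ) : List ℕ := sl 1 :: (L ++ [sl 2])

section

variable {X Y : ℕ → ℝ} {τ : ℝ}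

theorem qq0 : qq X Y τ (sl 0) = (τ, 1) := by simp [qq]
theorem qq3 : qq X Y τ (sl 3) = (τ, 0) := by simp [qq, sl]
theorem qq4 : qq X Y τ (sl 4) = (0, 9) := by simp [qq, sl]
theorem qq1 : qq X Y τ (sl 1) = (τ - 1, -1) := by
  simp [qq, sl, xx, yy, sub_eq_add_neg]
theorem qq2 : qq X Y τ (sl 2) = (τ + 1, -1) := by
  simp [qq, sl, xx, yy]; norm_num

theorem qq_of {u : ℕ} (h : u % 16 ≠ 15 ∨ u = sl 1 ∨ u = sl 2) :
    qq X Y τ u = (τ + (2 * xx X u - 1) / yy Y u, -1 / yy Y u) := by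
  unfold qq
  rw [if_neg, if_neg, if_neg]
  all_goals
    rintro rfl
    simp [sl] at h

theorem xx_of {u : ℕ} (h : u % 16 ≠ 15) : xx X u = X u := by
  unfold xx
  rw [if_neg, if_neg]
  all_goals
    rintro rfl
    simp [sl] at h

theorem yy_of {u : ℕ} (h : u % 16 ≠ 15) : yy Y u = Y u := by
  unfold yy
  rw [if_neg, if_neg]
  all_goals
    rintro rfl
    simp [sl] at h

theorem D_plane {τ x1 y1 x2 y2 x3 y3 : ℝ} (h1 : 0 < y1) (h2 : 0 < y2) (h3 : 0 < y3) :
    D (τ + (2 * x1 - 1) / y1, -1 / y1) (τ + (2 * x2 - 1) / y2, -1 / y2)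
      (τ + (2 * x3 - 1) / y3, -1 / y3) = 2 / (y1 * y2 * y3) * D (x1, y1) (x2, y2) (x3, y3) := by
  unfold D
  simp only
  field_simp
  ring

theorem D_planeO {τ x1 y1 x2 y2 : ℝ} (h1 : 0 < y1) (h2 : 0 < y2) :
    D (τ, 0) (τ + (2 * x1 - 1) / y1, -1 / y1) (τ + (2 * x2 - 1) / y2, -1 / y2) =
      2 / (y1 * y2) * (x2 - x1) := by
  unfold D
  simp only
  field_simp
  ring

end

section

variable {Gs : List Gad} {N : ℕ} {pr : List Ins} {X Y : ℕ → ℝ}

theorem ord_cases {w : ℕ} (h : w ∈ ord Gs N) : (∃ n, w = el n) ∨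
    ∃ G ∈ Gs, ∃ b ∈ G.2.2, ∃ r ∈ b.2.2, w = gl G.1 r := by
  unfold ord at h
  obtain ⟨n, -, h⟩ := List.mem_flatMap.1 h
  unfold grp at h
  rw [List.mem_append, List.mem_cons, List.mem_flatMap, List.mem_flatMap] at h
  rcases h with ⟨G, hG, h⟩ | rfl | ⟨G, hG, h⟩
  · obtain ⟨b, hb, -, r, hr, rfl⟩ := mem_items_iff.1 h
    exact Or.inr ⟨G, List.mem_reverse.1 hG, b, hb, r, hr, rfl⟩
  · exact Or.inl ⟨n, rfl⟩
  · obtain ⟨b, hb, -, r, hr, rfl⟩ := mem_items_iff.1 h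
    exact Or.inr ⟨G, hG, b, hb, r, hr, rfl⟩

variable (hk : ∀ G ∈ Gs, Kind N pr G) (C : Conf Gs N X Y)

include hk C

theorem Y_gt {w : ℕ} (h : w ∈ ord Gs N) : 1 < Y w := by
  rcases ord_cases h with ⟨n, rfl⟩ | ⟨G, hG, b, hb, r, hr, rfl⟩
  · rw [C.elY]; norm_num
  · have := (C.band G.1 r (role_lt (hk G hG) b hb r hr)).1
    have h2 : (0 : ℝ) ≤ G.1 := Nat.cast_nonneg _
    linarith

theorem VV_cases {w : ℕ} (h : w ∈ VV (ord Gs N)) : w = sl 1 ∨ w = sl 2 ∨ w ∈ ord Gs N := by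
  unfold VV at h
  simp only [List.mem_cons, List.mem_append, List.not_mem_nil, or_false] at h
  tauto

theorem VV_mod {w : ℕ} (h : w ∈ VV (ord Gs N)) : w % 16 ≠ 15 ∨ w = sl 1 ∨ w = sl 2 := by
  rcases VV_cases hk C h with h1 | h1 | h1
  · exact Or.inr (Or.inl h1)
  · exact Or.inr (Or.inr h1)
  · exact Or.inl (ord_mod hk w h1)

theorem yy_pos {w : ℕ} (h : w ∈ VV (ord Gs N)) : 0 < yy Y w := by
  rcases VV_cases hk C h with rfl | rfl | h1
  · simp [yy]
  · simp [yy, sl]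
  · rw [yy_of (ord_mod hk w h1)]
    linarith [Y_gt hk C h1]

theorem VV_pw : (VV (ord Gs N)).Pairwise fun u v => xx X u < xx X v := by
  have h1 : xx X (sl 1) = 0 := by simp [xx]
  have h2 : xx X (sl 2) = 1 := by simp [xx, sl]
  unfold VV
  rw [List.pairwise_cons, List.pairwise_append]
  refine ⟨fun w hw => ?_, ?_, by simp, fun a ha b hb => ?_⟩
  · rw [h1]
    rcases List.mem_append.1 hw with h | h
    · rw [xx_of (ord_mod hk w h)]; exact (C.rng w h).1
    · rw [List.mem_singleton.1 h, h2]; exact one_pos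
  · refine List.Pairwise.imp_of_mem ?_ C.ordr
    intro a b ha hb hab
    rw [xx_of (ord_mod hk a ha), xx_of (ord_mod hk b hb)]
    exact hab
  · rw [List.mem_singleton.1 hb, h2, xx_of (ord_mod hk a ha)]
    exact (C.rng a ha).2

theorem fan_qq (τ : ℝ) : Fan (qq X Y τ) (sl 3) (VV (ord Gs N)) (xx X) := by
  refine ⟨inj_of_pw (VV_pw hk C), fun u hu v hv h => ?_⟩
  rw [qq3, qq_of (VV_mod hk C hu), qq_of (VV_mod hk C hv), D_planeO (yy_pos hk C hu)
    (yy_pos hk C hv)]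
  exact mul_pos (div_pos two_pos (mul_pos (yy_pos hk C hu) (yy_pos hk C hv))) (by linarith)

theorem D_qq {τ : ℝ} {u v w : ℕ} (hu : u ∈ VV (ord Gs N)) (hv : v ∈ VV (ord Gs N))
    (hw : w ∈ VV (ord Gs N)) : D (qq X Y τ u) (qq X Y τ v) (qq X Y τ w) =
      2 / (yy Y u * yy Y v * yy Y w) * D (xx X u, yy Y u) (xx X v, yy Y v) (xx X w, yy Y w) := by
  rw [qq_of (VV_mod hk C hu), qq_of (VV_mod hk C hv), qq_of (VV_mod hk C hw),
    D_plane (yy_pos hk C hu) (yy_pos hk C hv) (yy_pos hk C hw)]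

theorem ord_VV {w : ℕ} (h : w ∈ ord Gs N) : w ∈ VV (ord Gs N) := by
  unfold VV; simp [h]

theorem in_tri {τ : ℝ} {w : ℕ} (h : w ∈ ord Gs N) :
    In3 (qq X Y τ (sl 1)) (qq X Y τ (sl 2)) (qq X Y τ (sl 3)) (qq X Y τ w) := by
  have F := fan_qq hk C τ
  have hw := ord_VV hk C h
  have m1 : sl 1 ∈ VV (ord Gs N) := by simp [VV]
  have m2 : sl 2 ∈ VV (ord Gs N) := by simp [VV]
  have h1 : xx X (sl 1) = 0 := by simp [xx]
  have h2 : xx X (sl 2) = 1 := by simp [xx, sl]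
  have hr := C.rng w h
  refine ⟨?_, ?_, ?_⟩
  · rw [D_qq hk C m1 m2 hw]
    refine mul_pos (div_pos two_pos (mul_pos (mul_pos (yy_pos hk C m1) (yy_pos hk C m2))
      (yy_pos hk C hw))) ?_
    rw [h1, h2, show yy Y (sl 1) = 1 by simp [yy], show yy Y (sl 2) = 1 by simp [yy, sl],
      yy_of (ord_mod hk w h)]
    have := Y_gt hk C h
    unfold D
    simp only
    linarith
  · rw [D_rot' (qq X Y τ (sl 3)) (qq X Y τ w) (qq X Y τ (sl 2))]
    exact F.pos w hw _ m2 (by rw [h2, xx_of (ord_mod hk w h)]; exact hr.2)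
  · exact F.pos _ m1 w hw (by rw [h1, xx_of (ord_mod hk w h)]; exact hr.1)

end

theorem good_fr {X Y : ℕ → ℝ} {τ : ℝ} (hτ : τ = -2 ∨ τ = 2) :
    ∃ F, Good (qq X Y τ) frE F ∧ (sl 1, sl 2, sl 3) ∈ F := by
  have h0 : 0 < D (qq X Y τ (sl 1)) (qq X Y τ (sl 2)) (qq X Y τ (sl 4)) := by
    rw [qq1, qq2, qq4]; unfold D; rcases hτ with rfl | rfl <;> norm_num
  have G0 := good_start h0
  have G1 := G0.ins (a := sl 1) (b := sl 2) (c := sl 4) (v := sl 0) (by simp)
    (by rw [qq1, qq2, qq0]; unfold D; rcases hτ with rfl | rfl <;> norm_num)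
    (by rw [qq2, qq4, qq0]; unfold D; rcases hτ with rfl | rfl <;> norm_num)
    (by rw [qq1, qq4, qq0]; unfold D; rcases hτ with rfl | rfl <;> norm_num)
  have G2 := G1.ins (a := sl 1) (b := sl 2) (c := sl 0) (v := sl 3) (by simp)
    (by rw [qq1, qq2, qq3]; unfold D; rcases hτ with rfl | rfl <;> norm_num)
    (by rw [qq2, qq0, qq3]; unfold D; rcases hτ with rfl | rfl <;> norm_num)
    (by rw [qq1, qq0, qq3]; unfold D; rcases hτ with rfl | rfl <;> norm_num)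
  exact ⟨_, G2, by simp⟩

end Pool.Agent.NPC.ER.SGE
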