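import Pool.Agent.TH663.SGE.Draw2

/-!
# The first graph is planar in a copy
-/

namespace Pool.Agent.NPC.ER.SGE

open Pool.Agent.NPC.ER.GPP
open Pool.Agent.NPC.ER.Oslp (Ins OSat)

/-- The vertices between the endpoints of a chord. -/
def btw (ch : ℕ × ℕ) : List ℕ := if ch = (8, 6) then [9, 5, 7] else if ch = (5, 6) then [7] else [4]

theorem btw_fin : ∀ ch ∈ C1t, ∀ ch' ∈ C1t,
    (ch'.1 ∈ btw ch → ch'.2 = ch.1 ∨ ch'.2 = ch.2) ∧
      (ch'.2 ∈ btw ch → ch'.1 = ch.1 ∨ ch'.1 = ch.2) := by decide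

theorem C2_sub : ∀ ch ∈ C2t, ch ∈ C1t := by decide

/-- The chords of a gadget. -/
def Cs (G : Gad) : List (ℕ × ℕ) := if G.2.1 = true then C1t else C2t

theorem Cs_sub {G : Gad} : ∀ ch ∈ Cs G, ch ∈ C1t := by
  intro ch h
  unfold Cs at h
  split_ifs at h
  · exact h
  · exact C2_sub ch h

theorem btw_lt : ∀ ch ∈ C1t, ch.1 < 14 ∧ ch.2 < 14 ∧ ∀ r ∈ btw ch, r < 14 := by decide

section

variable {Gs : List Gad} {N : ℕ} {pr : List Ins} {X Y : ℕ → ℝ}

theorem blk_cl {G : Gad} (hk : Kind N pr G) : ∃ b ∈ G.2.2, b.1 ≤ N + 1 ∧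
    ∀ r, r ∈ b.2.2 ↔ r = 8 ∨ r = 9 ∨ r = 5 ∨ r = 7 ∨ r = 6 := by
  cases hk with
  | lowM t o l i j hp ho hol hli hlj hik hjk hkN hG =>
    subst hG
    exact ⟨(j, false, [8, 9, 5, 7, 6]), by simp [lowM], by simp only; omega, by simp⟩
  | upM t o l i j hp ho hol hli hlj hik hjk hkN hG =>
    subst hG
    exact ⟨(j, true, [6, 7, 5, 9, 8]), by simp [upM], by simp only; omega, by
      intro r; simp only [List.mem_cons, List.not_mem_nil, or_false]; omega⟩
  | lowA t l i j hp hol hli hlj hik hjk hkN hG =>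
    subst hG
    exact ⟨(t + 2, false, [8, 9, 5, 7, 6]), by simp [lowA], by simp only; omega, by simp⟩
  | upA t l i j hp hol hli hlj hik hjk hkN hG =>
    subst hG
    exact ⟨(l, false, [6, 7, 5, 9, 8]), by simp [upA], by simp only; omega, by
      intro r; simp only [List.mem_cons, List.not_mem_nil, or_false]; omega⟩

theorem blk_cl2 {G : Gad} (hk : Kind N pr G) (h1 : G.2.1 = true) : ∃ b ∈ G.2.2, b.1 ≤ N + 1 ∧
    ∀ r, r ∈ b.2.2 ↔ r = 12 ∨ r = 4 ∨ r = 11 := by
  cases hk with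
  | lowM t o l i j hp ho hol hli hlj hik hjk hkN hG =>
    subst hG
    exact ⟨(l, true, [12, 4, 11]), by simp [lowM], by simp only; omega, by simp⟩
  | upM t o l i j hp ho hol hli hlj hik hjk hkN hG =>
    subst hG
    exact ⟨(t + 2, true, [11, 4, 12]), by simp [upM], by simp only; omega, by
      intro r; simp only [List.mem_cons, List.not_mem_nil, or_false]; omega⟩
  | lowA t l i j hp hol hli hlj hik hjk hkN hG =>
    subst hG
    exact absurd h1 (by simp)
  | upA t l i j hp hol hli hlj hik hjk hkN hG =>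
    subst hG
    exact absurd h1 (by simp)

variable (hk : ∀ G ∈ Gs, Kind N pr G) (C : Conf Gs N X Y)

include hk C

theorem gl_ord {G : Gad} (hG : G ∈ Gs) {ch : ℕ × ℕ} (hch : ch ∈ Cs G) :
    gl G.1 ch.1 ∈ ord Gs N ∧ gl G.1 ch.2 ∈ ord Gs N ∧ ∀ r ∈ btw ch, gl G.1 r ∈ ord Gs N := by
  have h := roles_mem hG (hk G hG)
  unfold Cs at hch
  split_ifs at hch with h1
  · rw [if_pos h1] at h
    have := btw_lt ch hch
    exact ⟨h _ this.1, h _ this.2.1, fun r hr => h _ (this.2.2 r hr)⟩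
  · rw [if_neg h1] at h
    have : ∀ ch ∈ C2t, ch.1 < 11 ∧ ch.2 < 11 ∧ ∀ r ∈ btw ch, r < 11 := by decide
    have := this ch hch
    exact ⟨h _ this.1, h _ this.2.1, fun r hr => h _ (this.2.2 r hr)⟩

theorem xx_gl {G : Gad} {r : ℕ} (h : gl G.1 r ∈ ord Gs N) : xx X (gl G.1 r) = X (gl G.1 r) :=
  xx_of (ord_mod hk _ h)

/-- The order of the vertices of a chord. -/
theorem ch_lt {G : Gad} (hG : G ∈ Gs) {ch : ℕ × ℕ} (hch : ch ∈ Cs G) :
    sg G.1 * X (gl G.1 ch.1) < sg G.1 * X (gl G.1 ch.2) := by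
  have h := go_of hG (hk G hG) C.ordr
  unfold Cs at hch
  split_ifs at hch with h1
  · have g := h.1 h1
    simp only [C1t, List.mem_cons, List.not_mem_nil, or_false] at hch
    rcases hch with rfl | rfl | rfl
    · exact lt_trans g.a7 (lt_trans g.a8 (lt_trans g.a9 g.a10))
    · exact lt_trans g.a9 g.a10
    · exact lt_trans g.a3 g.a4
  · have g := h.2 (by simpa using h1)
    simp only [C2t, List.mem_cons, List.not_mem_nil, or_false] at hch
    rcases hch with rfl | rfl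
    · exact lt_trans g.a7 (lt_trans g.a8 (lt_trans g.a9 g.a10))
    · exact lt_trans g.a9 g.a10

theorem ch_D {G : Gad} (hG : G ∈ Gs) {ch : ℕ × ℕ} (hch : ch ∈ Cs G) {r : ℕ} (hr : r ∈ btw ch) :
    0 < sg G.1 * D (X (gl G.1 ch.1), Y (gl G.1 ch.1)) (X (gl G.1 ch.2), Y (gl G.1 ch.2))
      (X (gl G.1 r), Y (gl G.1 r)) := by
  refine C.facts G hG (ch.1, ch.2, r) ?_
  unfold Cs at hch
  unfold St
  split_ifs at hch with h1
  · rw [if_pos h1, S1t_eq]
    have : ∀ ch ∈ C1t, ∀ r ∈ btw ch, (ch.1, ch.2, r) ∈ [(10, 1, 13), (10, 1, 0), (1, 13, 0), (13, 10, 0), (1, 13, 3), (13, 0, 3),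
    (0, 1, 3), (13, 0, 12), (0, 3, 12), (3, 13, 12), (0, 1, 2), (1, 3, 2), (3, 0, 2), (3, 0, 8),
    (0, 2, 8), (2, 3, 8), (0, 2, 9), (2, 8, 9), (8, 0, 9), (3, 0, 4), (0, 8, 4), (8, 3, 4),
    (0, 9, 4), (9, 8, 4), (8, 3, 11), (3, 4, 11), (4, 8, 11), (0, 1, 5), (1, 2, 5), (2, 0, 5),
    (1, 2, 6), (2, 5, 6), (5, 1, 6), (2, 5, 7), (5, 6, 7), (6, 2, 7), (8, 6, 9), (8, 6, 5),
    (8, 6, 7), (5, 6, 7), (12, 11, 4)] := by decide
    exact this ch hch r hr
  · rw [if_neg h1, S2t_eq]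
    have : ∀ ch ∈ C2t, ∀ r ∈ btw ch, (ch.1, ch.2, r) ∈ [(10, 1, 3), (10, 1, 0), (1, 3, 0), (3, 10, 0), (1, 3, 2), (3, 0, 2),
    (0, 1, 2), (3, 0, 8), (0, 2, 8), (2, 3, 8), (0, 2, 9), (2, 8, 9), (8, 0, 9), (3, 0, 4),
    (0, 8, 4), (8, 3, 4), (0, 9, 4), (9, 8, 4), (0, 1, 5), (1, 2, 5), (2, 0, 5),
    (1, 2, 6), (2, 5, 6), (5, 1, 6), (2, 5, 7), (5, 6, 7), (6, 2, 7), (8, 6, 9), (8, 6, 5),
    (8, 6, 7), (5, 6, 7)] := by decide
    exact this ch hch r hr

omit C in
theorem ord_pre : ord Gs N <:+: VV (ord Gs N) :=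
  ⟨[sl 1], [sl 2], by unfold VV; simp⟩

/-- The vertices between the endpoints of a chord. -/
theorem ch_btw {G : Gad} (hG : G ∈ Gs) {ch : ℕ × ℕ} (hch : ch ∈ Cs G) {w : ℕ}
    (hw : w ∈ VV (ord Gs N)) (h1 : sg G.1 * X (gl G.1 ch.1) < sg G.1 * xx X w)
    (h2 : sg G.1 * xx X w < sg G.1 * X (gl G.1 ch.2)) : ∃ r ∈ btw ch, w = gl G.1 r := by
  have hgo := go_of hG (hk G hG) C.ordr
  obtain ⟨m1, m2, -⟩ := gl_ord hk C hG hch
  have key : ∀ b ∈ G.2.2, b.1 ≤ N + 1 → ch.1 ∈ b.2.2 → ch.2 ∈ b.2.2 →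
      ∃ r ∈ b.2.2, w = gl G.1 r := by
    intro b hb hb1 hc1 hc2
    have hinf : b.2.2.map (gl G.1) <:+: VV (ord Gs N) :=
      (blk_infix hG hb hb1).trans (ord_pre hk)
    have i1 : gl G.1 ch.1 ∈ b.2.2.map (gl G.1) := List.mem_map_of_mem hc1
    have i2 : gl G.1 ch.2 ∈ b.2.2.map (gl G.1) := List.mem_map_of_mem hc2
    have hw' : w ∈ b.2.2.map (gl G.1) := by
      rw [← xx_gl hk C m1] at h1
      rw [← xx_gl hk C m2] at h2
      rcases sg_cases G.1 with hs | hs
      · rw [hs] at h1 h2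
        exact infix_btw hinf (VV_pw hk C) i1 i2 hw (by linarith) (by linarith)
      · rw [hs] at h1 h2
        exact infix_btw hinf (VV_pw hk C) i2 i1 hw (by linarith) (by linarith)
    obtain ⟨r, hr, rfl⟩ := List.mem_map.1 hw'
    exact ⟨r, hr, rfl⟩
  have hb1 := blk_cl (hk G hG)
  have fin : ∀ r, w = gl G.1 r → gl G.1 r ∈ ord Gs N →
      sg G.1 * X (gl G.1 ch.1) < sg G.1 * X (gl G.1 r) ∧
      sg G.1 * X (gl G.1 r) < sg G.1 * X (gl G.1 ch.2) := by
    rintro r rfl hr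
    rw [xx_gl hk C hr] at h1 h2
    exact ⟨h1, h2⟩
  have rm := roles_mem hG (hk G hG)
  unfold Cs at hch
  split_ifs at hch with ht
  · have g := hgo.1 ht
    obtain ⟨a1, a2, a3, a4, a5, a6, a7, a8, a9, a10, a11, a12, a13, a14⟩ := g
    rw [if_pos ht] at rm
    simp only [C1t, List.mem_cons, List.not_mem_nil, or_false] at hch
    rcases hch with rfl | rfl | rfl
    · obtain ⟨b, hb, hbn, hbr⟩ := hb1
      obtain ⟨r, hr, hwr⟩ := key b hb hbn ((hbr _).2 (by decide)) ((hbr _).2 (by decide))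
      have hr' := (hbr r).1 hr
      have := fin r hwr (by rcases hr' with rfl | rfl | rfl | rfl | rfl <;> exact rm _ (by omega))
      refine ⟨r, ?_, hwr⟩
      show r ∈ [9, 5, 7]
      rcases hr' with rfl | rfl | rfl | rfl | rfl
      · exact absurd this.1 (lt_irrefl _)
      · decide
      · decide
      · decide
      · exact absurd this.2 (lt_irrefl _)
    · obtain ⟨b, hb, hbn, hbr⟩ := hb1
      obtain ⟨r, hr, hwr⟩ := key b hb hbn ((hbr _).2 (by decide)) ((hbr _).2 (by decide))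
      have hr' := (hbr r).1 hr
      have := fin r hwr (by rcases hr' with rfl | rfl | rfl | rfl | rfl <;> exact rm _ (by omega))
      refine ⟨r, ?_, hwr⟩
      show r ∈ [7]
      simp only at this
      rcases hr' with rfl | rfl | rfl | rfl | rfl
      · exfalso; linarith
      · exfalso; linarith
      · exfalso; linarith
      · decide
      · exfalso; linarith
    · obtain ⟨b, hb, hbn, hbr⟩ := blk_cl2 (hk G hG) ht
      obtain ⟨r, hr, hwr⟩ := key b hb hbn ((hbr _).2 (by decide)) ((hbr _).2 (by decide))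
      have hr' := (hbr r).1 hr
      have := fin r hwr (by rcases hr' with rfl | rfl | rfl <;> exact rm _ (by omega))
      refine ⟨r, ?_, hwr⟩
      show r ∈ [4]
      simp only at this
      rcases hr' with rfl | rfl | rfl
      · exfalso; linarith
      · decide
      · exfalso; linarith
  · have g := hgo.2 (by simpa using ht)
    obtain ⟨a1, a2, a3, a4, a5, a7, a8, a9, a10, a11, a12⟩ := g
    rw [if_neg ht] at rm
    simp only [C2t, List.mem_cons, List.not_mem_nil, or_false] at hch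
    rcases hch with rfl | rfl
    · obtain ⟨b, hb, hbn, hbr⟩ := hb1
      obtain ⟨r, hr, hwr⟩ := key b hb hbn ((hbr _).2 (by decide)) ((hbr _).2 (by decide))
      have hr' := (hbr r).1 hr
      have := fin r hwr (by rcases hr' with rfl | rfl | rfl | rfl | rfl <;> exact rm _ (by omega))
      refine ⟨r, ?_, hwr⟩
      show r ∈ [9, 5, 7]
      rcases hr' with rfl | rfl | rfl | rfl | rfl
      · exact absurd this.1 (lt_irrefl _)
      · decide
      · decide
      · decide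
      · exact absurd this.2 (lt_irrefl _)
    · obtain ⟨b, hb, hbn, hbr⟩ := hb1
      obtain ⟨r, hr, hwr⟩ := key b hb hbn ((hbr _).2 (by decide)) ((hbr _).2 (by decide))
      have hr' := (hbr r).1 hr
      have := fin r hwr (by rcases hr' with rfl | rfl | rfl | rfl | rfl <;> exact rm _ (by omega))
      refine ⟨r, ?_, hwr⟩
      show r ∈ [7]
      simp only at this
      rcases hr' with rfl | rfl | rfl | rfl | rfl
      · exfalso; linarith
      · exfalso; linarith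
      · exfalso; linarith
      · decide
      · exfalso; linarith

omit C hk in
theorem mem_chE {e : ℕ × ℕ} (h : e ∈ chE Gs) : ∃ G ∈ Gs, ∃ ch ∈ Cs G,
    e = (gl G.1 ch.1, gl G.1 ch.2) := by
  unfold chE at h
  obtain ⟨G, hG, h⟩ := List.mem_flatMap.1 h
  obtain ⟨ch, hch, rfl⟩ := List.mem_map.1 h
  exact ⟨G, hG, ch, hch, rfl⟩

/-- The lower edges. -/
theorem low_T (τ : ℝ) : ∀ e ∈ pathE (ord Gs N) ++ chE Gs,
    Low (qq X Y τ) (VV (ord Gs N)) (xx X) e.1 e.2 ∨
      Low (qq X Y τ) (VV (ord Gs N)) (xx X) e.2 e.1 := by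
  intro e he
  rcases List.mem_append.1 he with he | he
  · obtain ⟨h1, h2, h3, h4⟩ := zip_mem (VV_pw hk C) e he
    exact Or.inl ⟨h1, h2, h3, fun w hw g1 g2 => (h4 w hw g1 g2).elim⟩
  · obtain ⟨G, hG, ch, hch, rfl⟩ := mem_chE he
    obtain ⟨m1, m2, m3⟩ := gl_ord hk C hG hch
    have hlt := ch_lt hk C hG hch
    have v1 := ord_VV hk C m1
    have v2 := ord_VV hk C m2
    rcases sg_cases G.1 with hs | hs
    · left
      refine ⟨v1, v2, ?_, fun w hw g1 g2 => ?_⟩
      · simp only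
        rw [xx_gl hk C m1, xx_gl hk C m2]
        rw [hs] at hlt
        linarith
      · simp only at g1 g2
        rw [xx_gl hk C m1] at g1
        rw [xx_gl hk C m2] at g2
        obtain ⟨r, hr, rfl⟩ := ch_btw hk C hG hch hw (by rw [hs]; linarith) (by rw [hs]; linarith)
        have hd := ch_D hk C hG hch hr
        rw [hs, one_mul] at hd
        simp only
        rw [D_qq hk C v1 v2 hw, xx_gl hk C m1, xx_gl hk C m2, xx_gl hk C (m3 r hr),
          yy_of (ord_mod hk _ m1), yy_of (ord_mod hk _ m2), yy_of (ord_mod hk _ (m3 r hr))]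
        refine mul_pos (div_pos two_pos (mul_pos (mul_pos ?_ ?_) ?_)) hd
        · linarith [Y_gt hk C m1]
        · linarith [Y_gt hk C m2]
        · linarith [Y_gt hk C (m3 r hr)]
    · right
      refine ⟨v2, v1, ?_, fun w hw g1 g2 => ?_⟩
      · simp only
        rw [xx_gl hk C m1, xx_gl hk C m2]
        rw [hs] at hlt
        linarith
      · simp only at g1 g2
        rw [xx_gl hk C m2] at g1
        rw [xx_gl hk C m1] at g2
        obtain ⟨r, hr, rfl⟩ := ch_btw hk C hG hch hw (by rw [hs]; linarith) (by rw [hs]; linarith)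
        have hd := ch_D hk C hG hch hr
        rw [hs, neg_one_mul, ← D_swap12] at hd
        simp only
        rw [D_qq hk C v2 v1 hw, xx_gl hk C m1, xx_gl hk C m2, xx_gl hk C (m3 r hr),
          yy_of (ord_mod hk _ m1), yy_of (ord_mod hk _ m2), yy_of (ord_mod hk _ (m3 r hr))]
        refine mul_pos (div_pos two_pos (mul_pos (mul_pos ?_ ?_) ?_)) hd
        · linarith [Y_gt hk C m2]
        · linarith [Y_gt hk C m1]
        · linarith [Y_gt hk C (m3 r hr)]

end

end Pool.Agent.NPC.ER.SGE
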