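import Pool.Agent.TH663.SGE.Draw3

/-!
# The graphs in a copy
-/

namespace Pool.Agent.NPC.ER.SGE

open Pool.Agent.NPC.ER.GPP
open Pool.Agent.NPC.ER.Oslp (Ins OSat)

theorem gl_inj2 {g g' r r' : ℕ} (h1 : r < 16) (h2 : r' < 16) (h : gl g r = gl g' r') :
    g = g' ∧ r = r' := by
  unfold gl at h
  omega

section

variable {Gs : List Gad} {N : ℕ} {pr : List Ins} {X Y : ℕ → ℝ}
  (hk : ∀ G ∈ Gs, Kind N pr G) (C : Conf Gs N X Y)

include hk C

theorem T_cases {e : ℕ × ℕ} (he : e ∈ pathE (ord Gs N) ++ chE Gs) {u v : ℕ}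
    (h : e = (u, v) ∨ e = (v, u)) (hlt : xx X u < xx X v) :
    u ∈ VV (ord Gs N) ∧ v ∈ VV (ord Gs N) ∧
    ((∀ w ∈ VV (ord Gs N), xx X u < xx X w → xx X w < xx X v → False) ∨
      ∃ G ∈ Gs, ∃ ch ∈ Cs G, ((u = gl G.1 ch.1 ∧ v = gl G.1 ch.2) ∨
        (u = gl G.1 ch.2 ∧ v = gl G.1 ch.1)) ∧
        ∀ w ∈ VV (ord Gs N), xx X u < xx X w → xx X w < xx X v → ∃ r ∈ btw ch, w = gl G.1 r) := by
  rcases List.mem_append.1 he with he | he
  · obtain ⟨h1, h2, h3, h4⟩ := zip_mem (VV_pw hk C) e he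
    rcases h with rfl | rfl
    · exact ⟨h1, h2, Or.inl h4⟩
    · exfalso
      simp only at h3
      linarith
  · obtain ⟨G, hG, ch, hch, rfl⟩ := mem_chE he
    obtain ⟨m1, m2, m3⟩ := gl_ord hk C hG hch
    have hl := ch_lt hk C hG hch
    have v1 := ord_VV hk C m1
    have v2 := ord_VV hk C m2
    rcases h with h | h
    · obtain ⟨h1, h2⟩ := Prod.ext_iff.1 h
      simp only at h1 h2
      subst h1 h2
      rw [xx_gl hk C m1, xx_gl hk C m2] at hlt
      have hs : sg G.1 = 1 := by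
        rcases sg_cases G.1 with hs | hs
        · exact hs
        · rw [hs] at hl; exfalso; linarith
      refine ⟨v1, v2, Or.inr ⟨G, hG, ch, hch, Or.inl ⟨rfl, rfl⟩, fun w hw g1 g2 => ?_⟩⟩
      rw [xx_gl hk C m1] at g1
      rw [xx_gl hk C m2] at g2
      exact ch_btw hk C hG hch hw (by rw [hs]; linarith) (by rw [hs]; linarith)
    · obtain ⟨h1, h2⟩ := Prod.ext_iff.1 h
      simp only at h1 h2
      subst h1 h2
      rw [xx_gl hk C m1, xx_gl hk C m2] at hlt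
      have hs : sg G.1 = -1 := by
        rcases sg_cases G.1 with hs | hs
        · rw [hs] at hl; exfalso; linarith
        · exact hs
      refine ⟨v2, v1, Or.inr ⟨G, hG, ch, hch, Or.inr ⟨rfl, rfl⟩, fun w hw g1 g2 => ?_⟩⟩
      rw [xx_gl hk C m2] at g1
      rw [xx_gl hk C m1] at g2
      exact ch_btw hk C hG hch hw (by rw [hs]; linarith) (by rw [hs]; linarith)

theorem lam_T : ∀ e ∈ pathE (ord Gs N) ++ chE Gs, ∀ f ∈ pathE (ord Gs N) ++ chE Gs,
    ∀ u v u' v', (e = (u, v) ∨ e = (v, u)) → (f = (u', v') ∨ f = (v', u')) →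
      xx X u < xx X v → xx X u' < xx X v' →
      (xx X u < xx X u' → xx X u' < xx X v → xx X v' ≤ xx X v) ∧
        (xx X u < xx X v' → xx X v' < xx X v → xx X u ≤ xx X u') := by
  intro e he f hf u v u' v' h h' hlt hlt'
  obtain ⟨mu, mv, c1⟩ := T_cases hk C he h hlt
  obtain ⟨mu', mv', c2⟩ := T_cases hk C hf h' hlt'
  rcases c1 with c1 | ⟨G, hG, ch, hch, c0, c1⟩
  · exact ⟨fun g1 g2 => (c1 u' mu' g1 g2).elim, fun g1 g2 => (c1 v' mv' g1 g2).elim⟩
  rcases c2 with c2 | ⟨G', hG', ch', hch', c0', c2⟩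
  · constructor
    · intro g1 g2
      by_contra hcon
      exact c2 v mv g2 (not_le.1 hcon)
    · intro g1 g2
      by_contra hcon
      exact c2 u mu (not_le.1 hcon) g1
  have b1 := btw_lt ch (Cs_sub ch hch)
  have b2 := btw_lt ch' (Cs_sub ch' hch')
  have fin := btw_fin ch (Cs_sub ch hch) ch' (Cs_sub ch' hch')
  -- the other endpoint is an endpoint of the first chord
  have conc : ∀ z z', (z = u' ∧ z' = v' ∨ z = v' ∧ z' = u') → z ∈ VV (ord Gs N) →
      xx X u < xx X z → xx X z < xx X v → z' = u ∨ z' = v := by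
    intro z z' hz hzm g1 g2
    obtain ⟨r, hr, hzr⟩ := c1 z hzm g1 g2
    have hr14 := b1.2.2 r hr
    have key : ∀ s s', z = gl G'.1 s → z' = gl G'.1 s' → s < 14 →
        (s ∈ btw ch → s' = ch.1 ∨ s' = ch.2) → z' = u ∨ z' = v := by
      intro s s' h1 h2 h3 h4
      obtain ⟨e1, e2⟩ := gl_inj2 (by omega) (by omega) (hzr.symm.trans h1)
      have h5 := h4 (e2 ▸ hr)
      rw [← e1] at h2
      rcases h5 with rfl | rfl <;> rcases c0 with ⟨c3, c4⟩ | ⟨c3, c4⟩
      · exact Or.inl (h2.trans c3.symm)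
      · exact Or.inr (h2.trans c4.symm)
      · exact Or.inr (h2.trans c4.symm)
      · exact Or.inl (h2.trans c3.symm)
    rcases hz with ⟨rfl, rfl⟩ | ⟨rfl, rfl⟩ <;> rcases c0' with ⟨c3, c4⟩ | ⟨c3, c4⟩
    · exact key ch'.1 ch'.2 c3 c4 b2.1 fin.1
    · exact key ch'.2 ch'.1 c3 c4 b2.2.1 fin.2
    · exact key ch'.2 ch'.1 c4 c3 b2.2.1 fin.2
    · exact key ch'.1 ch'.2 c4 c3 b2.1 fin.1
  constructor
  · intro g1 g2
    rcases conc u' v' (Or.inl ⟨rfl, rfl⟩) mu' g1 g2 with h1 | h1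
    · rw [h1]; exact hlt.le
    · rw [h1]
  · intro g1 g2
    rcases conc v' u' (Or.inr ⟨rfl, rfl⟩) mv' g1 g2 with h1 | h1
    · rw [h1]
    · rw [h1]; exact hlt.le

omit C in
theorem el0_mem : el 0 ∈ ord Gs N := mem_ord_of_grp (Nat.zero_le _) el_mem

/-- The first graph is planar in a copy. -/
theorem red_planar {τ : ℝ} (hτ : τ = -2 ∨ τ = 2) :
    Planar (redE (ord Gs N) Gs) (qq X Y τ) := by
  obtain ⟨F, G, hF⟩ := good_fr (X := X) (Y := Y) hτ
  have h1 : xx X (sl 1) = 0 := by simp [xx]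
  have h2 : xx X (sl 2) = 1 := by simp [xx, sl]
  refine planar_fan G hF (fan_qq hk C τ) (L := ord Gs N) (fun w hw => ⟨ord_VV hk C hw,
    in_tri hk C hw⟩) (fun w hw => VV_cases hk C hw) (fun w hw => ?_) (low_T hk C τ) ?_
    (lam_T hk C)
  · rw [h1, h2]
    rcases VV_cases hk C hw with rfl | rfl | hw
    · rw [h1]; exact ⟨le_rfl, zero_le_one⟩
    · rw [h2]; exact ⟨zero_le_one, le_rfl⟩
    · rw [xx_of (ord_mod hk w hw)]
      have := C.rng w hw
      exact ⟨this.1.le, this.2.le⟩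
  · have m0 := el0_mem hk
    have x0 := C.rng _ m0
    have x0' := xx_of (X := X) (ord_mod hk _ m0)
    intro e he
    constructor
    · rintro rfl
      obtain ⟨-, -, c⟩ := T_cases hk C he (Or.inl rfl) (by rw [h1, h2]; exact one_pos)
      rcases c with c | ⟨G, hG, ch, hch, c, -⟩
      · refine c (el 0) (ord_VV hk C m0) ?_ ?_
        · rw [h1, x0']; exact x0.1
        · rw [h2, x0']; exact x0.2
      · have b1 := btw_lt ch (Cs_sub ch hch)
        rcases c with ⟨c1, c2⟩ | ⟨c1, c2⟩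
        · unfold sl gl at c1; omega
        · unfold sl gl at c1; omega
    · rintro rfl
      obtain ⟨-, -, c⟩ := T_cases hk C he (Or.inr rfl) (by rw [h1, h2]; exact one_pos)
      rcases c with c | ⟨G, hG, ch, hch, c, -⟩
      · refine c (el 0) (ord_VV hk C m0) ?_ ?_
        · rw [h1, x0']; exact x0.1
        · rw [h2, x0']; exact x0.2
      · have b1 := btw_lt ch (Cs_sub ch hch)
        rcases c with ⟨c1, c2⟩ | ⟨c1, c2⟩
        · unfold sl gl at c1; omega
        · unfold sl gl at c1; omega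

theorem red_nd {τ : ℝ} (hτ : τ = -2 ∨ τ = 2) :
    ∀ e ∈ redE (ord Gs N) Gs, qq X Y τ e.1 ≠ qq X Y τ e.2 := by
  obtain ⟨F, G, hF⟩ := good_fr (X := X) (Y := Y) hτ
  have Fn := fan_qq hk C τ
  intro e he
  unfold redE at he
  rcases List.mem_append.1 he with he | he
  · exact G.nd e he
  rcases List.mem_append.1 he with he | he
  · obtain ⟨w, hw, rfl⟩ := List.mem_map.1 he
    intro h
    simp only at h
    have := (in_tri hk C (τ := τ) hw).2.1
    rw [← h, D_right] at this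
    exact lt_irrefl _ this
  · rcases low_T hk C τ e he with h | h
    · have := Fn.pos _ h.mu _ h.mv h.lt
      intro h'
      rw [h', D_right] at this
      exact lt_irrefl _ this
    · have := Fn.pos _ h.mu _ h.mv h.lt
      intro h'
      rw [h', D_right] at this
      exact lt_irrefl _ this

omit hk C in
theorem red_inc {w : ℕ} (hw : w ∈ vts (ord Gs N)) : ∃ w', Ed (redE (ord Gs N) Gs) w w' := by
  unfold vts at hw
  simp only [List.mem_append, List.mem_cons, List.not_mem_nil, or_false] at hw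
  rcases hw with (rfl | rfl | rfl | rfl | rfl) | hw
  · exact ⟨sl 3, redE_fr (e := (sl 0, sl 3)) (by simp [frE])⟩
  · exact ⟨sl 3, redE_fr (e := (sl 1, sl 3)) (by simp [frE])⟩
  · exact ⟨sl 3, redE_fr (e := (sl 2, sl 3)) (by simp [frE])⟩
  · exact ⟨sl 0, (redE_fr (e := (sl 0, sl 3)) (by simp [frE])).symm⟩
  · exact ⟨sl 0, redE_fr (e := (sl 4, sl 0)) (by simp [frE])⟩
  · exact ⟨sl 3, (redE_sp hw).symm⟩

theorem red_vtx {τ : ℝ} (hτ : τ = -2 ∨ τ = 2) {e : ℕ × ℕ} (he : e ∈ redE (ord Gs N) Gs) {w : ℕ}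
    (hw : w ∈ vts (ord Gs N)) (h : qq X Y τ w ∈ segment ℝ (qq X Y τ e.1) (qq X Y τ e.2)) :
    w = e.1 ∨ w = e.2 := by
  obtain ⟨w', hw'⟩ := red_inc hw
  exact vtx_of_planar (red_planar hk C hτ) (red_nd hk C hτ) hw' (Or.inl he) h

theorem red_inj {τ : ℝ} (hτ : τ = -2 ∨ τ = 2) {u v : ℕ} (hu : u ∈ vts (ord Gs N))
    (hv : v ∈ vts (ord Gs N)) (h : qq X Y τ u = qq X Y τ v) : u = v := by
  obtain ⟨u', hu'⟩ := red_inc hu
  obtain ⟨v', hv'⟩ := red_inc hv
  rcases vtx_of_planar (red_planar hk C hτ) (red_nd hk C hτ) hu' hv'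
    (h ▸ left_mem_segment ℝ _ _) with h1 | rfl
  · exact h1
  · exfalso
    rcases hv' with h2 | h2
    · exact red_nd hk C hτ _ h2 h.symm
    · exact red_nd hk C hτ _ h2 h

end

end Pool.Agent.NPC.ER.SGE
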