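import Pool.Agent.TH663.SGE.Draw4

/-!
# The second graph in a copy
-/

namespace Pool.Agent.NPC.ER.SGE

open Pool.Agent.NPC.ER.GPP
open Pool.Agent.NPC.ER.Oslp (Ins OSat)

/-- Reflection or the identity. -/
def rf (s : ℝ) (z : ℝ × ℝ) : ℝ × ℝ := (s * z.1, z.2)

theorem rf_seg {s : ℝ} {a b z : ℝ × ℝ} (h : z ∈ segment ℝ a b) :
    rf s z ∈ segment ℝ (rf s a) (rf s b) := by
  obtain ⟨t, t0, t1, e1, e2⟩ := mem_seg.1 h
  refine mem_seg.2 ⟨t, t0, t1, ?_, e2⟩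
  unfold rf
  simp only
  rw [e1]; ring

theorem rf_inj {s : ℝ} (hs : s = 1 ∨ s = -1) {a b : ℝ × ℝ} (h : rf s a = rf s b) : a = b := by
  unfold rf at h
  rw [Prod.mk.injEq] at h
  rcases hs with rfl | rfl
  · exact Prod.ext (by linarith [h.1]) h.2
  · exact Prod.ext (by linarith [h.1]) h.2

theorem rf_D (s : ℝ) (a b c : ℝ × ℝ) : D (rf s a) (rf s b) (rf s c) = s * D a b c := by
  unfold D rf; ring

/-- The edges of the gadget. -/
def Et (G : Gad) : List (ℕ × ℕ) := if G.2.1 = true then E1t else E2t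

/-- The number of the roles. -/
def nr (G : Gad) : ℕ := if G.2.1 = true then 14 else 11

theorem St_lt' {G : Gad} : ∀ T ∈ St G, T.1 < nr G ∧ T.2.1 < nr G ∧ T.2.2 < nr G := by
  unfold St nr
  split_ifs
  · rw [S1t_eq]; decide
  · rw [S2t_eq]; decide

theorem Et_inc {G : Gad} {r : ℕ} (h : r < nr G) : ∃ r', Ed (Et G) r r' := by
  have h1 : ∀ r < 14, ∃ e ∈ E1t, e.1 = r ∨ e.2 = r := by rw [E1t_eq]; decide
  have h2 : ∀ r < 11, ∃ e ∈ E2t, e.1 = r ∨ e.2 = r := by rw [E2t_eq]; decide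
  unfold nr at h
  unfold Et
  split_ifs at h ⊢
  · obtain ⟨e, he, rfl | rfl⟩ := h1 r h
    · exact ⟨e.2, Or.inl he⟩
    · exact ⟨e.1, Or.inr he⟩
  · obtain ⟨e, he, rfl | rfl⟩ := h2 r h
    · exact ⟨e.2, Or.inl he⟩
    · exact ⟨e.1, Or.inr he⟩

theorem Et_lt {G : Gad} {e : ℕ × ℕ} (h : e ∈ Et G) : e.1 < nr G ∧ e.2 < nr G := by
  unfold Et at h
  unfold nr
  split_ifs at h ⊢
  · exact ed_lt1 (Or.inl h)
  · exact ed_lt2 (Or.inl h)

theorem nr_le (G : Gad) : nr G ≤ 14 := by unfold nr; split_ifs <;> omega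

theorem seg_snd {a b z : ℝ × ℝ} {l u : ℝ} (h : z ∈ segment ℝ a b) (ha : l < a.2 ∧ a.2 < u)
    (hb : l < b.2 ∧ b.2 < u) : l < z.2 ∧ z.2 < u := by
  obtain ⟨t, t0, t1, e1, e2⟩ := mem_seg.1 h
  rw [e2]
  rcases t0.eq_or_lt with rfl | h0
  · simpa using ha
  · have k1 := mul_nonneg (sub_nonneg.2 t1) (sub_pos.2 ha.1).le
    have k2 := mul_pos h0 (sub_pos.2 hb.1)
    have k3 := mul_nonneg (sub_nonneg.2 t1) (sub_pos.2 ha.2).le
    have k4 := mul_pos h0 (sub_pos.2 hb.2)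
    constructor <;> nlinarith

section

variable {Gs : List Gad} {N : ℕ} {pr : List Ins} {X Y : ℕ → ℝ}

theorem role_nr {G : Gad} (hk : Kind N pr G) : ∀ b ∈ G.2.2, ∀ r ∈ b.2.2, r < nr G := by
  cases hk with
  | lowM t o l i j hp ho hol hli hlj hik hjk hkN hG =>
    subst hG
    simp [lowM, nr]
  | upM t o l i j hp ho hol hli hlj hik hjk hkN hG =>
    subst hG
    simp [upM, nr]
  | lowA t l i j hp hol hli hlj hik hjk hkN hG =>
    subst hG
    simp [lowA, nr]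
  | upA t l i j hp hol hli hlj hik hjk hkN hG =>
    subst hG
    simp [upA, nr]

theorem mem_blueE {e : ℕ × ℕ} (h : e ∈ blueE Gs) : ∃ G ∈ Gs, ∃ f ∈ Et G,
    e = (gl G.1 f.1, gl G.1 f.2) := by
  unfold blueE at h
  obtain ⟨G, hG, h⟩ := List.mem_flatMap.1 h
  obtain ⟨ch, hch, rfl⟩ := List.mem_map.1 h
  exact ⟨G, hG, ch, hch, rfl⟩

variable (hk : ∀ G ∈ Gs, Kind N pr G) (C : Conf Gs N X Y)

include hk C

theorem gl_ord' {G : Gad} (hG : G ∈ Gs) {r : ℕ} (hr : r < nr G) : gl G.1 r ∈ ord Gs N :=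
  roles_mem hG (hk G hG) r hr

/-- The gadget is drawn without crossings. -/
theorem gad_good (τ : ℝ) {G : Gad} (hG : G ∈ Gs) :
    ∃ F, Good (fun r => rf (sg G.1) (qq X Y τ (gl G.1 r))) (Et G) F := by
  have hf : ∀ T ∈ St G, 0 < D (rf (sg G.1) (qq X Y τ (gl G.1 T.1)))
      (rf (sg G.1) (qq X Y τ (gl G.1 T.2.1))) (rf (sg G.1) (qq X Y τ (gl G.1 T.2.2))) := by
    intro T hT
    obtain ⟨t1, t2, t3⟩ := St_lt' T hT
    have m1 := gl_ord' hk C hG t1
    have m2 := gl_ord' hk C hG t2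
    have m3 := gl_ord' hk C hG t3
    have hd := C.facts G hG T hT
    rw [rf_D, D_qq hk C (ord_VV hk C m1) (ord_VV hk C m2) (ord_VV hk C m3), xx_gl hk C m1,
      xx_gl hk C m2, xx_gl hk C m3, yy_of (ord_mod hk _ m1), yy_of (ord_mod hk _ m2),
      yy_of (ord_mod hk _ m3), mul_left_comm]
    refine mul_pos (div_pos two_pos (mul_pos (mul_pos ?_ ?_) ?_)) hd
    · linarith [Y_gt hk C m1]
    · linarith [Y_gt hk C m2]
    · linarith [Y_gt hk C m3]
  unfold St at hf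
  unfold Et
  split_ifs at hf ⊢
  · exact good1 hf
  · exact good2 hf

theorem gad_res {τ : ℝ} {G : Gad} (hG : G ∈ Gs) {e f : ℕ × ℕ} (he : e ∈ Et G) (hf : f ∈ Et G)
    {z : ℝ × ℝ} (hz : z ∈ segment ℝ (qq X Y τ (gl G.1 e.1)) (qq X Y τ (gl G.1 e.2)))
    (hz' : z ∈ segment ℝ (qq X Y τ (gl G.1 f.1)) (qq X Y τ (gl G.1 f.2))) :
    Res (qq X Y τ) (gl G.1 e.1) (gl G.1 e.2) (gl G.1 f.1) (gl G.1 f.2) z := by
  obtain ⟨F, Gd⟩ := gad_good hk C τ hG
  rcases planar_iff.1 Gd.cr e he f hf _ (rf_seg hz) (rf_seg hz') with ⟨h1, h2⟩ | ⟨h1, h2⟩ |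
    ⟨w, w1, w2, w3⟩
  · exact Or.inl ⟨by rw [h1], by rw [h2]⟩
  · exact Or.inr (Or.inl ⟨by rw [h1], by rw [h2]⟩)
  · refine Or.inr (Or.inr ⟨gl G.1 w, ?_, ?_, rf_inj (sg_cases _) w3⟩)
    · rcases w1 with rfl | rfl
      · exact Or.inl rfl
      · exact Or.inr rfl
    · rcases w2 with rfl | rfl
      · exact Or.inl rfl
      · exact Or.inr rfl

theorem gad_vtx {τ : ℝ} {G : Gad} (hG : G ∈ Gs) {e : ℕ × ℕ} (he : e ∈ Et G) {r : ℕ}
    (hr : r < nr G)
    (h : qq X Y τ (gl G.1 r) ∈ segment ℝ (qq X Y τ (gl G.1 e.1)) (qq X Y τ (gl G.1 e.2))) :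
    r = e.1 ∨ r = e.2 := by
  obtain ⟨F, Gd⟩ := gad_good hk C τ hG
  obtain ⟨r', hr'⟩ := Et_inc hr
  exact Gd.vtx hr' (Or.inl he) (rf_seg h)

theorem snd_gl {τ : ℝ} {G : Gad} (hG : G ∈ Gs) {r : ℕ} (hr : r < nr G) :
    -1 / ((G.1 : ℝ) + 2) < (qq X Y τ (gl G.1 r)).2 ∧
      (qq X Y τ (gl G.1 r)).2 < -1 / ((G.1 : ℝ) + 3) := by
  have m := gl_ord' hk C hG hr
  have b := C.band G.1 r (lt_of_lt_of_le hr (nr_le G))
  have h0 : (0 : ℝ) ≤ G.1 := Nat.cast_nonneg _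
  rw [qq_of (Or.inl (ord_mod hk _ m)), yy_of (ord_mod hk _ m)]
  simp only
  rw [neg_div, neg_div, neg_div, neg_lt_neg_iff, neg_lt_neg_iff]
  exact ⟨one_div_lt_one_div_of_lt (by linarith) b.1,
    one_div_lt_one_div_of_lt (by linarith) b.2⟩

/-- The second coordinates of the points of the edges. -/
theorem snd_edge {τ : ℝ} {G : Gad} (hG : G ∈ Gs) {e : ℕ × ℕ} (he : e ∈ Et G) {z : ℝ × ℝ}
    (hz : z ∈ segment ℝ (qq X Y τ (gl G.1 e.1)) (qq X Y τ (gl G.1 e.2))) :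
    -1 / ((G.1 : ℝ) + 2) < z.2 ∧ z.2 < -1 / ((G.1 : ℝ) + 3) := by
  obtain ⟨h1, h2⟩ := Et_lt he
  exact seg_snd hz (snd_gl hk C hG h1) (snd_gl hk C hG h2)

omit hk C in
theorem band_sep {g g' : ℕ} (h : g < g') : -1 / ((g : ℝ) + 3) ≤ -1 / ((g' : ℝ) + 2) := by
  have h0 : (0 : ℝ) ≤ g := Nat.cast_nonneg _
  have h1 : (g : ℝ) + 1 ≤ g' := by exact_mod_cast h
  rw [neg_div, neg_div, neg_le_neg_iff]
  exact one_div_le_one_div_of_le (by linarith) (by linarith)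

omit hk C in
theorem band_low (g : ℕ) : -1 / 2 ≤ -1 / ((g : ℝ) + 2) := by
  have h0 : (0 : ℝ) ≤ g := Nat.cast_nonneg _
  rw [neg_div, neg_div, neg_le_neg_iff]
  exact one_div_le_one_div_of_le (by linarith) (by linarith)

omit hk C in
theorem band_up (g : ℕ) : -1 / ((g : ℝ) + 3) < 0 := by
  have h0 : (0 : ℝ) ≤ g := Nat.cast_nonneg _
  exact div_neg_of_neg_of_pos (by norm_num) (by linarith)

variable (hs : Gs.Pairwise fun a b => a.1 < b.1)

include hs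

/-- The second graph is planar in a copy. -/
theorem blue_res {τ : ℝ} {e f : ℕ × ℕ} (he : e ∈ blueE Gs) (hf : f ∈ blueE Gs) {z : ℝ × ℝ}
    (hz : z ∈ segment ℝ (qq X Y τ e.1) (qq X Y τ e.2))
    (hz' : z ∈ segment ℝ (qq X Y τ f.1) (qq X Y τ f.2)) :
    Res (qq X Y τ) e.1 e.2 f.1 f.2 z := by
  obtain ⟨G, hG, e', he', rfl⟩ := mem_blueE he
  obtain ⟨G', hG', f', hf', rfl⟩ := mem_blueE hf
  have h1 := snd_edge hk C hG he' hz
  have h2 := snd_edge hk C hG' hf' hz'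
  rcases lt_trichotomy G.1 G'.1 with h3 | h3 | h3
  · have := band_sep h3
    exfalso; linarith
  · obtain rfl := uniq hs hG hG' h3
    exact gad_res hk C hG he' hf' hz hz'
  · have := band_sep h3
    exfalso; linarith

theorem blue_vtx {τ : ℝ} (hτ : τ = -2 ∨ τ = 2) {e : ℕ × ℕ} (he : e ∈ blueE Gs) {w : ℕ}
    (hw : w ∈ vts (ord Gs N)) (h : qq X Y τ w ∈ segment ℝ (qq X Y τ e.1) (qq X Y τ e.2)) :
    w = e.1 ∨ w = e.2 := by
  obtain ⟨G, hG, e', he', rfl⟩ := mem_blueE he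
  have h1 := snd_edge hk C hG he' h
  have h2 := band_low G.1
  have h3 := band_up G.1
  unfold vts at hw
  rcases List.mem_append.1 hw with hw | hw
  · simp only [List.mem_cons, List.not_mem_nil, or_false] at hw
    exfalso
    rcases hw with rfl | rfl | rfl | rfl | rfl
    · rw [qq0] at h1; simp only at h1; linarith
    · rw [qq1] at h1; simp only at h1; linarith
    · rw [qq2] at h1; simp only at h1; linarith
    · rw [qq3] at h1; simp only at h1; linarith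
    · rw [qq4] at h1; simp only at h1; linarith
  · rcases ord_cases hw with ⟨n, rfl⟩ | ⟨G', hG', b, hb, r, hr, rfl⟩
    · exfalso
      rw [qq_of (Or.inl (ord_mod hk _ hw)), yy_of (ord_mod hk _ hw), C.elY] at h1
      simp only at h1
      norm_num at h1 h2
      linarith
    · have hrn := role_nr (hk G' hG') b hb r hr
      have h4 := snd_gl hk C (τ := τ) hG' hrn
      rcases lt_trichotomy G.1 G'.1 with h5 | h5 | h5
      · have := band_sep h5
        exfalso; linarith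
      · obtain rfl := uniq hs hG hG' h5
        rcases gad_vtx hk C hG he' hrn h with rfl | rfl
        · exact Or.inl rfl
        · exact Or.inr rfl
      · have := band_sep h5
        exfalso; linarith

omit hs in
/-- The first coordinates. -/
theorem fst_bd {τ : ℝ} {w : ℕ} (hw : w ∈ vts (ord Gs N)) (h4 : w ≠ sl 4) :
    |(qq X Y τ w).1 - τ| ≤ 1 := by
  unfold vts at hw
  rcases List.mem_append.1 hw with hw | hw
  · simp only [List.mem_cons, List.not_mem_nil, or_false] at hw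
    rcases hw with rfl | rfl | rfl | rfl | rfl
    · rw [qq0]; simp
    · rw [qq1]; simp
    · rw [qq2]; simp
    · rw [qq3]; simp
    · exact absurd rfl h4
  · rw [qq_of (Or.inl (ord_mod hk _ hw)), xx_of (ord_mod hk _ hw), yy_of (ord_mod hk _ hw)]
    simp only [add_sub_cancel_left]
    have h1 := C.rng w hw
    have h2 := Y_gt hk C hw
    rw [abs_div, abs_of_pos (show 0 < Y w by linarith), div_le_one (by linarith)]
    have : |2 * X w - 1| ≤ 1 := by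
      rw [abs_le]; constructor <;> linarith
    linarith

end

end Pool.Agent.NPC.ER.SGE
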