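import Pool.Agent.TH663.SGE.Draw5

/-!
# The two copies
-/

namespace Pool.Agent.NPC.ER.SGE

open Pool.Agent.NPC.ER.GPP
open Pool.Agent.NPC.ER.Oslp (Ins OSat)

/-- The translation of a copy. -/
def tc (c : ℕ) : ℝ := if c = 0 then -2 else 2

theorem tc_or (c : ℕ) : tc c = -2 ∨ tc c = 2 := by unfold tc; split_ifs <;> simp

/-- The drawing. -/
noncomputable def pf (X Y : ℕ → ℝ) (u : ℕ) : ℝ × ℝ := qq X Y (tc (u % 2)) (u / 2)

theorem pf_cp {X Y : ℕ → ℝ} {c : ℕ} (hc : c = 0 ∨ c = 1) (v : ℕ) :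
    pf X Y (cp c v) = qq X Y (tc c) v := by
  unfold pf cp
  split_ifs with h
  · subst h
    rw [show 2 * sl 4 % 2 = 0 by omega, show 2 * sl 4 / 2 = sl 4 by omega, qq4, qq4]
  · rcases hc with rfl | rfl
    · rw [show (2 * v + 0) % 2 = 0 by omega, show (2 * v + 0) / 2 = v by omega]
    · rw [show (2 * v + 1) % 2 = 1 by omega, show (2 * v + 1) / 2 = v by omega]

theorem cp_Z (c c' : ℕ) : cp c (sl 4) = cp c' (sl 4) := by unfold cp; simp

section

variable {Gs : List Gad} {N : ℕ} {pr : List Ins} {X Y : ℕ → ℝ}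
  (hk : ∀ G ∈ Gs, Kind N pr G) (C : Conf Gs N X Y)

include hk C

theorem fst_pos {τ : ℝ} (hτ : τ = -2 ∨ τ = 2) {w : ℕ} (hw : w ∈ vts (ord Gs N)) (h4 : w ≠ sl 4) :
    0 < τ * (qq X Y τ w).1 := by
  have h := abs_le.1 (fst_bd hk C (τ := τ) hw h4)
  rcases hτ with rfl | rfl
  · linarith
  · linarith

/-- The copies are on different sides. -/
theorem side {τ : ℝ} (hτ : τ = -2 ∨ τ = 2) {u v : ℕ} (hu : u ∈ vts (ord Gs N))
    (hv : v ∈ vts (ord Gs N)) (huv : u ≠ v) {z : ℝ × ℝ}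
    (hz : z ∈ segment ℝ (qq X Y τ u) (qq X Y τ v)) :
    0 < τ * z.1 ∨ (z = (0, 9) ∧ (u = sl 4 ∨ v = sl 4)) := by
  obtain ⟨t, t0, t1, e1, e2⟩ := mem_seg.1 hz
  by_cases h1 : u = sl 4
  · subst h1
    have hv4 : v ≠ sl 4 := fun h => huv h.symm
    have hp := fst_pos hk C hτ hv hv4
    rw [qq4] at e1 e2
    rcases t0.eq_or_lt with rfl | h0
    · right
      refine ⟨Prod.ext ?_ ?_, Or.inl rfl⟩
      · rw [e1]; simp
      · rw [e2]; simp
    · left
      rw [e1]
      have := mul_pos h0 hp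
      simp only
      linarith
  by_cases h2 : v = sl 4
  · subst h2
    have hp := fst_pos hk C hτ hu h1
    rw [qq4] at e1 e2
    rcases t1.eq_or_lt with rfl | h0
    · right
      refine ⟨Prod.ext ?_ ?_, Or.inr rfl⟩
      · rw [e1]; simp
      · rw [e2]; simp
    · left
      rw [e1]
      have := mul_pos (sub_pos.2 h0) hp
      simp only
      linarith
  · left
    have hp := fst_pos hk C hτ hu h1
    have hp' := fst_pos hk C hτ hv h2
    rw [e1]
    rcases t0.eq_or_lt with rfl | h0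
    · linarith
    · have := mul_pos h0 hp'
      have := mul_nonneg (sub_nonneg.2 t1) hp.le
      linarith

theorem tc_ne {c c' : ℕ} (hc : c = 0 ∨ c = 1) (hc' : c' = 0 ∨ c' = 1) (h : c ≠ c') :
    tc c' = -tc c := by
  rcases hc with rfl | rfl <;> rcases hc' with rfl | rfl
  · exact absurd rfl h
  · unfold tc; simp
  · unfold tc; simp
  · exact absurd rfl h

/-- The union of the copies is planar. -/
theorem planar_two {E : List (ℕ × ℕ)} (hE : ∀ e ∈ E, e.1 ∈ vts (ord Gs N) ∧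
    e.2 ∈ vts (ord Gs N) ∧ e.1 ≠ e.2) (hr : ∀ τ : ℝ, (τ = -2 ∨ τ = 2) → ∀ e ∈ E, ∀ f ∈ E, ∀ z,
      z ∈ segment ℝ (qq X Y τ e.1) (qq X Y τ e.2) → z ∈ segment ℝ (qq X Y τ f.1) (qq X Y τ f.2) →
      Res (qq X Y τ) e.1 e.2 f.1 f.2 z) : Planar (cpE 0 E ++ cpE 1 E) (pf X Y) := by
  have hmem : ∀ e ∈ cpE 0 E ++ cpE 1 E, ∃ c, (c = 0 ∨ c = 1) ∧ ∃ e' ∈ E,
      e = (cp c e'.1, cp c e'.2) := by
    intro e he
    rcases List.mem_append.1 he with he | he
    · obtain ⟨e', he', rfl⟩ := List.mem_map.1 he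
      exact ⟨0, Or.inl rfl, e', he', rfl⟩
    · obtain ⟨e', he', rfl⟩ := List.mem_map.1 he
      exact ⟨1, Or.inr rfl, e', he', rfl⟩
  rw [planar_iff]
  intro e he f hf z hz hz'
  obtain ⟨c, hc, e', he', rfl⟩ := hmem e he
  obtain ⟨c', hc', f', hf', rfl⟩ := hmem f hf
  simp only at hz hz' ⊢
  rw [pf_cp hc, pf_cp hc] at hz
  rw [pf_cp hc', pf_cp hc'] at hz'
  by_cases hcc : c = c'
  · subst hcc
    rcases hr _ (tc_or c) e' he' f' hf' z hz hz' with ⟨h1, h2⟩ | ⟨h1, h2⟩ | ⟨w, w1, w2, w3⟩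
    · exact Or.inl ⟨by rw [h1], by rw [h2]⟩
    · exact Or.inr (Or.inl ⟨by rw [h1], by rw [h2]⟩)
    · refine Or.inr (Or.inr ⟨cp c w, ?_, ?_, by rw [pf_cp hc, w3]⟩)
      · rcases w1 with rfl | rfl
        · exact Or.inl rfl
        · exact Or.inr rfl
      · rcases w2 with rfl | rfl
        · exact Or.inl rfl
        · exact Or.inr rfl
  · obtain ⟨e1, e2, e3⟩ := hE e' he'
    obtain ⟨f1, f2, f3⟩ := hE f' hf'
    have ht := tc_ne hk C hc hc' hcc
    rcases side hk C (tc_or c) e1 e2 e3 hz with h1 | ⟨h1, h2⟩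
    · exfalso
      rcases side hk C (tc_or c') f1 f2 f3 hz' with g1 | ⟨g1, -⟩
      · rw [ht] at g1; linarith
      · rw [g1] at h1; simp at h1
    · rcases side hk C (tc_or c') f1 f2 f3 hz' with g1 | ⟨-, g2⟩
      · exfalso
        rw [h1] at g1; simp at g1
      · refine Or.inr (Or.inr ⟨cp c (sl 4), ?_, ?_, ?_⟩)
        · rcases h2 with h2 | h2
          · exact Or.inl (by rw [h2])
          · exact Or.inr (by rw [h2])
        · rw [cp_Z c c']
          rcases g2 with h2 | h2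
          · exact Or.inl (by rw [h2])
          · exact Or.inr (by rw [h2])
        · rw [pf_cp hc, qq4, h1]

theorem VV_vts {w : ℕ} (h : w ∈ VV (ord Gs N)) : w ∈ vts (ord Gs N) := by
  rcases VV_cases hk C h with rfl | rfl | h1
  · unfold vts; simp
  · unfold vts; simp
  · unfold vts; simp [h1]

theorem red_ok : ∀ e ∈ redE (ord Gs N) Gs, e.1 ∈ vts (ord Gs N) ∧ e.2 ∈ vts (ord Gs N) ∧
    e.1 ≠ e.2 := by
  intro e he
  have hne : e.1 ≠ e.2 := fun h => red_nd hk C (Or.inr rfl) e he (by rw [h])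
  have hs : ∀ m < 5, sl m ∈ vts (ord Gs N) := by
    intro m hm
    unfold vts
    interval_cases m <;> simp
  unfold redE at he
  rcases List.mem_append.1 he with he | he
  · refine ⟨?_, ?_, hne⟩
    · unfold frE at he
      simp only [List.mem_cons, List.not_mem_nil, or_false] at he
      rcases he with rfl | rfl | rfl | rfl | rfl | rfl | rfl | rfl | rfl <;>
        exact hs _ (by norm_num)
    · unfold frE at he
      simp only [List.mem_cons, List.not_mem_nil, or_false] at he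
      rcases he with rfl | rfl | rfl | rfl | rfl | rfl | rfl | rfl | rfl <;>
        exact hs _ (by norm_num)
  rcases List.mem_append.1 he with he | he
  · obtain ⟨w, hw, rfl⟩ := List.mem_map.1 he
    exact ⟨hs 3 (by norm_num), VV_vts hk C (ord_VV hk C hw), hne⟩
  · rcases low_T hk C 2 e he with h | h
    · exact ⟨VV_vts hk C h.mu, VV_vts hk C h.mv, hne⟩
    · exact ⟨VV_vts hk C h.mv, VV_vts hk C h.mu, hne⟩

theorem blue_ok : ∀ e ∈ blueE Gs, e.1 ∈ vts (ord Gs N) ∧ e.2 ∈ vts (ord Gs N) ∧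
    e.1 ≠ e.2 := by
  intro e he
  obtain ⟨G, hG, e', he', rfl⟩ := mem_blueE he
  obtain ⟨h1, h2⟩ := Et_lt he'
  refine ⟨VV_vts hk C (ord_VV hk C (gl_ord' hk C hG h1)),
    VV_vts hk C (ord_VV hk C (gl_ord' hk C hG h2)), fun h => ?_⟩
  obtain ⟨F, Gd⟩ := gad_good hk C 2 hG
  refine Gd.nd e' he' ?_
  simp only at h ⊢
  rw [h]

/-- The instance is well-formed. -/
theorem isInst_inst0 : IsInst (inst0 (ord Gs N) Gs) := by
  have key : ∀ E : List (ℕ × ℕ), (∀ e ∈ E, e.1 ∈ vts (ord Gs N) ∧ e.2 ∈ vts (ord Gs N) ∧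
      e.1 ≠ e.2) → ∀ e ∈ cpE 0 E ++ cpE 1 E,
      e.1 ∈ (vts (ord Gs N)).map (cp 0) ++ (vts (ord Gs N)).map (cp 1) ∧
      e.2 ∈ (vts (ord Gs N)).map (cp 0) ++ (vts (ord Gs N)).map (cp 1) ∧ e.1 ≠ e.2 := by
    intro E hE e he
    rcases List.mem_append.1 he with he | he
    · obtain ⟨e', he', rfl⟩ := List.mem_map.1 he
      obtain ⟨h1, h2, h3⟩ := hE e' he'
      exact ⟨List.mem_append_left _ (List.mem_map_of_mem h1),
        List.mem_append_left _ (List.mem_map_of_mem h2),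
        fun h => h3 (cp_inj (Or.inl rfl) _ _ h)⟩
    · obtain ⟨e', he', rfl⟩ := List.mem_map.1 he
      obtain ⟨h1, h2, h3⟩ := hE e' he'
      exact ⟨List.mem_append_right _ (List.mem_map_of_mem h1),
        List.mem_append_right _ (List.mem_map_of_mem h2),
        fun h => h3 (cp_inj (Or.inr rfl) _ _ h)⟩
  exact ⟨key _ (red_ok hk C), key _ (blue_ok hk C)⟩

variable (hs : Gs.Pairwise fun a b => a.1 < b.1)

include hs

/-- The instance has a simultaneous geometric embedding. -/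
theorem hasSGE_inst0 : HasSGE (inst0 (ord Gs N) Gs) := by
  refine ⟨pf X Y, ⟨?_, ?_⟩, ?_, ?_⟩
  · have hV : ∀ u ∈ (vts (ord Gs N)).map (cp 0) ++ (vts (ord Gs N)).map (cp 1),
        ∃ c, (c = 0 ∨ c = 1) ∧ ∃ u' ∈ vts (ord Gs N), u = cp c u' := by
      intro u hu
      rcases List.mem_append.1 hu with hu | hu
      · obtain ⟨u', hu', rfl⟩ := List.mem_map.1 hu
        exact ⟨0, Or.inl rfl, u', hu', rfl⟩
      · obtain ⟨u', hu', rfl⟩ := List.mem_map.1 hu
        exact ⟨1, Or.inr rfl, u', hu', rfl⟩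
    intro u hu v hv h
    obtain ⟨c, hc, u', hu', rfl⟩ := hV u hu
    obtain ⟨c', hc', v', hv', rfl⟩ := hV v hv
    rw [pf_cp hc, pf_cp hc'] at h
    by_cases hcc : c = c'
    · subst hcc
      rw [red_inj hk C (tc_or c) hu' hv' h]
    · have ht := tc_ne hk C hc hc' hcc
      by_cases h1 : u' = sl 4
      · by_cases h2 : v' = sl 4
        · rw [h1, h2, cp_Z c c']
        · exfalso
          have := fst_pos hk C (tc_or c') hv' h2
          rw [← h, h1, qq4] at this
          simp at this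
      · exfalso
        have g1 := fst_pos hk C (tc_or c) hu' h1
        by_cases h2 : v' = sl 4
        · rw [h, h2, qq4] at g1
          simp at g1
        · have g2 := fst_pos hk C (tc_or c') hv' h2
          rw [← h, ht] at g2
          linarith
  · intro e he w hw n1 n2 hx
    have hE : ∃ c, (c = 0 ∨ c = 1) ∧ ∃ e', (e' ∈ redE (ord Gs N) Gs ∨ e' ∈ blueE Gs) ∧
        e = (cp c e'.1, cp c e'.2) := by
      simp only [inst0, List.mem_append] at he
      rcases he with (he | he) | (he | he) <;> obtain ⟨e', he', rfl⟩ := List.mem_map.1 he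
      · exact ⟨0, Or.inl rfl, e', Or.inl he', rfl⟩
      · exact ⟨1, Or.inr rfl, e', Or.inl he', rfl⟩
      · exact ⟨0, Or.inl rfl, e', Or.inr he', rfl⟩
      · exact ⟨1, Or.inr rfl, e', Or.inr he', rfl⟩
    have hW : ∃ c, (c = 0 ∨ c = 1) ∧ ∃ w' ∈ vts (ord Gs N), w = cp c w' := by
      simp only [inst0, List.mem_append] at hw
      rcases hw with hw | hw <;> obtain ⟨w', hw', rfl⟩ := List.mem_map.1 hw
      · exact ⟨0, Or.inl rfl, w', hw', rfl⟩
      · exact ⟨1, Or.inr rfl, w', hw', rfl⟩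
    obtain ⟨c, hc, e', he', rfl⟩ := hE
    obtain ⟨c', hc', w', hw', rfl⟩ := hW
    simp only at n1 n2 hx
    rw [pf_cp hc, pf_cp hc, pf_cp hc'] at hx
    by_cases hcc : c = c'
    · subst hcc
      have : w' = e'.1 ∨ w' = e'.2 := by
        rcases he' with he' | he'
        · exact red_vtx hk C (tc_or c) he' hw' hx
        · exact blue_vtx hk C hs (tc_or c) he' hw' hx
      rcases this with rfl | rfl
      · exact n1 rfl
      · exact n2 rfl
    · have ht := tc_ne hk C hc hc' hcc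
      have hok : e'.1 ∈ vts (ord Gs N) ∧ e'.2 ∈ vts (ord Gs N) ∧ e'.1 ≠ e'.2 := by
        rcases he' with he' | he'
        · exact red_ok hk C e' he'
        · exact blue_ok hk C e' he'
      have hsd := side hk C (tc_or c) hok.1 hok.2.1 hok.2.2 hx
      by_cases h4 : w' = sl 4
      · rw [h4, qq4] at hsd
        rcases hsd with h1 | ⟨-, h2⟩
        · simp at h1
        · rcases h2 with h2 | h2
          · exact n1 (by rw [h2, h4, cp_Z c c'])
          · exact n2 (by rw [h2, h4, cp_Z c c'])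
      · have g1 := fst_pos hk C (tc_or c') hw' h4
        rcases hsd with h1 | ⟨h1, -⟩
        · rw [ht] at g1 h1
          linarith
        · rw [h1] at g1
          simp at g1
  · exact planar_two hk C (red_ok hk C) fun τ hτ => planar_iff.1 (red_planar hk C hτ)
  · exact planar_two hk C (blue_ok hk C) fun τ _ e he f hf z hz hz' =>
      blue_res hk C hs he hf hz hz'

end

end Pool.Agent.NPC.ER.SGE
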