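import Pool.Agent.TH663.SGE.Rigid

/-!
# The first graph: a fan which fixes the order of the vertices
-/

namespace Pool.Agent.NPC.ER.SGE

open Pool.Agent.NPC.ER.GPP

/-- A drawing whose edges `E` do not cross. -/
structure PlD (q : ℕ → ℝ × ℝ) (E : List (ℕ × ℕ)) : Prop where
  nm : ∀ a b c d, Ed E a b → Ed E c d → a ≠ c → a ≠ d → b ≠ c → b ≠ d →
    ¬ Meets (q a) (q b) (q c) (q d)
  av : ∀ a b w c, Ed E a b → Ed E w c → w ≠ a → w ≠ b → q w ∉ segment ℝ (q a) (q b)

section

variable {q : ℕ → ℝ × ℝ} {E : List (ℕ × ℕ)}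

/-- Three vertices joined by edges are not collinear. -/
theorem PlD.ne (H : PlD q E) {a b c : ℕ} (hab : Ed E a b) (hbc : Ed E b c) (hca : Ed E c a)
    (nab : a ≠ b) (nbc : b ≠ c) (nca : c ≠ a) : D (q a) (q b) (q c) ≠ 0 := by
  intro h0
  rcases between_of_D h0 with h3 | h3 | h3
  · exact H.av _ _ _ _ hbc hab nab nca.symm h3
  · exact H.av _ _ _ _ hca.symm hab.symm nab.symm nbc h3
  · exact H.av _ _ _ _ hab hca nca nbc.symm h3

theorem PlD.nc (H : PlD q E) {z v w p : ℕ} (hzv : Ed E z v) (hvw : Ed E v w) (hwz : Ed E w z)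
    (hzp : Ed E z p) (nzv : z ≠ v) (nwz : w ≠ z) (npz : p ≠ z) (npv : p ≠ v)
    (npw : p ≠ w) (hI : ∀ σ : ℝ, (σ = 1 ∨ σ = -1) → ¬ Int σ (q z) (q v) (q w) (q p)) :
    NC (q z) (q v) (q w) (q p) :=
  nc_of (H.av _ _ _ _ hzv hzp.symm npz npv) (H.av _ _ _ _ hvw hzp.symm npv npw)
    (H.av _ _ _ _ hwz hzp.symm npw npz) hI (H.nm _ _ _ _ hzp hvw nzv nwz.symm npv npw)

/-- An edge does not leave the interior of a triangle. -/
theorem PlD.exit (H : PlD q E) {a b c u v : ℕ} {σ : ℝ} (hσ : σ = 1 ∨ σ = -1)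
    (hI : Int σ (q a) (q b) (q c) (q u)) (hab : Ed E a b) (hbc : Ed E b c) (hca : Ed E c a)
    (huv : Ed E u v) (ua : u ≠ a) (ub : u ≠ b) (uc : u ≠ c) (va : v ≠ a) (vb : v ≠ b)
    (vc : v ≠ c) : Int σ (q a) (q b) (q c) (q v) :=
  GPP.exit hσ hI (fun _ => H.nm _ _ _ _ huv hab ua ub va vb)
    (fun _ => H.nm _ _ _ _ huv hbc ub uc vb vc) (fun _ => H.nm _ _ _ _ huv hca uc ua vc va)

theorem PlD.exit_chain (H : PlD q E) {a b c : ℕ} {σ : ℝ} (hσ : σ = 1 ∨ σ = -1)
    (hab : Ed E a b) (hbc : Ed E b c) (hca : Ed E c a) :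
    ∀ {l : List ℕ} {u : ℕ}, (u :: l).IsChain (Ed E) → (∀ v ∈ u :: l, v ≠ a ∧ v ≠ b ∧ v ≠ c) →
    Int σ (q a) (q b) (q c) (q u) → ∀ v ∈ u :: l, Int σ (q a) (q b) (q c) (q v)
  | [], u, _, _, hI, v, hv => by rw [List.mem_singleton] at hv; subst hv; exact hI
  | x :: l, u, hc, hn, hI, v, hv => by
    rw [List.isChain_cons_cons] at hc
    have hu := hn u (by simp)
    have hx := hn x (by simp)
    have hIx := H.exit hσ hI hab hbc hca hc.1 hu.1 hu.2.1 hu.2.2 hx.1 hx.2.1 hx.2.2
    rcases List.mem_cons.1 hv with rfl | hv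
    · exact hI
    · exact H.exit_chain hσ hab hbc hca hc.2 (fun w hw => hn w (List.mem_cons_of_mem _ hw)) hIx v hv

end

/-! ### The complete graph on five vertices without an edge -/

/-- The five vertices are distinct and all pairs except `o z` are edges. -/
structure K5 (E : List (ℕ × ℕ)) (a b c o z : ℕ) : Prop where
  nab : a ≠ b
  nbc : b ≠ c
  nca : c ≠ a
  noa : o ≠ a
  nob : o ≠ b
  noc : o ≠ c
  nza : z ≠ a
  nzb : z ≠ b
  nzc : z ≠ c
  noz : o ≠ z
  eab : Ed E a b
  ebc : Ed E b c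
  eca : Ed E c a
  eoa : Ed E o a
  eob : Ed E o b
  eoc : Ed E o c
  eza : Ed E z a
  ezb : Ed E z b
  ezc : Ed E z c

theorem K5.rot {E : List (ℕ × ℕ)} {a b c o z : ℕ} (h : K5 E a b c o z) : K5 E b c a o z :=
  ⟨h.nbc, h.nca, h.nab, h.nob, h.noc, h.noa, h.nzb, h.nzc, h.nza, h.noz, h.ebc, h.eca, h.eab,
    h.eob, h.eoc, h.eoa, h.ezb, h.ezc, h.eza⟩

theorem K5.swap {E : List (ℕ × ℕ)} {a b c o z : ℕ} (h : K5 E a b c o z) : K5 E a b c z o :=
  ⟨h.nab, h.nbc, h.nca, h.nza, h.nzb, h.nzc, h.noa, h.nob, h.noc, h.noz.symm, h.eab, h.ebc, h.eca,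
    h.eza, h.ezb, h.ezc, h.eoa, h.eob, h.eoc⟩

section

variable {q : ℕ → ℝ × ℝ} {E : List (ℕ × ℕ)} {a b c o z : ℕ}

/-- A point which is not in the interior is beyond one of the vertices. -/
theorem beyond (H : PlD q E) (h : K5 E a b c o z) {σ : ℝ} (hσ : σ = 1 ∨ σ = -1)
    (hT : 0 < σ * D (q a) (q b) (q c)) (hI : ¬ Int σ (q a) (q b) (q c) (q o)) :
    (Int σ (q o) (q b) (q c) (q a) ∨ Int σ (q o) (q c) (q a) (q b)) ∨
      Int σ (q o) (q a) (q b) (q c) := by
  have hσ0 : σ ≠ 0 := by rcases hσ with rfl | rfl <;> norm_num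
  have nI : ∀ σ' : ℝ, (σ' = 1 ∨ σ' = -1) → ¬ Int σ' (q a) (q b) (q c) (q o) := by
    intro σ' hσ' h'
    have ht := h'.tri
    have : σ' = σ := by
      rcases hσ with rfl | rfl <;> rcases hσ' with rfl | rfl <;> first | rfl | (exfalso; linarith)
    rw [this] at h'
    exact hI h'
  have n1 : σ * D (q a) (q b) (q o) ≠ 0 :=
    mul_ne_zero hσ0 (H.ne h.eab h.eob.symm h.eoa h.nab h.nob.symm h.noa)
  have n2 : σ * D (q b) (q c) (q o) ≠ 0 :=
    mul_ne_zero hσ0 (H.ne h.ebc h.eoc.symm h.eob h.nbc h.noc.symm h.nob)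
  have n3 : σ * D (q c) (q a) (q o) ≠ 0 :=
    mul_ne_zero hσ0 (H.ne h.eca h.eoa.symm h.eoc h.nca h.noa.symm h.noc)
  have c1 := H.nc h.eca h.eab h.ebc h.eoc.symm h.nca h.nbc h.noc h.noa h.nob
    (fun σ' hσ' h' => nI σ' hσ' h'.rot) σ hσ (by rw [D_rot']; exact hT)
  have c2 := H.nc h.eab h.ebc h.eca h.eoa.symm h.nab h.nca h.noa h.nob h.noc
    nI σ hσ hT
  have c3 := H.nc h.ebc h.eca h.eab h.eob.symm h.nbc h.nab h.nob h.noc h.noa
    (fun σ' hσ' h' => nI σ' hσ' h'.rot.rot) σ hσ (by rw [D_rot]; exact hT)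
  have e1 : D (q c) (q o) (q b) = D (q b) (q c) (q o) := by unfold D; ring
  have e2 : D (q a) (q o) (q c) = D (q c) (q a) (q o) := by unfold D; ring
  have e3 : D (q b) (q o) (q a) = D (q a) (q b) (q o) := by unfold D; ring
  rw [e1] at c1; rw [e2] at c2; rw [e3] at c3
  have hs : σ * D (q a) (q b) (q o) + σ * D (q b) (q c) (q o) + σ * D (q c) (q a) (q o) =
      σ * D (q a) (q b) (q c) := by rw [← D_add (q a) (q b) (q c) (q o)]; ring
  have f1 : σ * D (q o) (q b) (q a) = -(σ * D (q a) (q b) (q o)) := by unfold D; ring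
  have f2 : σ * D (q o) (q c) (q b) = -(σ * D (q b) (q c) (q o)) := by unfold D; ring
  have f3 : σ * D (q o) (q a) (q c) = -(σ * D (q c) (q a) (q o)) := by unfold D; ring
  have g1 : σ * D (q a) (q o) (q b) = -(σ * D (q a) (q b) (q o)) := by unfold D; ring
  have g2 : σ * D (q b) (q o) (q c) = -(σ * D (q b) (q c) (q o)) := by unfold D; ring
  have g3 : σ * D (q c) (q o) (q a) = -(σ * D (q c) (q a) (q o)) := by unfold D; ring
  have t1 : σ * D (q b) (q c) (q a) = σ * D (q a) (q b) (q c) := by rw [D_rot]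
  have t2 : σ * D (q c) (q a) (q b) = σ * D (q a) (q b) (q c) := by rw [D_rot']
  unfold GPP.Int
  rw [f1, f2, f3, g1, g2, g3, t1, t2]
  generalize σ * D (q a) (q b) (q o) = s1 at *
  generalize σ * D (q b) (q c) (q o) = s2 at *
  generalize σ * D (q c) (q a) (q o) = s3 at *
  generalize σ * D (q a) (q b) (q c) = s at *
  rcases lt_or_gt_of_ne n1 with k1 | k1 <;> rcases lt_or_gt_of_ne n2 with k2 | k2 <;>
    rcases lt_or_gt_of_ne n3 with k3 | k3
  · linarith
  · left; right; exact ⟨by linarith, hT, by linarith⟩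
  · left; left; exact ⟨by linarith, hT, by linarith⟩
  · exact absurd ⟨k3.le, k2.le⟩ c1
  · right; exact ⟨by linarith, hT, by linarith⟩
  · exact absurd ⟨k1.le, k3.le⟩ c2
  · exact absurd ⟨k2.le, k1.le⟩ c3
  · exact absurd ⟨k3.le, k2.le⟩ c1

/-- The case that `o` is beyond `a`. -/
theorem k5_aux (H : PlD q E) (h : K5 E a b c o z) {σ : ℝ} (hσ : σ = 1 ∨ σ = -1)
    (hT : 0 < σ * D (q a) (q b) (q c)) (hI : ¬ Int σ (q a) (q b) (q c) (q z))
    (ho : Int σ (q o) (q b) (q c) (q a)) : False := by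
  have hz : Int σ (q o) (q b) (q c) (q z) :=
    H.exit hσ ho h.eob h.ebc h.eoc.symm h.eza.symm h.noa.symm h.nab h.nca.symm h.noz.symm
      h.nzb h.nzc
  have hbc := hz.2.1
  rcases beyond H h.swap hσ hT hI with (h1 | h1) | h1
  · have ho' : Int σ (q z) (q b) (q c) (q o) :=
      H.exit hσ h1 h.ezb h.ebc h.ezc.symm h.eoa.symm h.nza.symm h.nab h.nca.symm h.noz
        h.nob h.noc
    have e1 := D_add (q o) (q b) (q c) (q z)
    have e2 := D_add (q z) (q b) (q c) (q o)
    have i1 : 0 < σ * D (q o) (q b) (q z) := hz.1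
    have i2 : 0 < σ * D (q c) (q o) (q z) := hz.2.2
    have j1 : 0 < σ * D (q z) (q b) (q o) := ho'.1
    have j2 : 0 < σ * D (q c) (q z) (q o) := ho'.2.2
    have r1 : D (q z) (q b) (q c) = D (q b) (q c) (q z) := by unfold D; ring
    have r2 : D (q o) (q b) (q c) = D (q b) (q c) (q o) := by unfold D; ring
    rw [r2] at e1
    rw [r1] at e2
    have k1 : σ * D (q b) (q c) (q o) = σ * D (q o) (q b) (q z) + σ * D (q b) (q c) (q z) +
        σ * D (q c) (q o) (q z) := by rw [← e1]; ring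
    have k2 : σ * D (q b) (q c) (q z) = σ * D (q z) (q b) (q o) + σ * D (q b) (q c) (q o) +
        σ * D (q c) (q z) (q o) := by rw [← e2]; ring
    linarith
  · -- `z` is beyond `b`
    have h2 := h1.1
    have r : σ * D (q z) (q c) (q b) = -(σ * D (q b) (q c) (q z)) := by unfold D; ring
    rw [r] at h2
    linarith
  · have h2 := h1.2.2
    have r : σ * D (q b) (q z) (q c) = -(σ * D (q b) (q c) (q z)) := by unfold D; ring
    rw [r] at h2
    linarith

/-- One of the two points is in the interior of the triangle. -/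
theorem k5 (H : PlD q E) (h : K5 E a b c o z) : ∃ σ : ℝ, (σ = 1 ∨ σ = -1) ∧
    (Int σ (q a) (q b) (q c) (q o) ∨ Int σ (q a) (q b) (q c) (q z)) := by
  have h0 := H.ne h.eab h.ebc h.eca h.nab h.nbc h.nca
  obtain ⟨σ, hσ, hT⟩ : ∃ σ : ℝ, (σ = 1 ∨ σ = -1) ∧ 0 < σ * D (q a) (q b) (q c) := by
    rcases lt_or_gt_of_ne h0 with h | h
    · exact ⟨-1, Or.inr rfl, by linarith⟩
    · exact ⟨1, Or.inl rfl, by linarith⟩
  refine ⟨σ, hσ, ?_⟩
  by_contra hcon
  push Not at hcon
  obtain ⟨ho, hz⟩ := hcon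
  rcases beyond H h hσ hT ho with (h1 | h1) | h1
  · exact k5_aux H h hσ hT hz h1
  · exact k5_aux H h.rot hσ (by rw [D_rot]; exact hT) (fun h' => hz h'.rot.rot) h1
  · exact k5_aux H h.rot.rot hσ (by rw [D_rot']; exact hT) (fun h' => hz h'.rot) h1

end

/-- Two triangles which contain each other. -/
theorem not_both' {σ τ : ℝ} {A B C A' B' C' : ℝ × ℝ}
    (h1 : Int τ A' B' C' A) (hA : Int σ A B C A')
    (hB : Int σ A B C B') (hC : Int σ A B C C') : False := by
  have key : (τ * D A' B' C') * (σ * D A B A) = (τ * D B' C' A) * (σ * D A B A') +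
      (τ * D C' A' A) * (σ * D A B B') + (τ * D A' B' A) * (σ * D A B C') := by
    unfold D; ring
  have h0 : D A B A = 0 := by unfold D; ring
  rw [h0] at key
  have k1 := mul_pos h1.2.1 hA.1
  have k2 := mul_pos h1.2.2 hB.1
  have k3 := mul_pos h1.1 hC.1
  linarith

/-! ### The fan -/

/-- The fan: a triangle `α β γ`, the point `O` in its interior, and a path from `β` to `γ` through
the vertices of `L`, which are joined to `O`. -/
structure FanE (E : List (ℕ × ℕ)) (α β γ O : ℕ) (L : List ℕ) : Prop where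
  nab : α ≠ β
  nbc : β ≠ γ
  nca : γ ≠ α
  noa : O ≠ α
  nob : O ≠ β
  noc : O ≠ γ
  eab : Ed E α β
  ebc : Ed E β γ
  eca : Ed E γ α
  eoa : Ed E O α
  eob : Ed E O β
  eoc : Ed E O γ
  ch : (β :: (L ++ [γ])).IsChain (Ed E)
  sp : ∀ w ∈ L, Ed E O w
  nL : ∀ w ∈ L, w ≠ O ∧ w ≠ α ∧ w ≠ β ∧ w ≠ γ
  nd : L.Nodup

section

variable {q : ℕ → ℝ × ℝ} {E : List (ℕ × ℕ)} {α β γ O : ℕ} {L : List ℕ}

/-- A path to `γ`. -/
theorem FanE.fwd (F : FanE E α β γ O L) {w : ℕ} (hw : w ∈ L) : ∃ l, (w :: l).IsChain (Ed E) ∧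
    γ ∈ w :: l ∧ ∀ v ∈ w :: l, v ≠ O ∧ v ≠ α ∧ v ≠ β := by
  obtain ⟨l1, l2, rfl⟩ := List.append_of_mem hw
  refine ⟨l2 ++ [γ], ?_, by simp, ?_⟩
  · refine F.ch.suffix ⟨β :: l1, by simp⟩
  · intro v hv
    simp only [List.mem_cons, List.mem_append, List.not_mem_nil, or_false] at hv
    rcases hv with rfl | hv | rfl
    · have := F.nL v (by simp); exact ⟨this.1, this.2.1, this.2.2.1⟩
    · have := F.nL v (by simp [hv]); exact ⟨this.1, this.2.1, this.2.2.1⟩
    · exact ⟨F.noc.symm, F.nca, F.nbc.symm⟩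

theorem chain_left {R : ℕ → ℕ → Prop} {l l' l'' : List ℕ} (h : l.IsChain R)
    (e : l' ++ l'' = l) : l'.IsChain R := by
  subst e
  exact h.left_of_append

/-- A path to `β`. -/
theorem FanE.bwd (F : FanE E α β γ O L) {w : ℕ} (hw : w ∈ L) : ∃ l, (w :: l).IsChain (Ed E) ∧
    β ∈ w :: l ∧ ∀ v ∈ w :: l, v ≠ O ∧ v ≠ γ ∧ v ≠ α := by
  obtain ⟨l1, l2, rfl⟩ := List.append_of_mem hw
  refine ⟨(β :: l1).reverse, ?_, by simp, ?_⟩
  · have h1 : (β :: l1 ++ [w]).IsChain (Ed E) := chain_left F.ch (l'' := l2 ++ [γ]) (by simp)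
    have h2 : (β :: l1 ++ [w]).reverse.IsChain (Ed E) :=
      List.isChain_reverse.2 (h1.imp fun a b h => h.symm)
    rwa [List.reverse_append, List.reverse_singleton] at h2
  · intro v hv
    simp only [List.mem_cons, List.mem_reverse] at hv
    rcases hv with rfl | rfl | hv
    · have := F.nL v (by simp); exact ⟨this.1, this.2.2.2, this.2.1⟩
    · exact ⟨F.nob.symm, F.nbc, F.nab.symm⟩
    · have := F.nL v (by simp [hv]); exact ⟨this.1, this.2.2.2, this.2.1⟩

/-- The vertices of the path are in the cone at `O` spanned by `β` and `γ`. -/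
theorem fan_cone (H : PlD q E) (F : FanE E α β γ O L) {σ : ℝ} (hσ : σ = 1 ∨ σ = -1)
    (hO : Int σ (q α) (q β) (q γ) (q O)) : 0 < σ * D (q O) (q β) (q γ) ∧
    ∀ w ∈ L, 0 < σ * D (q O) (q β) (q w) ∧ 0 < σ * D (q O) (q w) (q γ) := by
  have hne : ∀ σ' : ℝ, (σ' = 1 ∨ σ' = -1) → 0 < σ' * D (q α) (q β) (q γ) → σ' = σ := by
    intro σ' hσ' h'
    have := hO.tri
    rcases hσ with rfl | rfl <;> rcases hσ' with rfl | rfl <;> first | rfl | (exfalso; linarith)
  -- no other hull vertex is in a triangle with the vertex `O`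
  have hull : ∀ σ' : ℝ, (σ' = 1 ∨ σ' = -1) → ¬ Int σ' (q O) (q γ) (q α) (q β) ∧
      ¬ Int σ' (q O) (q α) (q β) (q γ) := by
    intro σ' hσ'
    constructor
    · intro h
      have h2 := h.2.1
      rw [D_rot] at h2
      have := hne σ' hσ' (by rw [← D_rot]; exact h2)
      subst this
      have e := h.1
      have e' : D (q O) (q γ) (q β) = -D (q β) (q γ) (q O) := by unfold D; ring
      rw [e'] at e
      linarith [hO.2.1]
    · intro h
      have h2 := h.2.1
      have := hne σ' hσ' h2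
      subst this
      have e := h.2.2
      have e' : D (q β) (q O) (q γ) = -D (q β) (q γ) (q O) := by unfold D; ring
      rw [e'] at e
      linarith [hO.2.1]
  have n1 : NC (q O) (q γ) (q α) (q β) := H.nc F.eoc F.eca F.eoa.symm F.eob F.noc F.noa.symm
    F.nob.symm F.nbc F.nab.symm (fun σ' hσ' => (hull σ' hσ').1)
  have n2 : NC (q O) (q α) (q β) (q γ) := H.nc F.eoa F.eab F.eob.symm F.eoc F.noa F.nob.symm
    F.noc.symm F.nca F.nbc.symm (fun σ' hσ' => (hull σ' hσ').2)
  have n3 : NC (q O) (q γ) (q β) (q α) := by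
    refine H.nc F.eoc F.ebc.symm F.eob.symm F.eoa F.noc F.nob.symm F.noa.symm F.nca.symm F.nab ?_
    intro σ' hσ' h
    have h2 := h.2.1
    have e0 : D (q γ) (q β) (q α) = -D (q α) (q β) (q γ) := by unfold D; ring
    have := hne (-σ') (by rcases hσ' with rfl | rfl <;> simp) (by rw [e0] at h2; linarith)
    have e := h.1
    have e' : D (q O) (q γ) (q α) = D (q γ) (q α) (q O) := by unfold D; ring
    rw [e'] at e
    have h3 := hO.2.2
    rw [← this] at h3
    linarith
  have d1 : D (q O) (q γ) (q α) ≠ 0 := H.ne F.eoc F.eca F.eoa.symm F.noc F.nca F.noa.symm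
  have d2 : D (q O) (q α) (q β) ≠ 0 := H.ne F.eoa F.eab F.eob.symm F.noa F.nab F.nob.symm
  have hz : q O ∉ segment ℝ (q γ) (q β) := H.av _ _ _ _ F.ebc.symm F.eoa F.noc F.nob
  obtain ⟨τ, hτ, h1, h2⟩ := closure d1 d2 n1 n2 n3 hz
  have hτσ : τ = σ := by
    have e' : D (q O) (q β) (q γ) = D (q β) (q γ) (q O) := by unfold D; ring
    rw [e'] at h1
    have h3 := hO.2.1
    rcases hσ with rfl | rfl <;> rcases hτ with rfl | rfl <;> first | rfl | (exfalso; linarith)
  subst hτσ
  refine ⟨h1, fun w hw => h2 _ ?_ ?_⟩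
  · obtain ⟨w1, w2, w3, w4⟩ := F.nL w hw
    refine H.nc F.eoc F.eca F.eoa.symm (F.sp w hw) F.noc F.noa.symm w1 w4 w2 ?_
    intro σ' hσ' hI
    obtain ⟨l, l1, l2, l3⟩ := F.bwd hw
    exact (hull σ' hσ').1 (H.exit_chain hσ' F.eoc F.eca F.eoa.symm l1 l3 hI _ l2)
  · obtain ⟨w1, w2, w3, w4⟩ := F.nL w hw
    refine H.nc F.eoa F.eab F.eob.symm (F.sp w hw) F.noa F.nob.symm w1 w2 w3 ?_
    intro σ' hσ' hI
    obtain ⟨l, l1, l2, l3⟩ := F.fwd hw
    exact (hull σ' hσ').2 (H.exit_chain hσ' F.eoa F.eab F.eob.symm l1 l3 hI _ l2)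

/-- The vertices of the path are seen from `O` in their order. -/
theorem fan_order (H : PlD q E) (F : FanE E α β γ O L) {σ : ℝ} (hσ : σ = 1 ∨ σ = -1)
    (hO : Int σ (q α) (q β) (q γ) (q O)) :
    (β :: L).IsChain fun u v => 0 < σ * D (q O) (q u) (q v) := by
  obtain ⟨c0, c1⟩ := fan_cone H F hσ hO
  have hσ0 : σ ≠ 0 := by rcases hσ with rfl | rfl <;> norm_num
  rw [List.isChain_iff_forall_rel_of_append_cons_cons]
  have key : ∀ (l1 : List ℕ) (u v : ℕ) (l2 : List ℕ), β :: L = l1 ++ u :: v :: l2 →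
      0 < σ * D (q O) (q u) (q v) := by
    intro l1
    induction l1 using List.reverseRecOn with
    | nil =>
      intro u v l2 h
      simp only [List.nil_append, List.cons.injEq] at h
      obtain ⟨rfl, h⟩ := h
      exact (c1 v (by rw [h]; simp)).1
    | append_singleton l0 t ih =>
      intro u v l2 h
      have h' : β :: L = l0 ++ t :: u :: (v :: l2) := by rw [h]; simp
      have htu := ih t u (v :: l2) h'
      -- membership and distinctness
      have hnd : (β :: L).Nodup := List.nodup_cons.2 ⟨fun hb => (F.nL β hb).2.2.1 rfl, F.nd⟩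
      have hch : (β :: L ++ [γ]).IsChain (Ed E) := F.ch
      rw [h'] at hnd hch
      have huL : u ∈ L ∧ v ∈ L := by
        cases l0 with
        | nil =>
          simp only [List.nil_append, List.cons.injEq] at h'
          rw [h'.2]; simp
        | cons x l0 =>
          simp only [List.cons_append, List.cons.injEq] at h'
          rw [h'.2]; simp
      obtain ⟨huL, hvL⟩ := huL
      have ht : t = β ∨ t ∈ L := by
        have : t ∈ β :: L := by rw [h']; simp
        simpa using this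
      have nu := F.nL u huL
      have nv := F.nL v hvL
      have hnt : t ≠ O ∧ t ≠ γ := by
        rcases ht with rfl | ht
        · exact ⟨F.nob.symm, F.nbc⟩
        · exact ⟨(F.nL t ht).1, (F.nL t ht).2.2.2⟩
      have eOt : Ed E O t := by
        rcases ht with rfl | ht
        · exact F.eob
        · exact F.sp t ht
      have eOu := F.sp u huL
      have eOv := F.sp v hvL
      have hch2 : (t :: u :: v :: (l2 ++ [γ])).IsChain (Ed E) := hch.suffix ⟨l0, by simp⟩
      rw [List.isChain_cons_cons, List.isChain_cons_cons] at hch2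
      obtain ⟨etu, euv, hch3⟩ := hch2
      have hd : t ≠ u ∧ t ≠ v ∧ u ≠ v ∧ (∀ x ∈ l2, x ≠ t ∧ x ≠ u) ∧
          ∀ x ∈ l0, x ≠ u ∧ x ≠ v := by
        rw [List.nodup_append] at hnd
        obtain ⟨-, g2, g3⟩ := hnd
        simp only [List.nodup_cons, List.mem_cons, not_or] at g2
        refine ⟨g2.1.1, g2.1.2.1, g2.2.1.1, fun x hx => ⟨?_, ?_⟩, fun x hx => ⟨?_, ?_⟩⟩
        · rintro rfl; exact g2.1.2.2 hx
        · rintro rfl; exact g2.2.1.2 hx
        · exact g3 x hx u (by simp)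
        · exact g3 x hx v (by simp)
      obtain ⟨ntu, ntv, nuv, hl2, hl0⟩ := hd
      have nuO := nu.1
      have nvO := nv.1
      refine opp hσ htu ?_ ?_ (H.ne eOu euv eOv.symm nuO.symm nuv nvO)
      · refine H.nc eOt etu eOu.symm eOv hnt.1.symm nuO nvO ntv.symm nuv.symm ?_
        intro σ' hσ' hI
        have hI' := H.exit_chain hσ' eOt etu eOu.symm hch3 (fun x hx => by
          simp only [List.mem_cons, List.mem_append, List.not_mem_nil, or_false] at hx
          rcases hx with rfl | hx | rfl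
          · exact ⟨nvO, ntv.symm, nuv.symm⟩
          · have hxL : x ∈ L := by
              have : x ∈ β :: L := by rw [h']; simp [hx]
              rcases List.mem_cons.1 this with rfl | h9
              · exfalso
                cases l0 with
                | nil =>
                  simp only [List.nil_append, List.cons.injEq] at h'
                  exact (hl2 x hx).1 h'.1
                | cons y l0 =>
                  simp only [List.cons_append, List.cons.injEq] at h'
                  have : x ∈ L := by rw [h'.2]; simp [hx]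
                  exact (F.nL x this).2.2.1 rfl
              · exact h9
            exact ⟨(F.nL x hxL).1, (hl2 x hx).1, (hl2 x hx).2⟩
          · exact ⟨F.noc.symm, hnt.2.symm, nu.2.2.2.symm⟩) hI γ (by simp)
        have k1 := hI'.1
        have k2 := hI'.2.2
        have e2 : D (q u) (q O) (q γ) = -D (q O) (q u) (q γ) := by unfold D; ring
        rw [e2] at k2
        have m1 : 0 < σ * D (q O) (q t) (q γ) := by
          rcases ht with rfl | ht
          · exact c0
          · exact (c1 t ht).2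
        have m2 : 0 < σ * D (q O) (q u) (q γ) := (c1 u huL).2
        rcases hσ with rfl | rfl <;> rcases hσ' with rfl | rfl <;> linarith
      · refine H.nc eOu euv eOv.symm eOt nuO.symm nvO hnt.1 ntu ntv ?_
        intro σ' hσ' hI
        have hch4 : (t :: l0.reverse).IsChain (Ed E) := by
          have h1 : (l0 ++ [t]).IsChain (Ed E) := chain_left hch (l'' := u :: v :: l2 ++ [γ]) (by simp)
          have h2 : (l0 ++ [t]).reverse.IsChain (Ed E) :=
            List.isChain_reverse.2 (h1.imp fun a b h => h.symm)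
          rwa [List.reverse_append, List.reverse_singleton] at h2
        have hI' := H.exit_chain hσ' eOu euv eOv.symm hch4 (fun x hx => by
          simp only [List.mem_cons, List.mem_reverse] at hx
          rcases hx with rfl | hx
          · exact ⟨hnt.1, ntu, ntv⟩
          · have hxO : x ≠ O := by
              have : x ∈ β :: L := by rw [h']; simp [hx]
              rcases List.mem_cons.1 this with rfl | h9
              · exact F.nob.symm
              · exact (F.nL x h9).1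
            exact ⟨hxO, (hl0 x hx).1, (hl0 x hx).2⟩) hI β (by
          cases l0 with
          | nil =>
            simp only [List.nil_append, List.cons.injEq] at h'
            rw [h'.1]; simp
          | cons y l0 =>
            simp only [List.cons_append, List.cons.injEq] at h'
            rw [h'.1]; simp)
        have k1 := hI'.1
        have k2 := hI'.2.2
        have e1 : D (q O) (q u) (q β) = -D (q O) (q β) (q u) := by unfold D; ring
        have e2 : D (q v) (q O) (q β) = D (q O) (q β) (q v) := by unfold D; ring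
        rw [e1] at k1
        rw [e2] at k2
        have m1 : 0 < σ * D (q O) (q β) (q u) := (c1 u huL).1
        have m2 : 0 < σ * D (q O) (q β) (q v) := (c1 v hvL).1
        rcases hσ with rfl | rfl <;> rcases hσ' with rfl | rfl <;> linarith
  intro u v l1 l2 h
  exact key l1 u v l2 h

/-- A chord is below the vertices between its endpoints. -/
theorem fan_chord (H : PlD q E) {σ : ℝ} (hσ : σ = 1 ∨ σ = -1) {O u v w : ℕ} (euv : Ed E u v)
    (eou : Ed E O u) (eov : Ed E O v) (eow : Ed E O w) (nou : O ≠ u) (nov : O ≠ v) (nwO : w ≠ O)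
    (nwu : w ≠ u) (nwv : w ≠ v) (h1 : 0 < σ * D (q O) (q u) (q w))
    (h2 : 0 < σ * D (q O) (q w) (q v)) (h3 : 0 < σ * D (q O) (q u) (q v)) :
    0 < σ * D (q u) (q v) (q w) := by
  by_contra hcon
  have hne : σ * D (q u) (q v) (q w) ≠ 0 := by
    have : D (q u) (q v) (q w) ≠ 0 := by
      intro h0
      -- then `w` is on the chord
      refine H.av _ _ _ _ euv eow.symm nwu nwv ?_
      have t1 : 0 < σ * D (q u) (q v) (q O) := by rw [D_rot]; exact h3
      refine mem_seg_of_sgn hσ (w := q O) t1 h0 ?_ ?_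
      · have e : D (q v) (q O) (q w) = D (q O) (q w) (q v) := by unfold D; ring
        rw [e]; exact h2.le
      · exact h1.le
    rcases hσ with rfl | rfl <;> simpa using this
  have hlt : σ * D (q u) (q v) (q w) < 0 := lt_of_le_of_ne (not_lt.1 hcon) hne
  -- the spoke crosses the chord
  have hNC : NC (q O) (q u) (q v) (q w) := by
    refine H.nc eou euv eov.symm eow nou nov.symm nwO nwu nwv ?_
    intro σ' hσ' hI
    have k1 := hI.1
    have k2 := hI.2.1
    rcases hσ with rfl | rfl <;> rcases hσ' with rfl | rfl <;> linarith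
  exact hNC σ hσ h3 ⟨h1.le, h2.le⟩

end

end Pool.Agent.NPC.ER.SGE
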