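import Pool.Agent.TH663.SGE.Tri

/-!
# Projective coordinates in which the lines through `O` are vertical
-/

namespace Pool.Agent.NPC.ER.SGE

open Pool.Agent.NPC.ER.GPP

/-- The denominator. -/
def fS (o b c w : ℝ × ℝ) : ℝ := D o w c + D o b w

/-- The coordinates of the point `w`; the point `o` is at infinity. -/
noncomputable def fr (o b c w : ℝ × ℝ) : ℝ × ℝ := (D o b w / fS o b c w, D o b c / fS o b c w)

theorem D_fr {o b c u v w : ℝ × ℝ} (hu : fS o b c u ≠ 0) (hv : fS o b c v ≠ 0)
    (hw : fS o b c w ≠ 0) : D (fr o b c u) (fr o b c v) (fr o b c w) *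
      (fS o b c u * fS o b c v * fS o b c w) = D u v w * D o b c ^ 2 := by
  have e : D (fr o b c u) (fr o b c v) (fr o b c w) * (fS o b c u * fS o b c v * fS o b c w) =
      D o b c * (D o b v * (fS o b c u - fS o b c w) + D o b u * (fS o b c w - fS o b c v) +
        D o b w * (fS o b c v - fS o b c u)) := by
    unfold fr
    generalize fS o b c u = su at *
    generalize fS o b c v = sv at *
    generalize fS o b c w = sw at *
    generalize D o b c = d at *
    generalize D o b u = tu at *
    generalize D o b v = tv at *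
    generalize D o b w = tw at *
    unfold D
    simp only
    field_simp
    ring
  rw [e]
  have e2 : D o b v * (fS o b c u - fS o b c w) + D o b u * (fS o b c w - fS o b c v) +
        D o b w * (fS o b c v - fS o b c u) = D u v w * D o b c := by
    unfold fS D
    ring
  rw [e2]; ring

theorem fr_sub {o b c u v : ℝ × ℝ} (hu : fS o b c u ≠ 0) (hv : fS o b c v ≠ 0) :
    ((fr o b c v).1 - (fr o b c u).1) * (fS o b c u * fS o b c v) = D o u v * D o b c := by
  have e : ((fr o b c v).1 - (fr o b c u).1) * (fS o b c u * fS o b c v) =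
      D o b v * fS o b c u - D o b u * fS o b c v := by
    unfold fr
    simp only
    field_simp
  rw [e]
  unfold fS D
  ring

section

variable {σ : ℝ} {o b c : ℝ × ℝ}

theorem fS_pos {w : ℝ × ℝ} (h1 : 0 < σ * D o b w) (h2 : 0 < σ * D o w c) :
    0 < σ * fS o b c w := by
  unfold fS; linarith

/-- The order is preserved. -/
theorem fr_lt (hσ : σ = 1 ∨ σ = -1) (h0 : 0 < σ * D o b c) {u v : ℝ × ℝ}
    (hu : 0 < σ * fS o b c u) (hv : 0 < σ * fS o b c v) (h : 0 < σ * D o u v) :
    (fr o b c u).1 < (fr o b c v).1 := by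
  have hσ2 : σ * σ = 1 := by rcases hσ with rfl | rfl <;> norm_num
  have nu : fS o b c u ≠ 0 := by intro h'; rw [h'] at hu; simp at hu
  have nv : fS o b c v ≠ 0 := by intro h'; rw [h'] at hv; simp at hv
  have e := fr_sub nu nv (o := o) (b := b) (c := c)
  have e' : ((fr o b c v).1 - (fr o b c u).1) * ((σ * fS o b c u) * (σ * fS o b c v)) =
      (σ * D o u v) * (σ * D o b c) := by linear_combination (σ * σ) * e
  have h1 := mul_pos hu hv
  have h2 := mul_pos h h0
  rw [← e'] at h2
  have := (pos_iff_pos_of_mul_pos h2).2 h1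
  linarith

theorem fr_lt' (hσ : σ = 1 ∨ σ = -1) (h0 : 0 < σ * D o b c) {u v : ℝ × ℝ}
    (hu : 0 < σ * fS o b c u) (hv : 0 < σ * fS o b c v)
    (h : (fr o b c u).1 < (fr o b c v).1) : 0 < σ * D o u v := by
  have hσ2 : σ * σ = 1 := by rcases hσ with rfl | rfl <;> norm_num
  have nu : fS o b c u ≠ 0 := by intro h'; rw [h'] at hu; simp at hu
  have nv : fS o b c v ≠ 0 := by intro h'; rw [h'] at hv; simp at hv
  have e := fr_sub nu nv (o := o) (b := b) (c := c)
  have e' : ((fr o b c v).1 - (fr o b c u).1) * ((σ * fS o b c u) * (σ * fS o b c v)) =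
      (σ * D o u v) * (σ * D o b c) := by linear_combination (σ * σ) * e
  have h1 := mul_pos hu hv
  have h2 := mul_pos (sub_pos.2 h) h1
  rw [e'] at h2
  exact (pos_iff_pos_of_mul_pos h2).2 h0

/-- The orientation is preserved. -/
theorem fr_pos (hσ : σ = 1 ∨ σ = -1) (h0 : 0 < σ * D o b c) {τ : ℝ} {u v w : ℝ × ℝ}
    (hu : 0 < σ * fS o b c u) (hv : 0 < σ * fS o b c v) (hw : 0 < σ * fS o b c w)
    (h : 0 < τ * (σ * D u v w)) :
    0 < τ * D (fr o b c u) (fr o b c v) (fr o b c w) := by
  have hσ2 : σ * σ = 1 := by rcases hσ with rfl | rfl <;> norm_num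
  have nu : fS o b c u ≠ 0 := by intro h'; rw [h'] at hu; simp at hu
  have nv : fS o b c v ≠ 0 := by intro h'; rw [h'] at hv; simp at hv
  have nw : fS o b c w ≠ 0 := by intro h'; rw [h'] at hw; simp at hw
  have e := D_fr nu nv nw (o := o) (b := b) (c := c)
  have e' : (τ * D (fr o b c u) (fr o b c v) (fr o b c w)) *
      ((σ * fS o b c u) * (σ * fS o b c v) * (σ * fS o b c w)) =
      (τ * (σ * D u v w)) * (σ * D o b c) ^ 2 := by linear_combination (τ * σ * σ * σ) * e
  have h1 := mul_pos (mul_pos hu hv) hw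
  have h2 := mul_pos h (pow_pos h0 2)
  rw [← e'] at h2
  exact (pos_iff_pos_of_mul_pos h2).2 h1

end

end Pool.Agent.NPC.ER.SGE
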