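import Pool.Agent.TH663.SGE.Defs
import Pool.Agent.H606R2.GPP.Member

/-!
# Membership in `∃ℝ`
-/

namespace Pool.Agent.NPC.ER.SGE

open Pool.Agent.NPC Pool.Agent.NPC.ER.GPP
open Pool.Agent.NPC.H670R2 (ff tt conj holds_ff holds_tt holds_conj poly_conj not_etr_ff)

/-- The conditions for the crossings in a graph. -/
def crs (E : List (ℕ × ℕ)) : List Fm :=
  E.flatMap fun e => E.map fun f =>
    if (e.1 = f.1 ∨ e.1 = f.2) ∨ (e.2 = f.1 ∨ e.2 = f.2) then tt else crF e.1 e.2 f.1 f.2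

/-- The conditions for a drawing. -/
def drw (V : List ℕ) (E : List (ℕ × ℕ)) : List Fm :=
  (V.flatMap fun u => V.map fun v => if u = v then tt else neF u v) ++
  (E.flatMap fun e => V.map fun w => if w = e.1 ∨ w = e.2 then tt else avF e.1 e.2 w)

theorem drw_iff {V : List ℕ} {E : List (ℕ × ℕ)} (x : ℕ → ℝ) : (∀ φ ∈ drw V E, φ.Holds x) ↔
    IsDrawing V E (vx x) := by
  unfold drw
  constructor
  · intro h
    constructor
    · intro u hu v hv huv
      by_contra hne
      have := h _ (List.mem_append.2 (Or.inl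
        (List.mem_flatMap.2 ⟨u, hu, List.mem_map.2 ⟨v, hv, rfl⟩⟩)))
      rw [if_neg hne, holds_neF] at this
      exact this huv
    · intro e he w hw h1 h2
      have := h _ (List.mem_append.2 (Or.inr
        (List.mem_flatMap.2 ⟨e, he, List.mem_map.2 ⟨w, hw, rfl⟩⟩)))
      rw [if_neg (by rintro (h3 | h3); exacts [h1 h3, h2 h3]), holds_avF] at this
      exact this
  · intro hd φ hφ
    rw [List.mem_append, List.mem_flatMap, List.mem_flatMap] at hφ
    rcases hφ with ⟨u, hu, hφ⟩ | ⟨e, he, hφ⟩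
    · obtain ⟨v, hv, rfl⟩ := List.mem_map.1 hφ
      split_ifs with h
      · exact holds_tt x
      · rw [holds_neF]
        exact fun h3 => h (hd.inj u hu v hv h3)
    · obtain ⟨w, hw, rfl⟩ := List.mem_map.1 hφ
      split_ifs with h
      · exact holds_tt x
      · push Not at h
        rw [holds_avF]
        exact hd.avoid e he w hw h.1 h.2

theorem crs_iff {V : List ℕ} {E : List (ℕ × ℕ)} (hE : ∀ e ∈ E, e.1 ∈ V ∧ e.2 ∈ V ∧ e.1 ≠ e.2)
    {x : ℕ → ℝ} (hd : IsDrawing V E (vx x)) : (∀ φ ∈ crs E, φ.Holds x) ↔ Planar E (vx x) := by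
  have hG : GPP.IsInst (V, E, E) := ⟨hE, fun e he => he⟩
  unfold Planar
  rw [free_iff hG hd]
  unfold crs
  constructor
  · intro h e he f hf h1
    have := h _ (List.mem_flatMap.2 ⟨e, he, List.mem_map.2 ⟨f, hf, rfl⟩⟩)
    obtain ⟨⟨a, b⟩, c, d⟩ := h1
    rw [if_neg (by rintro ((h3 | h3) | h3 | h3); exacts [a h3, b h3, c h3, d h3]),
      holds_crF] at this
    exact this
  · intro h2 φ hφ
    rw [List.mem_flatMap] at hφ
    obtain ⟨e, he, hφ⟩ := hφ
    obtain ⟨f, hf, rfl⟩ := List.mem_map.1 hφ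
    split_ifs with h
    · exact holds_tt x
    · push Not at h
      rw [holds_crF]
      exact h2 e he f hf ⟨⟨h.1.1, h.1.2⟩, h.2.1, h.2.2⟩

/-- The test for instances. -/
def instB (G : Inst) : Bool :=
  (G.2.1.all fun e => (decide (e.1 ∈ G.1) && decide (e.2 ∈ G.1)) && !decide (e.1 = e.2)) &&
    G.2.2.all fun e => (decide (e.1 ∈ G.1) && decide (e.2 ∈ G.1)) && !decide (e.1 = e.2)

theorem instB_iff (G : Inst) : instB G = true ↔ IsInst G := by
  unfold instB IsInst
  simp only [List.all_eq_true, decide_eq_true_eq, Bool.and_eq_true, Bool.not_eq_true',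
    decide_eq_false_iff_not, and_assoc, ne_eq]

/-- The conditions. -/
def conds (G : Inst) : List Fm := drw G.1 (G.2.1 ++ G.2.2) ++ (crs G.2.1 ++ crs G.2.2)

theorem conds_iff {G : Inst} (hG : IsInst G) (x : ℕ → ℝ) : (∀ φ ∈ conds G, φ.Holds x) ↔
    IsDrawing G.1 (G.2.1 ++ G.2.2) (vx x) ∧ Planar G.2.1 (vx x) ∧ Planar G.2.2 (vx x) := by
  unfold conds
  simp only [List.mem_append, or_imp, forall_and]
  rw [drw_iff]
  constructor
  · rintro ⟨hd, h1, h2⟩
    exact ⟨hd, (crs_iff hG.1 ⟨hd.inj, fun e he => hd.avoid e (List.mem_append_left _ he)⟩).1 h1,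
      (crs_iff hG.2 ⟨hd.inj, fun e he => hd.avoid e (List.mem_append_right _ he)⟩).1 h2⟩
  · rintro ⟨hd, h1, h2⟩
    exact ⟨hd, (crs_iff hG.1 ⟨hd.inj, fun e he => hd.avoid e (List.mem_append_left _ he)⟩).2 h1,
      (crs_iff hG.2 ⟨hd.inj, fun e he => hd.avoid e (List.mem_append_right _ he)⟩).2 h2⟩

/-- The existential sentence. -/
def form (G : Inst) : Fm := if instB G = true then conj (conds G) else ff

theorem form_correct (G : Inst) : (IsInst G ∧ HasSGE G) ↔ ETR (form G) := by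
  unfold form
  rw [← instB_iff]
  split_ifs with h
  · rw [instB_iff] at h
    unfold ETR HasSGE
    simp only [holds_conj, conds_iff h]
    constructor
    · rintro ⟨-, p, hp⟩
      refine ⟨fun n => if n % 2 = 0 then (p (n / 2)).1 else (p (n / 2)).2, ?_⟩
      have hv : vx (fun n => if n % 2 = 0 then (p (n / 2)).1 else (p (n / 2)).2) = p := by
        funext v
        unfold vx
        have e1 : 2 * v % 2 = 0 := by omega
        have e2 : (2 * v + 1) % 2 = 1 := by omega
        have e3 : 2 * v / 2 = v := by omega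
        have e4 : (2 * v + 1) / 2 = v := by omega
        simp only [e1, e2, e3, e4]
        rfl
      rw [hv]
      exact hp
    · rintro ⟨x, hx⟩
      exact ⟨(instB_iff G).2 h, vx x, hx⟩
  · constructor
    · rintro ⟨h1, -⟩
      exact absurd h1 h
    · intro h1
      exact absurd h1 not_etr_ff

/-! ### Polynomial time -/

section

variable {α : Type} [TEnc α]

theorem poly_crs {E : α → List (ℕ × ℕ)} (hE : Poly E) : Poly (fun a => crs (E a)) := by
  refine Poly.flatMap (F := fun a (e : ℕ × ℕ) => (E a).map fun f =>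
    if (e.1 = f.1 ∨ e.1 = f.2) ∨ (e.2 = f.1 ∨ e.2 = f.2) then tt else crF e.1 e.2 f.1 f.2) hE ?_
  refine Poly.map (F := fun (p : α × ℕ × ℕ) (f : ℕ × ℕ) =>
    if (p.2.1 = f.1 ∨ p.2.1 = f.2) ∨ (p.2.2 = f.1 ∨ p.2.2 = f.2) then tt
    else crF p.2.1 p.2.2 f.1 f.2) (hE.comp (Poly.fst Poly.id)) ?_
  have e1 : Poly (fun q : (α × ℕ × ℕ) × ℕ × ℕ => q.1.2.1) :=
    Poly.fst (Poly.snd (Poly.fst Poly.id))
  have e2 : Poly (fun q : (α × ℕ × ℕ) × ℕ × ℕ => q.1.2.2) :=
    Poly.snd (Poly.snd (Poly.fst Poly.id))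
  have f1 : Poly (fun q : (α × ℕ × ℕ) × ℕ × ℕ => q.2.1) := Poly.fst (Poly.snd Poly.id)
  have f2 : Poly (fun q : (α × ℕ × ℕ) × ℕ × ℕ => q.2.2) := Poly.snd (Poly.snd Poly.id)
  exact Poly.ite (Poly.decide_or (Poly.decide_or (Poly.decide_eq e1 f1) (Poly.decide_eq e1 f2))
    (Poly.decide_or (Poly.decide_eq e2 f1) (Poly.decide_eq e2 f2)))
    (Poly.const _) (poly_crF e1 e2 f1 f2)

theorem poly_drw {V : α → List ℕ} {E : α → List (ℕ × ℕ)} (hV : Poly V) (hE : Poly E) :
    Poly (fun a => drw (V a) (E a)) := by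
  refine Poly.append ?_ ?_
  · refine Poly.flatMap (F := fun a (u : ℕ) => (V a).map fun v =>
      if u = v then tt else neF u v) hV ?_
    refine Poly.map (F := fun (p : α × ℕ) (v : ℕ) => if p.2 = v then tt else neF p.2 v)
      (hV.comp (Poly.fst Poly.id)) ?_
    exact Poly.ite (Poly.decide_eq (Poly.snd (Poly.fst Poly.id)) (Poly.snd Poly.id))
      (Poly.const _) (poly_neF (Poly.snd (Poly.fst Poly.id)) (Poly.snd Poly.id))
  · refine Poly.flatMap (F := fun a (e : ℕ × ℕ) => (V a).map fun w =>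
      if w = e.1 ∨ w = e.2 then tt else avF e.1 e.2 w) hE ?_
    refine Poly.map (F := fun (p : α × ℕ × ℕ) (w : ℕ) => if w = p.2.1 ∨ w = p.2.2 then tt
      else avF p.2.1 p.2.2 w) (hV.comp (Poly.fst Poly.id)) ?_
    have e1 : Poly (fun q : (α × ℕ × ℕ) × ℕ => q.1.2.1) :=
      Poly.fst (Poly.snd (Poly.fst Poly.id))
    have e2 : Poly (fun q : (α × ℕ × ℕ) × ℕ => q.1.2.2) :=
      Poly.snd (Poly.snd (Poly.fst Poly.id))
    have w : Poly (fun q : (α × ℕ × ℕ) × ℕ => q.2) := Poly.snd Poly.id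
    exact Poly.ite (Poly.decide_or (Poly.decide_eq w e1) (Poly.decide_eq w e2))
      (Poly.const _) (poly_avF e1 e2 w)

theorem poly_conds : Poly conds := by
  have hV : Poly (fun G : Inst => G.1) := Poly.fst Poly.id
  have hE : Poly (fun G : Inst => G.2.1) := Poly.fst (Poly.snd Poly.id)
  have hF : Poly (fun G : Inst => G.2.2) := Poly.snd (Poly.snd Poly.id)
  exact Poly.append (poly_drw hV (Poly.append hE hF)) (Poly.append (poly_crs hE) (poly_crs hF))

theorem poly_instB : Poly instB := by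
  have hE : Poly (fun G : Inst => G.2.1) := Poly.fst (Poly.snd Poly.id)
  have hF : Poly (fun G : Inst => G.2.2) := Poly.snd (Poly.snd Poly.id)
  have h1 : Poly (fun p : Inst × (ℕ × ℕ) => p.1.1) := Poly.fst (Poly.fst Poly.id)
  have e1 : Poly (fun p : Inst × (ℕ × ℕ) => p.2.1) := Poly.fst (Poly.snd Poly.id)
  have e2 : Poly (fun p : Inst × (ℕ × ℕ) => p.2.2) := Poly.snd (Poly.snd Poly.id)
  have h : Poly (fun p : Inst × (ℕ × ℕ) =>
      (decide (p.2.1 ∈ p.1.1) && decide (p.2.2 ∈ p.1.1)) && !decide (p.2.1 = p.2.2)) :=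
    Poly.and (Poly.and (Poly.decide_mem e1 h1) (Poly.decide_mem e2 h1))
      (Poly.not (Poly.decide_eq e1 e2))
  exact Poly.and (Poly.all (p := fun (G : Inst) (e : ℕ × ℕ) =>
      (decide (e.1 ∈ G.1) && decide (e.2 ∈ G.1)) && !decide (e.1 = e.2)) hE h)
    (Poly.all (p := fun (G : Inst) (e : ℕ × ℕ) =>
      (decide (e.1 ∈ G.1) && decide (e.2 ∈ G.1)) && !decide (e.1 = e.2)) hF h)

theorem poly_form : Poly form := by
  unfold form
  exact Poly.ite (Poly.decide_bool poly_instB) (poly_conj poly_conds) (Poly.const _)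

end

/-- The problem belongs to `∃ℝ`. -/
theorem sge_mem : InER (lang fun G : Inst => IsInst G ∧ HasSGE G) :=
  InER.of_poly poly_form form_correct

end Pool.Agent.NPC.ER.SGE
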