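import Pool.Agent.TH663.SGE.Draw6
import Pool.Agent.TH663.SGE.Member
import Pool.Agent.H612.OslpPoly

/-!
# The reduction is correct
-/

namespace Pool.Agent.NPC.ER.SGE

open Pool.Agent.NPC Pool.Agent.NPC.ER
open Pool.Agent.NPC.ER.GPP (D)
open Pool.Agent.NPC.ER.Oslp (Ins OSat)

theorem osat_iff_red {p : List Ins} (hw : Oslp.WF 2 p) :
    OSat p ↔ IsInst (red p) ∧ HasSGE (red p) := by
  have hk : ∀ G ∈ gads (p.length + 1) p, Kind (p.length + 1) p G := fun G hG => kind hw hG
  constructor
  · intro h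
    obtain ⟨X, Y, C⟩ := conf_of_osat hw h
    have hn : (ord (gads (p.length + 1) p) (p.length + 1)).Nodup :=
      C.ordr.imp fun {a b} hab => by rintro rfl; exact lt_irrefl _ hab
    unfold red
    rw [if_pos (nodupB_iff.2 hn)]
    exact ⟨isInst_inst0 hk C, hasSGE_inst0 hk C gads_pairwise⟩
  · rintro ⟨h1, h2⟩
    unfold red at h1 h2
    split_ifs at h1 h2 with hn
    · exact osat_of_weak hw (weak_of_sge hk (nodupB_iff.1 hn) h1 h2)
    · have := (h1.1 (0, 0) (by simp)).2.2
      exact absurd rfl this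

/-- The problem is hard. -/
theorem sge_hard : ERHard (lang fun G : Inst => IsInst G ∧ HasSGE G) := by
  refine ERHard.of_sys (f := fun S => red (Oslp.prog S)) ?_ fun S => ?_
  · exact poly_red (Oslp.poly_prog Poly.id)
  · rw [Oslp.prog_iff]
    exact osat_iff_red (Oslp.wf_prog S)

/-- The problem is complete. -/
theorem sge_complete : ERComplete (lang fun G : Inst => IsInst G ∧ HasSGE G) :=
  ⟨sge_mem, sge_hard⟩

end Pool.Agent.NPC.ER.SGE
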