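import Pool.Agent.TH663.SGE.Tmpl

/-!
# Placement of the first gadget
-/

namespace Pool.Agent.NPC.ER.SGE

open Pool.Agent.NPC.ER.GPP Filter Topology

theorem ev_pos {f : ℝ → ℝ} (hf : Continuous f) (h0 : 0 < f 0) : ∀ᶠ x in 𝓝[>] (0 : ℝ), 0 < f x :=
  ((hf.tendsto 0).mono_left nhdsWithin_le_nhds).eventually (lt_mem_nhds h0)

theorem ev_exists {P : ℝ → Prop} (h : ∀ᶠ x in 𝓝[>] (0 : ℝ), P x) : ∃ x, 0 < x ∧ P x := by
  obtain ⟨x, h1, h2⟩ := (h.and self_mem_nhdsWithin).exists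
  exact ⟨x, h2, h1⟩

/-- The curve. -/
noncomputable def cv (W e κ X x : ℝ) : ℝ := (W - x) * (e + κ * (x - X))

theorem D_cv (W e κ X u v z : ℝ) : D (u, cv W e κ X u) (v, cv W e κ X v) (z, cv W e κ X z) =
    κ * ((v - u) * (z - u) * (v - z)) := by
  unfold D cv; ring

theorem D_cvQ (W e κ X p g : ℝ) : D (p, cv W e κ X p) (W, 0) (g, cv W e κ X g) =
    κ * ((W - p) * (W - g) * (g - p)) := by
  unfold D cv; ring

theorem S1t_eq : S1t = [(10, 1, 13), (10, 1, 0), (1, 13, 0), (13, 10, 0), (1, 13, 3), (13, 0, 3),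
    (0, 1, 3), (13, 0, 12), (0, 3, 12), (3, 13, 12), (0, 1, 2), (1, 3, 2), (3, 0, 2), (3, 0, 8),
    (0, 2, 8), (2, 3, 8), (0, 2, 9), (2, 8, 9), (8, 0, 9), (3, 0, 4), (0, 8, 4), (8, 3, 4),
    (0, 9, 4), (9, 8, 4), (8, 3, 11), (3, 4, 11), (4, 8, 11), (0, 1, 5), (1, 2, 5), (2, 0, 5),
    (1, 2, 6), (2, 5, 6), (5, 1, 6), (2, 5, 7), (5, 6, 7), (6, 2, 7), (8, 6, 9), (8, 6, 5),
    (8, 6, 7), (5, 6, 7), (12, 11, 4)] := by decide

theorem S2t_eq : S2t = [(10, 1, 3), (10, 1, 0), (1, 3, 0), (3, 10, 0), (1, 3, 2), (3, 0, 2),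
    (0, 1, 2), (3, 0, 8), (0, 2, 8), (2, 3, 8), (0, 2, 9), (2, 8, 9), (8, 0, 9), (3, 0, 4),
    (0, 8, 4), (8, 3, 4), (0, 9, 4), (9, 8, 4), (0, 1, 5), (1, 2, 5), (2, 0, 5),
    (1, 2, 6), (2, 5, 6), (5, 1, 6), (2, 5, 7), (5, 6, 7), (6, 2, 7), (8, 6, 9), (8, 6, 5),
    (8, 6, 7), (5, 6, 7)] := by decide

theorem ev_lin {a : ℝ} (ha : 0 < a) (b : ℝ) : ∀ᶠ y in atTop, 0 < a * y + b := by
  filter_upwards [eventually_gt_atTop (-b / a)] with y hy
  have := (div_lt_iff₀ ha).1 hy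
  linarith

/-- The points of the first gadget. -/
noncomputable def pts1 (W e κ X1 X2 b c l xM xN yN η : ℝ) : ℕ → ℝ × ℝ
  | 0 => (0, 0)
  | 1 => (W, 0)
  | 2 => (b, b)
  | 3 => (c, l * c)
  | 4 => (X2 + η, cv W e κ X1 (X2 + η))
  | 5 => (X1 + η, cv W e κ X1 (X1 + η))
  | 6 => (X1 + 2 * η, cv W e κ X1 (X1 + 2 * η))
  | 7 => (X1 + 3 / 2 * η, cv W e κ X1 (X1 + 3 / 2 * η))
  | 8 => (X1 - 2 * η, cv W e κ X1 (X1 - 2 * η))
  | 9 => (X1 - η, cv W e κ X1 (X1 - η))
  | 10 => (xM, -1)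
  | 11 => (X2 + 2 * η, cv W e κ X1 (X2 + 2 * η))
  | 12 => (X2 - η, cv W e κ X1 (X2 - η))
  | _ => (xN, yN)

/-- The placement of the first gadget; `A` is the origin. -/
theorem place1 {W X1 X2 b c xM xN δ : ℝ} (hM : xM < 0) (h2 : 0 < X2) (h2c : X2 < c)
    (h12 : X2 < X1) (hcb : c < b) (h1b : X1 < b) (hbN : b < xN) (hNW : xN < W) (hδ : 0 < δ)
    (hyp : b * X2 * ((W - c) * (W - X1)) < c * X1 * ((W - b) * (W - X2))) :
    ∃ P : ℕ → ℝ × ℝ, (∀ T ∈ S1t, 0 < D (P T.1) (P T.2.1) (P T.2.2)) ∧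
      (P 0).1 = 0 ∧ (P 1).1 = W ∧ (P 2).1 = b ∧ (P 3).1 = c ∧ (P 10).1 = xM ∧ (P 13).1 = xN ∧
      (X2 - δ < (P 12).1 ∧ (P 12).1 < (P 4).1 ∧ (P 4).1 < (P 11).1 ∧ (P 11).1 < X2 + δ) ∧
      (X1 - δ < (P 8).1 ∧ (P 8).1 < (P 9).1 ∧ (P 9).1 < (P 5).1 ∧ (P 5).1 < (P 7).1 ∧
        (P 7).1 < (P 6).1 ∧ (P 6).1 < X1 + δ) := by
  have hW1 : 0 < W - X1 := by linarith
  have hW0 : 0 < W := by linarith
  have hc0 : 0 < c := by linarith
  have hb0 : 0 < b := by linarith
  have h10 : 0 < X1 := by linarith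
  obtain ⟨e, he⟩ : ∃ e, e * (W - X1) = X1 := ⟨X1 / (W - X1), div_mul_cancel₀ _ hW1.ne'⟩
  have he0 : 0 < e := pos_of_mul_pos_left (b := W - X1) (by rw [he]; exact h10) hW1.le
  -- the curvature
  obtain ⟨κ, hκ, ⟨k1, k2⟩, ⟨k3, k4⟩, k5⟩ := ev_exists
    (((ev_pos (f := fun κ => 1 + e - κ * (W - X1)) (by fun_prop) (by simp; linarith)).and
      (ev_pos (f := fun κ => e + κ * (X2 - X1)) (by fun_prop) (by simp; linarith))).and
    (((ev_pos (f := fun κ => (W - X2) * (e + κ * (X2 - X1)) - X2) (by fun_prop) (by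
        simp only [zero_mul, add_zero]
        refine pos_of_mul_pos_left (b := W - X1) ?_ hW1.le
        have : ((W - X2) * e - X2) * (W - X1) = W * (X1 - X2) := by
          linear_combination (W - X2) * he
        rw [this]
        exact mul_pos hW0 (by linarith))).and
      (ev_pos (f := fun κ => (W - X2) * (e + κ * (X2 - X1)) * (c * (W - b)) -
        X2 * (b * (W - c))) (by fun_prop) (by
        simp only [zero_mul, add_zero]
        refine pos_of_mul_pos_left (b := W - X1) ?_ hW1.le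
        have : ((W - X2) * e * (c * (W - b)) - X2 * (b * (W - c))) * (W - X1) =
            c * X1 * ((W - b) * (W - X2)) - b * X2 * ((W - c) * (W - X1)) := by
          linear_combination (W - X2) * (c * (W - b)) * he
        rw [this]
        linarith))).and
      (ev_pos (f := fun κ => (W - X2) * (e + κ * (X2 - X1)) + X2 * (e + κ * (X2 - X1)) -
        X2 * (κ * (W - X2))) (by fun_prop) (by
        simp only [zero_mul, add_zero, mul_zero, sub_zero]
        have := mul_pos (show 0 < W - X2 by linarith) he0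
        have := mul_pos h2 he0
        linarith))))
  obtain ⟨l, hl⟩ : ∃ l, l * X2 = (W - X2) * (e + κ * (X2 - X1)) :=
    ⟨(W - X2) * (e + κ * (X2 - X1)) / X2, div_mul_cancel₀ _ h2.ne'⟩
  have hcv1 : cv W e κ X1 X1 = X1 := by unfold cv; linear_combination he
  have hcv2 : cv W e κ X1 X2 = l * X2 := by unfold cv; linear_combination -hl
  obtain ⟨Γ, hΓ⟩ : ∃ Γ, Γ = 1 + e - κ * (W - X1) := ⟨_, rfl⟩
  obtain ⟨Δ, hΔ⟩ : ∃ Δ, Δ = l + (e + κ * (X2 - X1)) - κ * (W - X2) := ⟨_, rfl⟩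
  have hΓ0 : 0 < Γ := by rw [hΓ]; exact k1
  have hΔ0 : 0 < Δ := by
    refine pos_of_mul_pos_left (b := X2) ?_ h2.le
    have : Δ * X2 = (W - X2) * (e + κ * (X2 - X1)) + X2 * (e + κ * (X2 - X1)) -
        X2 * (κ * (W - X2)) := by rw [hΔ]; linear_combination hl
    rw [this]; exact k5
  have hl1 : 0 < l - 1 := by
    refine pos_of_mul_pos_left (b := X2) ?_ h2.le
    have : (l - 1) * X2 = (W - X2) * (e + κ * (X2 - X1)) - X2 := by linear_combination hl
    rw [this]; exact k3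
  have hl4 : 0 < l * (c * (W - b)) - b * (W - c) := by
    refine pos_of_mul_pos_left (b := X2) ?_ h2.le
    have : (l * (c * (W - b)) - b * (W - c)) * X2 = (W - X2) * (e + κ * (X2 - X1)) *
        (c * (W - b)) - X2 * (b * (W - c)) := by linear_combination (c * (W - b)) * hl
    rw [this]; exact k4
  have hl0 : 0 < l := by linarith
  have y1 : ∀ s, cv W e κ X1 (X1 + s) = X1 + s - s * (Γ + κ * s) := by
    intro s; unfold cv; rw [hΓ]; linear_combination he
  have y1' : ∀ s, cv W e κ X1 (X1 - s) = X1 - s + s * (Γ - κ * s) := by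
    intro s; unfold cv; rw [hΓ]; linear_combination he
  have y2 : ∀ s, cv W e κ X1 (X2 + s) = l * X2 + l * s - s * (Δ + κ * s) := by
    intro s; unfold cv; rw [hΔ]; linear_combination -hl
  have y2' : ∀ s, cv W e κ X1 (X2 - s) = l * X2 - l * s + s * (Δ - κ * s) := by
    intro s; unfold cv; rw [hΔ]; linear_combination -hl
  -- the width of the clusters
  have q1 : 0 < c * X1 * (l - 1) := mul_pos (mul_pos hc0 h10) hl1
  have q2 : 0 < c * (b - X1) * (l - 1) := mul_pos (mul_pos hc0 (by linarith)) hl1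
  have q3 : 0 < X1 * X2 * (l - 1) := mul_pos (mul_pos h10 h2) hl1
  have q4 : 0 < X1 * (c - X2) * (l - 1) := mul_pos (mul_pos h10 (by linarith)) hl1
  have q5 : 0 < W * (b - X1) := mul_pos hW0 (by linarith)
  have q6 : 0 < (b - X1) * Γ := mul_pos (by linarith) hΓ0
  have q7 : 0 < X1 * Γ := mul_pos h10 hΓ0
  obtain ⟨η, hη, ⟨⟨⟨e1, e2⟩, ⟨e3, e4⟩⟩, ⟨⟨e5, e6⟩, ⟨e7, e8⟩⟩⟩, ⟨⟨⟨l1, l2⟩, ⟨l3, l4⟩⟩,
      ⟨⟨l5, l6⟩, ⟨l7, l8⟩⟩⟩⟩ := ev_exists
    (((((ev_pos (f := fun η => δ - 2 * η) (by fun_prop) (by simp; linarith)).and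
      (ev_pos (f := fun η => X2 - η) (by fun_prop) (by simp; linarith))).and
    ((ev_pos (f := fun η => c - (X2 + η)) (by fun_prop) (by simp; linarith)).and
      (ev_pos (f := fun η => b - (X1 + 2 * η)) (by fun_prop) (by simp; linarith)))).and
    (((ev_pos (f := fun η => X1 - X2 - 4 * η) (by fun_prop) (by simp; linarith)).and
      (ev_pos (f := fun η => (b - X1) * (Γ - 3 * κ * η) - 2 * κ * η ^ 2) (by fun_prop)
        (by simpa using q6))).and
    ((ev_pos (f := fun η => X1 * Γ + κ * η * (2 * η - 3 * X1)) (by fun_prop)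
        (by simpa using q7)).and
      (ev_pos (f := fun η => min Δ Γ - 2 * κ * η) (by fun_prop)
        (by simpa using ⟨hΔ0, hΓ0⟩))))).and
    ((((ev_pos (f := fun η => D (c, l * c) (0, 0) (X1 - 2 * η, cv W e κ X1 (X1 - 2 * η)))
        (by unfold D cv; fun_prop) (by
          simp only [mul_zero, sub_zero, hcv1]
          have : D (c, l * c) (0, 0) (X1, X1) = c * X1 * (l - 1) := by unfold D; ring
          rw [this]; exact q1)).and
      (ev_pos (f := fun η => D (b, b) (c, l * c) (X1 - 2 * η, cv W e κ X1 (X1 - 2 * η)))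
        (by unfold D cv; fun_prop) (by
          simp only [mul_zero, sub_zero, hcv1]
          have : D (b, b) (c, l * c) (X1, X1) = c * (b - X1) * (l - 1) := by unfold D; ring
          rw [this]; exact q2))).and
    ((ev_pos (f := fun η => D (0, 0) (X1 - 2 * η, cv W e κ X1 (X1 - 2 * η))
        (X2 + η, cv W e κ X1 (X2 + η)))
        (by unfold D cv; fun_prop) (by
          simp only [mul_zero, sub_zero, add_zero, hcv1, hcv2]
          have : D (0, 0) (X1, X1) (X2, l * X2) = X1 * X2 * (l - 1) := by unfold D; ring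
          rw [this]; exact q3)).and
      (ev_pos (f := fun η => D (X1 - 2 * η, cv W e κ X1 (X1 - 2 * η)) (c, l * c)
        (X2 + η, cv W e κ X1 (X2 + η)))
        (by unfold D cv; fun_prop) (by
          simp only [mul_zero, sub_zero, add_zero, hcv1, hcv2]
          have : D (X1, X1) (c, l * c) (X2, l * X2) = X1 * (c - X2) * (l - 1) := by
            unfold D; ring
          rw [this]; exact q4)))).and
    (((ev_pos (f := fun η => D (0, 0) (X1 - η, cv W e κ X1 (X1 - η))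
        (X2 + η, cv W e κ X1 (X2 + η)))
        (by unfold D cv; fun_prop) (by
          simp only [sub_zero, add_zero, hcv1, hcv2]
          have : D (0, 0) (X1, X1) (X2, l * X2) = X1 * X2 * (l - 1) := by unfold D; ring
          rw [this]; exact q3)).and
      (ev_pos (f := fun η => D (X1 - 2 * η, cv W e κ X1 (X1 - 2 * η)) (c, l * c)
        (X2 + 2 * η, cv W e κ X1 (X2 + 2 * η)))
        (by unfold D cv; fun_prop) (by
          simp only [mul_zero, sub_zero, add_zero, hcv1, hcv2]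
          have : D (X1, X1) (c, l * c) (X2, l * X2) = X1 * (c - X2) * (l - 1) := by
            unfold D; ring
          rw [this]; exact q4))).and
    ((ev_pos (f := fun η => D (W, 0) (b, b) (X1 + η, cv W e κ X1 (X1 + η)))
        (by unfold D cv; fun_prop) (by
          simp only [add_zero, hcv1]
          have : D (W, 0) (b, b) (X1, X1) = W * (b - X1) := by unfold D; ring
          rw [this]; exact q5)).and
      (ev_pos (f := fun η => D (W, 0) (b, b) (X1 + 2 * η, cv W e κ X1 (X1 + 2 * η)))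
        (by unfold D cv; fun_prop) (by
          simp only [mul_zero, add_zero, hcv1]
          have : D (W, 0) (b, b) (X1, X1) = W * (b - X1) := by unfold D; ring
          rw [this]; exact q5))))))
  have eΔ : 0 < Δ - 2 * κ * η := by linarith [min_le_left Δ Γ]
  have eΓ : 0 < Γ - 2 * κ * η := by linarith [min_le_right Δ Γ]
  have hκη : 0 < κ * η := mul_pos hκ hη
  -- the height of `N`
  obtain ⟨yN, hyN, n1, n2, n3, n4, n5⟩ := ((eventually_gt_atTop (0 : ℝ)).and
    ((ev_lin (a := -xM) (by linarith) (-xN)).and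
    ((ev_lin (a := W - c) (by linarith) (-((W - xN) * (l * c)))).and
    ((ev_lin (a := c) hc0 (-(l * c * xN))).and
    ((ev_lin (a := X2 - η) e2 (-(cv W e κ X1 (X2 - η) * xN))).and
    (ev_lin (a := c - (X2 - η)) (by linarith) (-((c - (X2 - η)) * cv W e κ X1 (X2 - η)) -
      (l * c - cv W e κ X1 (X2 - η)) * (xN - (X2 - η))))))))).exists
  refine ⟨pts1 W e κ X1 X2 b c l xM xN yN η, ?_, rfl, rfl, rfl, rfl, rfl, rfl,
    ⟨?_, ?_, ?_, ?_⟩, ⟨?_, ?_, ?_, ?_, ?_, ?_⟩⟩
  · have f1 : 0 < D (xM, -1) (W, 0) (0, 0) := by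
      have : D (xM, -1) (W, 0) (0, 0) = W := by unfold D; ring
      rw [this]; exact hW0
    have f2 : 0 < D (W, 0) (xN, yN) (0, 0) := by
      have : D (W, 0) (xN, yN) (0, 0) = W * yN := by unfold D; ring
      rw [this]; exact mul_pos hW0 hyN
    have f3 : 0 < D (xN, yN) (xM, -1) (0, 0) := by
      have : D (xN, yN) (xM, -1) (0, 0) = -xM * yN + -xN := by unfold D; ring
      rw [this]; exact n1
    have f0 : 0 < D (xM, -1) (W, 0) (xN, yN) := by
      rw [← D_add (xM, -1) (W, 0) (xN, yN) (0, 0)]; linarith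
    rw [S1t_eq]
    simp only [List.forall_mem_cons]
    refine ⟨f0, f1, f2, f3, ?_, ?_, ?_, ?_, ?_, ?_, ?_, ?_, ?_, l1, ?_, l2, ?_, ?_, ?_, ?_, l3, l4,
      l5, ?_, l6, ?_, ?_, ?_, l7, ?_, l8, ?_, ?_, ?_, ?_, ?_, ?_, ?_, ?_, ?_, ?_, fun _ h => ?_⟩
    · -- (1, 13, 3)
      show 0 < D (W, 0) (xN, yN) (c, l * c)
      have : D (W, 0) (xN, yN) (c, l * c) = (W - c) * yN + -((W - xN) * (l * c)) := by
        unfold D; ring
      rw [this]; exact n2
    · -- (13, 0, 3)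
      show 0 < D (xN, yN) (0, 0) (c, l * c)
      have : D (xN, yN) (0, 0) (c, l * c) = c * yN + -(l * c * xN) := by unfold D; ring
      rw [this]; exact n3
    · -- (0, 1, 3)
      show 0 < D (0, 0) (W, 0) (c, l * c)
      have : D (0, 0) (W, 0) (c, l * c) = W * (l * c) := by unfold D; ring
      rw [this]; positivity
    · -- (13, 0, 12)
      show 0 < D (xN, yN) (0, 0) (X2 - η, cv W e κ X1 (X2 - η))
      have : D (xN, yN) (0, 0) (X2 - η, cv W e κ X1 (X2 - η)) =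
          (X2 - η) * yN + -(cv W e κ X1 (X2 - η) * xN) := by unfold D; ring
      rw [this]; exact n4
    · -- (0, 3, 12)
      show 0 < D (0, 0) (c, l * c) (X2 - η, cv W e κ X1 (X2 - η))
      have : D (0, 0) (c, l * c) (X2 - η, cv W e κ X1 (X2 - η)) = c * (η * (Δ - κ * η)) := by
        rw [y2']; unfold D; ring
      rw [this]
      exact mul_pos hc0 (mul_pos hη (by linarith))
    · -- (3, 13, 12)
      show 0 < D (c, l * c) (xN, yN) (X2 - η, cv W e κ X1 (X2 - η))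
      have : D (c, l * c) (xN, yN) (X2 - η, cv W e κ X1 (X2 - η)) = (c - (X2 - η)) * yN +
          (-((c - (X2 - η)) * cv W e κ X1 (X2 - η)) -
            (l * c - cv W e κ X1 (X2 - η)) * (xN - (X2 - η))) := by unfold D; ring
      rw [this]; exact n5
    · -- (0, 1, 2)
      show 0 < D (0, 0) (W, 0) (b, b)
      have : D (0, 0) (W, 0) (b, b) = W * b := by unfold D; ring
      rw [this]; positivity
    · -- (1, 3, 2)
      show 0 < D (W, 0) (c, l * c) (b, b)
      have : D (W, 0) (c, l * c) (b, b) = l * (c * (W - b)) - b * (W - c) := by unfold D; ring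
      rw [this]; exact hl4
    · -- (3, 0, 2)
      show 0 < D (c, l * c) (0, 0) (b, b)
      have : D (c, l * c) (0, 0) (b, b) = c * b * (l - 1) := by unfold D; ring
      rw [this]; positivity
    · -- (0, 2, 8)
      show 0 < D (0, 0) (b, b) (X1 - 2 * η, cv W e κ X1 (X1 - 2 * η))
      have : D (0, 0) (b, b) (X1 - 2 * η, cv W e κ X1 (X1 - 2 * η)) =
          b * (2 * η * (Γ - 2 * κ * η)) := by rw [y1']; unfold D; ring
      rw [this]; positivity
    · -- (0, 2, 9)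
      show 0 < D (0, 0) (b, b) (X1 - η, cv W e κ X1 (X1 - η))
      have : D (0, 0) (b, b) (X1 - η, cv W e κ X1 (X1 - η)) =
          b * (η * ((Γ - 2 * κ * η) + κ * η)) := by rw [y1']; unfold D; ring
      rw [this]; positivity
    · -- (2, 8, 9)
      show 0 < D (b, b) (X1 - 2 * η, cv W e κ X1 (X1 - 2 * η)) (X1 - η, cv W e κ X1 (X1 - η))
      have : D (b, b) (X1 - 2 * η, cv W e κ X1 (X1 - 2 * η)) (X1 - η, cv W e κ X1 (X1 - η)) =
          η * ((b - X1) * (Γ - 3 * κ * η) - 2 * κ * η ^ 2) := by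
        rw [y1', y1']; unfold D; ring
      rw [this]; exact mul_pos hη e6
    · -- (8, 0, 9)
      show 0 < D (X1 - 2 * η, cv W e κ X1 (X1 - 2 * η)) (0, 0) (X1 - η, cv W e κ X1 (X1 - η))
      have : D (X1 - 2 * η, cv W e κ X1 (X1 - 2 * η)) (0, 0) (X1 - η, cv W e κ X1 (X1 - η)) =
          η * (X1 * Γ + κ * η * (2 * η - 3 * X1)) := by
        rw [y1', y1']; unfold D; ring
      rw [this]; exact mul_pos hη e7
    · -- (3, 0, 4)
      show 0 < D (c, l * c) (0, 0) (X2 + η, cv W e κ X1 (X2 + η))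
      have : D (c, l * c) (0, 0) (X2 + η, cv W e κ X1 (X2 + η)) = c * (η * (Δ + κ * η)) := by
        rw [y2]; unfold D; ring
      rw [this]; positivity
    · -- (9, 8, 4)
      show 0 < D (X1 - η, cv W e κ X1 (X1 - η)) (X1 - 2 * η, cv W e κ X1 (X1 - 2 * η))
        (X2 + η, cv W e κ X1 (X2 + η))
      rw [D_cv]
      have : (X1 - 2 * η - (X1 - η)) * (X2 + η - (X1 - η)) * (X1 - 2 * η - (X2 + η)) =
        η * (X1 - X2 - 2 * η) * (X1 - X2 - 3 * η) := by ring
      rw [this]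
      exact mul_pos hκ (mul_pos (mul_pos hη (by linarith)) (by linarith))
    · -- (3, 4, 11)
      show 0 < D (c, l * c) (X2 + η, cv W e κ X1 (X2 + η)) (X2 + 2 * η, cv W e κ X1 (X2 + 2 * η))
      have : D (c, l * c) (X2 + η, cv W e κ X1 (X2 + η)) (X2 + 2 * η, cv W e κ X1 (X2 + 2 * η)) =
          η * (η * (Δ + κ * η)) + η * (Δ + 3 * (κ * η)) * (c - (X2 + η)) := by
        rw [y2, y2]; unfold D; ring
      rw [this]; positivity
    · -- (4, 8, 11)
      show 0 < D (X2 + η, cv W e κ X1 (X2 + η)) (X1 - 2 * η, cv W e κ X1 (X1 - 2 * η))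
        (X2 + 2 * η, cv W e κ X1 (X2 + 2 * η))
      rw [D_cv]
      have : (X1 - 2 * η - (X2 + η)) * (X2 + 2 * η - (X2 + η)) * (X1 - 2 * η - (X2 + 2 * η)) =
        (X1 - X2 - 3 * η) * η * (X1 - X2 - 4 * η) := by ring
      rw [this]
      exact mul_pos hκ (mul_pos (mul_pos (by linarith) hη) (by linarith))
    · -- (0, 1, 5)
      show 0 < D (0, 0) (W, 0) (X1 + η, cv W e κ X1 (X1 + η))
      have : D (0, 0) (W, 0) (X1 + η, cv W e κ X1 (X1 + η)) =
          W * ((W - (X1 + η)) * (e + κ * η)) := by unfold D cv; ring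
      rw [this]
      exact mul_pos hW0 (mul_pos (by linarith) (by linarith))
    · -- (2, 0, 5)
      show 0 < D (b, b) (0, 0) (X1 + η, cv W e κ X1 (X1 + η))
      have : D (b, b) (0, 0) (X1 + η, cv W e κ X1 (X1 + η)) = b * (η * (Γ + κ * η)) := by
        rw [y1]; unfold D; ring
      rw [this]; positivity
    · -- (2, 5, 6)
      show 0 < D (b, b) (X1 + η, cv W e κ X1 (X1 + η)) (X1 + 2 * η, cv W e κ X1 (X1 + 2 * η))
      have : D (b, b) (X1 + η, cv W e κ X1 (X1 + η)) (X1 + 2 * η, cv W e κ X1 (X1 + 2 * η)) =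
          (b - (X1 + η)) * (η * (Γ + 3 * (κ * η))) + η * (η * (Γ + κ * η)) := by
        rw [y1, y1]; unfold D; ring
      rw [this]
      have : 0 < b - (X1 + η) := by linarith
      positivity
    · -- (5, 1, 6)
      show 0 < D (X1 + η, cv W e κ X1 (X1 + η)) (W, 0) (X1 + 2 * η, cv W e κ X1 (X1 + 2 * η))
      rw [D_cvQ]
      exact mul_pos hκ (mul_pos (mul_pos (by linarith) (by linarith)) (by linarith))
    · -- (2, 5, 7)
      show 0 < D (b, b) (X1 + η, cv W e κ X1 (X1 + η))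
        (X1 + 3 / 2 * η, cv W e κ X1 (X1 + 3 / 2 * η))
      have : D (b, b) (X1 + η, cv W e κ X1 (X1 + η))
          (X1 + 3 / 2 * η, cv W e κ X1 (X1 + 3 / 2 * η)) =
          (b - (X1 + η)) * (1 / 2 * η * Γ + 5 / 4 * (κ * η) * η) +
            1 / 2 * η * (η * (Γ + κ * η)) := by
        rw [y1, y1]; unfold D; ring
      rw [this]
      have : 0 < b - (X1 + η) := by linarith
      positivity
    · -- (5, 6, 7)
      show 0 < D (X1 + η, cv W e κ X1 (X1 + η)) (X1 + 2 * η, cv W e κ X1 (X1 + 2 * η))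
        (X1 + 3 / 2 * η, cv W e κ X1 (X1 + 3 / 2 * η))
      rw [D_cv]
      have : (X1 + 2 * η - (X1 + η)) * (X1 + 3 / 2 * η - (X1 + η)) *
        (X1 + 2 * η - (X1 + 3 / 2 * η)) = 1 / 4 * η ^ 3 := by ring
      rw [this]; positivity
    · -- (6, 2, 7)
      show 0 < D (X1 + 2 * η, cv W e κ X1 (X1 + 2 * η)) (b, b)
        (X1 + 3 / 2 * η, cv W e κ X1 (X1 + 3 / 2 * η))
      have : D (X1 + 2 * η, cv W e κ X1 (X1 + 2 * η)) (b, b)
          (X1 + 3 / 2 * η, cv W e κ X1 (X1 + 3 / 2 * η)) =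
          (b - (X1 + 3 / 2 * η)) * (1 / 2 * η * Γ + 7 / 4 * (κ * η) * η) +
            1 / 2 * η * (3 / 2 * η * (Γ + 3 / 2 * (κ * η))) := by
        rw [y1, y1]; unfold D; ring
      rw [this]
      have : 0 < b - (X1 + 3 / 2 * η) := by linarith
      positivity
    · -- (8, 6, 9)
      show 0 < D (X1 - 2 * η, cv W e κ X1 (X1 - 2 * η)) (X1 + 2 * η, cv W e κ X1 (X1 + 2 * η))
        (X1 - η, cv W e κ X1 (X1 - η))
      rw [D_cv]
      have : (X1 + 2 * η - (X1 - 2 * η)) * (X1 - η - (X1 - 2 * η)) *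
        (X1 + 2 * η - (X1 - η)) = 12 * η ^ 3 := by ring
      rw [this]; positivity
    · -- (8, 6, 5)
      show 0 < D (X1 - 2 * η, cv W e κ X1 (X1 - 2 * η)) (X1 + 2 * η, cv W e κ X1 (X1 + 2 * η))
        (X1 + η, cv W e κ X1 (X1 + η))
      rw [D_cv]
      have : (X1 + 2 * η - (X1 - 2 * η)) * (X1 + η - (X1 - 2 * η)) *
        (X1 + 2 * η - (X1 + η)) = 12 * η ^ 3 := by ring
      rw [this]; positivity
    · -- (8, 6, 7)
      show 0 < D (X1 - 2 * η, cv W e κ X1 (X1 - 2 * η)) (X1 + 2 * η, cv W e κ X1 (X1 + 2 * η))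
        (X1 + 3 / 2 * η, cv W e κ X1 (X1 + 3 / 2 * η))
      rw [D_cv]
      have : (X1 + 2 * η - (X1 - 2 * η)) * (X1 + 3 / 2 * η - (X1 - 2 * η)) *
        (X1 + 2 * η - (X1 + 3 / 2 * η)) = 7 * η ^ 3 := by ring
      rw [this]; positivity
    · -- (5, 6, 7)
      show 0 < D (X1 + η, cv W e κ X1 (X1 + η)) (X1 + 2 * η, cv W e κ X1 (X1 + 2 * η))
        (X1 + 3 / 2 * η, cv W e κ X1 (X1 + 3 / 2 * η))
      rw [D_cv]
      have : (X1 + 2 * η - (X1 + η)) * (X1 + 3 / 2 * η - (X1 + η)) *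
        (X1 + 2 * η - (X1 + 3 / 2 * η)) = 1 / 4 * η ^ 3 := by ring
      rw [this]; positivity
    · -- (12, 11, 4)
      show 0 < D (X2 - η, cv W e κ X1 (X2 - η)) (X2 + 2 * η, cv W e κ X1 (X2 + 2 * η))
        (X2 + η, cv W e κ X1 (X2 + η))
      rw [D_cv]
      have : (X2 + 2 * η - (X2 - η)) * (X2 + η - (X2 - η)) *
        (X2 + 2 * η - (X2 + η)) = 6 * η ^ 3 := by ring
      rw [this]; positivity
    · exact absurd h List.not_mem_nil
  · show X2 - δ < X2 - η; linarith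
  · show X2 - η < X2 + η; linarith
  · show X2 + η < X2 + 2 * η; linarith
  · show X2 + 2 * η < X2 + δ; linarith
  · show X1 - δ < X1 - 2 * η; linarith
  · show X1 - 2 * η < X1 - η; linarith
  · show X1 - η < X1 + η; linarith
  · show X1 + η < X1 + 3 / 2 * η; linarith
  · show X1 + 3 / 2 * η < X1 + 2 * η; linarith
  · show X1 + 2 * η < X1 + δ; linarith

end Pool.Agent.NPC.ER.SGE
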