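import Pool.Agent.TH663.SGE.Place1

/-!
# Placement of the second gadget
-/

namespace Pool.Agent.NPC.ER.SGE

open Pool.Agent.NPC.ER.GPP Filter Topology

/-- The points of the second gadget. -/
noncomputable def pts2 (W e κ X b c t l xM η : ℝ) : ℕ → ℝ × ℝ
  | 0 => (0, 0)
  | 1 => (W, 0)
  | 2 => (b, -b)
  | 3 => (c, -(l * c))
  | 4 => (t, cv W e κ X t)
  | 5 => (X + η, cv W e κ X (X + η))
  | 6 => (X + 2 * η, cv W e κ X (X + 2 * η))
  | 7 => (X + 3 / 2 * η, cv W e κ X (X + 3 / 2 * η))
  | 8 => (X - 2 * η, cv W e κ X (X - 2 * η))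
  | 9 => (X - η, cv W e κ X (X - η))
  | _ => (xM, -1)

/-- The placement of the second gadget; `A` is the origin. -/
theorem place2 {W X b c t xM δ : ℝ} (hMc : xM < c) (hct : c < t) (hcb : c < b)
    (htX : t < X) (hbX : b < X) (hX : X < 0) (hW : 0 < W) (hδ : 0 < δ)
    (hyp : t * b * ((W - X) * (W - c)) < X * c * ((W - t) * (W - b))) :
    ∃ P : ℕ → ℝ × ℝ, (∀ T ∈ S2t, 0 < D (P T.1) (P T.2.1) (P T.2.2)) ∧
      (P 0).1 = 0 ∧ (P 1).1 = W ∧ (P 2).1 = b ∧ (P 3).1 = c ∧ (P 4).1 = t ∧ (P 10).1 = xM ∧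
      (X - δ < (P 8).1 ∧ (P 8).1 < (P 9).1 ∧ (P 9).1 < (P 5).1 ∧ (P 5).1 < (P 7).1 ∧
        (P 7).1 < (P 6).1 ∧ (P 6).1 < X + δ) := by
  have hWX : 0 < W - X := by linarith
  have hWb : 0 < W - b := by linarith
  have hWc : 0 < W - c := by linarith
  have hWt : 0 < W - t := by linarith
  have hc0 : c < 0 := by linarith
  have hb0 : b < 0 := by linarith
  have ht0 : t < 0 := by linarith
  have hM0 : xM < 0 := by linarith
  obtain ⟨e, he⟩ : ∃ e, e * (W - X) = -X := ⟨-X / (W - X), div_mul_cancel₀ _ hWX.ne'⟩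
  have he0 : 0 < e := pos_of_mul_pos_left (b := W - X) (by rw [he]; linarith) hWX.le
  -- the slope of `C`
  obtain ⟨l, hl1, hl2⟩ : ∃ l, b * (W - c) / (c * (W - b)) < l ∧ l < (W - t) * e / (-t) := by
    apply exists_between
    rw [div_lt_iff_of_neg (mul_neg_of_neg_of_pos hc0 hWb), div_mul_eq_mul_div,
      div_lt_iff₀ (by linarith)]
    refine lt_of_mul_lt_mul_right (a := W - X) ?_ hWX.le
    have h1 : (W - t) * e * (c * (W - b)) * (W - X) = -(X * c * ((W - t) * (W - b))) := by
      linear_combination (W - t) * (c * (W - b)) * he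
    have h2 : b * (W - c) * -t * (W - X) = -(t * b * ((W - X) * (W - c))) := by ring
    rw [h1, h2]
    linarith
  have hl1' : 0 < b * (W - c) - l * (c * (W - b)) := by
    rw [div_lt_iff_of_neg (mul_neg_of_neg_of_pos hc0 hWb)] at hl1
    linarith
  have hl2' : 0 < l * t + (W - t) * e := by
    rw [lt_div_iff₀ (by linarith)] at hl2
    linarith
  have hl0 : 0 < l := by
    refine lt_trans (div_pos_of_neg_of_neg (mul_neg_of_neg_of_pos hb0 hWc)
      (mul_neg_of_neg_of_pos hc0 hWb)) hl1
  have hGt : (W - t) * e + t < 0 := by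
    have : ((W - t) * e + t) * (W - X) = W * (t - X) := by linear_combination (W - t) * he
    have h2 : W * (t - X) < 0 := mul_neg_of_pos_of_neg hW (by linarith)
    by_contra hcon
    have := mul_nonneg (not_lt.1 hcon) hWX.le
    linarith
  have hl1l : 0 < 1 - l := by
    have : l * t + (W - t) * e - ((W - t) * e + t) = (1 - l) * (-t) := by ring
    refine pos_of_mul_pos_left (b := -t) ?_ (by linarith)
    linarith
  have hL : l * c + e * (W - c) < 0 := by
    by_contra hcon
    have h1 := mul_nonneg (not_lt.1 hcon) (mul_pos hWb hWX).le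
    have h2 : (l * c + e * (W - c)) * ((W - b) * (W - X)) + (b * (W - c) -
        l * (c * (W - b))) * (W - X) = (W - c) * (W * (b - X)) := by
      linear_combination (W - c) * (W - b) * he
    have h3 : (W - c) * (W * (b - X)) < 0 :=
      mul_neg_of_pos_of_neg hWc (mul_neg_of_pos_of_neg hW (by linarith))
    have h4 := mul_pos hl1' hWX
    linarith
  -- the curvature
  obtain ⟨κ, hκ, ⟨k1, k2⟩, k3⟩ := ev_exists
    (((ev_pos (f := fun κ => l * t + (W - t) * (e + κ * (t - X))) (by fun_prop)
        (by simpa using hl2')).and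
      (ev_pos (f := fun κ => -((W - t) * (e + κ * (t - X)) + t)) (by fun_prop)
        (by simp only [zero_mul, add_zero]; linarith))).and
      (ev_pos (f := fun κ => D (X, -X) (c, -(l * c)) (t, (W - t) * (e + κ * (t - X))))
        (by unfold D; fun_prop) (by
          simp only [zero_mul, add_zero]
          have : D (X, -X) (c, -(l * c)) (t, (W - t) * e) =
              (t - X) * (l * c + e * (W - c)) := by
            unfold D; linear_combination (c - t) * he
          rw [this]
          exact mul_pos_of_neg_of_neg (by linarith) hL)))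
  have hcv1 : cv W e κ X X = -X := by unfold cv; linear_combination he
  obtain ⟨Γ, hΓ⟩ : ∃ Γ, Γ = 1 - e + κ * (W - X) := ⟨_, rfl⟩
  have he1 : e < 1 := by
    by_contra hcon
    have := mul_le_mul_of_nonneg_right (not_lt.1 hcon) hWX.le
    linarith
  have hΓ0 : 0 < Γ := by rw [hΓ]; have := mul_pos hκ hWX; linarith
  have y1 : ∀ s, cv W e κ X (X + s) = -X - s + s * (Γ - κ * s) := by
    intro s; unfold cv; rw [hΓ]; linear_combination he
  have y1' : ∀ s, cv W e κ X (X - s) = -X + s - s * (Γ + κ * s) := by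
    intro s; unfold cv; rw [hΓ]; linear_combination he
  -- the width of the clusters
  have q1 : 0 < c * X * (1 - l) := mul_pos (mul_pos_of_neg_of_neg hc0 hX) hl1l
  have q2 : 0 < -c * (1 - l) * (X - b) := mul_pos (mul_pos (by linarith) hl1l) (by linarith)
  have q3 : 0 < X * (cv W e κ X t + t) := by
    have : cv W e κ X t + t < 0 := by unfold cv; linarith
    exact mul_pos_of_neg_of_neg hX this
  have q5 : 0 < W * (X - b) := mul_pos hW (by linarith)
  have q6 : 0 < (X - b) * Γ := mul_pos (by linarith) hΓ0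
  obtain ⟨η, hη, ⟨⟨⟨e1, e2⟩, ⟨e3, e4⟩⟩, ⟨e6, e8⟩⟩, ⟨⟨⟨l1, l2⟩, ⟨l3, l4⟩⟩, ⟨l5, ⟨l7, l8⟩⟩⟩⟩ :=
    ev_exists
    (((((ev_pos (f := fun η => δ - 2 * η) (by fun_prop) (by simp; linarith)).and
      (ev_pos (f := fun η => -X - 2 * η) (by fun_prop) (by simp; linarith))).and
    ((ev_pos (f := fun η => X - b - 2 * η) (by fun_prop) (by simp; linarith)).and
      (ev_pos (f := fun η => X - t - 2 * η) (by fun_prop) (by simp; linarith)))).and
    ((ev_pos (f := fun η => (X - b) * (Γ - 4 * κ * η) - 4 * κ * η ^ 2) (by fun_prop)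
        (by simpa using q6)).and
      (ev_pos (f := fun η => Γ - 2 * κ * η) (by fun_prop)
        (by simpa using hΓ0)))).and
    ((((ev_pos (f := fun η => D (c, -(l * c)) (0, 0) (X - 2 * η, cv W e κ X (X - 2 * η)))
        (by unfold D cv; fun_prop) (by
          simp only [mul_zero, sub_zero, hcv1]
          have : D (c, -(l * c)) (0, 0) (X, -X) = c * X * (1 - l) := by unfold D; ring
          rw [this]; exact q1)).and
      (ev_pos (f := fun η => D (b, -b) (c, -(l * c)) (X - 2 * η, cv W e κ X (X - 2 * η)))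
        (by unfold D cv; fun_prop) (by
          simp only [mul_zero, sub_zero, hcv1]
          have : D (b, -b) (c, -(l * c)) (X, -X) = -c * (1 - l) * (X - b) := by unfold D; ring
          rw [this]; exact q2))).and
    ((ev_pos (f := fun η => D (0, 0) (X - 2 * η, cv W e κ X (X - 2 * η))
        (t, cv W e κ X t))
        (by unfold D cv; fun_prop) (by
          simp only [mul_zero, sub_zero, hcv1]
          have : D (0, 0) (X, -X) (t, cv W e κ X t) = X * (cv W e κ X t + t) := by
            unfold D; ring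
          rw [this]; exact q3)).and
      (ev_pos (f := fun η => D (X - 2 * η, cv W e κ X (X - 2 * η)) (c, -(l * c))
        (t, cv W e κ X t))
        (by unfold D cv; fun_prop) (by
          simp only [mul_zero, sub_zero, hcv1]
          exact k3)))).and
    ((ev_pos (f := fun η => D (0, 0) (X - η, cv W e κ X (X - η))
        (t, cv W e κ X t))
        (by unfold D cv; fun_prop) (by
          simp only [sub_zero, hcv1]
          have : D (0, 0) (X, -X) (t, cv W e κ X t) = X * (cv W e κ X t + t) := by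
            unfold D; ring
          rw [this]; exact q3)).and
    ((ev_pos (f := fun η => D (W, 0) (b, -b) (X + η, cv W e κ X (X + η)))
        (by unfold D cv; fun_prop) (by
          simp only [add_zero, hcv1]
          have : D (W, 0) (b, -b) (X, -X) = W * (X - b) := by unfold D; ring
          rw [this]; exact q5)).and
      (ev_pos (f := fun η => D (W, 0) (b, -b) (X + 2 * η, cv W e κ X (X + 2 * η)))
        (by unfold D cv; fun_prop) (by
          simp only [mul_zero, add_zero, hcv1]
          have : D (W, 0) (b, -b) (X, -X) = W * (X - b) := by unfold D; ring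
          rw [this]; exact q5))))))
  have hκη : 0 < κ * η := mul_pos hκ hη
  have hκη2 : 0 < κ * η ^ 2 := by positivity
  have hbκ : 0 < (X - b) * (κ * η) := mul_pos (by linarith) hκη
  refine ⟨pts2 W e κ X b c t l xM η, ?_, rfl, rfl, rfl, rfl, rfl, rfl,
    ⟨?_, ?_, ?_, ?_, ?_, ?_⟩⟩
  · have f1 : 0 < D (xM, -1) (W, 0) (0, 0) := by
      have : D (xM, -1) (W, 0) (0, 0) = W := by unfold D; ring
      rw [this]; exact hW
    have f2 : 0 < D (W, 0) (c, -(l * c)) (0, 0) := by
      have : D (W, 0) (c, -(l * c)) (0, 0) = W * (l * -c) := by unfold D; ring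
      rw [this]; exact mul_pos hW (mul_pos hl0 (by linarith))
    have f3 : 0 < D (c, -(l * c)) (xM, -1) (0, 0) := by
      have : D (c, -(l * c)) (xM, -1) (0, 0) = l * (c * xM) + -c := by unfold D; ring
      rw [this]
      have := mul_pos hl0 (mul_pos_of_neg_of_neg hc0 hM0)
      linarith
    have f0 : 0 < D (xM, -1) (W, 0) (c, -(l * c)) := by
      rw [← D_add (xM, -1) (W, 0) (c, -(l * c)) (0, 0)]; linarith
    rw [S2t_eq]
    simp only [List.forall_mem_cons]
    refine ⟨f0, f1, f2, f3, ?_, ?_, ?_, l1, ?_, l2, ?_, ?_, ?_, ?_, l3, l4,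
      l5, ?_, ?_, l7, ?_, l8, ?_, ?_, ?_, ?_, ?_, ?_, ?_, ?_, ?_, fun _ h => ?_⟩
    · -- (1, 3, 2)
      show 0 < D (W, 0) (c, -(l * c)) (b, -b)
      have : D (W, 0) (c, -(l * c)) (b, -b) = b * (W - c) - l * (c * (W - b)) := by
        unfold D; ring
      rw [this]; exact hl1'
    · -- (3, 0, 2)
      show 0 < D (c, -(l * c)) (0, 0) (b, -b)
      have : D (c, -(l * c)) (0, 0) (b, -b) = c * b * (1 - l) := by unfold D; ring
      rw [this]; exact mul_pos (mul_pos_of_neg_of_neg hc0 hb0) hl1l
    · -- (0, 1, 2)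
      show 0 < D (0, 0) (W, 0) (b, -b)
      have : D (0, 0) (W, 0) (b, -b) = W * -b := by unfold D; ring
      rw [this]; exact mul_pos hW (by linarith)
    · -- (0, 2, 8)
      show 0 < D (0, 0) (b, -b) (X - 2 * η, cv W e κ X (X - 2 * η))
      have : D (0, 0) (b, -b) (X - 2 * η, cv W e κ X (X - 2 * η)) =
          -b * (2 * η * (Γ + 2 * (κ * η))) := by rw [y1']; unfold D; ring
      rw [this]; exact mul_pos (by linarith) (by positivity)
    · -- (0, 2, 9)
      show 0 < D (0, 0) (b, -b) (X - η, cv W e κ X (X - η))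
      have : D (0, 0) (b, -b) (X - η, cv W e κ X (X - η)) =
          -b * (η * (Γ + κ * η)) := by rw [y1']; unfold D; ring
      rw [this]; exact mul_pos (by linarith) (by positivity)
    · -- (2, 8, 9)
      show 0 < D (b, -b) (X - 2 * η, cv W e κ X (X - 2 * η)) (X - η, cv W e κ X (X - η))
      have : D (b, -b) (X - 2 * η, cv W e κ X (X - 2 * η)) (X - η, cv W e κ X (X - η)) =
          (η * Γ + 3 * (κ * η) * η) * (X - b - 2 * η) + 2 * η * (Γ + 2 * (κ * η)) * η := by
        rw [y1', y1']; unfold D; ring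
      rw [this]; positivity
    · -- (8, 0, 9)
      show 0 < D (X - 2 * η, cv W e κ X (X - 2 * η)) (0, 0) (X - η, cv W e κ X (X - η))
      have : D (X - 2 * η, cv W e κ X (X - 2 * η)) (0, 0) (X - η, cv W e κ X (X - η)) =
          η * (-X * Γ + 3 * (κ * η) * -X + 2 * (κ * η) * η) := by
        rw [y1', y1']; unfold D; ring
      rw [this]
      have : 0 < -X := by linarith
      positivity
    · -- (3, 0, 4)
      show 0 < D (c, -(l * c)) (0, 0) (t, cv W e κ X t)
      have : D (c, -(l * c)) (0, 0) (t, cv W e κ X t) =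
          -c * (l * t + (W - t) * (e + κ * (t - X))) := by unfold D cv; ring
      rw [this]; exact mul_pos (by linarith) k1
    · -- (9, 8, 4)
      show 0 < D (X - η, cv W e κ X (X - η)) (X - 2 * η, cv W e κ X (X - 2 * η))
        (t, cv W e κ X t)
      rw [D_cv]
      have : (X - 2 * η - (X - η)) * (t - (X - η)) * (X - 2 * η - t) =
        η * (X - t - η) * (X - t - 2 * η) := by ring
      rw [this]
      exact mul_pos hκ (mul_pos (mul_pos hη (by linarith)) (by linarith))
    · -- (0, 1, 5)
      show 0 < D (0, 0) (W, 0) (X + η, cv W e κ X (X + η))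
      have : D (0, 0) (W, 0) (X + η, cv W e κ X (X + η)) =
          W * ((W - (X + η)) * (e + κ * η)) := by unfold D cv; ring
      rw [this]
      exact mul_pos hW (mul_pos (by linarith) (by linarith))
    · -- (2, 0, 5)
      show 0 < D (b, -b) (0, 0) (X + η, cv W e κ X (X + η))
      have : D (b, -b) (0, 0) (X + η, cv W e κ X (X + η)) = -b * (η * (Γ - κ * η)) := by
        rw [y1]; unfold D; ring
      rw [this]; exact mul_pos (by linarith) (mul_pos hη (by linarith))
    · -- (2, 5, 6)
      show 0 < D (b, -b) (X + η, cv W e κ X (X + η)) (X + 2 * η, cv W e κ X (X + 2 * η))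
      have : D (b, -b) (X + η, cv W e κ X (X + η)) (X + 2 * η, cv W e κ X (X + 2 * η)) =
          η * ((X - b) * (Γ - 3 * κ * η) - 2 * κ * η ^ 2) := by
        rw [y1, y1]; unfold D; ring
      rw [this]
      exact mul_pos hη (by linarith)
    · -- (5, 1, 6)
      show 0 < D (X + η, cv W e κ X (X + η)) (W, 0) (X + 2 * η, cv W e κ X (X + 2 * η))
      rw [D_cvQ]
      exact mul_pos hκ (mul_pos (mul_pos (by linarith) (by linarith)) (by linarith))
    · -- (2, 5, 7)
      show 0 < D (b, -b) (X + η, cv W e κ X (X + η))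
        (X + 3 / 2 * η, cv W e κ X (X + 3 / 2 * η))
      have : D (b, -b) (X + η, cv W e κ X (X + η))
          (X + 3 / 2 * η, cv W e κ X (X + 3 / 2 * η)) =
          η * ((X - b) * (1 / 2 * Γ - 5 / 4 * κ * η) - 3 / 4 * κ * η ^ 2) := by
        rw [y1, y1]; unfold D; ring
      rw [this]
      exact mul_pos hη (by linarith)
    · -- (5, 6, 7)
      show 0 < D (X + η, cv W e κ X (X + η)) (X + 2 * η, cv W e κ X (X + 2 * η))
        (X + 3 / 2 * η, cv W e κ X (X + 3 / 2 * η))
      rw [D_cv]
      have : (X + 2 * η - (X + η)) * (X + 3 / 2 * η - (X + η)) *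
        (X + 2 * η - (X + 3 / 2 * η)) = 1 / 4 * η ^ 3 := by ring
      rw [this]; positivity
    · -- (6, 2, 7)
      show 0 < D (X + 2 * η, cv W e κ X (X + 2 * η)) (b, -b)
        (X + 3 / 2 * η, cv W e κ X (X + 3 / 2 * η))
      have : D (X + 2 * η, cv W e κ X (X + 2 * η)) (b, -b)
          (X + 3 / 2 * η, cv W e κ X (X + 3 / 2 * η)) =
          η * ((X - b) * (1 / 2 * Γ - 7 / 4 * κ * η) - 3 / 2 * κ * η ^ 2) := by
        rw [y1, y1]; unfold D; ring
      rw [this]
      exact mul_pos hη (by linarith)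
    · -- (8, 6, 9)
      show 0 < D (X - 2 * η, cv W e κ X (X - 2 * η)) (X + 2 * η, cv W e κ X (X + 2 * η))
        (X - η, cv W e κ X (X - η))
      rw [D_cv]
      have : (X + 2 * η - (X - 2 * η)) * (X - η - (X - 2 * η)) *
        (X + 2 * η - (X - η)) = 12 * η ^ 3 := by ring
      rw [this]; positivity
    · -- (8, 6, 5)
      show 0 < D (X - 2 * η, cv W e κ X (X - 2 * η)) (X + 2 * η, cv W e κ X (X + 2 * η))
        (X + η, cv W e κ X (X + η))
      rw [D_cv]
      have : (X + 2 * η - (X - 2 * η)) * (X + η - (X - 2 * η)) *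
        (X + 2 * η - (X + η)) = 12 * η ^ 3 := by ring
      rw [this]; positivity
    · -- (8, 6, 7)
      show 0 < D (X - 2 * η, cv W e κ X (X - 2 * η)) (X + 2 * η, cv W e κ X (X + 2 * η))
        (X + 3 / 2 * η, cv W e κ X (X + 3 / 2 * η))
      rw [D_cv]
      have : (X + 2 * η - (X - 2 * η)) * (X + 3 / 2 * η - (X - 2 * η)) *
        (X + 2 * η - (X + 3 / 2 * η)) = 7 * η ^ 3 := by ring
      rw [this]; positivity
    · -- (5, 6, 7)
      show 0 < D (X + η, cv W e κ X (X + η)) (X + 2 * η, cv W e κ X (X + 2 * η))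
        (X + 3 / 2 * η, cv W e κ X (X + 3 / 2 * η))
      rw [D_cv]
      have : (X + 2 * η - (X + η)) * (X + 3 / 2 * η - (X + η)) *
        (X + 2 * η - (X + 3 / 2 * η)) = 1 / 4 * η ^ 3 := by ring
      rw [this]; positivity
    · exact absurd h List.not_mem_nil
  · show X - δ < X - 2 * η; linarith
  · show X - 2 * η < X - η; linarith
  · show X - η < X + η; linarith
  · show X + η < X + 3 / 2 * η; linarith
  · show X + 3 / 2 * η < X + 2 * η; linarith
  · show X + 2 * η < X + δ; linarith

end Pool.Agent.NPC.ER.SGE
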