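import Pool.Agent.TH663.SGE.Tri
import Pool.Agent.H606R2.GPP.Core

/-!
# The orientations of the faces of a triangulation
-/

namespace Pool.Agent.NPC.ER.SGE

open Pool.Agent.NPC.ER.GPP

/-! ### The operations -/

/-- Insertion of a vertex in a face, flip of an edge. -/
inductive Op : Type
  | ins (v a b c : ℕ)
  | flip (c x y z : ℕ)

/-- The operation is possible. -/
def Op.ok : Op → List (ℕ × ℕ × ℕ) → Bool
  | .ins _ a b c, F => decide ((a, b, c) ∈ F)
  | .flip c x _ z, F => decide ((x, c, z) ∈ F)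

/-- The new list of the edges. -/
def Op.newE : Op → List (ℕ × ℕ) → List (ℕ × ℕ)
  | .ins v a b c, E => (a, v) :: (b, v) :: (c, v) :: E
  | .flip c x y z, E => (y, z) :: E.filter fun e => e ≠ (x, c) ∧ e ≠ (c, x)

/-- The new list of the faces. -/
def Op.newF : Op → List (ℕ × ℕ × ℕ) → List (ℕ × ℕ × ℕ)
  | .ins v a b c, F => (a, b, v) :: (b, c, v) :: (c, a, v) :: F.filter fun T => T ≠ (a, b, c)
  | .flip c x y z, F => (x, y, z) :: (y, c, z) :: F.filter fun T => T ≠ (c, x, y) ∧ T ≠ (x, c, z)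

/-- The triangles which have to be positively oriented. -/
def Op.tri : Op → List (ℕ × ℕ × ℕ)
  | .ins v a b c => [(a, b, v), (b, c, v), (c, a, v)]
  | .flip c x y z => [(x, y, z), (y, c, z)]

/-- All operations are possible. -/
def okRun : List Op → List (ℕ × ℕ × ℕ) → Bool
  | [], _ => true
  | .ins v a b c :: ops, F => decide ((a, b, c) ∈ F) && okRun ops (Op.newF (.ins v a b c) F)
  | .flip c x y z :: ops, F => (decide ((c, x, y) ∈ F) && decide ((x, c, z) ∈ F)) &&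
      okRun ops (Op.newF (.flip c x y z) F)

/-- The result of the operations. -/
def runE (ops : List Op) (E : List (ℕ × ℕ)) : List (ℕ × ℕ) := ops.foldl (fun E o => o.newE E) E

/-- The result of the operations. -/
def runF (ops : List Op) (F : List (ℕ × ℕ × ℕ)) : List (ℕ × ℕ × ℕ) :=
  ops.foldl (fun F o => o.newF F) F

theorem good_run {p : ℕ → ℝ × ℝ} : ∀ {ops : List Op} {E : List (ℕ × ℕ)} {F : List (ℕ × ℕ × ℕ)},
    Good p E F → okRun ops F = true →
    (∀ T ∈ ops.flatMap Op.tri, 0 < D (p T.1) (p T.2.1) (p T.2.2)) →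
    Good p (runE ops E) (runF ops F)
  | [], _, _, h, _, _ => h
  | .ins v a b c :: ops, E, F, h, ho, ht => by
    rw [okRun, Bool.and_eq_true, decide_eq_true_eq] at ho
    have h1 := h.ins ho.1 (ht (a, b, v) (by simp [Op.tri])) (ht (b, c, v) (by simp [Op.tri]))
      (ht (c, a, v) (by simp [Op.tri]))
    exact good_run (ops := ops) h1 ho.2 fun T hT => ht T (by
      rw [List.flatMap_cons]; exact List.mem_append_right _ hT)
  | .flip c x y z :: ops, E, F, h, ho, ht => by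
    rw [okRun, Bool.and_eq_true, Bool.and_eq_true, decide_eq_true_eq, decide_eq_true_eq] at ho
    have h1 := h.flip ho.1.1 ho.1.2 (ht (x, y, z) (by simp [Op.tri]))
      (ht (y, c, z) (by simp [Op.tri]))
    exact good_run (ops := ops) h1 ho.2 fun T hT => ht T (by
      rw [List.flatMap_cons]; exact List.mem_append_right _ hT)

/-- The drawing of a triangle. -/
theorem good_start {p : ℕ → ℝ × ℝ} {a b c : ℕ} (h : 0 < D (p a) (p b) (p c)) :
    Good p [(a, b), (b, c), (c, a)] [(a, b, c)] := by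
  have hab : p a ≠ p b := by intro h0; rw [h0, D_same] at h; exact lt_irrefl _ h
  have hbc : p b ≠ p c := by intro h0; rw [h0, D_right] at h; exact lt_irrefl _ h
  have hca : p c ≠ p a := by intro h0; rw [h0, D_left] at h; exact lt_irrefl _ h
  refine ⟨?_, ?_, ?_, ?_, ?_, ?_⟩
  · intro T hT; rw [List.mem_singleton] at hT; subst hT; exact h
  · intro T hT; rw [List.mem_singleton] at hT; subst hT
    exact ⟨Or.inl (by simp), Or.inl (by simp), Or.inl (by simp)⟩
  · intro e he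
    simp only [List.mem_cons, List.not_mem_nil, or_false] at he
    rcases he with rfl | rfl | rfl
    · exact hab
    · exact hbc
    · exact hca
  · intro e he T hT x hx hI
    rw [List.mem_singleton] at hT; subst hT
    simp only [List.mem_cons, List.not_mem_nil, or_false] at he
    rcases he with rfl | rfl | rfl
    · have := hI.1; rw [D_of_seg hx] at this; exact lt_irrefl _ this
    · have := hI.2.1; rw [D_of_seg hx] at this; exact lt_irrefl _ this
    · have := hI.2.2; rw [D_of_seg hx] at this; exact lt_irrefl _ this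
  · intro T hT T' hT' hne
    rw [List.mem_singleton] at hT hT'; subst hT; subst hT'; exact absurd rfl hne
  · rw [planar_iff]
    intro e he f hf x hx hx'
    simp only [List.mem_cons, List.not_mem_nil, or_false] at he hf
    have h' : D (p b) (p c) (p a) ≠ 0 := by rw [D_rot]; exact h.ne'
    have h'' : D (p c) (p a) (p b) ≠ 0 := by rw [D_rot']; exact h.ne'
    rcases he with rfl | rfl | rfl <;> rcases hf with rfl | rfl | rfl
    · exact Or.inl ⟨rfl, rfl⟩
    · refine Or.inr (Or.inr ⟨b, Or.inr rfl, Or.inl rfl, ?_⟩)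
      exact eq_of_two (a := p a) (b := p c) (by rw [D_swap]; exact neg_ne_zero.2 h.ne')
        (D_of_seg hx) (D_of_seg' hx')
    · refine Or.inr (Or.inr ⟨a, Or.inl rfl, Or.inr rfl, ?_⟩)
      exact eq_of_two (a := p b) (b := p c) h' (D_of_seg' hx) (D_of_seg hx')
    · refine Or.inr (Or.inr ⟨b, Or.inl rfl, Or.inr rfl, ?_⟩)
      exact eq_of_two (a := p a) (b := p c) (by rw [D_swap]; exact neg_ne_zero.2 h.ne')
        (D_of_seg hx') (D_of_seg' hx)
    · exact Or.inl ⟨rfl, rfl⟩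
    · refine Or.inr (Or.inr ⟨c, Or.inr rfl, Or.inl rfl, ?_⟩)
      exact eq_of_two (a := p a) (b := p b) h.ne' (D_of_seg' hx') (D_of_seg hx)
    · refine Or.inr (Or.inr ⟨a, Or.inr rfl, Or.inl rfl, ?_⟩)
      exact eq_of_two (a := p b) (b := p c) h' (D_of_seg' hx') (D_of_seg hx)
    · refine Or.inr (Or.inr ⟨c, Or.inl rfl, Or.inr rfl, ?_⟩)
      exact eq_of_two (a := p a) (b := p b) h.ne' (D_of_seg' hx) (D_of_seg hx')
    · exact Or.inl ⟨rfl, rfl⟩

/-! ### Rigidity -/

/-- Edge test. -/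
def edB (E : List (ℕ × ℕ)) (a b : ℕ) : Bool := decide ((a, b) ∈ E) || decide ((b, a) ∈ E)

theorem edB_iff {E : List (ℕ × ℕ)} {a b : ℕ} : edB E a b = true ↔ Ed E a b := by
  unfold edB Ed
  rw [Bool.or_eq_true, decide_eq_true_eq, decide_eq_true_eq]

/-- A drawing (of a part of a graph) whose edges do not cross; the vertices `m` and `n` are
extremal as seen from the point `o`. -/
structure Loc (q : ℕ → ℝ × ℝ) (E : List (ℕ × ℕ)) (o : ℝ × ℝ) (m n : ℕ) : Prop where
  nm : ∀ a b c d, Ed E a b → Ed E c d → a ≠ c → a ≠ d → b ≠ c → b ≠ d →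
    ¬ Meets (q a) (q b) (q c) (q d)
  av : ∀ a b w c, Ed E a b → Ed E w c → w ≠ a → w ≠ b → q w ∉ segment ℝ (q a) (q b)
  exm : ∃ τ : ℝ, ∀ r c, Ed E r c → r ≠ m → 0 < τ * D o (q m) (q r)
  exn : ∃ τ : ℝ, ∀ r c, Ed E r c → r ≠ n → 0 < τ * D o (q n) (q r)

/-- The path leads from `w` to `m` or `n` and avoids the triangle `a, u, v`. -/
def pathB (E : List (ℕ × ℕ)) (m n a u v : ℕ) : ℕ → List ℕ → Bool
  | w, [] => (decide (w = m) || decide (w = n)) && (decide (w ≠ a) && decide (w ≠ u) &&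
      decide (w ≠ v))
  | w, x :: l => (decide (w ≠ a) && decide (w ≠ u) && decide (w ≠ v)) && (edB E w x &&
      pathB E m n a u v x l)

theorem pathB_ne {E : List (ℕ × ℕ)} {m n a u v w : ℕ} {l : List ℕ}
    (h : pathB E m n a u v w l = true) : w ≠ a ∧ w ≠ u ∧ w ≠ v := by
  cases l with
  | nil =>
    simp only [pathB, Bool.and_eq_true, decide_eq_true_eq] at h
    exact ⟨h.2.1.1, h.2.1.2, h.2.2⟩
  | cons x l =>
    simp only [pathB, Bool.and_eq_true, decide_eq_true_eq] at h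
    exact ⟨h.1.1.1, h.1.1.2, h.1.2⟩

section

variable {q : ℕ → ℝ × ℝ} {E : List (ℕ × ℕ)} {o : ℝ × ℝ} {m n : ℕ}

theorem ext_not_int {σ τ : ℝ} {a u v z o : ℝ × ℝ} (ha : 0 < τ * D o z a) (hu : 0 < τ * D o z u)
    (hv : 0 < τ * D o z v) : ¬ Int σ a u v z := by
  rintro ⟨h1, h2, h3⟩
  have e : (σ * D a u v) * (τ * D o z z) = (σ * D u v z) * (τ * D o z a) +
      (σ * D v a z) * (τ * D o z u) + (σ * D a u z) * (τ * D o z v) := by unfold D; ring
  rw [D_right] at e
  have := mul_pos h2 ha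
  have := mul_pos h3 hu
  have := mul_pos h1 hv
  linarith

/-- A vertex which is connected with an extremal vertex is not in the interior of a triangle. -/
theorem Loc.path (hL : Loc q E o m n) {a u v : ℕ} (eau : Ed E a u) (euv : Ed E u v)
    (eva : Ed E v a) : ∀ {l : List ℕ} {w : ℕ}, pathB E m n a u v w l = true →
    ∀ σ : ℝ, (σ = 1 ∨ σ = -1) → ¬ Int σ (q a) (q u) (q v) (q w)
  | [], w, h, σ, hσ => by
    simp only [pathB, Bool.and_eq_true, Bool.or_eq_true, decide_eq_true_eq] at h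
    obtain ⟨h1, ⟨h2, h3⟩, h4⟩ := h
    rcases h1 with rfl | rfl
    · obtain ⟨τ, hτ⟩ := hL.exm
      exact ext_not_int (hτ a u eau (Ne.symm h2)) (hτ u v euv (Ne.symm h3))
        (hτ v a eva (Ne.symm h4))
    · obtain ⟨τ, hτ⟩ := hL.exn
      exact ext_not_int (hτ a u eau (Ne.symm h2)) (hτ u v euv (Ne.symm h3))
        (hτ v a eva (Ne.symm h4))
  | x :: l, w, h, σ, hσ => by
    have hw := pathB_ne h
    simp only [pathB, Bool.and_eq_true] at h
    obtain ⟨-, h2, h3⟩ := h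
    have hx := pathB_ne h3
    have hwx := edB_iff.1 h2
    intro hI
    refine hL.path eau euv eva h3 σ hσ (exit hσ hI ?_ ?_ ?_)
    · exact fun _ => hL.nm _ _ _ _ hwx eau hw.1 hw.2.1 hx.1 hx.2.1
    · exact fun _ => hL.nm _ _ _ _ hwx euv hw.2.1 hw.2.2 hx.2.1 hx.2.2
    · exact fun _ => hL.nm _ _ _ _ hwx eva hw.2.2 hw.1 hx.2.2 hx.1

/-- A step: the face `a u v` is known, the face `a v w` is new; the lists are paths from `w` and
from `u` to extremal vertices. -/
abbrev Step : Type := ℕ × ℕ × ℕ × ℕ × List ℕ × List ℕ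

/-- The step is correct. -/
def stepB (E : List (ℕ × ℕ)) (m n : ℕ) (K : List (ℕ × ℕ × ℕ)) (s : Step) : Bool :=
  decide ((s.1, s.2.1, s.2.2.1) ∈ K) && (edB E s.1 s.2.1 && edB E s.2.1 s.2.2.1 &&
    edB E s.2.2.1 s.1 && edB E s.2.2.1 s.2.2.2.1 && edB E s.2.2.2.1 s.1) &&
    (pathB E m n s.1 s.2.1 s.2.2.1 s.2.2.2.1 s.2.2.2.2.1 &&
    pathB E m n s.1 s.2.2.1 s.2.2.2.1 s.2.1 s.2.2.2.2.2)

/-- All steps are correct. -/
def stepsB (E : List (ℕ × ℕ)) (m n : ℕ) : List (ℕ × ℕ × ℕ) → List Step → Bool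
  | _, [] => true
  | K, s :: l => stepB E m n K s && stepsB E m n ((s.1, s.2.2.1, s.2.2.2.1) ::
      (s.2.2.1, s.2.2.2.1, s.1) :: (s.2.2.2.1, s.1, s.2.2.1) :: K) l

/-- The known faces after the steps. -/
def known : List (ℕ × ℕ × ℕ) → List Step → List (ℕ × ℕ × ℕ)
  | K, [] => K
  | K, s :: l => known ((s.1, s.2.2.1, s.2.2.2.1) ::
      (s.2.2.1, s.2.2.2.1, s.1) :: (s.2.2.2.1, s.1, s.2.2.1) :: K) l

theorem Loc.step (hL : Loc q E o m n) {σ : ℝ} (hσ : σ = 1 ∨ σ = -1) {a u v w : ℕ} {pw pu : List ℕ}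
    (h : 0 < σ * D (q a) (q u) (q v)) (eau : Ed E a u) (euv : Ed E u v) (eva : Ed E v a)
    (evw : Ed E v w) (ewa : Ed E w a) (h1 : pathB E m n a u v w pw = true)
    (h2 : pathB E m n a v w u pu = true) (nau : a ≠ u) (nuv : u ≠ v) (nva : v ≠ a) :
    0 < σ * D (q a) (q v) (q w) := by
  obtain ⟨wa, wu, wv⟩ := pathB_ne h1
  have n1 : NC (q a) (q u) (q v) (q w) := by
    refine nc_of (hL.av _ _ _ _ eau ewa wa wu) (hL.av _ _ _ _ euv ewa wu wv)
      (hL.av _ _ _ _ eva ewa wv wa) (fun σ' hσ' => hL.path eau euv eva h1 σ' hσ') ?_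
    exact hL.nm _ _ _ _ ewa.symm euv nau nva.symm wu wv
  have n2 : NC (q a) (q v) (q w) (q u) := by
    refine nc_of (hL.av _ _ _ _ eva.symm euv nau.symm nuv) (hL.av _ _ _ _ evw euv nuv wu.symm)
      (hL.av _ _ _ _ ewa euv wu.symm nau.symm) (fun σ' hσ' => hL.path eva.symm evw ewa h2 σ' hσ') ?_
    exact hL.nm _ _ _ _ eau evw nva.symm wa.symm nuv wu.symm
  refine opp hσ h n1 n2 ?_
  intro h0
  rcases between_of_D h0 with h3 | h3 | h3
  · exact hL.av _ _ _ _ evw eau nva.symm wa.symm h3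
  · exact hL.av _ _ _ _ ewa.symm evw nva wv.symm h3
  · exact hL.av _ _ _ _ eva.symm ewa wa wv h3

theorem Loc.steps (hL : Loc q E o m n) {σ : ℝ} (hσ : σ = 1 ∨ σ = -1) :
    ∀ {l : List Step} {K : List (ℕ × ℕ × ℕ)}, stepsB E m n K l = true →
    (∀ T ∈ K, 0 < σ * D (q T.1) (q T.2.1) (q T.2.2)) →
    (∀ T ∈ K, T.1 ≠ T.2.1 ∧ T.2.1 ≠ T.2.2 ∧ T.2.2 ≠ T.1) →
    ∀ T ∈ known K l, 0 < σ * D (q T.1) (q T.2.1) (q T.2.2)
  | [], K, _, hK, _ => hK
  | (a, u, v, w, pw, pu) :: l, K, h, hK, hn => by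
    simp only [stepsB, stepB, Bool.and_eq_true, decide_eq_true_eq] at h
    obtain ⟨⟨⟨h1, ⟨⟨⟨h2, h3⟩, h4⟩, h5⟩, h6⟩, h7, h8⟩, h9⟩ := h
    obtain ⟨k1, k2, k3⟩ := hn _ h1
    have key := hL.step hσ (hK _ h1) (edB_iff.1 h2) (edB_iff.1 h3) (edB_iff.1 h4) (edB_iff.1 h5)
      (edB_iff.1 h6) h7 h8 k1 k2 k3
    obtain ⟨wa, wu, wv⟩ := pathB_ne h7
    refine hL.steps hσ (l := l) h9 ?_ ?_
    · intro T hT
      simp only [List.mem_cons] at hT
      rcases hT with rfl | rfl | rfl | hT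
      · exact key
      · simp only; rw [D_rot (q a) (q v) (q w)]; exact key
      · simp only; rw [D_rot' (q a) (q v) (q w)]; exact key
      · exact hK _ hT
    · intro T hT
      simp only [List.mem_cons] at hT
      rcases hT with rfl | rfl | rfl | hT
      · exact ⟨k3.symm, wv.symm, wa⟩
      · exact ⟨wv.symm, wa, k3.symm⟩
      · exact ⟨wa, k3.symm, wv.symm⟩
      · exact hn _ hT

end

end Pool.Agent.NPC.ER.SGE
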