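import Pool.Agent.TH663.SGE.Order
import Pool.Agent.TH663.SGE.Frame

/-!
# Soundness: from a drawing to coordinates
-/

namespace Pool.Agent.NPC.ER.SGE

open Pool.Agent.NPC.ER.GPP
open Pool.Agent.NPC.ER.Oslp (Ins)

/-- The triangles below chords which are used (first gadget). -/
def Ch1 : List (ℕ × ℕ × ℕ) := [(8, 6, 9), (8, 6, 5), (12, 11, 4)]

/-- The triangles below chords which are used (second gadget). -/
def Ch2 : List (ℕ × ℕ × ℕ) := [(8, 6, 9), (8, 6, 5)]

/-- The triangles which are used. -/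
def Wt (b : Bool) : List (ℕ × ℕ × ℕ) := if b = true then W1t ++ Ch1 else W2t ++ Ch2

/-- Coordinates with the required order and orientations. -/
def Weak (Gs : List Gad) (L : List ℕ) : Prop :=
  ∃ X Y : ℕ → ℝ, L.Pairwise (fun u v => X u < X v) ∧ ∀ G ∈ Gs, ∀ T ∈ Wt G.2.1,
    0 < sg G.1 * D (X (gl G.1 T.1), Y (gl G.1 T.1)) (X (gl G.1 T.2.1), Y (gl G.1 T.2.1))
      (X (gl G.1 T.2.2), Y (gl G.1 T.2.2))

/-! ### Drawings -/

theorem Planar.res {E : List (ℕ × ℕ)} {p : ℕ → ℝ × ℝ} (h : Planar E p) {u v u' v' : ℕ}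
    (h1 : Ed E u v) (h2 : Ed E u' v') {x : ℝ × ℝ} (hx : x ∈ segment ℝ (p u) (p v))
    (hx' : x ∈ segment ℝ (p u') (p v')) : Res p u v u' v' x := by
  have hc := planar_iff.1 h
  rcases h1 with h1 | h1 <;> rcases h2 with h2 | h2
  · exact hc _ h1 _ h2 x hx hx'
  · exact (hc _ h1 _ h2 x hx (by rwa [segment_symm])).swap2
  · exact (hc _ h1 _ h2 x (by rwa [segment_symm]) hx').swap1
  · exact (hc _ h1 _ h2 x (by rwa [segment_symm]) (by rwa [segment_symm])).swap1.swap2

theorem plD_of {V : List ℕ} {E E' : List (ℕ × ℕ)} {p : ℕ → ℝ × ℝ} (hd : IsDrawing V E' p)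
    (hE : ∀ e ∈ E, e ∈ E' ∧ e.1 ∈ V ∧ e.2 ∈ V) (hp : Planar E p) : PlD p E := by
  constructor
  · rintro a b c d h1 h2 d1 d2 d3 d4 ⟨x, hx, hx'⟩
    rcases Planar.res hp h1 h2 hx hx' with ⟨h3, -⟩ | ⟨h3, -⟩ | ⟨w, h3 | h3, h4 | h4, -⟩
    · exact d1 h3
    · exact d2 h3
    · exact d1 (h3.symm.trans h4)
    · exact d2 (h3.symm.trans h4)
    · exact d3 (h3.symm.trans h4)
    · exact d4 (h3.symm.trans h4)
  · intro a b w c h1 h2 d1 d2
    have hw : w ∈ V := by
      rcases h2 with h2 | h2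
      · exact (hE _ h2).2.1
      · exact (hE _ h2).2.2
    rcases h1 with h1 | h1
    · exact hd.avoid _ (hE _ h1).1 w hw d1 d2
    · rw [segment_symm]; exact hd.avoid _ (hE _ h1).1 w hw d2 d1

theorem PlD.comap {p : ℕ → ℝ × ℝ} {E E' : List (ℕ × ℕ)} (H : PlD p E') {f : ℕ → ℕ}
    (hf : ∀ a b, f a = f b → a = b) (hE : ∀ a b, Ed E a b → Ed E' (f a) (f b)) :
    PlD (fun v => p (f v)) E :=
  ⟨fun a b c d h1 h2 d1 d2 d3 d4 => H.nm _ _ _ _ (hE _ _ h1) (hE _ _ h2) (fun h => d1 (hf _ _ h))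
    (fun h => d2 (hf _ _ h)) (fun h => d3 (hf _ _ h)) (fun h => d4 (hf _ _ h)),
   fun a b w c h1 h2 d1 d2 => H.av _ _ _ _ (hE _ _ h1) (hE _ _ h2) (fun h => d1 (hf _ _ h))
    (fun h => d2 (hf _ _ h))⟩

theorem cp_inj {c : ℕ} (hc : c = 0 ∨ c = 1) : ∀ a b, cp c a = cp c b → a = b := by
  intro a b h
  unfold cp sl at h
  rcases hc with rfl | rfl <;> split_ifs at h <;> omega

theorem gl_inj {g : ℕ} : ∀ a b, gl g a = gl g b → a = b := by
  intro a b h
  unfold gl at h
  omega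

theorem ed_cpE {c : ℕ} {E : List (ℕ × ℕ)} {a b : ℕ} (h : Ed E a b) :
    Ed (cpE c E) (cp c a) (cp c b) := by
  unfold cpE
  rcases h with h | h
  · exact Or.inl (List.mem_map.2 ⟨_, h, rfl⟩)
  · exact Or.inr (List.mem_map.2 ⟨_, h, rfl⟩)

theorem Ed.left {E E' : List (ℕ × ℕ)} {a b : ℕ} (h : Ed E a b) : Ed (E ++ E') a b := by
  rcases h with h | h
  · exact Or.inl (List.mem_append_left _ h)
  · exact Or.inr (List.mem_append_left _ h)

theorem Ed.right {E E' : List (ℕ × ℕ)} {a b : ℕ} (h : Ed E' a b) : Ed (E ++ E') a b := by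
  rcases h with h | h
  · exact Or.inl (List.mem_append_right _ h)
  · exact Or.inr (List.mem_append_right _ h)

theorem chain_zip {a : ℕ} : ∀ {l : List ℕ}, (a :: l).IsChain fun x y => (x, y) ∈ (a :: l).zip l := by
  intro l
  induction l generalizing a with
  | nil => simp
  | cons b l ih =>
    rw [List.isChain_cons_cons]
    refine ⟨by simp, (ih (a := b)).imp fun x y h => ?_⟩
    rw [List.zip_cons_cons]
    exact List.mem_cons_of_mem _ h

section

variable {L : List ℕ} {Gs : List Gad}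

theorem redE_fr {e : ℕ × ℕ} (h : e ∈ frE) : Ed (redE L Gs) e.1 e.2 :=
  Or.inl (List.mem_append_left _ h)

theorem redE_sp {w : ℕ} (h : w ∈ L) : Ed (redE L Gs) (sl 3) w :=
  Or.inl (List.mem_append_right _ (List.mem_append_left _ (List.mem_map.2 ⟨w, h, rfl⟩)))

theorem redE_path {u v : ℕ} (h : (u, v) ∈ pathE L) : Ed (redE L Gs) u v :=
  Or.inl (List.mem_append_right _ (List.mem_append_right _ (List.mem_append_left _ h)))

theorem redE_ch {G : Gad} (hG : G ∈ Gs) {e : ℕ × ℕ}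
    (h : e ∈ if G.2.1 = true then C1t else C2t) :
    Ed (redE L Gs) (gl G.1 e.1) (gl G.1 e.2) := by
  refine Or.inl (List.mem_append_right _ (List.mem_append_right _ (List.mem_append_right _ ?_)))
  unfold chE
  exact List.mem_flatMap.2 ⟨G, hG, List.mem_map.2 ⟨e, h, rfl⟩⟩

theorem blueE_ed {G : Gad} (hG : G ∈ Gs) {a b : ℕ}
    (h : Ed (if G.2.1 = true then E1t else E2t) a b) : Ed (blueE Gs) (gl G.1 a) (gl G.1 b) := by
  unfold blueE
  rcases h with h | h
  · exact Or.inl (List.mem_flatMap.2 ⟨G, hG, List.mem_map.2 ⟨_, h, rfl⟩⟩)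
  · exact Or.inr (List.mem_flatMap.2 ⟨G, hG, List.mem_map.2 ⟨_, h, rfl⟩⟩)

theorem k5_red : K5 (redE L Gs) (sl 0) (sl 1) (sl 2) (sl 3) (sl 4) := by
  have e1 : Ed (redE L Gs) (sl 1) (sl 3) := redE_fr (e := (sl 1, sl 3)) (by simp [frE])
  have e2 : Ed (redE L Gs) (sl 2) (sl 3) := redE_fr (e := (sl 2, sl 3)) (by simp [frE])
  have e3 : Ed (redE L Gs) (sl 0) (sl 3) := redE_fr (e := (sl 0, sl 3)) (by simp [frE])
  have e4 : Ed (redE L Gs) (sl 1) (sl 0) := redE_fr (e := (sl 1, sl 0)) (by simp [frE])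
  have e5 : Ed (redE L Gs) (sl 2) (sl 0) := redE_fr (e := (sl 2, sl 0)) (by simp [frE])
  have e6 : Ed (redE L Gs) (sl 4) (sl 0) := redE_fr (e := (sl 4, sl 0)) (by simp [frE])
  have e7 : Ed (redE L Gs) (sl 1) (sl 2) := redE_fr (e := (sl 1, sl 2)) (by simp [frE])
  have e8 : Ed (redE L Gs) (sl 2) (sl 4) := redE_fr (e := (sl 2, sl 4)) (by simp [frE])
  have e9 : Ed (redE L Gs) (sl 4) (sl 1) := redE_fr (e := (sl 4, sl 1)) (by simp [frE])
  exact ⟨by decide, by decide, by decide, by decide, by decide, by decide, by decide, by decide,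
    by decide, by decide, e4.symm, e7, e5, e3.symm, e1.symm, e2.symm, e6, e9, e8.symm⟩

theorem fanE_red (hm : ∀ w ∈ L, w % 16 ≠ 15) (hn : L.Nodup) :
    FanE (redE L Gs) (sl 0) (sl 1) (sl 2) (sl 3) L := by
  have K := k5_red (L := L) (Gs := Gs)
  refine ⟨K.nab, K.nbc, K.nca, K.noa, K.nob, K.noc, K.eab, K.ebc, K.eca, K.eoa, K.eob, K.eoc, ?_,
    fun w hw => redE_sp hw, ?_, hn⟩
  · exact (chain_zip (a := sl 1) (l := L ++ [sl 2])).imp fun x y h => redE_path h
  · intro w hw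
    have := hm w hw
    refine ⟨?_, ?_, ?_, ?_⟩ <;> · rintro rfl; exact this (by decide)

/-- In one of the copies the vertex `O` is in the interior of the triangle. -/
theorem exists_copy {p : ℕ → ℝ × ℝ}
    (H : PlD p (cpE 0 (redE L Gs) ++ cpE 1 (redE L Gs))) : ∃ c, (c = 0 ∨ c = 1) ∧
    ∃ σ : ℝ, (σ = 1 ∨ σ = -1) ∧
      Int σ (p (cp c (sl 0))) (p (cp c (sl 1))) (p (cp c (sl 2))) (p (cp c (sl 3))) := by
  have H0 : PlD (fun v => p (cp 0 v)) (redE L Gs) :=
    H.comap (cp_inj (Or.inl rfl)) fun a b h => (ed_cpE h).left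
  have H1 : PlD (fun v => p (cp 1 v)) (redE L Gs) :=
    H.comap (cp_inj (Or.inr rfl)) fun a b h => (ed_cpE h).right
  have K := k5_red (L := L) (Gs := Gs)
  obtain ⟨σ, hσ, h0 | h0⟩ := k5 H0 K
  · exact ⟨0, Or.inl rfl, σ, hσ, h0⟩
  obtain ⟨τ, hτ, h1 | h1⟩ := k5 H1 K
  · exact ⟨1, Or.inr rfl, τ, hτ, h1⟩
  exfalso
  have hz : cp 1 (sl 4) = cp 0 (sl 4) := by decide
  have E0 : ∀ {a b}, Ed (redE L Gs) a b →
      Ed (cpE 0 (redE L Gs) ++ cpE 1 (redE L Gs)) (cp 0 a) (cp 0 b) := fun h => (ed_cpE h).left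
  have E1 : ∀ {a b}, Ed (redE L Gs) a b →
      Ed (cpE 0 (redE L Gs) ++ cpE 1 (redE L Gs)) (cp 1 a) (cp 1 b) := fun h => (ed_cpE h).right
  rw [hz] at h1
  -- the vertices of the other triangle are in the interior
  have g0 : ∀ m, (m = 0 ∨ m = 1 ∨ m = 2) → Int σ (p (cp 0 (sl 0))) (p (cp 0 (sl 1)))
      (p (cp 0 (sl 2))) (p (cp 1 (sl m))) := by
    intro m hm
    have e : Ed (cpE 0 (redE L Gs) ++ cpE 1 (redE L Gs)) (cp 0 (sl 4)) (cp 1 (sl m)) := by
      rw [← hz]
      rcases hm with rfl | rfl | rfl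
      · exact E1 K.eza
      · exact E1 K.ezb
      · exact E1 K.ezc
    refine H.exit hσ h0 (E0 K.eab) (E0 K.ebc) (E0 K.eca) e (by decide) (by decide) (by decide)
      ?_ ?_ ?_ <;> rcases hm with rfl | rfl | rfl <;> decide
  have g1 : Int τ (p (cp 1 (sl 0))) (p (cp 1 (sl 1))) (p (cp 1 (sl 2))) (p (cp 0 (sl 0))) :=
    H.exit hτ h1 (E1 K.eab) (E1 K.ebc) (E1 K.eca) (E0 K.eza) (by decide) (by decide) (by decide)
      (by decide) (by decide) (by decide)
  exact not_both' g1 (g0 0 (Or.inl rfl)) (g0 1 (Or.inr (Or.inl rfl))) (g0 2 (Or.inr (Or.inr rfl)))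

end

/-! ### The vertices of the gadgets -/

theorem roles_mem {N : ℕ} {p : List Ins} {Gs : List Gad} {G : Gad} (hG : G ∈ Gs)
    (hk : Kind N p G) : ∀ r, r < (if G.2.1 = true then 14 else 11) → gl G.1 r ∈ ord Gs N := by
  have hm : ∀ b ∈ G.2.2, b.1 ≤ N + 1 → ∀ r ∈ b.2.2, gl G.1 r ∈ ord Gs N :=
    fun b hb hn r hr => mem_ord_of_grp hn (mem_grp hG hb hr)
  have key : (∀ b ∈ G.2.2, b.1 ≤ N + 1) → ∀ r ∈ G.2.2.flatMap fun b => b.2.2,
      gl G.1 r ∈ ord Gs N := by
    intro h r hr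
    obtain ⟨b, hb, hr⟩ := List.mem_flatMap.1 hr
    exact hm b hb (h b hb) r hr
  cases hk with
  | lowM t o l i j hp ho hol hli hlj hik hjk hkN hG =>
    subst hG
    intro r hr
    simp only [if_true] at hr
    refine key ?_ r ?_
    · simp only [lowM, List.forall_mem_cons, List.not_mem_nil, false_implies, implies_true,
        and_true]
      omega
    · show r ∈ [10, 0, 12, 4, 11, 3, 8, 9, 5, 7, 6, 2, 13, 1]
      interval_cases r <;> decide
  | upM t o l i j hp ho hol hli hlj hik hjk hkN hG =>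
    subst hG
    intro r hr
    simp only [if_true] at hr
    refine key ?_ r ?_
    · simp only [upM, List.forall_mem_cons, List.not_mem_nil, false_implies, implies_true,
        and_true]
      omega
    · show r ∈ [1, 13, 2, 3, 6, 7, 5, 9, 8, 11, 4, 12, 0, 10]
      interval_cases r <;> decide
  | lowA t l i j hp hol hli hlj hik hjk hkN hG =>
    subst hG
    intro r hr
    simp only [Bool.false_eq_true, if_false] at hr
    refine key ?_ r ?_
    · simp only [lowA, List.forall_mem_cons, List.not_mem_nil, false_implies, implies_true,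
        and_true]
      omega
    · show r ∈ [10, 3, 4, 2, 8, 9, 5, 7, 6, 0, 1]
      interval_cases r <;> decide
  | upA t l i j hp hol hli hlj hik hjk hkN hG =>
    subst hG
    intro r hr
    simp only [Bool.false_eq_true, if_false] at hr
    refine key ?_ r ?_
    · simp only [upA, List.forall_mem_cons, List.not_mem_nil, false_implies, implies_true,
        and_true]
      omega
    · show r ∈ [1, 0, 6, 7, 5, 9, 8, 4, 2, 3, 10]
      interval_cases r <;> decide

theorem ed_lt1 {a b : ℕ} (h : Ed E1t a b) : a < 14 ∧ b < 14 := by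
  have : ∀ e ∈ E1t, e.1 < 14 ∧ e.2 < 14 := by rw [E1t_eq]; decide
  rcases h with h | h
  · exact this _ h
  · exact (this _ h).symm

theorem ed_lt2 {a b : ℕ} (h : Ed E2t a b) : a < 11 ∧ b < 11 := by
  have : ∀ e ∈ E2t, e.1 < 11 ∧ e.2 < 11 := by rw [E2t_eq]; decide
  rcases h with h | h
  · exact this _ h
  · exact (this _ h).symm

theorem ord_mod {N : ℕ} {p : List Ins} {Gs : List Gad} (hk : ∀ G ∈ Gs, Kind N p G) :
    ∀ w ∈ ord Gs N, w % 16 ≠ 15 := by
  have key : ∀ G ∈ Gs, ∀ b ∈ G.2.2, ∀ r ∈ b.2.2, r < 14 := by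
    intro G hG
    cases hk G hG with
    | lowM t o l i j hp ho hol hli hlj hik hjk hkN hG =>
      subst hG
      simp only [lowM, List.forall_mem_cons, List.not_mem_nil, false_implies, implies_true,
        and_true]
      omega
    | upM t o l i j hp ho hol hli hlj hik hjk hkN hG =>
      subst hG
      simp only [upM, List.forall_mem_cons, List.not_mem_nil, false_implies, implies_true,
        and_true]
      omega
    | lowA t l i j hp hol hli hlj hik hjk hkN hG =>
      subst hG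
      simp only [lowA, List.forall_mem_cons, List.not_mem_nil, false_implies, implies_true,
        and_true]
      omega
    | upA t l i j hp hol hli hlj hik hjk hkN hG =>
      subst hG
      simp only [upA, List.forall_mem_cons, List.not_mem_nil, false_implies, implies_true,
        and_true]
      omega
  have key2 : ∀ n s, ∀ G ∈ Gs, ∀ w ∈ items n s G, w % 16 ≠ 15 := by
    intro n s G hG w hw
    unfold items at hw
    obtain ⟨b, hb, hw⟩ := List.mem_flatMap.1 hw
    split_ifs at hw with h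
    · obtain ⟨r, hr, rfl⟩ := List.mem_map.1 hw
      have := key G hG b hb r hr
      unfold gl
      omega
    · simp at hw
  intro w hw
  unfold ord at hw
  obtain ⟨n, -, hw⟩ := List.mem_flatMap.1 hw
  unfold grp at hw
  rw [List.mem_append, List.mem_cons] at hw
  rcases hw with hw | rfl | hw
  · obtain ⟨G, hG, hw⟩ := List.mem_flatMap.1 hw
    exact key2 _ _ G (List.mem_reverse.1 hG) w hw
  · unfold el; omega
  · obtain ⟨G, hG, hw⟩ := List.mem_flatMap.1 hw
    exact key2 _ _ G hG w hw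

/-! ### The coordinates -/

theorem weak_of_sge {N : ℕ} {pr : List Ins} {Gs : List Gad} (hk : ∀ G ∈ Gs, Kind N pr G)
    (hn : (ord Gs N).Nodup) (hI : IsInst (inst0 (ord Gs N) Gs))
    (h : HasSGE (inst0 (ord Gs N) Gs)) : Weak Gs (ord Gs N) := by
  obtain ⟨p, hd, hp1, hp2⟩ := h
  set L := ord Gs N with hL
  have H1 : PlD p (cpE 0 (redE L Gs) ++ cpE 1 (redE L Gs)) :=
    plD_of hd (fun e he => ⟨List.mem_append_left _ he, (hI.1 e he).1, (hI.1 e he).2.1⟩) hp1
  have H2 : PlD p (cpE 0 (blueE Gs) ++ cpE 1 (blueE Gs)) :=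
    plD_of hd (fun e he => ⟨List.mem_append_right _ he, (hI.2 e he).1, (hI.2 e he).2.1⟩) hp2
  obtain ⟨c, hc, σ, hσ, hO⟩ := exists_copy H1
  set q : ℕ → ℝ × ℝ := fun v => p (cp c v) with hq
  have Hr : PlD q (redE L Gs) := H1.comap (cp_inj hc) fun a b h => by
    rcases hc with rfl | rfl
    · exact (ed_cpE h).left
    · exact (ed_cpE h).right
  have Hb : PlD q (blueE Gs) := H2.comap (cp_inj hc) fun a b h => by
    rcases hc with rfl | rfl
    · exact (ed_cpE h).left
    · exact (ed_cpE h).right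
  have F := fanE_red (L := L) (Gs := Gs) (ord_mod hk) hn
  obtain ⟨c0, c1⟩ := fan_cone Hr F hσ hO
  have hord := fan_order Hr F hσ hO
  have hS : ∀ v ∈ L, 0 < σ * fS (q (sl 3)) (q (sl 1)) (q (sl 2)) (q v) :=
    fun v hv => fS_pos (c1 v hv).1 (c1 v hv).2
  set P : ℕ → ℝ × ℝ := fun v => fr (q (sl 3)) (q (sl 1)) (q (sl 2)) (q v) with hP
  -- the order
  have hX : L.Pairwise fun u v => (P u).1 < (P v).1 := by
    have h1 : L.IsChain fun u v => (P u).1 < (P v).1 := by
      have h2 := (List.isChain_cons.1 hord).2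
      refine h2.imp_of_mem_imp fun u v hu hv huv => fr_lt hσ c0 (hS u hu) (hS v hv) huv
    exact List.isChain_iff_pairwise.1 h1
  have hD : ∀ u ∈ L, ∀ v ∈ L, (P u).1 < (P v).1 → 0 < σ * D (q (sl 3)) (q u) (q v) :=
    fun u hu v hv huv => fr_lt' hσ c0 (hS u hu) (hS v hv) huv
  refine ⟨fun v => (P v).1, fun v => (P v).2, hX, fun G hG => ?_⟩
  -- a gadget
  obtain ⟨go1, go2⟩ := go_of hG (hk G hG) hX
  have hmem := roles_mem hG (hk G hG)
  have hs := sg_cases G.1
  have hσs : sg G.1 * σ = 1 ∨ sg G.1 * σ = -1 := by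
    rcases hs with h | h <;> rcases hσ with h' | h' <;> rw [h, h'] <;> norm_num
  have hD' : ∀ u ∈ L, ∀ v ∈ L, sg G.1 * (P u).1 < sg G.1 * (P v).1 →
      0 < sg G.1 * σ * D (q (sl 3)) (q u) (q v) := by
    intro u hu v hv huv
    rcases hs with h | h <;> rw [h] at huv ⊢
    · have := hD u hu v hv (by linarith)
      linarith
    · have := hD v hv u hu (by linarith)
      rw [D_swap]; linarith
  have hch : ∀ a b w, (a, b) ∈ (if G.2.1 = true then C1t else C2t) → gl G.1 a ∈ L →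
      gl G.1 b ∈ L → gl G.1 w ∈ L →
      sg G.1 * (P (gl G.1 a)).1 < sg G.1 * (P (gl G.1 w)).1 →
      sg G.1 * (P (gl G.1 w)).1 < sg G.1 * (P (gl G.1 b)).1 →
      0 < sg G.1 * σ * D (q (gl G.1 a)) (q (gl G.1 b)) (q (gl G.1 w)) := by
    intro a b w hab ha hb hw h1 h2
    have e : Ed (redE L Gs) (gl G.1 a) (gl G.1 b) := redE_ch hG hab
    have na := (F.nL _ ha).1
    have nb := (F.nL _ hb).1
    have nw := (F.nL _ hw).1
    have nwa : gl G.1 w ≠ gl G.1 a := by intro h; rw [h] at h1; exact lt_irrefl _ h1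
    have nwb : gl G.1 w ≠ gl G.1 b := by intro h; rw [h] at h2; exact lt_irrefl _ h2
    rcases hs with h | h <;> rw [h] at h1 h2 ⊢
    · have := fan_chord Hr hσ e (F.sp _ ha) (F.sp _ hb) (F.sp _ hw) na.symm nb.symm nw nwa nwb
        (hD _ ha _ hw (by linarith)) (hD _ hw _ hb (by linarith)) (hD _ ha _ hb (by linarith))
      linarith
    · have := fan_chord Hr hσ e.symm (F.sp _ hb) (F.sp _ ha) (F.sp _ hw) nb.symm na.symm nw nwb nwa
        (hD _ hb _ hw (by linarith)) (hD _ hw _ ha (by linarith)) (hD _ hb _ ha (by linarith))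
      rw [D_swap12] at this
      linarith
  have hfin : ∀ a b w, gl G.1 a ∈ L → gl G.1 b ∈ L → gl G.1 w ∈ L →
      0 < sg G.1 * σ * D (q (gl G.1 a)) (q (gl G.1 b)) (q (gl G.1 w)) →
      0 < sg G.1 * D (P (gl G.1 a)) (P (gl G.1 b)) (P (gl G.1 w)) := by
    intro a b w ha hb hw hpos
    exact fr_pos hσ c0 (hS _ ha) (hS _ hb) (hS _ hw) (by rw [← mul_assoc]; exact hpos)
  have hK0 : ∀ {a b w : ℕ}, 0 < sg G.1 * σ * D (q (gl G.1 a)) (q (gl G.1 b)) (q (gl G.1 w)) →
      ∀ T ∈ [(a, b, w), (b, w, a), (w, a, b)], 0 < sg G.1 * σ * D (q (gl G.1 T.1))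
        (q (gl G.1 T.2.1)) (q (gl G.1 T.2.2)) := by
    intro a b w h T hT
    simp only [List.mem_cons, List.not_mem_nil, or_false] at hT
    rcases hT with rfl | rfl | rfl
    · exact h
    · simp only; rw [D_rot (q (gl G.1 a)) (q (gl G.1 b)) (q (gl G.1 w))]; exact h
    · simp only; rw [D_rot' (q (gl G.1 a)) (q (gl G.1 b)) (q (gl G.1 w))]; exact h
  have hdist : ∀ T ∈ K0, T.1 ≠ T.2.1 ∧ T.2.1 ≠ T.2.2 ∧ T.2.2 ≠ T.1 := by decide
  cases hb : G.2.1 with
  | true =>
    have go := go1 hb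
    rw [hb, if_pos rfl] at hmem
    rw [hb, if_pos rfl] at hch
    obtain ⟨a1, a2, a3, a4, a5, a6, a7, a8, a9, a10, a11, a12, a13, a14⟩ := go
    have hloc : Loc (fun r => q (gl G.1 r)) E1t (q (sl 3)) 10 1 := by
      have hE : ∀ a b, Ed E1t a b → Ed (blueE Gs) (gl G.1 a) (gl G.1 b) := fun a b h =>
        blueE_ed hG (by rw [hb, if_pos rfl]; exact h)
      have Hc := Hb.comap (f := gl G.1) gl_inj hE
      refine ⟨Hc.nm, Hc.av, ⟨sg G.1 * σ, fun r c' hr hne => ?_⟩, ⟨-(sg G.1 * σ),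
        fun r c' hr hne => ?_⟩⟩
      · have hr14 := (ed_lt1 hr).1
        refine hD' _ (hmem 10 (by norm_num)) _ (hmem r hr14) ?_
        interval_cases r
        all_goals first | exact absurd rfl hne | linarith
      · have hr14 := (ed_lt1 hr).1
        have : 0 < sg G.1 * σ * D (q (sl 3)) (q (gl G.1 r)) (q (gl G.1 1)) := by
          refine hD' _ (hmem r hr14) _ (hmem 1 (by norm_num)) ?_
          interval_cases r
          all_goals first | exact absurd rfl hne | linarith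
        rw [D_swap] at this
        linarith
    have hbase := hK0 (hch 5 6 7 (by decide) (hmem 5 (by norm_num)) (hmem 6 (by norm_num))
      (hmem 7 (by norm_num)) a9 a10)
    have hall := hloc.steps hσs steps1 hbase hdist
    intro T hT
    have hT' : T ∈ W1t ++ Ch1 := by
      have : Wt true = W1t ++ Ch1 := rfl
      rwa [this] at hT
    have hlt : T.1 < 14 ∧ T.2.1 < 14 ∧ T.2.2 < 14 := by
      have : ∀ T ∈ W1t ++ Ch1, T.1 < 14 ∧ T.2.1 < 14 ∧ T.2.2 < 14 := by decide
      exact this T hT'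
    refine hfin _ _ _ (hmem _ hlt.1) (hmem _ hlt.2.1) (hmem _ hlt.2.2) ?_
    rcases List.mem_append.1 hT' with h | h
    · exact hall T (known1 T h)
    · simp only [Ch1, List.mem_cons, List.not_mem_nil, or_false] at h
      rcases h with rfl | rfl | rfl
      · exact hch 8 6 9 (by decide) (hmem _ hlt.1) (hmem _ hlt.2.1) (hmem _ hlt.2.2) a7
          (by linarith)
      · exact hch 8 6 5 (by decide) (hmem _ hlt.1) (hmem _ hlt.2.1) (hmem _ hlt.2.2)
          (by linarith) (by linarith)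
      · exact hch 12 11 4 (by decide) (hmem _ hlt.1) (hmem _ hlt.2.1) (hmem _ hlt.2.2) a3 a4
  | false =>
    have go := go2 hb
    rw [hb] at hmem
    rw [hb] at hch
    simp only [Bool.false_eq_true, if_false] at hmem hch
    obtain ⟨a1, a2, a3, a4, a5, a7, a8, a9, a10, a11, a12⟩ := go
    have hloc : Loc (fun r => q (gl G.1 r)) E2t (q (sl 3)) 10 1 := by
      have hE : ∀ a b, Ed E2t a b → Ed (blueE Gs) (gl G.1 a) (gl G.1 b) := fun a b h =>
        blueE_ed hG (by rw [hb, if_neg (by decide)]; exact h)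
      have Hc := Hb.comap (f := gl G.1) gl_inj hE
      refine ⟨Hc.nm, Hc.av, ⟨sg G.1 * σ, fun r c' hr hne => ?_⟩, ⟨-(sg G.1 * σ),
        fun r c' hr hne => ?_⟩⟩
      · have hr14 := (ed_lt2 hr).1
        refine hD' _ (hmem 10 (by norm_num)) _ (hmem r hr14) ?_
        interval_cases r
        all_goals first | exact absurd rfl hne | linarith
      · have hr14 := (ed_lt2 hr).1
        have : 0 < sg G.1 * σ * D (q (sl 3)) (q (gl G.1 r)) (q (gl G.1 1)) := by
          refine hD' _ (hmem r hr14) _ (hmem 1 (by norm_num)) ?_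
          interval_cases r
          all_goals first | exact absurd rfl hne | linarith
        rw [D_swap] at this
        linarith
    have hbase := hK0 (hch 5 6 7 (by decide) (hmem 5 (by norm_num)) (hmem 6 (by norm_num))
      (hmem 7 (by norm_num)) a9 a10)
    have hall := hloc.steps hσs steps2 hbase hdist
    intro T hT
    have hT' : T ∈ W2t ++ Ch2 := by
      have : Wt false = W2t ++ Ch2 := rfl
      rwa [this] at hT
    have hlt : T.1 < 11 ∧ T.2.1 < 11 ∧ T.2.2 < 11 := by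
      have : ∀ T ∈ W2t ++ Ch2, T.1 < 11 ∧ T.2.1 < 11 ∧ T.2.2 < 11 := by decide
      exact this T hT'
    refine hfin _ _ _ (hmem _ hlt.1) (hmem _ hlt.2.1) (hmem _ hlt.2.2) ?_
    rcases List.mem_append.1 hT' with h | h
    · exact hall T (known2 T h)
    · simp only [Ch2, List.mem_cons, List.not_mem_nil, or_false] at h
      rcases h with rfl | rfl
      · exact hch 8 6 9 (by decide) (hmem _ hlt.1) (hmem _ hlt.2.1) (hmem _ hlt.2.2) a7
          (by linarith)
      · exact hch 8 6 5 (by decide) (hmem _ hlt.1) (hmem _ hlt.2.1) (hmem _ hlt.2.2)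
          (by linarith) (by linarith)

end Pool.Agent.NPC.ER.SGE
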