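import Pool.Agent.TH663.SGE.Fan

/-!
# The two gadgets

The vertices of the gadgets are `A = 0`, `Q = 1`, `B = 2`, `C = 3`, `T = 4`, `p₁ = 5`, `g₁ = 6`,
`h = 7`, `p₂ = 8`, `g₂ = 9`, `M = 10`, and, in the first gadget only, `g₃ = 11`, `p₄ = 12` and
`N = 13`.
-/

namespace Pool.Agent.NPC.ER.SGE

open Pool.Agent.NPC.ER.GPP

/-- The construction of the first gadget. -/
def ops1 : List Op := [.ins 0 10 1 13, .ins 3 1 13 0, .ins 12 13 0 3, .ins 2 0 1 3, .ins 8 3 0 2,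
  .ins 9 0 2 8, .ins 4 3 0 8, .flip 8 0 9 4, .ins 11 8 3 4, .ins 5 0 1 2, .ins 6 1 2 5,
  .ins 7 2 5 6]

/-- The construction of the second gadget. -/
def ops2 : List Op := [.ins 0 10 1 3, .ins 2 1 3 0, .ins 8 3 0 2, .ins 9 0 2 8, .ins 4 3 0 8,
  .flip 8 0 9 4, .ins 5 0 1 2, .ins 6 1 2 5, .ins 7 2 5 6]

/-- The edges of the first gadget. -/
def E1t : List (ℕ × ℕ) := runE ops1 [(10, 1), (1, 13), (13, 10)]

/-- The edges of the second gadget. -/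
def E2t : List (ℕ × ℕ) := runE ops2 [(10, 1), (1, 3), (3, 10)]

/-- The chords of the first gadget. -/
def C1t : List (ℕ × ℕ) := [(8, 6), (5, 6), (12, 11)]

/-- The chords of the second gadget. -/
def C2t : List (ℕ × ℕ) := [(8, 6), (5, 6)]

/-- The triangles which have to be positively oriented (first gadget). -/
def S1t : List (ℕ × ℕ × ℕ) := (10, 1, 13) :: ops1.flatMap Op.tri ++
  [(8, 6, 9), (8, 6, 5), (8, 6, 7), (5, 6, 7), (12, 11, 4)]

/-- The triangles which have to be positively oriented (second gadget). -/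
def S2t : List (ℕ × ℕ × ℕ) := (10, 1, 3) :: ops2.flatMap Op.tri ++
  [(8, 6, 9), (8, 6, 5), (8, 6, 7), (5, 6, 7)]

/-- The triangles which are used (first gadget). -/
def W1t : List (ℕ × ℕ × ℕ) := [(0, 1, 5), (5, 1, 6), (1, 2, 6), (2, 0, 5), (5, 6, 7), (2, 5, 7),
  (6, 2, 7), (0, 2, 9), (2, 8, 9), (9, 8, 4), (1, 3, 2), (0, 3, 12), (4, 8, 11)]

/-- The triangles which are used (second gadget). -/
def W2t : List (ℕ × ℕ × ℕ) := [(0, 1, 5), (5, 1, 6), (1, 2, 6), (2, 0, 5), (5, 6, 7), (2, 5, 7),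
  (6, 2, 7), (0, 2, 9), (2, 8, 9), (9, 8, 4), (1, 3, 2), (3, 0, 4)]

/-- The steps for the first gadget. -/
def st1 : List Step := [(6, 7, 5, 1, [], [2, 0, 10]),
  (7, 5, 6, 2, [1], [1]),
  (5, 6, 7, 2, [1], [1]),
  (1, 6, 5, 0, [10], [2, 3, 13, 10]),
  (6, 5, 1, 2, [0, 10], [0, 10]),
  (5, 7, 2, 0, [10], [6, 1]),
  (2, 6, 1, 3, [0, 10], [5, 0, 10]),
  (0, 5, 2, 9, [4, 3, 1], [1]),
  (3, 2, 1, 13, [10], [0, 10]),
  (2, 1, 3, 8, [4, 0, 10], []),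
  (9, 0, 2, 8, [3, 1], [10]),
  (0, 2, 9, 4, [3, 1], [1]),
  (3, 1, 13, 12, [0, 10], []),
  (8, 2, 3, 11, [4, 0, 10], [1]),
  (9, 2, 8, 4, [0, 10], [1]),
  (0, 9, 4, 3, [1], [2, 1]),
  (12, 3, 13, 0, [10], [1]),
  (3, 13, 12, 0, [10], [10]),
  (11, 8, 3, 4, [0, 10], [2, 1]),
  (8, 3, 11, 4, [0, 10], [1]),
  (0, 12, 13, 10, [], [3, 1])]

/-- The steps for the second gadget. -/
def st2 : List Step := [(6, 7, 5, 1, [], [2, 0, 10]),
  (7, 5, 6, 2, [1], [1]),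
  (5, 6, 7, 2, [1], [1]),
  (1, 6, 5, 0, [10], [2, 3, 10]),
  (6, 5, 1, 2, [0, 10], [0, 10]),
  (5, 7, 2, 0, [10], [6, 1]),
  (2, 6, 1, 3, [10], [5, 0, 10]),
  (0, 5, 2, 9, [4, 3, 10], [1]),
  (2, 1, 3, 8, [4, 0, 10], []),
  (9, 0, 2, 8, [3, 10], [10]),
  (0, 2, 9, 4, [3, 10], [1]),
  (8, 2, 3, 4, [0, 10], [1]),
  (9, 2, 8, 4, [0, 10], [1]),
  (0, 9, 4, 3, [10], [2, 1]),
  (0, 4, 3, 10, [], [9, 2, 1])]

/-- The rotations of the triangle `p₁ g₁ h`. -/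
def K0 : List (ℕ × ℕ × ℕ) := [(5, 6, 7), (6, 7, 5), (7, 5, 6)]

theorem ok1 : okRun ops1 [(10, 1, 13)] = true := by decide
theorem ok2 : okRun ops2 [(10, 1, 3)] = true := by decide

theorem E1t_eq : E1t = [(2, 7), (5, 7), (6, 7), (1, 6), (2, 6), (5, 6), (0, 5), (1, 5), (2, 5),
    (8, 11), (3, 11), (4, 11), (9, 4), (3, 4), (0, 4), (8, 4), (0, 9), (2, 9), (8, 9), (3, 8),
    (2, 8), (0, 2), (1, 2), (3, 2), (13, 12), (0, 12), (3, 12), (1, 3), (13, 3), (0, 3), (10, 0),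
    (1, 0), (13, 0), (10, 1), (1, 13), (13, 10)] := by decide

theorem E2t_eq : E2t = [(2, 7), (5, 7), (6, 7), (1, 6), (2, 6), (5, 6), (0, 5), (1, 5), (2, 5),
    (9, 4), (3, 4), (0, 4), (8, 4), (0, 9), (2, 9), (8, 9), (3, 8), (2, 8), (1, 2), (3, 2), (0, 2),
    (10, 0), (1, 0), (3, 0), (10, 1), (1, 3), (3, 10)] := by decide

theorem steps1 : stepsB E1t 10 1 K0 st1 = true := by rw [E1t_eq]; decide
theorem steps2 : stepsB E2t 10 1 K0 st2 = true := by rw [E2t_eq]; decide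

theorem known1 : ∀ T ∈ W1t, T ∈ known K0 st1 := by decide
theorem known2 : ∀ T ∈ W2t, T ∈ known K0 st2 := by decide

/-- The good drawing of the first gadget. -/
theorem good1 {p : ℕ → ℝ × ℝ} (h : ∀ T ∈ S1t, 0 < D (p T.1) (p T.2.1) (p T.2.2)) :
    ∃ F, Good p E1t F := by
  have h0 : 0 < D (p 10) (p 1) (p 13) := h (10, 1, 13) (by simp [S1t])
  exact ⟨_, good_run (good_start h0) ok1 fun T hT => h T (by
    unfold S1t
    rw [List.cons_append]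
    exact List.mem_cons_of_mem _ (List.mem_append_left _ hT))⟩

/-- The good drawing of the second gadget. -/
theorem good2 {p : ℕ → ℝ × ℝ} (h : ∀ T ∈ S2t, 0 < D (p T.1) (p T.2.1) (p T.2.2)) :
    ∃ F, Good p E2t F := by
  have h0 : 0 < D (p 10) (p 1) (p 3) := h (10, 1, 3) (by simp [S2t])
  exact ⟨_, good_run (good_start h0) ok2 fun T hT => h T (by
    unfold S2t
    rw [List.cons_append]
    exact List.mem_cons_of_mem _ (List.mem_append_left _ hT))⟩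

end Pool.Agent.NPC.ER.SGE
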