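import Pool.Agent.TH663.SGE.Defs

/-!
# Drawings of triangulations obtained by insertions and flips
-/

namespace Pool.Agent.NPC.ER.SGE

open Pool.Agent.NPC.ER.GPP

/-- The point `x` is in the interior of the (positively oriented) triangle `abc`. -/
def In3 (a b c x : ℝ × ℝ) : Prop := 0 < D a b x ∧ 0 < D b c x ∧ 0 < D c a x

theorem In3.rot {a b c x : ℝ × ℝ} (h : In3 a b c x) : In3 b c a x := ⟨h.2.1, h.2.2, h.1⟩

theorem In3.pos {a b c x : ℝ × ℝ} (h : In3 a b c x) : 0 < D a b c := by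
  rw [← D_add a b c x]; linarith [h.1, h.2.1, h.2.2]

theorem bary (a b v s t x : ℝ × ℝ) : D a b v * D s t x =
    D b v x * D s t a + D v a x * D s t b + D a b x * D s t v := by unfold D; ring

theorem D_left (a b : ℝ × ℝ) : D a b a = 0 := by unfold D; ring
theorem D_right (a b : ℝ × ℝ) : D a b b = 0 := by unfold D; ring
theorem D_same (a b : ℝ × ℝ) : D a a b = 0 := by unfold D; ring

/-- The interior of a subtriangle. -/
theorem In3.sub {a b c v x : ℝ × ℝ} (h : In3 a b c v) (hx : In3 a b v x) : In3 a b c x := by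
  obtain ⟨h1, h2, h3⟩ := h
  obtain ⟨x1, x2, x3⟩ := hx
  have hT : 0 < D a b c := In3.pos ⟨h1, h2, h3⟩
  refine ⟨x1, ?_, ?_⟩
  · have e := bary a b v b c x
    rw [D_left, D_rot a b c] at e
    have e2 : 0 < D a b v * D b c x := by
      rw [e]
      have := mul_pos x2 hT
      have := mul_pos x1 h2
      linarith
    exact (pos_iff_pos_of_mul_pos e2).1 h1
  · have e := bary a b v c a x
    rw [D_right, show D c a b = D a b c from D_rot' a b c] at e
    have e2 : 0 < D a b v * D c a x := by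
      rw [e]
      have := mul_pos x3 hT
      have := mul_pos x1 h3
      linarith
    exact (pos_iff_pos_of_mul_pos e2).1 h1

/-- A segment from a vertex to an interior point. -/
theorem In3.seg {a b c v x : ℝ × ℝ} (h : In3 a b c v) (hx : x ∈ segment ℝ a v) :
    x = a ∨ In3 a b c x := by
  have hT := h.pos
  obtain ⟨h1, h2, h3⟩ := h
  obtain ⟨t, t0, t1, e1, e2⟩ := mem_seg.1 hx
  have hx' : x = pt t a v := Prod.ext e1 e2
  rcases eq_or_lt_of_le t0 with rfl | t0
  · left
    rw [hx']; unfold pt; ext <;> simp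
  · right
    rw [hx']
    refine ⟨?_, ?_, ?_⟩
    · rw [D_pt, D_left]; nlinarith
    · rw [D_pt, show D b c a = D a b c from D_rot a b c]
      have := mul_nonneg (sub_nonneg.2 t1) hT.le
      have := mul_pos t0 h2
      linarith
    · rw [D_pt, D_right]; nlinarith

/-- A segment from a vertex to an interior point does not meet the opposite part. -/
theorem In3.seg_opp {a b c v x : ℝ × ℝ} (h : In3 a b c v) (hx : x ∈ segment ℝ a v) :
    ¬ In3 b c v x := by
  rintro ⟨-, -, k⟩
  obtain ⟨t, t0, t1, e1, e2⟩ := mem_seg.1 hx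
  have hx' : x = pt t a v := Prod.ext e1 e2
  rw [hx', D_pt, D_left] at k
  have e : D v b a = -D a b v := D_swap13 a b v
  rw [e] at k
  have := mul_nonneg (sub_nonneg.2 t1) h.1.le
  linarith

theorem D_of_seg {a b x : ℝ × ℝ} (hx : x ∈ segment ℝ a b) : D a b x = 0 := by
  obtain ⟨t, t0, t1, e1, e2⟩ := mem_seg.1 hx
  have hx' : x = pt t a b := Prod.ext e1 e2
  rw [hx', D_pt, D_left, D_right]; ring

theorem D_of_seg' {a b x : ℝ × ℝ} (hx : x ∈ segment ℝ a b) : D b a x = 0 := by
  rw [D_swap12, D_of_seg hx, neg_zero]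

/-- Two lines through `v` meet in `v` only. -/
theorem eq_of_two {a b v x : ℝ × ℝ} (h : D a b v ≠ 0) (h1 : D a v x = 0) (h2 : D b v x = 0) :
    x = v := by
  have e1 : D a b v * (x.1 - v.1) = 0 := by
    unfold D at *
    linear_combination (a.1 - v.1) * h2 - (b.1 - v.1) * h1
  have e2 : D a b v * (x.2 - v.2) = 0 := by
    unfold D at *
    linear_combination (a.2 - v.2) * h2 - (b.2 - v.2) * h1
  have f1 := (mul_eq_zero.1 e1).resolve_left h
  have f2 := (mul_eq_zero.1 e2).resolve_left h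
  exact Prod.ext (by linarith) (by linarith)

/-- Two triangles on the same side of a common edge overlap. -/
theorem overlap {a b w w' : ℝ × ℝ} (h : 0 < D a b w) (h' : 0 < D a b w') :
    ∃ q, In3 a b w q ∧ In3 a b w' q := by
  -- a point near the midpoint of the edge
  let m : ℝ × ℝ := ((a.1 + b.1) / 2, (a.2 + b.2) / 2)
  have near : ∀ u : ℝ × ℝ, 0 < D a b u → ∃ ε > 0, ∀ s, 0 < s → s < ε →
      In3 a b u (m.1 - s * (b.2 - a.2), m.2 + s * (b.1 - a.1)) := by
    intro u hu
    have hL : 0 < (b.1 - a.1) ^ 2 + (b.2 - a.2) ^ 2 := by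
      have h1 : 0 ≤ (b.1 - a.1) ^ 2 + (b.2 - a.2) ^ 2 := by positivity
      rcases h1.eq_or_lt with h2 | h2
      · exfalso
        have h3 : b.1 - a.1 = 0 := by nlinarith [sq_nonneg (b.1 - a.1), sq_nonneg (b.2 - a.2)]
        have h4 : b.2 - a.2 = 0 := by nlinarith [sq_nonneg (b.1 - a.1), sq_nonneg (b.2 - a.2)]
        unfold D at hu
        rw [h3, h4] at hu
        linarith
      · exact h2
    set K := |(b.1 - a.1) * (u.1 - a.1) + (b.2 - a.2) * (u.2 - a.2)| +
      |(b.1 - a.1) * (u.1 - b.1) + (b.2 - a.2) * (u.2 - b.2)| + 1 with hK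
    have hK0 : 0 < K := by positivity
    refine ⟨D a b u / 2 / K, by positivity, fun s s0 s1 => ?_⟩
    have hsK : s * K < D a b u / 2 := by rwa [lt_div_iff₀ hK0] at s1
    refine ⟨?_, ?_, ?_⟩
    · have : D a b (m.1 - s * (b.2 - a.2), m.2 + s * (b.1 - a.1)) =
          s * ((b.1 - a.1) ^ 2 + (b.2 - a.2) ^ 2) := by unfold D; simp only [m]; ring
      rw [this]; positivity
    · have e : D b u (m.1 - s * (b.2 - a.2), m.2 + s * (b.1 - a.1)) = D a b u / 2 +
          s * ((b.1 - a.1) * (u.1 - b.1) + (b.2 - a.2) * (u.2 - b.2)) := by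
        unfold D; simp only [m]; ring
      rw [e]
      have h1 := neg_abs_le ((b.1 - a.1) * (u.1 - b.1) + (b.2 - a.2) * (u.2 - b.2))
      have h2 : -(s * K) ≤ s * ((b.1 - a.1) * (u.1 - b.1) + (b.2 - a.2) * (u.2 - b.2)) := by
        have h3 : -K ≤ (b.1 - a.1) * (u.1 - b.1) + (b.2 - a.2) * (u.2 - b.2) := by
          rw [hK]
          have := abs_nonneg ((b.1 - a.1) * (u.1 - a.1) + (b.2 - a.2) * (u.2 - a.2))
          linarith
        nlinarith
      linarith
    · have e : D u a (m.1 - s * (b.2 - a.2), m.2 + s * (b.1 - a.1)) = D a b u / 2 -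
          s * ((b.1 - a.1) * (u.1 - a.1) + (b.2 - a.2) * (u.2 - a.2)) := by
        unfold D; simp only [m]; ring
      rw [e]
      have h1 := le_abs_self ((b.1 - a.1) * (u.1 - a.1) + (b.2 - a.2) * (u.2 - a.2))
      have h2 : s * ((b.1 - a.1) * (u.1 - a.1) + (b.2 - a.2) * (u.2 - a.2)) ≤ s * K := by
        have h3 : (b.1 - a.1) * (u.1 - a.1) + (b.2 - a.2) * (u.2 - a.2) ≤ K := by
          rw [hK]
          have := abs_nonneg ((b.1 - a.1) * (u.1 - b.1) + (b.2 - a.2) * (u.2 - b.2))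
          linarith
        exact mul_le_mul_of_nonneg_left h3 s0.le
      linarith
  obtain ⟨ε, e0, h1⟩ := near w h
  obtain ⟨ε', e0', h2⟩ := near w' h'
  have hs : 0 < min ε ε' / 2 := by positivity
  have hs1 : min ε ε' / 2 < ε := by linarith [min_le_left ε ε', lt_min e0 e0']
  have hs2 : min ε ε' / 2 < ε' := by linarith [min_le_right ε ε', lt_min e0 e0']
  exact ⟨_, h1 _ hs hs1, h2 _ hs hs2⟩

/-! ### The state -/

/-- The interior of a triangle given by labels. -/
def In (p : ℕ → ℝ × ℝ) (T : ℕ × ℕ × ℕ) (x : ℝ × ℝ) : Prop := In3 (p T.1) (p T.2.1) (p T.2.2) x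

/-- The pair `u, v` is an edge. -/
def Ed (E : List (ℕ × ℕ)) (u v : ℕ) : Prop := (u, v) ∈ E ∨ (v, u) ∈ E

theorem Ed.symm {E : List (ℕ × ℕ)} {u v : ℕ} (h : Ed E u v) : Ed E v u := Or.symm h

/-- The properties of the drawing of a triangulation: `E` is the list of the edges and `F` the list
of the faces. -/
structure Good (p : ℕ → ℝ × ℝ) (E : List (ℕ × ℕ)) (F : List (ℕ × ℕ × ℕ)) : Prop where
  pos : ∀ T ∈ F, 0 < D (p T.1) (p T.2.1) (p T.2.2)
  side : ∀ T ∈ F, Ed E T.1 T.2.1 ∧ Ed E T.2.1 T.2.2 ∧ Ed E T.2.2 T.1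
  nd : ∀ e ∈ E, p e.1 ≠ p e.2
  off : ∀ e ∈ E, ∀ T ∈ F, ∀ x ∈ segment ℝ (p e.1) (p e.2), ¬ In p T x
  dis : ∀ T ∈ F, ∀ T' ∈ F, T ≠ T' → ∀ x, In p T x → ¬ In p T' x
  cr : Planar E p

section

variable {p : ℕ → ℝ × ℝ} {E : List (ℕ × ℕ)} {F : List (ℕ × ℕ × ℕ)}

theorem Good.ndE (G : Good p E F) {u v : ℕ} (h : Ed E u v) : p u ≠ p v := by
  rcases h with h | h
  · exact G.nd _ h
  · exact (G.nd _ h).symm

theorem Good.offE (G : Good p E F) {u v : ℕ} (h : Ed E u v) {T : ℕ × ℕ × ℕ} (hT : T ∈ F)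
    {x : ℝ × ℝ} (hx : x ∈ segment ℝ (p u) (p v)) : ¬ In p T x := by
  rcases h with h | h
  · exact G.off _ h T hT x hx
  · exact G.off _ h T hT x (by rwa [segment_symm])

/-- The pairs are the same edge or the point is a common endpoint. -/
def Res (p : ℕ → ℝ × ℝ) (u v u' v' : ℕ) (x : ℝ × ℝ) : Prop :=
  (u = u' ∧ v = v') ∨ (u = v' ∧ v = u') ∨ ∃ w, (w = u ∨ w = v) ∧ (w = u' ∨ w = v') ∧ x = p w

theorem Res.swap1 {u v u' v' : ℕ} {x : ℝ × ℝ} (h : Res p u v u' v' x) : Res p v u u' v' x := by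
  rcases h with ⟨rfl, rfl⟩ | ⟨rfl, rfl⟩ | ⟨w, h1, h2, h3⟩
  · exact Or.inr (Or.inl ⟨rfl, rfl⟩)
  · exact Or.inl ⟨rfl, rfl⟩
  · exact Or.inr (Or.inr ⟨w, h1.symm, h2, h3⟩)

theorem Res.comm {u v u' v' : ℕ} {x : ℝ × ℝ} (h : Res p u v u' v' x) : Res p u' v' u v x := by
  rcases h with ⟨rfl, rfl⟩ | ⟨rfl, rfl⟩ | ⟨w, h1, h2, h3⟩
  · exact Or.inl ⟨rfl, rfl⟩
  · exact Or.inr (Or.inl ⟨rfl, rfl⟩)
  · exact Or.inr (Or.inr ⟨w, h2, h1, h3⟩)

theorem Res.swap2 {u v u' v' : ℕ} {x : ℝ × ℝ} (h : Res p u v u' v' x) : Res p u v v' u' x :=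
  h.comm.swap1.comm

theorem planar_iff : Planar E p ↔ ∀ e ∈ E, ∀ f ∈ E, ∀ x, x ∈ segment ℝ (p e.1) (p e.2) →
    x ∈ segment ℝ (p f.1) (p f.2) → Res p e.1 e.2 f.1 f.2 x := by
  unfold Planar Same Cross
  constructor
  · intro h e he f hf x h1 h2
    by_contra hcon
    unfold Res at hcon
    push Not at hcon
    obtain ⟨c1, c2, c3⟩ := hcon
    refine h e he f hf ?_ ⟨x, h1, h2, ?_⟩
    · rintro (h3 | h3)
      · exact c1 (by rw [h3]) (by rw [h3])
      · exact c2 (by rw [h3]) (by rw [h3])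
    · rintro ⟨w, w1, w2, w3⟩
      exact c3 w w1 w2 w3
  · rintro h e he f hf h1 ⟨x, hx1, hx2, hx3⟩
    rcases h e he f hf x hx1 hx2 with ⟨h2, h3⟩ | ⟨h2, h3⟩ | ⟨w, w1, w2, w3⟩
    · exact h1 (Or.inl (Prod.ext h2 h3))
    · exact h1 (Or.inr (Prod.ext h2 h3))
    · exact hx3 ⟨w, w1, w2, w3⟩

theorem Good.crE (G : Good p E F) {u v u' v' : ℕ} (h : Ed E u v) (h' : Ed E u' v') {x : ℝ × ℝ}
    (hx : x ∈ segment ℝ (p u) (p v)) (hx' : x ∈ segment ℝ (p u') (p v')) :
    Res p u v u' v' x := by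
  have hc := planar_iff.1 G.cr
  rcases h with h | h <;> rcases h' with h' | h'
  · exact hc _ h _ h' x hx hx'
  · exact (hc _ h _ h' x hx (by rwa [segment_symm])).swap2
  · exact (hc _ h _ h' x (by rwa [segment_symm]) hx').swap1
  · exact (hc _ h _ h' x (by rwa [segment_symm]) (by rwa [segment_symm])).swap1.swap2

/-- A vertex on an edge is an endpoint of the edge. -/
theorem Good.vtx (G : Good p E F) {a b u v : ℕ} (hab : Ed E a b) (h : Ed E u v)
    (hx : p a ∈ segment ℝ (p u) (p v)) : a = u ∨ a = v := by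
  rcases G.crE hab h (left_mem_segment ℝ (p a) (p b)) hx with ⟨rfl, rfl⟩ | ⟨rfl, rfl⟩ |
    ⟨w, w1, w2, w3⟩
  · exact Or.inl rfl
  · exact Or.inr rfl
  · rcases w1 with rfl | rfl
    · exact w2
    · exact absurd w3 (G.ndE hab)

/-- The drawing is a straight-line drawing. -/
theorem Good.inj (G : Good p E F) {a b u v : ℕ} (hab : Ed E a b) (h : Ed E u v)
    (hx : p a = p u) : a = u := by
  rcases G.vtx hab h (hx ▸ left_mem_segment ℝ (p u) (p v)) with h1 | rfl
  · exact h1
  · exact absurd hx (G.ndE h.symm)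

theorem Good.not_in (G : Good p E F) {a b : ℕ} (hab : Ed E a b) {T : ℕ × ℕ × ℕ} (hT : T ∈ F) :
    ¬ In p T (p a) := G.offE hab hT (left_mem_segment ℝ (p a) (p b))

end

/-! ### Insertions -/

section

variable {p : ℕ → ℝ × ℝ} {E : List (ℕ × ℕ)} {F : List (ℕ × ℕ × ℕ)}

/-- Insertion of a vertex in a face. -/
theorem Good.ins (G : Good p E F) {a b c v : ℕ} (hT : (a, b, c) ∈ F)
    (h1 : 0 < D (p a) (p b) (p v)) (h2 : 0 < D (p b) (p c) (p v)) (h3 : 0 < D (p c) (p a) (p v)) :
    Good p ((a, v) :: (b, v) :: (c, v) :: E)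
      ((a, b, v) :: (b, c, v) :: (c, a, v) :: F.filter fun T => T ≠ (a, b, c)) := by
  have hv : In3 (p a) (p b) (p c) (p v) := ⟨h1, h2, h3⟩
  have hs := G.side _ hT
  have hpos : 0 < D (p a) (p b) (p c) := G.pos _ hT
  obtain ⟨s1, s2, s3⟩ := hs
  -- the three corners are treated in the same way
  have ncr : ∀ w, w = a ∨ w = b ∨ w = c → ∀ u u', Ed E u u' → ∀ x, x ∈ segment ℝ (p w) (p v) →
      x ∈ segment ℝ (p u) (p u') → Res p w v u u' x := by
    intro w hw u u' he x hx hx'
    have key : x = p w ∨ In3 (p a) (p b) (p c) x := by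
      rcases hw with rfl | rfl | rfl
      · exact hv.seg hx
      · rcases hv.rot.seg hx with h | h
        · exact Or.inl h
        · exact Or.inr h.rot.rot
      · rcases hv.rot.rot.seg hx with h | h
        · exact Or.inl h
        · exact Or.inr h.rot
    rcases key with rfl | h
    · refine Or.inr (Or.inr ⟨w, Or.inl rfl, ?_, rfl⟩)
      rcases hw with rfl | rfl | rfl
      · exact G.vtx s1 he hx'
      · exact G.vtx s2 he hx'
      · exact G.vtx s3 he hx'
    · exact absurd h (G.offE he hT hx')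
  have noff : ∀ w, w = a ∨ w = b ∨ w = c → ∀ T ∈ F, (a, b, c) ≠ T → ∀ x,
      x ∈ segment ℝ (p w) (p v) → ¬ In p T x := by
    intro w hw T hTF hne x hx
    have key : x = p w ∨ In3 (p a) (p b) (p c) x := by
      rcases hw with rfl | rfl | rfl
      · exact hv.seg hx
      · rcases hv.rot.seg hx with h | h
        · exact Or.inl h
        · exact Or.inr h.rot.rot
      · rcases hv.rot.rot.seg hx with h | h
        · exact Or.inl h
        · exact Or.inr h.rot
    rcases key with rfl | h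
    · rcases hw with rfl | rfl | rfl
      · exact G.not_in s1 hTF
      · exact G.not_in s2 hTF
      · exact G.not_in s3 hTF
    · exact G.dis _ hT _ hTF hne x h
  have hsub : ∀ T, T = (a, b, v) ∨ T = (b, c, v) ∨ T = (c, a, v) → ∀ x, In p T x →
      In3 (p a) (p b) (p c) x := by
    intro T hT' x hx
    rcases hT' with rfl | rfl | rfl
    · exact hv.sub hx
    · exact (hv.rot.sub hx).rot.rot
    · exact (hv.rot.rot.sub hx).rot
  have hmem : ∀ T, T ∈ (a, b, v) :: (b, c, v) :: (c, a, v) :: F.filter (fun T => T ≠ (a, b, c)) →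
      (T = (a, b, v) ∨ T = (b, c, v) ∨ T = (c, a, v)) ∨ (T ∈ F ∧ (a, b, c) ≠ T) := by
    intro T h
    simp only [List.mem_cons, List.mem_filter, decide_eq_true_eq] at h
    rcases h with h | h | h | h
    · exact Or.inl (Or.inl h)
    · exact Or.inl (Or.inr (Or.inl h))
    · exact Or.inl (Or.inr (Or.inr h))
    · exact Or.inr ⟨h.1, fun h' => h.2 h'.symm⟩
  have hmemE : ∀ e, e ∈ (a, v) :: (b, v) :: (c, v) :: E →
      (∃ w, (w = a ∨ w = b ∨ w = c) ∧ e = (w, v)) ∨ e ∈ E := by
    intro e h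
    simp only [List.mem_cons] at h
    rcases h with h | h | h | h
    · exact Or.inl ⟨a, Or.inl rfl, h⟩
    · exact Or.inl ⟨b, Or.inr (Or.inl rfl), h⟩
    · exact Or.inl ⟨c, Or.inr (Or.inr rfl), h⟩
    · exact Or.inr h
  have edE : ∀ {u w}, Ed E u w → Ed ((a, v) :: (b, v) :: (c, v) :: E) u w := by
    rintro u w (h | h)
    · exact Or.inl (by simp [h])
    · exact Or.inr (by simp [h])
  refine ⟨?_, ?_, ?_, ?_, ?_, ?_⟩
  · intro T h
    rcases hmem T h with (rfl | rfl | rfl) | ⟨h, -⟩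
    · exact h1
    · exact h2
    · exact h3
    · exact G.pos _ h
  · intro T h
    have ea : Ed ((a, v) :: (b, v) :: (c, v) :: E) a v := Or.inl (by simp)
    have eb : Ed ((a, v) :: (b, v) :: (c, v) :: E) b v := Or.inl (by simp)
    have ec : Ed ((a, v) :: (b, v) :: (c, v) :: E) c v := Or.inl (by simp)
    rcases hmem T h with (rfl | rfl | rfl) | ⟨h, -⟩
    · exact ⟨edE s1, eb, ea.symm⟩
    · exact ⟨edE s2, ec, eb.symm⟩
    · exact ⟨edE s3, ea, ec.symm⟩
    · have := G.side _ h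
      exact ⟨edE this.1, edE this.2.1, edE this.2.2⟩
  · intro e h
    rcases hmemE e h with ⟨w, hw, rfl⟩ | h
    · intro h0
      have h0' : p w = p v := h0
      rcases hw with rfl | rfl | rfl
      · rw [← h0', D_left] at h1; exact lt_irrefl _ h1
      · rw [← h0', D_left] at h2; exact lt_irrefl _ h2
      · rw [← h0', D_left] at h3; exact lt_irrefl _ h3
    · exact G.nd _ h
  · -- edges and faces
    intro e h T h' x hx hI
    rcases hmemE e h with ⟨w, hw, rfl⟩ | h <;> rcases hmem T h' with hT' | ⟨h', hne⟩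
    · -- new, new
      rcases hw with rfl | rfl | rfl
      · rcases hT' with rfl | rfl | rfl
        · have := hI.2.2; rw [D_of_seg' hx] at this; exact lt_irrefl _ this
        · exact hv.seg_opp hx hI
        · have := hI.2.1; rw [D_of_seg hx] at this; exact lt_irrefl _ this
      · rcases hT' with rfl | rfl | rfl
        · have := hI.2.1; rw [D_of_seg hx] at this; exact lt_irrefl _ this
        · have := hI.2.2; rw [D_of_seg' hx] at this; exact lt_irrefl _ this
        · exact hv.rot.seg_opp hx hI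
      · rcases hT' with rfl | rfl | rfl
        · exact hv.rot.rot.seg_opp hx hI
        · have := hI.2.1; rw [D_of_seg hx] at this; exact lt_irrefl _ this
        · have := hI.2.2; rw [D_of_seg' hx] at this; exact lt_irrefl _ this
    · exact noff w hw T h' hne x hx hI
    · exact G.off e h _ hT x hx (hsub T hT' x hI)
    · exact G.off e h _ h' x hx hI
  · -- faces
    intro T h T' h' hne x hI hI'
    rcases hmem T h with hT1 | ⟨h, hne1⟩ <;> rcases hmem T' h' with hT2 | ⟨h', hne2⟩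
    · have opp : ∀ w, 0 < D (p w) (p v) x → 0 < D (p v) (p w) x → False := by
        intro w g1 g2
        rw [D_swap12] at g2
        linarith
      rcases hT1 with rfl | rfl | rfl <;> rcases hT2 with rfl | rfl | rfl
      · exact hne rfl
      · exact opp b hI.2.1 hI'.2.2
      · exact opp a hI'.2.1 hI.2.2
      · exact opp b hI'.2.1 hI.2.2
      · exact hne rfl
      · exact opp c hI.2.1 hI'.2.2
      · exact opp a hI.2.1 hI'.2.2
      · exact opp c hI'.2.1 hI.2.2
      · exact hne rfl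
    · exact G.dis _ hT _ h' hne2 x (hsub T hT1 x hI) hI'
    · exact G.dis _ hT _ h hne1 x (hsub T' hT2 x hI') hI
    · exact G.dis _ h _ h' hne x hI hI'
  · rw [planar_iff]
    intro e h f h' x hx hx'
    rcases hmemE e h with ⟨w, hw, rfl⟩ | h <;> rcases hmemE f h' with ⟨w', hw', rfl⟩ | h'
    · -- two new edges
      by_cases hww : w = w'
      · exact Or.inl ⟨hww, rfl⟩
      · refine Or.inr (Or.inr ⟨v, Or.inr rfl, Or.inr rfl, ?_⟩)
        have hne : D (p w) (p w') (p v) ≠ 0 := by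
          rcases hw with rfl | rfl | rfl <;> rcases hw' with rfl | rfl | rfl
          · exact absurd rfl hww
          · exact h1.ne'
          · rw [D_swap12]; exact neg_ne_zero.2 h3.ne'
          · rw [D_swap12]; exact neg_ne_zero.2 h1.ne'
          · exact absurd rfl hww
          · exact h2.ne'
          · exact h3.ne'
          · rw [D_swap12]; exact neg_ne_zero.2 h2.ne'
          · exact absurd rfl hww
        exact eq_of_two hne (D_of_seg hx) (D_of_seg hx')
    · exact ncr w hw _ _ (Or.inl h') x hx hx'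
    · exact (ncr w' hw' _ _ (Or.inl h) x hx' hx).comm
    · exact planar_iff.1 G.cr _ h _ h' x hx hx'

/-! ### Flips -/

/-- The interior of the quadrilateral `x y c z`. -/
def Quad (x y c z q : ℝ × ℝ) : Prop := 0 < D x y q ∧ 0 < D y c q ∧ 0 < D c z q ∧ 0 < D z x q

theorem Quad.cases {x y c z q : ℝ × ℝ} (hz : 0 < D x c z)
    (h : Quad x y c z q) : In3 c x y q ∨ In3 x c z q ∨ (q ∈ segment ℝ x c ∧ q ≠ x ∧ q ≠ c) := by
  obtain ⟨h1, h2, h3, h4⟩ := h
  rcases lt_trichotomy (D c x q) 0 with h5 | h5 | h5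
  · right; left
    exact ⟨by rw [D_swap12]; linarith, h3, h4⟩
  · right; right
    refine ⟨mem_seg_of hz (by rw [D_swap12, h5, neg_zero]) h3.le h4.le, ?_, ?_⟩
    · rintro rfl; rw [D_right] at h4; exact lt_irrefl _ h4
    · rintro rfl; rw [D_left] at h3; exact lt_irrefl _ h3
  · left
    exact ⟨h5, h1, h2⟩

theorem quad_of1 {x y c z q : ℝ × ℝ} (hy : 0 < D c x y) (hz : 0 < D x c z) (f1 : 0 < D x y z)
    (f2 : 0 < D y c z) (h : In3 x y z q) : Quad x y c z q := by
  obtain ⟨h1, h2, h3⟩ := h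
  refine ⟨h1, ?_, ?_, h3⟩
  · have e := bary x y z y c q
    rw [D_left, show D y c x = D c x y from by unfold D; ring] at e
    have e2 : 0 < D x y z * D y c q := by
      rw [e]
      have := mul_pos h2 hy
      have := mul_pos h1 f2
      linarith
    exact (pos_iff_pos_of_mul_pos e2).1 f1
  · have e := bary x y z c z q
    rw [D_right, show D c z x = D x c z from by unfold D; ring,
      show D c z y = D y c z from by unfold D; ring] at e
    have e2 : 0 < D x y z * D c z q := by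
      rw [e]
      have := mul_pos h2 hz
      have := mul_pos h3 f2
      linarith
    exact (pos_iff_pos_of_mul_pos e2).1 f1

theorem quad_of2 {x y c z q : ℝ × ℝ} (hy : 0 < D c x y) (hz : 0 < D x c z) (f1 : 0 < D x y z)
    (f2 : 0 < D y c z) (h : In3 y c z q) : Quad x y c z q := by
  have h' := quad_of1 (x := c) (y := z) (c := x) (z := y) hz hy
    (by rw [show D c z y = D y c z from by unfold D; ring]; exact f2)
    (by rw [show D z x y = D x y z from by unfold D; ring]; exact f1) h.rot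
  exact ⟨h'.2.2.1, h'.2.2.2, h'.1, h'.2.1⟩

theorem quad_of3 {x y c z q : ℝ × ℝ} (f1 : 0 < D x y z)
    (f2 : 0 < D y c z) (h : q ∈ segment ℝ y z) : q = y ∨ q = z ∨ Quad x y c z q := by
  obtain ⟨t, t0, t1, e1, e2⟩ := mem_seg.1 h
  have hx' : q = pt t y z := Prod.ext e1 e2
  rcases eq_or_lt_of_le t0 with rfl | t0
  · left; rw [hx']; unfold pt; ext <;> simp
  rcases eq_or_lt_of_le t1 with rfl | t1
  · right; left; rw [hx']; unfold pt; ext <;> simp
  right; right
  have s0 : 0 < 1 - t := by linarith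
  rw [hx']
  refine ⟨?_, ?_, ?_, ?_⟩
  · rw [D_pt, D_right]; have := mul_pos t0 f1; linarith
  · rw [D_pt, D_left]; have := mul_pos t0 f2; linarith
  · rw [D_pt, D_right, show D c z y = D y c z from by unfold D; ring]
    have := mul_pos s0 f2; linarith
  · rw [D_pt, D_left, show D z x y = D x y z from by unfold D; ring]
    have := mul_pos s0 f1; linarith

/-- Flip of an edge. -/
theorem Good.flip (G : Good p E F) {c x y z : ℕ} (hT1 : (c, x, y) ∈ F) (hT2 : (x, c, z) ∈ F)
    (f1 : 0 < D (p x) (p y) (p z)) (f2 : 0 < D (p y) (p c) (p z)) :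
    Good p ((y, z) :: E.filter fun e => e ≠ (x, c) ∧ e ≠ (c, x))
      ((x, y, z) :: (y, c, z) :: F.filter fun T => T ≠ (c, x, y) ∧ T ≠ (x, c, z)) := by
  have hy : 0 < D (p c) (p x) (p y) := G.pos _ hT1
  have hz : 0 < D (p x) (p c) (p z) := G.pos _ hT2
  obtain ⟨s1, s2, s3⟩ : Ed E c x ∧ Ed E x y ∧ Ed E y c := G.side _ hT1
  obtain ⟨-, t2, t3⟩ : Ed E x c ∧ Ed E c z ∧ Ed E z x := G.side _ hT2
  have nxc : p x ≠ p c := G.ndE s1.symm
  have nyx : p y ≠ p x := G.ndE s2.symm
  have nyc : p y ≠ p c := G.ndE s3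
  have nzx : p z ≠ p x := G.ndE t3
  have nzc : p z ≠ p c := G.ndE t2.symm
  -- the quadrilateral
  have qoff : ∀ q, Quad (p x) (p y) (p c) (p z) q → ∀ T ∈ F, T ≠ (c, x, y) → T ≠ (x, c, z) →
      ¬ In p T q := by
    intro q hq T hT g1 g2 hI
    rcases hq.cases hz with h | h | ⟨h, -, -⟩
    · exact G.dis _ hT _ hT1 g1 q hI h
    · exact G.dis _ hT _ hT2 g2 q hI h
    · exact G.offE s1.symm hT h hI
  have qe : ∀ q, Quad (p x) (p y) (p c) (p z) q → ∀ e ∈ E, e ≠ (x, c) → e ≠ (c, x) →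
      q ∉ segment ℝ (p e.1) (p e.2) := by
    intro q hq e he g1 g2 hs
    rcases hq.cases hz with h | h | ⟨h, k1, k2⟩
    · exact G.off e he _ hT1 q hs h
    · exact G.off e he _ hT2 q hs h
    · rcases G.crE (u := e.1) (v := e.2) (Or.inl he) s1.symm hs h with ⟨r1, r2⟩ | ⟨r1, r2⟩ |
        ⟨w, w1, w2, w3⟩
      · exact g1 (Prod.ext r1 r2)
      · exact g2 (Prod.ext r1 r2)
      · rcases w2 with rfl | rfl
        · exact k1 w3
        · exact k2 w3
  have hmem : ∀ T, T ∈ (x, y, z) :: (y, c, z) :: F.filter (fun T => T ≠ (c, x, y) ∧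
      T ≠ (x, c, z)) → (T = (x, y, z) ∨ T = (y, c, z)) ∨ (T ∈ F ∧ T ≠ (c, x, y) ∧
      T ≠ (x, c, z)) := by
    intro T h
    simp only [List.mem_cons, List.mem_filter, decide_eq_true_eq] at h
    rcases h with h | h | h
    · exact Or.inl (Or.inl h)
    · exact Or.inl (Or.inr h)
    · exact Or.inr h
  have hquad : ∀ T, T = (x, y, z) ∨ T = (y, c, z) → ∀ q, In p T q →
      Quad (p x) (p y) (p c) (p z) q := by
    rintro T (rfl | rfl) q hq
    · exact quad_of1 hy hz f1 f2 hq
    · exact quad_of2 hy hz f1 f2 hq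
  have hmemE : ∀ e, e ∈ (y, z) :: E.filter (fun e => e ≠ (x, c) ∧ e ≠ (c, x)) →
      e = (y, z) ∨ (e ∈ E ∧ e ≠ (x, c) ∧ e ≠ (c, x)) := by
    intro e h
    simpa only [List.mem_cons, List.mem_filter, decide_eq_true_eq] using h
  -- edges other than `xc` survive
  have lab : ∀ {u v : ℕ}, Ed E u v → ¬ (u = x ∧ v = c) → ¬ (u = c ∧ v = x) →
      Ed ((y, z) :: E.filter fun e => e ≠ (x, c) ∧ e ≠ (c, x)) u v := by
    intro u v h g1 g2
    rcases h with h | h
    · left
      simp only [List.mem_cons, List.mem_filter, decide_eq_true_eq]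
      refine Or.inr ⟨h, ?_, ?_⟩
      · rintro h3; exact g1 ⟨congrArg Prod.fst h3, congrArg Prod.snd h3⟩
      · rintro h3; exact g2 ⟨congrArg Prod.fst h3, congrArg Prod.snd h3⟩
    · right
      simp only [List.mem_cons, List.mem_filter, decide_eq_true_eq]
      refine Or.inr ⟨h, ?_, ?_⟩
      · rintro h3; exact g2 ⟨congrArg Prod.snd h3, congrArg Prod.fst h3⟩
      · rintro h3; exact g1 ⟨congrArg Prod.snd h3, congrArg Prod.fst h3⟩
  have pne : ∀ {u v : ℕ}, p u ≠ p v → u ≠ v := fun h h' => h (congrArg p h')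
  -- faces other than the two do not have the side `xc`
  have hside : ∀ T ∈ F, T ≠ (c, x, y) → T ≠ (x, c, z) → ∀ u v w : ℕ, (T = (u, v, w) ∨
      T = (w, u, v) ∨ T = (v, w, u)) → ¬ (u = x ∧ v = c) ∧ ¬ (u = c ∧ v = x) := by
    -- a face with the side `xc` would overlap one of the two faces
    have key : ∀ T ∈ F, ∀ T' ∈ F, T ≠ T' → ∀ a b w w' : ℕ, (T = (a, b, w) ∨ T = (w, a, b) ∨
        T = (b, w, a)) → (T' = (a, b, w') ∨ T' = (w', a, b) ∨ T' = (b, w', a)) → False := by
      intro T hT T' hT' hne a b w w' h1 h2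
      have i1 : ∀ q, In3 (p a) (p b) (p w) q → In p T q := by
        rintro q hq
        rcases h1 with rfl | rfl | rfl
        · exact hq
        · exact hq.rot.rot
        · exact hq.rot
      have i2 : ∀ q, In3 (p a) (p b) (p w') q → In p T' q := by
        rintro q hq
        rcases h2 with rfl | rfl | rfl
        · exact hq
        · exact hq.rot.rot
        · exact hq.rot
      have d1 : 0 < D (p a) (p b) (p w) := by
        have := G.pos _ hT
        rcases h1 with rfl | rfl | rfl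
        · exact this
        · simp only at this; linarith [D_rot' (p a) (p b) (p w)]
        · simp only at this; linarith [D_rot (p a) (p b) (p w)]
      have d2 : 0 < D (p a) (p b) (p w') := by
        have := G.pos _ hT'
        rcases h2 with rfl | rfl | rfl
        · exact this
        · simp only at this; linarith [D_rot' (p a) (p b) (p w')]
        · simp only at this; linarith [D_rot (p a) (p b) (p w')]
      obtain ⟨q, q1, q2⟩ := overlap d1 d2
      exact G.dis T hT T' hT' hne q (i1 q q1) (i2 q q2)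
    intro T hT g1 g2 u v w hTu
    constructor
    · rintro ⟨rfl, rfl⟩
      exact key T hT _ hT2 g2 u v w z hTu (Or.inl rfl)
    · rintro ⟨rfl, rfl⟩
      exact key T hT _ hT1 g1 u v w y hTu (Or.inl rfl)
  refine ⟨?_, ?_, ?_, ?_, ?_, ?_⟩
  · intro T h
    rcases hmem T h with (rfl | rfl) | ⟨h, -⟩
    · exact f1
    · exact f2
    · exact G.pos _ h
  · intro T h
    have eyz : Ed ((y, z) :: E.filter fun e => e ≠ (x, c) ∧ e ≠ (c, x)) y z := Or.inl (by simp)
    rcases hmem T h with (rfl | rfl) | ⟨h, g1, g2⟩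
    · exact ⟨lab s2 (fun h => pne nyc h.2) (fun h => pne nxc h.1), eyz,
        lab t3 (fun h => pne nzx h.1) (fun h => pne nzc h.1)⟩
    · exact ⟨lab s3 (fun h => pne nyx h.1) (fun h => pne nyc h.1),
        lab t2 (fun h => pne nxc h.1.symm) (fun h => pne nzx h.2), eyz.symm⟩
    · obtain ⟨k1, k2, k3⟩ := G.side _ h
      obtain ⟨T1, T2, T3⟩ := T
      refine ⟨lab k1 ?_ ?_, lab k2 ?_ ?_, lab k3 ?_ ?_⟩
      · exact (hside _ h g1 g2 T1 T2 T3 (Or.inl rfl)).1
      · exact (hside _ h g1 g2 T1 T2 T3 (Or.inl rfl)).2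
      · exact (hside _ h g1 g2 T2 T3 T1 (Or.inr (Or.inl rfl))).1
      · exact (hside _ h g1 g2 T2 T3 T1 (Or.inr (Or.inl rfl))).2
      · exact (hside _ h g1 g2 T3 T1 T2 (Or.inr (Or.inr rfl))).1
      · exact (hside _ h g1 g2 T3 T1 T2 (Or.inr (Or.inr rfl))).2
  · intro e h
    rcases hmemE e h with rfl | ⟨h, -⟩
    · intro h0
      have h0' : p y = p z := h0
      rw [h0', D_right] at f1
      exact lt_irrefl _ f1
    · exact G.nd _ h
  · intro e h T h' q hq hI
    rcases hmemE e h with rfl | ⟨h, g1, g2⟩ <;> rcases hmem T h' with hT' | ⟨h', k1, k2⟩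
    · rcases hT' with rfl | rfl
      · have := hI.2.1; rw [D_of_seg hq] at this; exact lt_irrefl _ this
      · have := hI.2.2; rw [D_of_seg' hq] at this; exact lt_irrefl _ this
    · rcases quad_of3 (x := p x) (c := p c) f1 f2 hq with rfl | rfl | h3
      · exact G.not_in s3 h' hI
      · exact G.not_in t3 h' hI
      · exact qoff q h3 T h' k1 k2 hI
    · exact qe q (hquad T hT' q hI) e h g1 g2 hq
    · exact G.off e h T h' q hq hI
  · intro T h T' h' hne q hI hI'
    rcases hmem T h with hT | ⟨h, k1, k2⟩ <;> rcases hmem T' h' with hT' | ⟨h', l1, l2⟩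
    · have opp : 0 < D (p y) (p z) q → 0 < D (p z) (p y) q → False := by
        intro g1 g2
        rw [D_swap12] at g2
        linarith
      rcases hT with rfl | rfl <;> rcases hT' with rfl | rfl
      · exact hne rfl
      · exact opp hI.2.1 hI'.2.2
      · exact opp hI'.2.1 hI.2.2
      · exact hne rfl
    · exact qoff q (hquad T hT q hI) T' h' l1 l2 hI'
    · exact qoff q (hquad T' hT' q hI') T h k1 k2 hI
    · exact G.dis T h T' h' hne q hI hI'
  · rw [planar_iff]
    have key : ∀ e ∈ E, e ≠ (x, c) → e ≠ (c, x) → ∀ q, q ∈ segment ℝ (p y) (p z) →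
        q ∈ segment ℝ (p e.1) (p e.2) → Res p y z e.1 e.2 q := by
      intro e he g1 g2 q hq hq'
      rcases quad_of3 (x := p x) (c := p c) f1 f2 hq with rfl | rfl | h3
      · exact Or.inr (Or.inr ⟨y, Or.inl rfl, G.vtx s3 (Or.inl he) hq', rfl⟩)
      · exact Or.inr (Or.inr ⟨z, Or.inr rfl, G.vtx t3 (Or.inl he) hq', rfl⟩)
      · exact absurd hq' (qe q h3 e he g1 g2)
    intro e h f h' q hq hq'
    rcases hmemE e h with rfl | ⟨h, g1, g2⟩ <;> rcases hmemE f h' with rfl | ⟨h', k1, k2⟩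
    · exact Or.inl ⟨rfl, rfl⟩
    · exact key f h' k1 k2 q hq hq'
    · exact (key e h g1 g2 q hq' hq).comm
    · exact planar_iff.1 G.cr _ h _ h' q hq hq'

end

end Pool.Agent.NPC.ER.SGE
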